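import Pool.Agent.H76.MQ.Gg
import Pool.Agent.H76.PP.Te
import Pool.Agent.H76.PP.Tf
import Pool.Agent.H36.MT.Tc

/-!
ROW Tk (project MP_78d38b_MQT, about 200 lines): the Kummer image at a place of `T` of a twist by `E` of odd order.

Put `y = ev (E θ) d`. `Tf_twist` (H76/PP/Tf.lean): `Cub K L (E^2 A) (E^3 B) (E θ)`. `LC_approx` (H76/PP/Te.lean) for it: `x, y₀ : K`, `z : L` with `v.valuation ((x^3 + E^2 A x + E^3 B) / y₀^2 - 1) < 1` and
`w.valuation (y (x - E θ) / z^2 - 1) < 1` for `w | v`. Put `x' = x / E`: `x - E θ = E (x' - θ)`, `x^3 + E^2 A x + E^3 B = E^3 f(x')`. So at `w | v` (`tp_near_sq`-type lemmas of H54/MT/La.lean, `Tg_rel`, `Tg_la` of H76/PP/Tg.lean):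
`eo_w y = eo_w (E (x' - θ))`, `la_w y = la_w (E (x' - θ))` (additivity `H38T1.eo_add`, `H38T1.la_add`), and `sc (E^3 f(x'))` has `eo_v = 0 = la_v`; as `eo_v E = 1`, `f(x')` has odd order at `v`.
(a) `v.valuation x' > 1`: `ord_sub_big` (H76/PP/Tc.lean): `f(x') / x'^3 ≡ 1`, `x' - θ = x' (1 - θ/x')`, `1 - θ/x' ≡ 1` at `w`. So `E (x' - θ) ~ E x'` and `(E x')^3 ~ E^3 f(x')` has `eo = la = 0`, so `E x'` has `eo_v = la_v = 0`; hence
`eo_{w₂} y = eo_{w₂}(E x') = 0` (ord2) and `la_{w₁} y = la_{w₁}(E x') = 0` (gg_la1).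
(b) `x'` integral: by unit2 `w₂.valuation (x' - θ) = 1`, so `eo_{w₂} y = eo_{w₂} E = 1`. `v.valuation f(x') < 1` (odd order, integral). `(x' - θ) * cof = f(x')`, `cof = θ^2 + x' θ + x'^2 + A` (`H54PR.sub_mul_quad`).
Some place above `v` has `w.valuation (x' - θ) < 1`: it is not `w₂`, so it is `w₁` (from `N (x' - θ) = f(x')`, or `H36MT.ord_subL`); at `w₁`: `cof ≡ 3 θ^2 + A`, a unit by der, so `la_{w₁} cof = la_{w₁}(3θ^2 + A)`, `eo_{w₁} cof = 0`.
`E (x' - θ) = E f(x') / cof`, and `E f(x') ~ E^3 f(x')` has `eo_v = la_v = 0`; so `la_{w₁} y = la_{w₁} cof = la_{w₁}(3θ^2 + A)` (gg_la1).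
-/

set_option autoImplicit false
set_option linter.unusedSectionVars false
open scoped Classical

open WithZero NumberField IsDedekindDomain H38RT
open H38T1 (SC sc scu rep eo la si Pri OddP tp unif ka)
open H76PP

namespace H76MQ

open H54MT

variable {K L : Type} [Field K] [NumberField K] [Field L] [NumberField L] [Algebra K L]

theorem Tk_near {F : Type} [Field F] [NumberField F] {v : HeightOneSpectrum (𝓞 F)} (hv : OddP v)
    {a : F} (h : v.valuation F (a - 1) < 1) : eo v (sc a) = 0 ∧ la v (sc a) = 0 := by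
  have h1 := near_one h
  have ha : a ≠ 0 := by
    rintro rfl
    rw [map_zero] at h1
    exact zero_ne_one h1
  refine ⟨?_, ?_⟩
  · rw [H38T1.eo_sc ha]
    unfold ord
    rw [h1, log_one, neg_zero, Int.cast_zero]
  · rw [H38T1.la_sc hv ha, lam_unit h1]
    refine if_pos ⟨1, ?_⟩
    rwa [one_pow]

theorem Tk_near_sq {F : Type} [Field F] [NumberField F] {v : HeightOneSpectrum (𝓞 F)} (hv : OddP v)
    {a z : F} (ha : a ≠ 0) (hz : z ≠ 0) (h : v.valuation F (a / z ^ 2 - 1) < 1) :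
    eo v (sc a) = 0 ∧ la v (sc a) = 0 := by
  have h1 : sc a = sc (a / z ^ 2) := by
    have h2 := H38T1.sc_mul (div_ne_zero ha (pow_ne_zero 2 hz)) (pow_ne_zero 2 hz)
    rw [div_mul_cancel₀ _ (pow_ne_zero 2 hz), sc_sq hz, add_zero] at h2
    exact h2
  rw [h1]
  exact Tk_near hv h

/-- Multiplication by an element close to one does not change the local class. -/
theorem Tk_mul {F : Type} [Field F] [NumberField F] {v : HeightOneSpectrum (𝓞 F)} (hv : OddP v)
    {a b : F} (ha : a ≠ 0) (hb : b ≠ 0) (h : v.valuation F (a / b - 1) < 1) :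
    eo v (sc a) = eo v (sc b) ∧ la v (sc a) = la v (sc b) := by
  obtain ⟨h1, h2⟩ := Tk_near hv h
  have h3 : (sc a : SC F) = sc (a / b) + sc b := by
    rw [← H38T1.sc_mul (div_ne_zero ha hb) hb, div_mul_cancel₀ _ hb]
  rw [h3, H38T1.eo_add, H38T1.la_add hv, h1, h2, zero_add, zero_add]
  exact ⟨rfl, rfl⟩

theorem kum_T {A B : 𝓞 K} {θ : L} (h : Cub K L (A : K) (B : K) θ) (hR : HR2 K L A B θ)
    {v : HeightOneSpectrum (𝓞 K)} (hv : OddP v) (hd : dsc A B ∉ v.asIdeal ^ 2)
    {w₁ w₂ : HeightOneSpectrum (𝓞 L)} (h2 : TwT K (A : K) θ v w₁ w₂) {E : 𝓞 K} (hE : E ≠ 0)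
    (hEo : eo v (sc (E : K)) = 1) {d : Fin 3 → K} (hd0 : ev (algebraMap K L E * θ) d ≠ 0)
    (hN : IsSquare (Algebra.norm K (ev (algebraMap K L E * θ) d)))
    (hLC : LC (algebraMap K (v.adicCompletion K)) ((E : K) ^ 2 * A) ((E : K) ^ 3 * B) d) :
    la w₁ (sc (ev (algebraMap K L E * θ) d)) =
      la w₁ (sc (3 * θ ^ 2 + algebraMap K L A)) * eo w₂ (sc (ev (algebraMap K L E * θ) d)) := by
  have hE' : (E : K) ≠ 0 := by
    intro h0
    apply hE
    exact RingOfIntegers.ext h0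
  have hEL : algebraMap K L (E : K) ≠ 0 := (map_ne_zero _).2 hE'
  obtain ⟨x', y, z, hy, hz, h1, hw⟩ := LC_approx (Tf_twist h hE') hd0 v hLC
  obtain ⟨δ, hδ⟩ : ∃ δ, δ = ev (algebraMap K L (E : K) * θ) d := ⟨_, rfl⟩
  rw [← hδ] at hd0 hw ⊢
  obtain ⟨x, hx'⟩ : ∃ x, x' = (E : K) * x := ⟨x' / E, by rw [mul_div_cancel₀ _ hE']⟩
  rw [hx'] at h1 hw
  have e1 : ((E : K) * x) ^ 3 + (E : K) ^ 2 * (A : K) * ((E : K) * x) + (E : K) ^ 3 * (B : K) =
      (E : K) ^ 3 * (x ^ 3 + (A : K) * x + (B : K)) := by ring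
  rw [e1] at h1
  have e2 : δ * (algebraMap K L ((E : K) * x) - algebraMap K L (E : K) * θ) =
      δ * (algebraMap K L (E : K) * (algebraMap K L x - θ)) := by
    rw [map_mul]
    ring
  rw [e2] at hw
  have hodd1 : OddP w₁ := by
    rw [oddP_dn (K := K), h2.dn1]
    exact hv
  have hodd2 : OddP w₂ := by
    rw [oddP_dn (K := K), h2.dn2]
    exact hv
  have hf0 : x ^ 3 + (A : K) * x + (B : K) ≠ 0 := H54PR.ff_ne h x
  have hxt : algebraMap K L x - θ ≠ 0 := H54PR.sub_ne h x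
  have hq := H54PR.sub_mul_quad h.root x
  have hffe : H54PR.ff (A : K) (B : K) x = x ^ 3 + (A : K) * x + (B : K) := rfl
  rw [hffe] at hq
  obtain ⟨f, hf⟩ : ∃ f, f = x ^ 3 + (A : K) * x + (B : K) := ⟨_, rfl⟩
  rw [← hf] at h1 hf0 hq
  have hE3 : (E : K) ^ 3 ≠ 0 := pow_ne_zero 3 hE'
  -- the class of `E f` at `v`
  obtain ⟨p1, p2⟩ := Tk_near_sq hv (mul_ne_zero hE3 hf0) hy h1
  have hsEf : (sc ((E : K) ^ 3 * f) : SC K) = sc ((E : K) * f) := by
    have h3 : (E : K) ^ 3 * f = (E : K) ^ 2 * ((E : K) * f) := by ring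
    rw [h3, H38T1.sc_mul (pow_ne_zero 2 hE') (mul_ne_zero hE' hf0), sc_sq hE', zero_add]
  rw [hsEf] at p1 p2
  have p3 : eo v (sc f) = 1 := by
    have h3 := p1
    rw [H38T1.sc_mul hE' hf0, H38T1.eo_add, hEo] at h3
    have e3 : ∀ p : ZMod 2, 1 + p = 0 → p = 1 := by decide
    exact e3 _ h3
  -- the class of `δ` at the places above `v`
  have hEx : algebraMap K L (E : K) * (algebraMap K L x - θ) ≠ 0 := mul_ne_zero hEL hxt
  have key : ∀ w : HeightOneSpectrum (𝓞 L), dn K w = v → OddP w →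
      eo w (sc δ) = eo w (sc (algebraMap K L (E : K) * (algebraMap K L x - θ))) ∧
      la w (sc δ) = la w (sc (algebraMap K L (E : K) * (algebraMap K L x - θ))) := by
    intro w hwv hwo
    obtain ⟨q1, q2⟩ := Tk_near_sq hwo (mul_ne_zero hd0 hEx) hz (hw w hwv)
    rw [H38T1.sc_mul hd0 hEx, H38T1.eo_add] at q1
    rw [H38T1.sc_mul hd0 hEx, H38T1.la_add hwo] at q2
    have e3 : ∀ p q : ZMod 2, p + q = 0 → p = q := by decide
    exact ⟨e3 _ _ q1, e3 _ _ q2⟩
  rw [(key w₁ h2.dn1 hodd1).2, (key w₂ h2.dn2 hodd2).1]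
  have ho2 : ∀ u : K, u ≠ 0 → eo w₂ (sc (algebraMap K L u)) = eo v (sc u) := by
    intro u hu
    rw [H38T1.eo_sc ((map_ne_zero _).2 hu), H38T1.eo_sc hu, h2.ord2 u hu]
  rcases le_or_gt (v.valuation K x) 1 with hx | hx
  · -- integral case
    have g1 := h2.unit2 x hx
    have g2 : eo w₂ (sc (algebraMap K L (E : K) * (algebraMap K L x - θ))) = 1 := by
      rw [H38T1.sc_mul hEL hxt, H38T1.eo_add, ho2 _ hE', hEo, H38T1.eo_sc hxt]
      unfold ord
      rw [g1, log_one, neg_zero, Int.cast_zero, add_zero]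
    rw [g2, mul_one]
    obtain ⟨w', g3, g4, g5⟩ := H36MT.ord_subL h hd hx (by rw [← hf]; exact hf0)
    rw [← hf] at g4
    have hof : ord (v.valuation K) f ≠ 0 := by
      intro h0
      rw [H38T1.eo_sc hf0, h0, Int.cast_zero] at p3
      exact zero_ne_one p3
    have g6 : w' = w₁ := by
      rcases h2.only w' g3 with h3 | h3
      · exact h3
      · exfalso
        rw [h3] at g4
        unfold ord at g4 hof
        rw [g1, log_one, neg_zero] at g4
        exact hof g4.symm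
    rw [g6] at g4
    obtain ⟨t, ht⟩ := theta_int h
    have hwt : w₁.valuation L θ ≤ 1 := by
      rw [← ht]
      exact w₁.valuation_le_one t
    have hwx : w₁.valuation L (algebraMap K L x) ≤ 1 := by
      apply val_le
      rw [h2.dn1]
      exact hx
    have hxtle : w₁.valuation L (algebraMap K L x - θ) ≤ 1 :=
      ((w₁.valuation L).map_sub_le hwx hwt)
    have hxtlt : w₁.valuation L (algebraMap K L x - θ) < 1 := by
      refine lt_of_le_of_ne hxtle fun h0 => ?_
      have g7 : ord (w₁.valuation L) (algebraMap K L x - θ) = 0 := by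
        unfold ord
        rw [h0, log_one, neg_zero]
      exact hof (g4.symm.trans g7)
    obtain ⟨c, hc⟩ : ∃ c, c = θ ^ 2 + algebraMap K L x * θ + algebraMap K L x ^ 2 +
      algebraMap K L (A : K) := ⟨_, rfl⟩
    rw [← hc] at hq
    have hfL : algebraMap K L f ≠ 0 := (map_ne_zero _).2 hf0
    have hc0 : c ≠ 0 := by
      rintro rfl
      rw [mul_zero] at hq
      exact hfL hq.symm
    have hder := h2.der
    have hD0 : 3 * θ ^ 2 + algebraMap K L (A : K) ≠ 0 := by
      intro h0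
      rw [h0, map_zero] at hder
      exact zero_ne_one hder
    have g8 : w₁.valuation L (c / (3 * θ ^ 2 + algebraMap K L (A : K)) - 1) < 1 := by
      have h3 : c / (3 * θ ^ 2 + algebraMap K L (A : K)) - 1 =
          (algebraMap K L x - θ) * (algebraMap K L x + (θ + θ)) /
            (3 * θ ^ 2 + algebraMap K L (A : K)) := by
        rw [div_sub_one hD0, hc]
        congr 1
        ring
      rw [h3, map_div₀, hder, div_one, map_mul]
      have h4 : w₁.valuation L (algebraMap K L x + (θ + θ)) ≤ 1 :=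
        (w₁.valuation L).map_add_le hwx ((w₁.valuation L).map_add_le hwt hwt)
      calc _ ≤ w₁.valuation L (algebraMap K L x - θ) * 1 := mul_le_mul_right h4 _
        _ < 1 := by rw [mul_one]; exact hxtlt
    obtain ⟨_, g9⟩ := Tk_mul hodd1 hc0 hD0 g8
    rw [← g9]
    have g10 : la w₁ (sc (algebraMap K L (E : K) * (algebraMap K L x - θ))) + la w₁ (sc c) = 0 := by
      rw [← H38T1.la_add hodd1, ← H38T1.sc_mul hEx hc0, mul_assoc, hq, ← map_mul,
        gg_la1 hv h2.toTwG (mul_ne_zero hE' hf0) p1, p2]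
    have e3 : ∀ p q : ZMod 2, p + q = 0 → p = q := by decide
    exact e3 _ _ g10
  · -- the case of a denominator
    have hx1 : 1 < (dn K w₁).valuation K x := by rw [h2.dn1]; exact hx
    have hx2 : 1 < (dn K w₂).valuation K x := by rw [h2.dn2]; exact hx
    have hx0 : x ≠ 0 := by
      rintro rfl
      rw [map_zero] at hx
      exact absurd hx (not_lt.2 zero_le_one)
    have hxL : algebraMap K L x ≠ 0 := (map_ne_zero _).2 hx0
    obtain ⟨-, b2, b3, -⟩ := ord_sub_big h hx1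
    obtain ⟨-, b2', -, -⟩ := ord_sub_big h hx2
    rw [h2.dn1, ← hf] at b3
    obtain ⟨c1, c2⟩ := Tk_mul hv hf0 (pow_ne_zero 3 hx0) b3
    have hx3 : (sc (x ^ 3) : SC K) = sc x := by
      have h3 : x ^ 3 = x ^ 2 * x := by ring
      rw [h3, H38T1.sc_mul (pow_ne_zero 2 hx0) hx0, sc_sq hx0, zero_add]
    rw [hx3] at c1 c2
    have c3 : eo v (sc ((E : K) * x)) = 0 := by
      rw [H38T1.sc_mul hE' hx0, H38T1.eo_add, ← c1, ← H38T1.eo_add, ← H38T1.sc_mul hE' hf0]
      exact p1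
    have c4 : la v (sc ((E : K) * x)) = 0 := by
      rw [H38T1.sc_mul hE' hx0, H38T1.la_add hv, ← c2, ← H38T1.la_add hv, ← H38T1.sc_mul hE' hf0]
      exact p2
    have c5 : ∀ w : HeightOneSpectrum (𝓞 L), OddP w → w.valuation L (θ / algebraMap K L x) < 1 →
        eo w (sc (algebraMap K L (E : K) * (algebraMap K L x - θ))) =
          eo w (sc (algebraMap K L ((E : K) * x))) ∧
        la w (sc (algebraMap K L (E : K) * (algebraMap K L x - θ))) =
          la w (sc (algebraMap K L ((E : K) * x))) := by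
      intro w hwo hb
      apply Tk_mul hwo hEx ((map_ne_zero _).2 (mul_ne_zero hE' hx0))
      have h3 : algebraMap K L (E : K) * (algebraMap K L x - θ) / algebraMap K L ((E : K) * x) - 1 =
          -(θ / algebraMap K L x) := by
        rw [map_mul]
        field_simp
        ring
      rw [h3, Valuation.map_neg]
      exact hb
    rw [(c5 w₁ hodd1 b2).2, (c5 w₂ hodd2 b2').1, ho2 _ (mul_ne_zero hE' hx0), c3, mul_zero,
      gg_la1 hv h2.toTwG (mul_ne_zero hE' hx0) c3, c4]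

end H76MQ
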