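import Pool.Agent.H76.MQ.Df
import Pool.Agent.H36.MT.Td
import Pool.Agent.H36.MT.Tc
import Pool.Agent.H76.PP.Tf

/-!
ROW Tt (project MP_78d38b_MQT, about 120 lines): the places above a place of `T`.

`H36MT.exists_twoL` gives `w₁, w₂` with `Two K θ v w₁ w₂` (fields ne, dn1, dn2, only, ord1, ord2, unit2). Let `a ∈ 𝓞 K` be a root modulo `v` (`typ`). `N (a - θ) = f(a) ∈ v`, so some place above `v` contains
`a - θ` (or `H36MT.Tc_intL`, if `f(a) ≠ 0`, which holds as `L` is a field of degree three); by unit2 it is `w₁`.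
res1: for integers `y ∈ 𝓞 L`: `H36MT.Tc_sL` (`y ≡ s` modulo `w₁`, `s ∈ 𝓞 K`). For `y ∈ L` with `w₁.valuation y ≤ 1` there is an integer `y'` with `w₁.valuation (y - y') < 1` (as `Tf_approx` of H76/PP/Tf.lean).
der: `w₁.valuation (3 θ^2 + A) ≤ 1`; if it is `< 1` then, as `θ ≡ a` modulo `w₁`, `3 a^2 + A ∈ v`, so `a` is a double root: `-3 a^2 - 4 A ≡ 9 a^2 = (3 a)^2` modulo `v`. If the `t` of `typ` is `a` itself
(take `a = t`) this contradicts `typ` with `s = 3 t`.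
-/

set_option autoImplicit false
set_option linter.unusedSectionVars false
open scoped Classical

open WithZero NumberField IsDedekindDomain H38RT
open H38T1 (SC sc scu rep eo la si Pri OddP tp unif ka)
open H76PP

namespace H76MQ

variable {K L : Type} [Field K] [NumberField K] [Field L] [NumberField L] [Algebra K L]

/-- There is a place above `v` which contains `t - θ`. -/
theorem Tt_place {A B : 𝓞 K} {θ : L} (h : Cub K L (A : K) (B : K) θ)
    {v : HeightOneSpectrum (𝓞 K)} (hd : dsc A B ∉ v.asIdeal ^ 2) {θ' : 𝓞 L} (hθ' : (θ' : L) = θ)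
    {t : 𝓞 K} (ht : t ^ 3 + A * t + B ∈ v.asIdeal) :
    ∃ w : HeightOneSpectrum (𝓞 L), dn K w = v ∧ algebraMap (𝓞 K) (𝓞 L) t - θ' ∈ w.asIdeal := by
  obtain ⟨w, χ, hd1, hχ, hχa, hχc⟩ := H36MT.exists_placeL h (H36MT.lb_of h hd) ht
  refine ⟨w, hd1, ?_⟩
  have hχθ : χ θ' = Ideal.Quotient.mk v.asIdeal t := by
    have h1 := hχc θ' ![0, 1, 0] (by
      intro i
      have e0 : ((0 : 𝓞 K) : K) = 0 := rfl
      have e1 : ((1 : 𝓞 K) : K) = 1 := rfl
      rw [hθ']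
      fin_cases i
      · exact h.co_theta.1.trans e0.symm
      · exact h.co_theta.2.1.trans e1.symm
      · exact h.co_theta.2.2.trans e0.symm)
    rw [h1]
    congr 1
    simp
  rw [← hχ, map_sub, hχa, hχθ, sub_self]

theorem exists_TwT {A B : 𝓞 K} {θ : L} (h : Cub K L (A : K) (B : K) θ)
    {v : HeightOneSpectrum (𝓞 K)} (hd : dsc A B ∉ v.asIdeal ^ 2) (h6 : (6 : 𝓞 K) ∉ v.asIdeal)
    (ht : ∃ t : 𝓞 K, t ^ 3 + A * t + B ∈ v.asIdeal ∧
      ∀ s : 𝓞 K, -3 * t ^ 2 - 4 * A - s ^ 2 ∉ v.asIdeal) :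
    ∃ w₁ w₂ : HeightOneSpectrum (𝓞 L), TwT K (A : K) θ v w₁ w₂ := by
  obtain ⟨w₁, w₂, h2⟩ := H36MT.exists_twoL h hd h6 ht
  obtain ⟨t, ht1, ht2⟩ := ht
  obtain ⟨θ', hθ'⟩ := theta_int h
  obtain ⟨w, hw1, hw2⟩ := Tt_place h hd hθ' ht1
  have hsc : ∀ r : 𝓞 K, algebraMap (𝓞 L) L (algebraMap (𝓞 K) (𝓞 L) r) = algebraMap K L (r : K) :=
    fun _ => rfl
  have hθL : algebraMap (𝓞 L) L θ' = θ := hθ'
  have hww : w = w₁ := by
    rcases h2.only w hw1 with h3 | h3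
    · exact h3
    · exfalso
      have h4 := h2.unit2 (t : K) (v.valuation_le_one t)
      rw [h3] at hw2
      have h5 : w₂.valuation L (algebraMap (𝓞 L) L (algebraMap (𝓞 K) (𝓞 L) t - θ')) < 1 :=
        (w₂.valuation_lt_one_iff_mem (K := L) _).2 hw2
      rw [map_sub, hsc, hθL, h4] at h5
      exact lt_irrefl _ h5
  rw [hww] at hw1 hw2
  refine ⟨w₁, w₂, ⟨⟨h2.ne, h2.dn1, h2.dn2, h2.only, h2.ord1, h2.ord2, ?_⟩, h2.unit2, ?_⟩⟩
  · intro y hy
    obtain ⟨y', hy'⟩ := Tf_approx w₁ hy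
    obtain ⟨s, hs⟩ := H36MT.Tc_sL h hd hθ' t y'
    refine ⟨(s : K), v.valuation_le_one s, ?_⟩
    have h3 : w₁.valuation L (algebraMap (𝓞 L) L (y' - algebraMap (𝓞 K) (𝓞 L) s)) < 1 :=
      (w₁.valuation_lt_one_iff_mem (K := L) _).2 (hs w₁ hw1 hw2)
    rw [map_sub, hsc] at h3
    have e : y - algebraMap K L (s : K) = (y - (y' : L)) + ((y' : L) - algebraMap K L (s : K)) := by
      ring
    rw [e]
    exact Valuation.map_add_lt _ hy' h3
  · have h3 : w₁.valuation L (algebraMap (𝓞 L) L (3 * θ' ^ 2 + algebraMap (𝓞 K) (𝓞 L) A)) = 1 := by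
      rw [HeightOneSpectrum.valuation_eq_one_iff_notMem]
      intro h4
      have h5 : algebraMap (𝓞 K) (𝓞 L) (3 * t ^ 2 + A) ∈ w₁.asIdeal := by
        have e : algebraMap (𝓞 K) (𝓞 L) (3 * t ^ 2 + A) =
            (3 * θ' ^ 2 + algebraMap (𝓞 K) (𝓞 L) A) + (algebraMap (𝓞 K) (𝓞 L) t - θ') *
              (3 * (algebraMap (𝓞 K) (𝓞 L) t + θ')) := by
          rw [map_add, map_mul, map_pow, map_ofNat]
          ring
        rw [e]
        exact Ideal.add_mem _ h4 (Ideal.mul_mem_right _ _ hw2)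
      have h6' : 3 * t ^ 2 + A ∈ (dn K w₁).asIdeal := h5
      rw [hw1] at h6'
      apply ht2 (3 * t)
      have e : -3 * t ^ 2 - 4 * A - (3 * t) ^ 2 = (3 * t ^ 2 + A) * (-4) := by ring
      rw [e]
      exact Ideal.mul_mem_right _ _ h6'
    rw [map_add, map_mul, map_pow, map_ofNat, hsc, hθL] at h3
    exact h3

end H76MQ
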