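import Pool.Agent.H36.MT.Df
import Pool.Agent.H36.MT.Th
import Pool.Agent.H76.PP.Tj

/-!
Definitions for the project MP_78d38b_MQT (multiquadratic fields without condition at two); no row.
The paper proof is /team-store/H76_MQT.md.
-/

set_option autoImplicit false
set_option linter.unusedSectionVars false
open scoped Classical

open WithZero NumberField IsDedekindDomain H38RT
open H38T1 (SC sc scu rep eo la si Pri OddP tp unif ka)
open H76PP

namespace H76MQ

section Base

variable (K : Type) [Field K] [NumberField K]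

/-- The places above two, an auxiliary place for each of them, further places. -/
structure Cfg where
  P : Finset (HeightOneSpectrum (𝓞 K))
  a : HeightOneSpectrum (𝓞 K) → HeightOneSpectrum (𝓞 K)
  R : Finset (HeightOneSpectrum (𝓞 K))

variable {K}

/-- All places of the configuration. -/
noncomputable def Cfg.S (C : Cfg K) : Finset (HeightOneSpectrum (𝓞 K)) :=
  C.P ∪ (C.P.image C.a ∪ C.R)

/-- Two splits completely, the auxiliary places are prime to six and different, the further places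
are odd and contain the places above three. -/
structure Cfg.Ok (C : Cfg K) : Prop where
  mem2 : ∀ v : HeightOneSpectrum (𝓞 K), v ∈ C.P ↔ (2 : 𝓞 K) ∈ v.asIdeal
  nv : ∀ v ∈ C.P, Nv v = 2
  sq2 : ∀ v ∈ C.P, (2 : 𝓞 K) ∉ v.asIdeal ^ 2
  a6 : ∀ v ∈ C.P, (6 : 𝓞 K) ∉ (C.a v).asIdeal
  inj : ∀ v ∈ C.P, ∀ v' ∈ C.P, C.a v = C.a v' → v = v'
  aR : ∀ v ∈ C.P, C.a v ∉ C.R
  R2 : ∀ v ∈ C.R, (2 : 𝓞 K) ∉ v.asIdeal
  R3 : ∀ v : HeightOneSpectrum (𝓞 K), (3 : 𝓞 K) ∈ v.asIdeal → v ∈ C.R

/-- The twisting factor `d` has even order outside `P` and `R`, and it is a square at `a v` if and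
only if its order at `v` is even. -/
structure TwOk (C : Cfg K) (d : 𝓞 K) : Prop where
  ne : d ≠ 0
  leg : ∀ v ∈ C.P, la (C.a v) (sc (d : K)) = eo v (sc (d : K))
  out : ∀ v : HeightOneSpectrum (𝓞 K), v ∉ C.P → v ∉ C.R → eo v (sc (d : K)) = 0

/-- The condition at the auxiliary places: `x^3 + A x + B` has a double root modulo `a`, its
discriminant has order two and the corresponding quadratic extension is unramified and nontrivial. -/
def AuxT (a : HeightOneSpectrum (𝓞 K)) (A B : 𝓞 K) : Prop :=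
  ∃ r : 𝓞 K, 3 * r ^ 2 + A ∈ a.asIdeal ^ 2 ∧ r ^ 3 + A * r + B ∈ a.asIdeal ^ 2 ∧
    ∀ s : 𝓞 K, 3 * r * (r ^ 3 + A * r + B) + s ^ 2 ∉ a.asIdeal ^ 3

/-- The family of pairs. -/
structure FamQ (C : Cfg K) (q₀ : HeightOneSpectrum (𝓞 K)) (T : Finset (HeightOneSpectrum (𝓞 K)))
    (A B : 𝓞 K) : Prop where
  two : ∀ v ∈ C.P, A - 16 ∈ v.asIdeal ^ 10 ∧ B - 16 ∈ v.asIdeal ^ 10
  aux : ∀ v ∈ C.P, AuxT (C.a v) A B
  res : ∀ v ∈ C.R, ∀ t : 𝓞 K, t ^ 3 + A * t + B ∉ v.asIdeal
  irr : ∀ t : 𝓞 K, t ^ 3 + A * t + B ∉ q₀.asIdeal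
  typ : ∀ v ∈ T, ∃ t : 𝓞 K, t ^ 3 + A * t + B ∈ v.asIdeal ∧
    ∀ s : 𝓞 K, -3 * t ^ 2 - 4 * A - s ^ 2 ∉ v.asIdeal
  sqf : ∀ v : HeightOneSpectrum (𝓞 K), v ∉ C.S → dsc A B ∉ v.asIdeal ^ 2
  pos : ∀ s : K →+* ℝ, 0 < s ((dsc A B : 𝓞 K) : K)

end Base

section Classes

variable (K : Type) {L : Type} [Field K] [NumberField K] [Field L] [NumberField L] [Algebra K L]

/-- The classes of square norm with even valuations outside `S`. -/
def HH (S : Finset (HeightOneSpectrum (𝓞 K))) : AddSubgroup (SC L) where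
  carrier := {c | scm (Algebra.norm K : L →* K) c = 0 ∧
    ∀ w : HeightOneSpectrum (𝓞 L), dn K w ∉ S → eo w c = 0}
  zero_mem' := ⟨map_zero _, fun w _ => H38T1.eo_zero w⟩
  add_mem' := by
    rintro c c' ⟨h, h1⟩ ⟨h', h1'⟩
    refine ⟨by rw [map_add, h, h', add_zero], fun w hw => ?_⟩
    rw [H38T1.eo_add, h1 w hw, h1' w hw, add_zero]
  neg_mem' := by
    rintro c ⟨h, h1⟩
    have h2 : -c = c := by
      have h3 := H38T1.SC.two_smul c
      rw [two_nsmul] at h3
      exact neg_eq_of_add_eq_zero_left h3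
    rw [h2]
    exact ⟨h, h1⟩

variable {K}

lemma mem_HH {S : Finset (HeightOneSpectrum (𝓞 K))} {c : SC L} :
    c ∈ HH K S ↔ scm (Algebra.norm K : L →* K) c = 0 ∧
      ∀ w : HeightOneSpectrum (𝓞 L), dn K w ∉ S → eo w c = 0 := Iff.rfl

end Classes

section Good

variable {K : Type} [Field K] [NumberField K]

/-- The classes of square norm with even valuations outside `S'` are at most `b` in number and all
functionals on them are Legendre symbols at places of `T'`. -/
def GoodSt (S' T' : Finset (HeightOneSpectrum (𝓞 K))) (b : ℕ) (A B : 𝓞 K) : Prop :=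
  ∀ (L : Type) [Field L] [NumberField L] [Algebra K L] (θ : L), Cub K L (A : K) (B : K) θ →
    Finite (HH K S' : AddSubgroup (SC L)) ∧ Nat.card (HH K S' : AddSubgroup (SC L)) ≤ b ∧
    ∀ φ : SC L →+ ZMod 2, ∃ v ∈ T', ∀ c ∈ (HH K S' : AddSubgroup (SC L)),
      ∀ w : HeightOneSpectrum (𝓞 L), dn K w = v → la w c = φ c

/-- The pattern `r` is realised by a nonzero class. -/
def BadR (S' T' : Finset (HeightOneSpectrum (𝓞 K))) (r : HeightOneSpectrum (𝓞 K) → ZMod 2)
    (A B : 𝓞 K) : Prop :=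
  ∃ (L : Type) (_ : Field L) (_ : NumberField L) (_ : Algebra K L) (θ : L) (c : SC L),
    Cub K L (A : K) (B : K) θ ∧ c ≠ 0 ∧ c ∈ (HH K S' : AddSubgroup (SC L)) ∧
    ∀ w : HeightOneSpectrum (𝓞 L), dn K w ∈ T' → la w c = r (dn K w)

end Good

section Places

variable (K : Type) {L : Type} [Field K] [NumberField K] [Field L] [NumberField L] [Algebra K L]

/-- There are two places above `v`, both unramified, the first one has degree one. -/
structure TwG (v : HeightOneSpectrum (𝓞 K)) (w₁ w₂ : HeightOneSpectrum (𝓞 L)) : Prop where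
  ne : w₁ ≠ w₂
  dn1 : dn K w₁ = v
  dn2 : dn K w₂ = v
  only : ∀ w : HeightOneSpectrum (𝓞 L), dn K w = v → w = w₁ ∨ w = w₂
  ord1 : ∀ x : K, x ≠ 0 → ord (w₁.valuation L) (algebraMap K L x) = ord (v.valuation K) x
  ord2 : ∀ x : K, x ≠ 0 → ord (w₂.valuation L) (algebraMap K L x) = ord (v.valuation K) x
  res1 : ∀ y : L, w₁.valuation L y ≤ 1 → ∃ x : K, v.valuation K x ≤ 1 ∧
    w₁.valuation L (y - algebraMap K L x) < 1

/-- The situation at the places of `T`. -/
structure TwT (A : K) (θ : L) (v : HeightOneSpectrum (𝓞 K)) (w₁ w₂ : HeightOneSpectrum (𝓞 L)) : Prop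
    extends TwG K v w₁ w₂ where
  unit2 : ∀ x : K, v.valuation K x ≤ 1 → w₂.valuation L (algebraMap K L x - θ) = 1
  der : w₁.valuation L (3 * θ ^ 2 + algebraMap K L A) = 1

/-- The situation at the auxiliary places. -/
structure TwA (θ : L) (v : HeightOneSpectrum (𝓞 K)) (w₁ w₂ : HeightOneSpectrum (𝓞 L)) (r : K) : Prop
    extends TwG K v w₁ w₂ where
  r1 : v.valuation K r = 1
  rt : w₁.valuation L (θ + algebraMap K L (2 * r)) < 1
  nr : ∀ x : K, v.valuation K (x - r) < 1 → w₂.valuation L (algebraMap K L x - θ) = exp (-1)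

/-- The situation at the places above two. -/
structure Rm (A B : K) (θ : L) (v : HeightOneSpectrum (𝓞 K)) (w : HeightOneSpectrum (𝓞 L)) : Prop where
  dn : dn K w = v
  only : ∀ w' : HeightOneSpectrum (𝓞 L), H76PP.dn K w' = v → w' = w
  om : w.valuation L (θ / 2) = exp (-1)
  val : ∀ x : K, w.valuation L (algebraMap K L x) = v.valuation K x ^ 3
  A4 : v.valuation K (A / 4 - 4) ≤ exp (-7)
  B8 : v.valuation K (B / 8 - 2) ≤ exp (-7)
  two : v.valuation K 2 = exp (-1)
  res : ∀ x : K, v.valuation K x ≤ 1 → v.valuation K x < 1 ∨ v.valuation K (x - 1) < 1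

end Places

section Two

variable {L : Type} [Field L] [NumberField L]

/-- The local classes of square norm at a place above two (with `θ = 2 ω`). -/
noncomputable def rho (θ : L) (i j : ZMod 2) : L :=
  (if i = 0 then 1 else 1 + θ) * (if j = 0 then 1 else θ / 2 - 1)

/-- `y` is a square times an element which is close to `ρ`. -/
def Nr (w : HeightOneSpectrum (𝓞 L)) (y ρ : L) : Prop :=
  ∃ z : L, z ≠ 0 ∧ w.valuation L (y * z ^ 2 - ρ) < w.valuation L 4

/-- Additive functions which describe the local class at `w` of the classes of square norm. -/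
structure IJ (K : Type) [Field K] [NumberField K] [Algebra K L] (θ : L)
    (w : HeightOneSpectrum (𝓞 L)) (I J : SC L →+ ZMod 2) : Prop where
  nr : ∀ y : L, y ≠ 0 → IsSquare (Algebra.norm K y) → Nr w y (rho θ (I (sc y)) (J (sc y)))
  un : ∀ y : L, y ≠ 0 → IsSquare (Algebra.norm K y) → ∀ i j : ZMod 2, Nr w y (rho θ i j) →
    i = I (sc y) ∧ j = J (sc y)

end Two

section Conic

variable {K L : Type} [Field K] [Field L] [Algebra K L]

/-- The first coefficient of the conic of `y`. -/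
noncomputable def al {A B : K} {θ : L} (h : Cub K L A B θ) (y : L) : K := h.co 2 y

/-- The second coefficient of the conic of `y`. -/
noncomputable def be {A B : K} {θ : L} (h : Cub K L A B θ) (y : L) : K :=
  h.co 1 y ^ 2 - h.co 0 y * h.co 2 y + A * h.co 2 y ^ 2

end Conic

end H76MQ
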