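import Pool.Agent.H76.MQ.Df
import Pool.Agent.H30.PN.Rm

/-!
ROW Fq (project MP_78d38b_MQT, about 220 lines): the residue class.

PROOF of exists_class.  Apply `Fq_cls` (below, proved) with `S := C.S`, `R := ∅`, and
`(e v, Av v, Bv v)` = `(10, 16, 16)` for `v ∈ C.P`; `(1, -1, b v)` for `v ∈ C.R` with `b v` from `H30PN.Rm_noroot v`; `(3, -3, B_w)` otherwise, where for an odd place `w` with `6 ∉ w`:
`B_w = 2 + π^2 ε` with `π ∈ w`, `π ∉ w^2` (exists because `w ≠ w^2`, e.g. `w.valuation_exists_uniformizer` or `Ideal.exists_mem_notMem_of_ne`-type lemmas) and `-3 ε` not a square modulo `w`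
(`∀ s : 𝓞 K, 3 * ε + s ^ 2 ∉ w`; the residue field is finite of odd characteristic: `FiniteField.exists_nonsquare`, 3 is a unit modulo `w`).
The places `C.P`, `C.P.image C.a`, `C.R` are disjoint (`hC.mem2`, `hC.a6`, `hC.aR`, `hC.R2`), so the three cases are `v ∈ C.P`, `v ∈ C.R`, `v ∈ C.P.image C.a`.
Hypothesis `dsc (Av v) (Bv v) ∉ v ^ e v`: `P`: `dsc 16 16 = 23296 = 2^8 * 91`; `91` is odd, `v 2 = exp (-1)` (`2 ∈ v`, `2 ∉ v^2`), so the order is 8 < 10.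
`R`: `v` odd; if `3 ∈ v`: `dsc (-1) b = -4 + 27 b^2`, and `-4 ∉ v`; if `3 ∉ v` then `6 ∉ v` and `H30PN.nort_dsc'`.
`a`: `dsc (-3) (2 + π^2 ε) = 27 π^2 ε (4 + π^2 ε)` and `27, ε, 4 + π^2 ε` are units (`ε ∉ w`, otherwise `s = 0` is excluded), `π^2 ∉ w^3`.
We get `m, E, A₀, B₀`.  `2 ≤ E`: `C.P` is not empty (a prime above 2); for `v ∈ C.P` the last property with `A := A₀`, `B := B₀` gives `A₀ - 16, B₀ - 16 ∈ v^10`, so `A₀, B₀ ∈ v` and
`dsc A₀ B₀ ∈ v`, so `E ≠ 1`; (`1 ≤ E` is given).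
FamQ: two, res: from the class.  aux: `w = C.a v` with `v ∈ C.P`: `r := 1`: `3 + A = A - (-3) ∈ w^3`; `1 + A + B = (A - (-3)) + (B - B_w) + π^2 ε ∈ w^2`; for `s`:
`3 (1 + A + B) + s^2 ∈ w^3` would give `3 π^2 ε + s^2 ∈ w^3`, so `s ∈ w`; `x := s / π : K` has valuation `≤ 1`, take `s₁ : 𝓞 K` with `w.valuation (x - s₁) < 1` (see the lemmas `exists_int` used in
`H36/PP`, `H76/PP`; e.g. `H76PP.exists_res`), then `3 ε + x^2` has valuation `< 1` so `3 ε + s₁^2 ∈ w`, contradiction.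
irr, typ, sqf: from FamS.  pos: `dsc A B = 4 A^3 + 27 B^2` with `s A > 0`.
-/

set_option autoImplicit false
set_option linter.unusedSectionVars false
open scoped Classical

open WithZero NumberField IsDedekindDomain H38RT
open H38T1 (SC sc scu rep eo la si Pri OddP tp unif ka)
open H76PP

namespace H76MQ

/-- The residue class (copy of `H30ZO.exists_cls`, proved). -/
theorem Fq_cls {K : Type} [Field K] [NumberField K] {S R : Finset (HeightOneSpectrum (𝓞 K))}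
    (hSv : ∀ v : HeightOneSpectrum (𝓞 K), (2 : 𝓞 K) ∈ v.asIdeal → v ∈ S)
    (hR : ∀ v ∈ R, v ∉ S) (e : HeightOneSpectrum (𝓞 K) → ℕ)
    (Av Bv : HeightOneSpectrum (𝓞 K) → 𝓞 K)
    (hcl : ∀ v ∈ S, dsc (Av v) (Bv v) ∉ v.asIdeal ^ e v) :
    ∃ (m : Ideal (𝓞 K)) (E : ℕ) (A₀ B₀ : 𝓞 K), m ≠ ⊥ ∧ 1 ≤ E ∧
      (∀ v ∈ S, m ≤ v.asIdeal ^ E ∧ dsc A₀ B₀ ∉ v.asIdeal ^ E) ∧
      (∀ v : HeightOneSpectrum (𝓞 K), v ∉ S → m ≤ v.asIdeal → dsc A₀ B₀ ∉ v.asIdeal) ∧
      (∀ A B : 𝓞 K, A - A₀ ∈ m → B - B₀ ∈ m →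
        (∀ v ∈ S, A - Av v ∈ v.asIdeal ^ e v ∧ B - Bv v ∈ v.asIdeal ^ e v) ∧
        ∀ v ∈ R, H30PN.NoRt K v A B) := by
  choose b hb using fun v : HeightOneSpectrum (𝓞 K) => H30PN.Rm_noroot v
  obtain ⟨E, hE⟩ : ∃ E : ℕ, E = 1 + ∑ v ∈ S, e v := ⟨_, rfl⟩
  have hEe : ∀ v ∈ S, e v ≤ E := by
    intro v hv
    have h1 : e v ≤ ∑ v ∈ S, e v := Finset.single_le_sum (fun _ _ => Nat.zero_le _) hv
    omega
  obtain ⟨ex, hex⟩ : ∃ ex : HeightOneSpectrum (𝓞 K) → ℕ, ex = fun v => if v ∈ S then E else 1 :=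
    ⟨_, rfl⟩
  have hexS : ∀ v ∈ S, ex v = E := by
    intro v hv
    rw [hex]
    exact if_pos hv
  have hexR : ∀ v ∉ S, ex v = 1 := by
    intro v hv
    rw [hex]
    exact if_neg hv
  have hRS : ∀ v ∈ R, v ∉ S := hR
  obtain ⟨A₀, hA₀⟩ := IsDedekindDomain.exists_forall_sub_mem_ideal (s := S ∪ R)
    (fun v : HeightOneSpectrum (𝓞 K) => v.asIdeal) ex (fun v _ => v.prime)
    (fun v _ w _ hne h => hne (HeightOneSpectrum.ext h)) (fun v => if v.1 ∈ S then Av v else -1)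
  obtain ⟨B₀, hB₀⟩ := IsDedekindDomain.exists_forall_sub_mem_ideal (s := S ∪ R)
    (fun v : HeightOneSpectrum (𝓞 K) => v.asIdeal) ex (fun v _ => v.prime)
    (fun v _ w _ hne h => hne (HeightOneSpectrum.ext h)) (fun v => if v.1 ∈ S then Bv v else b v)
  have hAS : ∀ v ∈ S, A₀ - Av v ∈ v.asIdeal ^ E := by
    intro v hv
    have h := hA₀ v (Finset.mem_union_left _ hv)
    rw [hexS v hv, if_pos hv] at h
    exact h
  have hBS : ∀ v ∈ S, B₀ - Bv v ∈ v.asIdeal ^ E := by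
    intro v hv
    have h := hB₀ v (Finset.mem_union_left _ hv)
    rw [hexS v hv, if_pos hv] at h
    exact h
  have hAR : ∀ v ∈ R, A₀ - (-1) ∈ v.asIdeal := by
    intro v hv
    have h := hA₀ v (Finset.mem_union_right _ hv)
    rw [hexR v (hRS v hv), if_neg (hRS v hv), pow_one] at h
    exact h
  have hBR : ∀ v ∈ R, B₀ - b v ∈ v.asIdeal := by
    intro v hv
    have h := hB₀ v (Finset.mem_union_right _ hv)
    rw [hexR v (hRS v hv), if_neg (hRS v hv), pow_one] at h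
    exact h
  obtain ⟨m, hm⟩ : ∃ m : Ideal (𝓞 K), m = ∏ v ∈ S ∪ R, v.asIdeal ^ ex v := ⟨_, rfl⟩
  have hle : ∀ v ∈ S ∪ R, m ≤ v.asIdeal ^ ex v := fun v hv => by
    rw [hm]
    exact Ideal.le_of_dvd (Finset.dvd_prod_of_mem
      (fun w : HeightOneSpectrum (𝓞 K) => w.asIdeal ^ ex w) hv)
  have hleS : ∀ v ∈ S, m ≤ v.asIdeal ^ E := fun v hv => by
    rw [← hexS v hv]
    exact hle v (Finset.mem_union_left _ hv)
  have hleR : ∀ v ∈ R, m ≤ v.asIdeal := fun v hv => by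
    have h := hle v (Finset.mem_union_right _ hv)
    rwa [hexR v (hRS v hv), pow_one] at h
  have hmem : ∀ v : HeightOneSpectrum (𝓞 K), m ≤ v.asIdeal → v ∈ S ∪ R := by
    intro v hv
    rw [hm] at hv
    obtain ⟨w, hw, hwv⟩ := (Ideal.IsPrime.prod_le v.isPrime).1 hv
    have h1 : w.asIdeal = v.asIdeal :=
      w.isMaximal.eq_of_le v.isPrime.ne_top (Ideal.IsPrime.le_of_pow_le hwv)
    have h2 : w = v := HeightOneSpectrum.ext h1
    rwa [← h2]
  have hno : ∀ A B : 𝓞 K, A - A₀ ∈ m → B - B₀ ∈ m → ∀ v ∈ R, H30PN.NoRt K v A B := by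
    intro A B hA hBm v hv t ht
    apply hb v t
    have e : t ^ 3 - t + b v = (t ^ 3 + A * t + B) - t * ((A - A₀) + (A₀ - (-1))) -
        (B - B₀) - (B₀ - b v) := by ring
    rw [e]
    exact Ideal.sub_mem _ (Ideal.sub_mem _ (Ideal.sub_mem _ ht
      (Ideal.mul_mem_left _ _ (Ideal.add_mem _ (hleR v hv hA) (hAR v hv)))) (hleR v hv hBm))
      (hBR v hv)
  refine ⟨m, E, A₀, B₀, ?_, by omega, ?_, ?_, ?_⟩
  · rw [hm, ← Ideal.zero_eq_bot, Finset.prod_ne_zero_iff]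
    intro w _
    exact pow_ne_zero _ (by rw [Ideal.zero_eq_bot]; exact w.ne_bot)
  · intro v hv
    refine ⟨hleS v hv, fun h => hcl v hv ?_⟩
    have h1 : dsc (Av v) (Bv v) = dsc A₀ B₀ - ((A₀ - Av v) *
        (4 * (A₀ ^ 2 + A₀ * Av v + Av v ^ 2)) + (B₀ - Bv v) * (27 * (B₀ + Bv v))) := by
      unfold dsc
      ring
    have h2 : dsc (Av v) (Bv v) ∈ v.asIdeal ^ E := by
      rw [h1]
      exact sub_mem h (add_mem (Ideal.mul_mem_right _ _ (hAS v hv))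
        (Ideal.mul_mem_right _ _ (hBS v hv)))
    exact Ideal.pow_le_pow_right (hEe v hv) h2
  · intro v hvS hmv
    have hvR : v ∈ R := by
      rcases Finset.mem_union.1 (hmem v hmv) with h | h
      · exact absurd h hvS
      · exact h
    have h2v : (2 : 𝓞 K) ∉ v.asIdeal := fun h => hR v hvR (hSv v h)
    by_cases h6 : (6 : 𝓞 K) ∈ v.asIdeal
    · have h3 : (3 : 𝓞 K) ∈ v.asIdeal := by
        have h7 : (2 : 𝓞 K) * 3 ∈ v.asIdeal := by
          rw [show (2 : 𝓞 K) * 3 = 6 by norm_num]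
          exact h6
        exact (v.isPrime.mem_or_mem h7).resolve_left h2v
      intro h
      have h8 : (2 : 𝓞 K) ^ 2 ∈ v.asIdeal := by
        have e : (2 : 𝓞 K) ^ 2 = 3 * (9 * B₀ ^ 2) + (A₀ - (-1)) * (4 * (A₀ ^ 2 - A₀ + 1)) -
            dsc A₀ B₀ := by
          unfold dsc
          ring
        rw [e]
        exact sub_mem (add_mem (v.asIdeal.mul_mem_right _ h3)
          (v.asIdeal.mul_mem_right _ (hAR v hvR))) h
      exact h2v (v.isPrime.mem_of_pow_mem 2 h8)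
    · refine H30PN.nort_dsc' h6 (hno A₀ B₀ ?_ ?_ v hvR)
      · rw [sub_self]
        exact Ideal.zero_mem _
      · rw [sub_self]
        exact Ideal.zero_mem _
  · intro A B hA hB
    refine ⟨fun v hv => ?_, hno A B hA hB⟩
    have h1 : v.asIdeal ^ E ≤ v.asIdeal ^ e v := Ideal.pow_le_pow_right (hEe v hv)
    constructor
    · have h2 := h1 (add_mem (hleS v hv hA) (hAS v hv))
      rwa [sub_add_sub_cancel] at h2
    · have h2 := h1 (add_mem (hleS v hv hB) (hBS v hv))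
      rwa [sub_add_sub_cancel] at h2

private theorem Fq_two_not_unit (K : Type) [Field K] [NumberField K] : ¬ IsUnit (2 : 𝓞 K) := by
  intro h
  obtain ⟨u, hu⟩ := h.exists_right_inv
  have h1 : IsIntegral ℤ ((u : 𝓞 K) : K) := RingOfIntegers.isIntegral_coe u
  have h2 : ((u : 𝓞 K) : K) = algebraMap ℚ K (1 / 2) := by
    have h3 := congrArg (algebraMap (𝓞 K) K) hu
    rw [map_mul, map_ofNat, map_one] at h3
    rw [map_div₀, map_one, map_ofNat, eq_div_iff (two_ne_zero)]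
    rw [mul_comm]
    exact h3
  rw [h2] at h1
  have h3 : IsIntegral ℤ (1 / 2 : ℚ) :=
    (isIntegral_algebraMap_iff (algebraMap ℚ K).injective).1 h1
  obtain ⟨n, hn⟩ := IsIntegrallyClosed.isIntegral_iff.1 h3
  have h4 : (2 * n : ℤ) = 1 := by
    have h5 : ((2 * n : ℤ) : ℚ) = ((1 : ℤ) : ℚ) := by
      push_cast
      have : (n : ℚ) = 1 / 2 := hn
      rw [this]
      norm_num
    exact_mod_cast h5
  omega

private theorem Fq_exists_two (K : Type) [Field K] [NumberField K] :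
    ∃ v : HeightOneSpectrum (𝓞 K), (2 : 𝓞 K) ∈ v.asIdeal := by
  obtain ⟨M, hM, h2⟩ := exists_max_ideal_of_mem_nonunits (Fq_two_not_unit K)
  refine ⟨⟨M, hM.isPrime, ?_⟩, h2⟩
  rintro rfl
  exact two_ne_zero (Ideal.mem_bot.1 h2)

/-- powers of a local uniformizer -/
private theorem Fq_pow {K : Type} [Field K] [NumberField K] {w : HeightOneSpectrum (𝓞 K)} {x : 𝓞 K}
    (h1 : x ∈ w.asIdeal) (h2 : x ∉ w.asIdeal ^ 2) (n : ℕ) : x ^ n ∉ w.asIdeal ^ (n + 1) := by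
  intro h
  have h1' : x ∈ w.asIdeal ^ 1 := by rwa [pow_one]
  rw [← w.intValuation_le_pow_iff_mem] at h1' h2 h
  have h0 : w.intValuation x ≠ 0 := by
    intro h0
    apply h2
    rw [h0]
    exact zero_le
  rw [map_pow] at h
  rw [← exp_log h0] at h1' h2 h
  rw [exp_le_exp] at h1' h2
  rw [← exp_nsmul, exp_le_exp, nsmul_eq_mul] at h
  push_cast at h1' h2 h
  have h3 : log (w.intValuation x) = -1 := by omega
  rw [h3] at h
  linarith

private theorem Fq_mul {K : Type} [Field K] [NumberField K] {w : HeightOneSpectrum (𝓞 K)}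
    {u x : 𝓞 K} {n : ℕ} (hu : u ∉ w.asIdeal) (hx : x ∉ w.asIdeal ^ n) :
    u * x ∉ w.asIdeal ^ n := by
  intro h
  have := w.isPrime
  rcases Ideal.IsPrime.mul_mem_pow w.asIdeal h with h | h
  · exact hu h
  · exact hx h

/-- a number `ε` such that `-3 ε` is not a square -/
private theorem Fq_eps {K : Type} [Field K] [NumberField K] (w : HeightOneSpectrum (𝓞 K))
    (h6 : (6 : 𝓞 K) ∉ w.asIdeal) : ∃ ε : 𝓞 K, ∀ s : 𝓞 K, 3 * ε + s ^ 2 ∉ w.asIdeal := by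
  have hmax : w.asIdeal.IsMaximal := w.isMaximal
  have hfin : Finite (𝓞 K ⧸ w.asIdeal) := Ideal.finiteQuotientOfFreeOfNeBot w.asIdeal w.ne_bot
  have h2 : (2 : 𝓞 K) ∉ w.asIdeal := by
    intro h2
    apply h6
    have e : (6 : 𝓞 K) = 3 * 2 := by norm_num
    rw [e]
    exact Ideal.mul_mem_left _ _ h2
  have h3 : (3 : 𝓞 K) ∉ w.asIdeal := by
    intro h3
    apply h6
    have e : (6 : 𝓞 K) = 2 * 3 := by norm_num
    rw [e]
    exact Ideal.mul_mem_left _ _ h3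
  have hc : ringChar (𝓞 K ⧸ w.asIdeal) ≠ 2 := by
    intro hc
    apply h2
    have h4 : ((2 : ℕ) : 𝓞 K ⧸ w.asIdeal) = 0 := by
      rw [← hc]
      exact ringChar.Nat.cast_ringChar
    rw [← Ideal.Quotient.eq_zero_iff_mem, map_ofNat]
    exact_mod_cast h4
  obtain ⟨a, ha⟩ := FiniteField.exists_nonsquare hc
  have h3' : (3 : 𝓞 K ⧸ w.asIdeal) ≠ 0 := by
    intro h5
    apply h3
    rw [← Ideal.Quotient.eq_zero_iff_mem, map_ofNat]
    exact h5
  obtain ⟨ε, hε⟩ := Ideal.Quotient.mk_surjective (-a / 3 : 𝓞 K ⧸ w.asIdeal)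
  refine ⟨ε, fun s hs => ha ?_⟩
  rw [← Ideal.Quotient.eq_zero_iff_mem, map_add, map_mul, map_ofNat, map_pow, hε,
    mul_div_cancel₀ _ h3'] at hs
  refine ⟨Ideal.Quotient.mk w.asIdeal s, ?_⟩
  rw [← sq]
  linear_combination -hs

/-- The class at an auxiliary place. -/
theorem exists_aux_class {K : Type} [Field K] [NumberField K] (w : HeightOneSpectrum (𝓞 K))
    (h6 : (6 : 𝓞 K) ∉ w.asIdeal) :
    ∃ b : 𝓞 K, dsc (-3) b ∉ w.asIdeal ^ 3 ∧ ∀ A B : 𝓞 K, A - (-3) ∈ w.asIdeal ^ 3 →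
      B - b ∈ w.asIdeal ^ 3 → AuxT w A B := by
  have hpr := w.isPrime
  obtain ⟨ε, hε⟩ := Fq_eps w h6
  obtain ⟨x, hx1, hx2⟩ := Ideal.exists_mem_pow_notMem_pow_succ w.asIdeal w.ne_bot hpr.ne_top 1
  have hx : x ∈ w.asIdeal := by rwa [pow_one] at hx1
  have hx3 : x ^ 2 ∉ w.asIdeal ^ 3 := Fq_pow hx hx2 2
  have h2 : (2 : 𝓞 K) ∉ w.asIdeal := by
    intro h2
    apply h6
    have e : (6 : 𝓞 K) = 3 * 2 := by norm_num
    rw [e]
    exact Ideal.mul_mem_left _ _ h2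
  have h3 : (3 : 𝓞 K) ∉ w.asIdeal := by
    intro h3
    apply h6
    have e : (6 : 𝓞 K) = 2 * 3 := by norm_num
    rw [e]
    exact Ideal.mul_mem_left _ _ h3
  have hε0 : ε ∉ w.asIdeal := by
    intro h
    apply hε 0
    have e : (3 : 𝓞 K) * ε + 0 ^ 2 = 3 * ε := by ring
    rw [e]
    exact Ideal.mul_mem_left _ _ h
  have hle23 : w.asIdeal ^ 3 ≤ w.asIdeal ^ 2 := Ideal.pow_le_pow_right (by norm_num)
  have hx22 : x ^ 2 ∈ w.asIdeal ^ 2 := Ideal.pow_mem_pow hx 2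
  refine ⟨2 + x ^ 2 * ε, ?_, ?_⟩
  · have e : dsc (-3) (2 + x ^ 2 * ε) = (3 ^ 3 * ε * (4 + x ^ 2 * ε)) * x ^ 2 := by
      unfold dsc
      ring
    rw [e]
    refine Fq_mul ?_ hx3
    intro h
    rcases hpr.mem_or_mem h with h | h
    · rcases hpr.mem_or_mem h with h | h
      · exact h3 (hpr.mem_of_pow_mem 3 h)
      · exact hε0 h
    · apply h2
      refine hpr.mem_of_pow_mem 2 ?_
      have e4 : (2 : 𝓞 K) ^ 2 = (4 + x ^ 2 * ε) - (x * ε) * x := by ring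
      rw [e4]
      exact sub_mem h (Ideal.mul_mem_left _ _ hx)
  · intro A B hA hB
    refine ⟨1, ?_, ?_, ?_⟩
    · have e : 3 * (1 : 𝓞 K) ^ 2 + A = A - (-3) := by ring
      rw [e]
      exact hle23 hA
    · have e : (1 : 𝓞 K) ^ 3 + A * 1 + B = (A - (-3)) + (B - (2 + x ^ 2 * ε)) + ε * x ^ 2 := by ring
      rw [e]
      exact add_mem (add_mem (hle23 hA) (hle23 hB)) (Ideal.mul_mem_left _ _ hx22)
    · intro s hs
      have h4 : 3 * ε * x ^ 2 + s ^ 2 ∈ w.asIdeal ^ 3 := by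
        have e : 3 * ε * x ^ 2 + s ^ 2 = (3 * 1 * (1 ^ 3 + A * 1 + B) + s ^ 2) -
            3 * ((A - (-3)) + (B - (2 + x ^ 2 * ε))) := by ring
        rw [e]
        exact sub_mem hs (Ideal.mul_mem_left _ _ (add_mem hA hB))
      have hs1 : s ∈ w.asIdeal := by
        refine hpr.mem_of_pow_mem 2 ?_
        have e : s ^ 2 = (3 * ε * x ^ 2 + s ^ 2) - (3 * ε * x) * x := by ring
        rw [e]
        exact sub_mem (Ideal.pow_le_self (by norm_num) h4) (Ideal.mul_mem_left _ _ hx)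
      obtain ⟨d, e, he, hde⟩ := Ideal.exists_mul_add_mem_pow_succ w.ne_bot x s hx1 hx2
        (by rwa [pow_one])
      have he2 : e ∈ w.asIdeal ^ 2 := he
      have h5 : x * e ∈ w.asIdeal ^ 3 := by
        have e5 : w.asIdeal ^ 3 = w.asIdeal * w.asIdeal ^ 2 := by ring
        rw [e5]
        exact Ideal.mul_mem_mul hx he2
      have h6 : e * e ∈ w.asIdeal ^ 3 := by
        have e6 : w.asIdeal ^ 3 = w.asIdeal * w.asIdeal ^ 2 := by ring
        rw [e6]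
        exact Ideal.mul_mem_mul (Ideal.pow_le_self (by norm_num) he2) he2
      have h7 : (3 * ε + d ^ 2) * x ^ 2 ∈ w.asIdeal ^ 3 := by
        have e7 : (3 * ε + d ^ 2) * x ^ 2 = (3 * ε * x ^ 2 + s ^ 2) - (2 * d) * (x * e) - e * e := by
          rw [← hde]
          ring
        rw [e7]
        exact sub_mem (sub_mem h4 (Ideal.mul_mem_left _ _ h5)) h6
      exact Fq_mul (hε d) hx3 h7

theorem exists_class {K : Type} [Field K] [NumberField K] {C : Cfg K} (hC : C.Ok) :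
    ∃ (m : Ideal (𝓞 K)) (E : ℕ) (A₀ B₀ : 𝓞 K), m ≠ ⊥ ∧ 2 ≤ E ∧
      (∀ v ∈ C.S, m ≤ v.asIdeal ^ E ∧ dsc A₀ B₀ ∉ v.asIdeal ^ E) ∧
      (∀ v : HeightOneSpectrum (𝓞 K), v ∉ C.S → m ≤ v.asIdeal → dsc A₀ B₀ ∉ v.asIdeal) ∧
      ∀ (q₀ : HeightOneSpectrum (𝓞 K)) (T : Finset (HeightOneSpectrum (𝓞 K))) (A B : 𝓞 K),
        A - A₀ ∈ m → B - B₀ ∈ m → (∀ s : K →+* ℝ, 0 < s (A : K)) →
        H36MT.FamS C.S E q₀ T A B → FamQ C q₀ T A B := by
  choose b hb using fun v : HeightOneSpectrum (𝓞 K) => H30PN.Rm_noroot v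
  obtain ⟨bb, hbb⟩ : ∃ bb : HeightOneSpectrum (𝓞 K) → 𝓞 K, ∀ v : HeightOneSpectrum (𝓞 K),
      (6 : 𝓞 K) ∉ v.asIdeal → dsc (-3) (bb v) ∉ v.asIdeal ^ 3 ∧ ∀ A B : 𝓞 K,
        A - (-3) ∈ v.asIdeal ^ 3 → B - bb v ∈ v.asIdeal ^ 3 → AuxT v A B := by
    refine ⟨fun v => if h : (6 : 𝓞 K) ∉ v.asIdeal then (exists_aux_class v h).choose else 0, ?_⟩
    intro v h
    simp only [dif_pos h]
    exact (exists_aux_class v h).choose_spec
  obtain ⟨e, he⟩ : ∃ e : HeightOneSpectrum (𝓞 K) → ℕ,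
      e = fun v => if v ∈ C.P then 10 else if v ∈ C.R then 1 else 3 := ⟨_, rfl⟩
  obtain ⟨Av, hAv⟩ : ∃ Av : HeightOneSpectrum (𝓞 K) → 𝓞 K,
      Av = fun v => if v ∈ C.P then 16 else if v ∈ C.R then -1 else -3 := ⟨_, rfl⟩
  obtain ⟨Bv, hBv⟩ : ∃ Bv : HeightOneSpectrum (𝓞 K) → 𝓞 K,
      Bv = fun v => if v ∈ C.P then 16 else if v ∈ C.R then b v else bb v := ⟨_, rfl⟩
  have hRP : ∀ v ∈ C.R, v ∉ C.P := fun v hv hP => hC.R2 v hv ((hC.mem2 v).1 hP)
  have haP : ∀ v ∈ C.P, C.a v ∉ C.P := by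
    intro v hv hP
    apply hC.a6 v hv
    have e6 : (6 : 𝓞 K) = 3 * 2 := by norm_num
    rw [e6]
    exact Ideal.mul_mem_left _ _ ((hC.mem2 _).1 hP)
  have hP3 : ∀ v ∈ C.P, e v = 10 ∧ Av v = 16 ∧ Bv v = 16 := by
    intro v hv
    rw [he, hAv, hBv]
    exact ⟨if_pos hv, if_pos hv, if_pos hv⟩
  have hR3 : ∀ v ∈ C.R, e v = 1 ∧ Av v = -1 ∧ Bv v = b v := by
    intro v hv
    rw [he, hAv, hBv]
    refine ⟨?_, ?_, ?_⟩
    · exact (if_neg (hRP v hv)).trans (if_pos hv)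
    · exact (if_neg (hRP v hv)).trans (if_pos hv)
    · exact (if_neg (hRP v hv)).trans (if_pos hv)
  have ha3 : ∀ v ∈ C.P, e (C.a v) = 3 ∧ Av (C.a v) = -3 ∧ Bv (C.a v) = bb (C.a v) := by
    intro v hv
    rw [he, hAv, hBv]
    refine ⟨?_, ?_, ?_⟩
    · exact (if_neg (haP v hv)).trans (if_neg (hC.aR v hv))
    · exact (if_neg (haP v hv)).trans (if_neg (hC.aR v hv))
    · exact (if_neg (haP v hv)).trans (if_neg (hC.aR v hv))
  have hmemP : ∀ v ∈ C.P, v ∈ C.S := fun v hv => Finset.mem_union_left _ hv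
  have hmemA : ∀ v ∈ C.P, C.a v ∈ C.S := fun v hv =>
    Finset.mem_union_right _ (Finset.mem_union_left _ (Finset.mem_image_of_mem _ hv))
  have hmemR : ∀ v ∈ C.R, v ∈ C.S := fun v hv =>
    Finset.mem_union_right _ (Finset.mem_union_right _ hv)
  have hcl : ∀ v ∈ C.S, dsc (Av v) (Bv v) ∉ v.asIdeal ^ e v := by
    intro v hv
    have hpr := v.isPrime
    rcases Finset.mem_union.1 hv with hv | hv
    · obtain ⟨e1, e2, e3⟩ := hP3 v hv
      rw [e1, e2, e3]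
      have h2 := (hC.mem2 v).1 hv
      have e4 : dsc (16 : 𝓞 K) 16 = 91 * 2 ^ 8 := by
        unfold dsc
        norm_num
      rw [e4]
      refine Fq_mul ?_ (fun h => Fq_pow h2 (hC.sq2 v hv) 8 (Ideal.pow_le_pow_right (by norm_num) h))
      intro h
      apply hpr.ne_top
      rw [Ideal.eq_top_iff_one]
      have e5 : (1 : 𝓞 K) = 91 - 45 * 2 := by norm_num
      rw [e5]
      exact sub_mem h (Ideal.mul_mem_left _ _ h2)
    · rcases Finset.mem_union.1 hv with hv | hv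
      · obtain ⟨v', hv', rfl⟩ := Finset.mem_image.1 hv
        obtain ⟨e1, e2, e3⟩ := ha3 v' hv'
        rw [e1, e2, e3]
        exact (hbb _ (hC.a6 v' hv')).1
      · obtain ⟨e1, e2, e3⟩ := hR3 v hv
        rw [e1, e2, e3, pow_one]
        have h2 := hC.R2 v hv
        by_cases h6 : (6 : 𝓞 K) ∈ v.asIdeal
        · have h3 : (3 : 𝓞 K) ∈ v.asIdeal := by
            have h7 : (2 : 𝓞 K) * 3 ∈ v.asIdeal := by
              rw [show (2 : 𝓞 K) * 3 = 6 by norm_num]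
              exact h6
            exact (hpr.mem_or_mem h7).resolve_left h2
          intro h
          have h8 : (2 : 𝓞 K) ^ 2 ∈ v.asIdeal := by
            have e8 : (2 : 𝓞 K) ^ 2 = 3 * (9 * b v ^ 2) - dsc (-1) (b v) := by
              unfold dsc
              ring
            rw [e8]
            exact sub_mem (v.asIdeal.mul_mem_right _ h3) h
          exact h2 (hpr.mem_of_pow_mem 2 h8)
        · refine H30PN.nort_dsc' h6 ?_
          intro t ht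
          apply hb v t
          have e9 : t ^ 3 - t + b v = t ^ 3 + -1 * t + b v := by ring
          rw [e9]
          exact ht
  obtain ⟨m, E, A₀, B₀, hm, hE, h1, h2, h3⟩ := Fq_cls (S := C.S) (R := ∅)
    (fun v hv => hmemP v ((hC.mem2 v).2 hv)) (fun v hv => absurd hv (Finset.notMem_empty v))
    e Av Bv hcl
  have hE2 : 2 ≤ E := by
    by_contra hcon
    have hE1 : E = 1 := by omega
    obtain ⟨v, hv⟩ := Fq_exists_two K
    have hvP : v ∈ C.P := (hC.mem2 v).2 hv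
    obtain ⟨e1, e2, e3⟩ := hP3 v hvP
    have h4 := (h3 A₀ B₀ (by rw [sub_self]; exact Ideal.zero_mem _)
      (by rw [sub_self]; exact Ideal.zero_mem _)).1 v (hmemP v hvP)
    rw [e1, e2, e3] at h4
    have h16 : (16 : 𝓞 K) ∈ v.asIdeal := by
      have e5 : (16 : 𝓞 K) = 8 * 2 := by norm_num
      rw [e5]
      exact Ideal.mul_mem_left _ _ hv
    have hA : A₀ ∈ v.asIdeal := by
      have h5 := add_mem (Ideal.pow_le_self (by norm_num) h4.1) h16
      rwa [sub_add_cancel] at h5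
    have hB : B₀ ∈ v.asIdeal := by
      have h5 := add_mem (Ideal.pow_le_self (by norm_num) h4.2) h16
      rwa [sub_add_cancel] at h5
    apply (h1 v (hmemP v hvP)).2
    rw [hE1, pow_one]
    have e6 : dsc A₀ B₀ = (4 * A₀ ^ 2) * A₀ + (27 * B₀) * B₀ := by
      unfold dsc
      ring
    rw [e6]
    exact add_mem (Ideal.mul_mem_left _ _ hA) (Ideal.mul_mem_left _ _ hB)
  refine ⟨m, E, A₀, B₀, hm, hE2, h1, h2, ?_⟩
  intro q₀ T A B hA hB hpos hF
  have h5 := (h3 A B hA hB).1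
  refine ⟨?_, ?_, ?_, hF.irr, hF.typ, hF.sqf, ?_⟩
  · intro v hv
    have h6 := h5 v (hmemP v hv)
    obtain ⟨e1, e2, e3⟩ := hP3 v hv
    rw [e1, e2, e3] at h6
    exact h6
  · intro v hv
    have h6 := h5 (C.a v) (hmemA v hv)
    obtain ⟨e1, e2, e3⟩ := ha3 v hv
    rw [e1, e2, e3] at h6
    exact (hbb _ (hC.a6 v hv)).2 A B h6.1 h6.2
  · intro v hv t ht
    have h6 := h5 v (hmemR v hv)
    obtain ⟨e1, e2, e3⟩ := hR3 v hv
    rw [e1, e2, e3, pow_one] at h6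
    apply hb v t
    have e7 : t ^ 3 - t + b v = (t ^ 3 + A * t + B) - t * (A - (-1)) - (B - b v) := by ring
    rw [e7]
    exact sub_mem (sub_mem ht (Ideal.mul_mem_left _ _ h6.1)) h6.2
  · intro s
    have e0 : algebraMap (𝓞 K) K (dsc A B) = 4 * (A : K) ^ 3 + 27 * (B : K) ^ 2 := by
      unfold dsc
      rw [map_add, map_mul, map_mul, map_pow, map_pow, map_ofNat, map_ofNat]
    have e1 : s ((dsc A B : 𝓞 K) : K) = 4 * s (A : K) ^ 3 + 27 * s (B : K) ^ 2 := by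
      refine (congrArg s e0).trans ?_
      rw [map_add, map_mul, map_mul, map_pow, map_pow, map_ofNat, map_ofNat]
    rw [e1]
    have h7 := hpos s
    positivity

end H76MQ
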