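import Pool.Agent.H76.MQ.Sc
import Pool.Agent.H76.MQ.Fq
import Pool.Agent.H36.MX.Ce

/-!
Final counting for the project MP_78d38b_MQT: a positive proportion of the pairs satisfies the conclusion of
`main_local` for all twists (no row, proved; modification of `H30ZO.main_B3`).
-/

set_option autoImplicit false
set_option linter.unusedSectionVars false
open scoped Classical

open WithZero NumberField IsDedekindDomain H38RT
open H38T1 (SC sc scu rep eo la si Pri OddP tp unif ka)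
open H76PP

namespace H76MQ

theorem good_not_bad {K : Type} [Field K] [NumberField K]
    {S T₁ T : Finset (HeightOneSpectrum (𝓞 K))} (hT : T₁ ⊆ T) {b : ℕ} {A B : 𝓞 K}
    (hG : GoodSt S T₁ b A B) : ¬ H36MT.BadS S T A B := by
  rintro ⟨L, _, _, _, θ, c, hL, hc, hn, heo, hla⟩
  obtain ⟨_, _, hφ⟩ := hG L θ hL
  let _ : Module (ZMod 2) (SC L) := AddCommGroup.zmodModule fun x => H38T1.SC.two_smul x
  have h1 : ∃ φ : SC L →+ ZMod 2, φ c ≠ 0 := by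
    by_contra hcon
    push Not at hcon
    exact hc ((Module.forall_dual_apply_eq_zero_iff (ZMod 2) c).1 fun φ => hcon φ.toAddMonoidHom)
  obtain ⟨φ, hφc⟩ := h1
  obtain ⟨v, hv, hv'⟩ := hφ φ
  have hcH : c ∈ (HH K S : AddSubgroup (SC L)) := ⟨hn, heo⟩
  obtain ⟨w, hw⟩ : ∃ w : HeightOneSpectrum (𝓞 L), dn K w = v := exists_above (L := L) v
  apply hφc
  rw [← hv' c hcH w hw]
  exact hla w (by rw [hw]; exact hT hv)

theorem final_count (K : Type) [Field K] [NumberField K] {C : Cfg K} (hC : C.Ok)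
    {Z : Set (HeightOneSpectrum (𝓞 K))} (hZ : Z.Infinite) :
    ∃ (Sg : Finset (HeightOneSpectrum (𝓞 K))) (c X₀ : ℝ), C.S ⊆ Sg ∧
      (∀ v ∈ Sg, v ∈ C.S ∨ v ∈ Z) ∧ 0 < c ∧ ∀ X : ℝ, X₀ ≤ X →
      ∃ G : Finset (𝓞 K × 𝓞 K),
        (∀ p ∈ G, p ∈ Bx K X ∧ (∀ s : K →+* ℝ, 0 < s (p.1 : K)) ∧
          ∀ d : 𝓞 K, TwOk C d → H36MT.RelG K Sg (d ^ 2 * p.1) (d ^ 3 * p.2)) ∧
        (∀ p ∈ G, ∀ q ∈ G, p.1 ^ 3 * q.2 ^ 2 = q.1 ^ 3 * p.2 ^ 2 → p = q) ∧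
        c * ((Bx K X).ncard : ℝ) ≤ (G.card : ℝ) := by
  have H : Blocks K := blocks_of_HR2 K fun h hd => hr2 h hd
  obtain ⟨m, e, A₀, B₀, hm0, he, hmS, hm, hcls⟩ := exists_class hC
  have hSv : ∀ v : HeightOneSpectrum (𝓞 K), (2 : 𝓞 K) ∈ v.asIdeal → v ∈ C.S := fun v hv =>
    Finset.mem_union_left _ ((hC.mem2 v).2 hv)
  obtain ⟨m', hm'0, hm't, hm'm, hm'S, -⟩ := H36MT.exists_mod hm0 C.S
  obtain ⟨Z', hZ'Z, hZ', hZ'm, hZr⟩ := H30CY.aux_set_in K hm'0 hZ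
  have hmZ : ∀ v ∈ Z', ¬ m ≤ v.asIdeal ∧ (6 : 𝓞 K) ∉ v.asIdeal := fun v hv =>
    ⟨fun h => (hZ'm v hv).1 (hm'm.trans h), (hZ'm v hv).2⟩
  have hS6 : ∀ v : HeightOneSpectrum (𝓞 K), ¬ m ≤ v.asIdeal → v ∉ C.S := by
    intro v hv hvS
    exact hv ((hmS v hvS).1.trans (Ideal.pow_le_self (by omega)))
  obtain ⟨q₀, T, b, k, c, X₀, hq₀, hT, hdis, hk0, hk, hc, hmain⟩ :=
    H36MX.count_main K hSv he hZ' hm0 hmZ hmS hm (2 * C.P.card)
  obtain ⟨Ta, hTa⟩ : ∃ Ta : Finset (HeightOneSpectrum (𝓞 K)), Ta = (Finset.range k).biUnion T :=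
    ⟨_, rfl⟩
  rw [← hTa] at hmain
  have hTa' : ∀ v ∈ Ta, v ∈ Z' ∧ v ≠ q₀ := by
    intro v hv
    rw [hTa, Finset.mem_biUnion] at hv
    obtain ⟨l, -, hl⟩ := hv
    exact hT l v hl
  have hT0 : T 0 ⊆ Ta := by
    intro v hv
    rw [hTa, Finset.mem_biUnion]
    exact ⟨0, Finset.mem_range.2 hk0, hv⟩
  obtain ⟨c', X₁, hc', h⟩ := H30CY.count_genS H (S := C.S) (e := e) (q₀ := q₀) (T := Ta) (m' := m')
    (fun J hJ => H36MT.exists_twistS hm'0 hm't hm'S (hZ'm q₀ hq₀).1 fun p hp =>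
      hZr q₀ hq₀ p (hTa' p (hJ hp)).1 (hTa' p (hJ hp)).2)
    (fun p => (p.1 - A₀ ∈ m ∧ p.2 - B₀ ∈ m ∧ ∀ s : K →+* ℝ, 0 < s (p.1 : K)) ∧
      ∀ l < k, GoodSt (C.S ∪ (Finset.range l).biUnion T) (T l) (b l) p.1 p.2)
    (fun p => (∀ s : K →+* ℝ, 0 < s (p.1 : K)) ∧ ∀ d : 𝓞 K, TwOk C d →
      H36MT.RelG K (C.S ∪ insert q₀ Ta) (d ^ 2 * p.1) (d ^ 3 * p.2)) hc (by
      intro X hX
      refine (hmain X hX).trans ?_
      have hfin : {p : 𝓞 K × 𝓞 K | p ∈ Bx K X ∧ H36MT.FamS C.S e q₀ Ta p.1 p.2 ∧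
          ((p.1 - A₀ ∈ m ∧ p.2 - B₀ ∈ m ∧ ∀ s : K →+* ℝ, 0 < s (p.1 : K)) ∧
          ∀ l < k, GoodSt (C.S ∪ (Finset.range l).biUnion T) (T l) (b l) p.1 p.2) ∧
          ¬ H36MT.BadS C.S Ta p.1 p.2}.Finite := (H.fin X).subset fun p hp => hp.1
      refine Nat.cast_le.2 (Set.ncard_le_ncard ?_ hfin)
      rintro p ⟨h1, h2, h3, h4⟩
      refine ⟨h1, h2, ⟨h3, h4⟩, ?_⟩
      have h5 := h4 0 hk0
      rw [Finset.range_zero, Finset.biUnion_empty, Finset.union_empty] at h5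
      exact good_not_bad hT0 h5)
    (by
      rintro p hF ⟨hP, hG⟩ -
      have hFQ := hcls q₀ Ta p.1 p.2 hP.1 hP.2.1 hP.2.2 hF
      rw [hTa] at hFQ
      obtain ⟨J, hJ, hg⟩ := main_local hC (hS6 q₀ (hmZ q₀ hq₀).1) hk0 T b
        (fun i _ j _ hij => hdis i j hij)
        (fun v hv => by
          rw [← hTa] at hv
          exact ⟨hS6 v (hmZ v (hTa' v hv).1).1, (hTa' v hv).2⟩) hFQ hG hk
      rw [← hTa] at hJ hg
      refine ⟨J, hJ, fun D hDm hD => ⟨?_, ?_⟩⟩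
      · intro s
        change 0 < s ((D ^ 2 * p.1 : 𝓞 K) : K)
        have e1 : ((D ^ 2 * p.1 : 𝓞 K) : K) = (D : K) ^ 2 * (p.1 : K) := by push_cast; rfl
        rw [e1, map_mul, map_pow]
        exact mul_pos (pow_pos (hD.pos s) 2) (hP.2.2 s)
      · intro d hd
        have h1 := hg D hD d hd (C.S ∪ insert q₀ Ta) Finset.subset_union_left
          ((Finset.subset_insert _ _).trans Finset.subset_union_right)
          (Finset.mem_union_right _ (Finset.mem_insert_self _ _))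
        have e1 : d ^ 2 * (D ^ 2 * p.1) = (D * d) ^ 2 * p.1 := by ring
        have e2 : d ^ 3 * (D ^ 3 * p.2) = (D * d) ^ 3 * p.2 := by ring
        change H36MT.RelG K (C.S ∪ insert q₀ Ta) (d ^ 2 * (D ^ 2 * p.1)) (d ^ 3 * (D ^ 3 * p.2))
        rw [e1, e2]
        exact h1)
  refine ⟨C.S ∪ insert q₀ Ta, c', X₁, Finset.subset_union_left, fun v hv => ?_, hc', h⟩
  rcases Finset.mem_union.1 hv with h1 | h1
  · exact Or.inl h1
  · right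
    rcases Finset.mem_insert.1 h1 with h2 | h2
    · rw [h2]
      exact hZ'Z hq₀
    · exact hZ'Z (hTa' v h2).1

end H76MQ
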