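import Pool.Agent.H76.MQ.Df
import Pool.Agent.H54.MT.La

/-!
ROW Gg (project MP_78d38b_MQT, about 200 lines): symbols at a place `v` with two unramified places above it, the first of degree one.

gg_la1: `u` of even order at `v`; multiply by an even power of a uniformizer: `u` a unit. `la v (sc u) = 0` iff `u` is a square modulo `v` (`H38T1.la_sc`, `lam_unit`), the same at `w₁`
(`h2.ord1`: the valuation of `algebraMap x` at `w₁` is that of `x` at `v`). If `z^2 ≡ u` modulo `w₁`, `z ∈ L` integral at `w₁`, then `z ≡ x ∈ K` by `h2.res1`, so `x^2 ≡ u` modulo `v`.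
gg_tp1: `la w₁ (sc (algebraMap x)) = la v (sc x) + eo v (sc x) * κ` with `κ = la w₁ (sc (algebraMap (unif v)))` (write `x = unif v ^ n * u`, use gg_la1 for `u`, `la v (unif v) = 0`); insert into the
definition of `tp`; the two `κ` terms cancel (also `la w₁ (sc (-1)) = la v (sc (-1))` by gg_la1).
gg_la2: `u` of even order, `π = unif v`: `hR.proj` (sum over the two places, see `H36MT.TjS_la`): `tp_{w₁}(u, π) + tp_{w₂}(u, π) = tp_v (u^3, π) = tp_v (u, π) = la_v u`; the first is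
`la_{w₁} u = la_v u` (`eo_w π = 1`), so the second, `la_{w₂} u`, is zero.
gg_eo1: choose `u : K` with `v.valuation u = 1`, not a square modulo `v` (`H38RT.exists_nonsq` or the finite residue field of odd characteristic, `FiniteField.exists_nonsquare`):
`0 = tp_v (N y, u) = tp_{w₁}(y, u) + tp_{w₂}(y, u) = eo_{w₁} y * 1 + eo_{w₂} y * la_{w₂} u = eo_{w₁} y`.
gg_la12: `0 = tp_v (N y, π) = tp_{w₁}(y, π) + tp_{w₂}(y, π) = la_{w₁} y + la_{w₂} y`.
-/

set_option autoImplicit false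
set_option linter.unusedSectionVars false
open scoped Classical

open WithZero NumberField IsDedekindDomain H38RT
open H38T1 (SC sc scu rep eo la si Pri OddP tp unif ka)
open H76PP

namespace H76MQ

open H54MT

variable {K L : Type} [Field K] [NumberField K] [Field L] [NumberField L] [Algebra K L]

theorem Gg_unif_ne (v : HeightOneSpectrum (𝓞 K)) : unif v ≠ 0 := by
  intro h
  have h1 := H38T1.unif_spec v
  rw [h, map_zero] at h1
  exact exp_ne_zero h1.symm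

theorem Gg_ord_unif (v : HeightOneSpectrum (𝓞 K)) : ord (v.valuation K) (unif v) = 1 := by
  unfold ord
  rw [H38T1.unif_spec]
  simp

theorem Gg_exp {v : HeightOneSpectrum (𝓞 K)} {x : K} (hx : x ≠ 0) :
    v.valuation K x = exp (-ord (v.valuation K) x) := by
  unfold ord
  rw [neg_neg, WithZero.exp_log ((Valuation.ne_zero_iff _).2 hx)]

theorem Gg_val {v : HeightOneSpectrum (𝓞 K)} {w₁ w₂ : HeightOneSpectrum (𝓞 L)}
    (h2 : TwG K v w₁ w₂) (x : K) : w₁.valuation L (algebraMap K L x) = v.valuation K x := by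
  by_cases hx : x = 0
  · rw [hx, map_zero, map_zero, map_zero]
  · have hx' : algebraMap K L x ≠ 0 := (map_ne_zero _).2 hx
    rw [Gg_exp hx', Gg_exp hx, h2.ord1 x hx]

theorem Gg_odd1 {v : HeightOneSpectrum (𝓞 K)} (hv : OddP v) {w₁ w₂ : HeightOneSpectrum (𝓞 L)}
    (h2 : TwG K v w₁ w₂) : OddP w₁ := by
  rw [oddP_dn (K := K), h2.dn1]
  exact hv

theorem Gg_odd2 {v : HeightOneSpectrum (𝓞 K)} (hv : OddP v) {w₁ w₂ : HeightOneSpectrum (𝓞 L)}
    (h2 : TwG K v w₁ w₂) : OddP w₂ := by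
  rw [oddP_dn (K := K), h2.dn2]
  exact hv

theorem Gg_sq {v : HeightOneSpectrum (𝓞 K)} {w₁ w₂ : HeightOneSpectrum (𝓞 L)}
    (h2 : TwG K v w₁ w₂) {u : K} (hu : v.valuation K u = 1) :
    Sq (w₁.valuation L) (algebraMap K L u) ↔ Sq (v.valuation K) u := by
  constructor
  · rintro ⟨t, ht⟩
    have h1 : w₁.valuation L (t ^ 2) ≤ 1 := by
      have e1 : t ^ 2 = algebraMap K L u - (algebraMap K L u - t ^ 2) := by ring
      rw [e1]
      refine (Valuation.map_sub _ _ _).trans (max_le ?_ ht.le)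
      rw [Gg_val h2, hu]
    have h3 : w₁.valuation L t ≤ 1 := by
      by_contra hc
      rw [map_pow] at h1
      exact absurd (one_lt_pow₀ (not_le.1 hc) two_ne_zero) (not_lt.2 h1)
    obtain ⟨x, hx, hx'⟩ := h2.res1 t h3
    refine ⟨x, ?_⟩
    have hx2 : w₁.valuation L (algebraMap K L x) ≤ 1 := by
      rw [Gg_val h2]
      exact hx
    rw [← Gg_val h2, map_sub, map_pow]
    have e2 : algebraMap K L u - algebraMap K L x ^ 2 =
        (algebraMap K L u - t ^ 2) + (t - algebraMap K L x) * (t + algebraMap K L x) := by ring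
    rw [e2]
    refine (Valuation.map_add _ _ _).trans_lt (max_lt ht ?_)
    rw [map_mul]
    refine (mul_le_of_le_one_right' ?_).trans_lt hx'
    exact (Valuation.map_add _ _ _).trans (max_le h3 hx2)
  · rintro ⟨t, ht⟩
    refine ⟨algebraMap K L t, ?_⟩
    rw [← map_pow, ← map_sub, Gg_val h2]
    exact ht

theorem gg_la1 {v : HeightOneSpectrum (𝓞 K)} (hv : OddP v) {w₁ w₂ : HeightOneSpectrum (𝓞 L)}
    (h2 : TwG K v w₁ w₂) {u : K} (hu : u ≠ 0) (h0 : eo v (sc u) = 0) :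
    la w₁ (sc (algebraMap K L u)) = la v (sc u) := by
  have hw := Gg_odd1 hv h2
  have hπ := Gg_unif_ne v
  rw [H38T1.eo_sc hu, ZMod.intCast_zmod_eq_zero_iff_dvd] at h0
  obtain ⟨k, hk⟩ := h0
  set s : K := unif v ^ (-k) with hs
  have hs0 : s ≠ 0 := zpow_ne_zero _ hπ
  have h1 : v.valuation K (u * s ^ 2) = 1 := by
    rw [map_mul, map_pow, hs, map_zpow₀, H38T1.unif_spec, Gg_exp hu, hk, ← exp_zsmul, ← exp_nsmul,
      ← exp_add, ← exp_zero]
    congr 1
    simp only [smul_eq_mul, nsmul_eq_mul]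
    push_cast
    ring
  have hus : u * s ^ 2 ≠ 0 := mul_ne_zero hu (pow_ne_zero 2 hs0)
  have h3 : sc (u * s ^ 2) = sc u := by
    rw [H38T1.sc_mul hu (pow_ne_zero 2 hs0), H54MT.sc_sq hs0, add_zero]
  have h4 : sc (algebraMap K L (u * s ^ 2)) = sc (algebraMap K L u) := by
    have hs1 : algebraMap K L s ≠ 0 := (map_ne_zero _).2 hs0
    have hu1 : algebraMap K L u ≠ 0 := (map_ne_zero _).2 hu
    rw [map_mul, map_pow, H38T1.sc_mul hu1 (pow_ne_zero 2 hs1), H54MT.sc_sq hs1, add_zero]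
  rw [← h3, ← h4, H38T1.la_sc hv hus, H38T1.la_sc hw ((map_ne_zero _).2 hus), lam_unit h1,
    lam_unit (by rw [Gg_val h2, h1])]
  simp only [Gg_sq h2 h1]

theorem Gg_la_unif {v : HeightOneSpectrum (𝓞 K)} (hv : OddP v) : la v (sc (unif v)) = 0 := by
  obtain ⟨q, d, ψ, hl⟩ := H38T1.loc_of v
  rw [H38T1.la_sc hv (Gg_unif_ne v), lam_pi hl]

theorem Gg_eo_unif (v : HeightOneSpectrum (𝓞 K)) : eo v (sc (unif v)) = 1 := by
  rw [H38T1.eo_sc (Gg_unif_ne v), Gg_ord_unif, Int.cast_one]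

theorem Gg_eo1 {v : HeightOneSpectrum (𝓞 K)} {w₁ w₂ : HeightOneSpectrum (𝓞 L)}
    (h2 : TwG K v w₁ w₂) {x : K} (hx : x ≠ 0) : eo w₁ (sc (algebraMap K L x)) = eo v (sc x) := by
  rw [H38T1.eo_sc hx, H38T1.eo_sc ((map_ne_zero _).2 hx), h2.ord1 x hx]

theorem Gg_eo2 {v : HeightOneSpectrum (𝓞 K)} {w₁ w₂ : HeightOneSpectrum (𝓞 L)}
    (h2 : TwG K v w₁ w₂) {x : K} (hx : x ≠ 0) : eo w₂ (sc (algebraMap K L x)) = eo v (sc x) := by
  rw [H38T1.eo_sc hx, H38T1.eo_sc ((map_ne_zero _).2 hx), h2.ord2 x hx]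

theorem Gg_kappa {v : HeightOneSpectrum (𝓞 K)} (hv : OddP v) {w₁ w₂ : HeightOneSpectrum (𝓞 L)}
    (h2 : TwG K v w₁ w₂) {x : K} (hx : x ≠ 0) :
    la w₁ (sc (algebraMap K L x)) =
      la v (sc x) + eo v (sc x) * la w₁ (sc (algebraMap K L (unif v))) := by
  have hw := Gg_odd1 hv h2
  have hπ := Gg_unif_ne v
  have e3 : ∀ e : ZMod 2, e = 0 ∨ e = 1 := by decide
  rcases e3 (eo v (sc x)) with h | h
  · rw [gg_la1 hv h2 hx h, h, zero_mul, add_zero]
  · have h3 : eo v (sc (x * unif v)) = 0 := by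
      rw [H38T1.sc_mul hx hπ, H38T1.eo_add, h, Gg_eo_unif]
      decide
    have h4 := gg_la1 hv h2 (mul_ne_zero hx hπ) h3
    rw [map_mul, H38T1.sc_mul ((map_ne_zero _).2 hx) ((map_ne_zero _).2 hπ), H38T1.la_add hw,
      H38T1.sc_mul hx hπ, H38T1.la_add hv, Gg_la_unif hv, add_zero] at h4
    rw [h, one_mul]
    have e4 : ∀ a b c : ZMod 2, a + b = c → a = c + b := by decide
    exact e4 _ _ _ h4

theorem gg_tp1 {v : HeightOneSpectrum (𝓞 K)} (hv : OddP v) {w₁ w₂ : HeightOneSpectrum (𝓞 L)}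
    (h2 : TwG K v w₁ w₂) {x y : K} (hx : x ≠ 0) (hy : y ≠ 0) :
    tp w₁ (sc (algebraMap K L x)) (sc (algebraMap K L y)) = tp v (sc x) (sc y) := by
  have h1 : la w₁ (sc (-1 : L)) = la v (sc (-1 : K)) := by
    have h3 : eo v (sc (-1 : K)) = 0 := by
      rw [H38T1.eo_sc (neg_ne_zero.2 one_ne_zero)]
      unfold ord
      rw [Valuation.map_neg, map_one, log_one, neg_zero, Int.cast_zero]
    have h4 := gg_la1 hv h2 (neg_ne_zero.2 one_ne_zero) h3
    rwa [map_neg, map_one] at h4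
  unfold H38T1.tp
  rw [Gg_eo1 h2 hx, Gg_eo1 h2 hy, h1, Gg_kappa hv h2 hx, Gg_kappa hv h2 hy]
  generalize eo v (sc x) = a
  generalize eo v (sc y) = b
  generalize la v (sc x) = c
  generalize la v (sc y) = d
  generalize la w₁ (sc (algebraMap K L (unif v))) = e
  generalize la v (sc (-1 : K)) = f
  revert a b c d e f
  decide

theorem gg_sum {v : HeightOneSpectrum (𝓞 K)} {w₁ w₂ : HeightOneSpectrum (𝓞 L)}
    (h2 : TwG K v w₁ w₂) (g : HeightOneSpectrum (𝓞 L) → ZMod 2) :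
    ∑ᶠ w : {w : HeightOneSpectrum (𝓞 L) // dn K w = v}, g w.1 = g w₁ + g w₂ := by
  rw [← finsum_mem_pair (f := g) h2.ne, finsum_subtype_eq_finsum_cond (f := g)]
  refine finsum_congr fun w => ?_
  have hw : (dn K w = v) ↔ w ∈ ({w₁, w₂} : Set (HeightOneSpectrum (𝓞 L))) := by
    constructor
    · intro h
      rcases h2.only w h with h | h
      · exact Or.inl h
      · exact Or.inr h
    · rintro (h | h)
      · rw [h]
        exact h2.dn1
      · rw [Set.mem_singleton_iff.1 h]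
        exact h2.dn2
  rw [finsum_congr_Prop (propext hw) fun _ => rfl]

theorem Gg_cube {u : K} (hu : u ≠ 0) : sc (u ^ 3) = sc u := by
  have h1 : u ^ 3 = u ^ 2 * u := by ring
  rw [h1, H38T1.sc_mul (pow_ne_zero 2 hu) hu, H54MT.sc_sq hu, zero_add]

theorem gg_la2 {A B : 𝓞 K} {θ : L} (hR : HR2 K L A B θ) {v : HeightOneSpectrum (𝓞 K)}
    (hv : OddP v) {w₁ w₂ : HeightOneSpectrum (𝓞 L)} (h2 : TwG K v w₁ w₂)
    (h3 : Module.finrank K L = 3) {u : K} (hu : u ≠ 0)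
    (h0 : eo v (sc u) = 0) : la w₂ (sc (algebraMap K L u)) = 0 := by
  have hπ := Gg_unif_ne v
  have h4 := hR.proj hv (u := algebraMap K L u) ((map_ne_zero _).2 hu) hπ
  rw [gg_sum h2 (fun w => tp w (sc (algebraMap K L u)) (sc (algebraMap K L (unif v)))),
    gg_tp1 hv h2 hu hπ, Algebra.norm_algebraMap, h3, Gg_cube hu] at h4
  have h5 : tp w₂ (sc (algebraMap K L u)) (sc (algebraMap K L (unif v))) = 0 :=
    add_eq_left.1 h4
  unfold H38T1.tp at h5
  rw [Gg_eo2 h2 hu, h0, Gg_eo2 h2 hπ, Gg_eo_unif] at h5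
  have e3 : ∀ a b c : ZMod 2, 0 * a + 1 * b + 0 * 1 * c = 0 → b = 0 := by decide
  exact e3 _ _ _ h5

theorem Gg_tp0 {v : HeightOneSpectrum (𝓞 K)} (hv : OddP v) {y : L} (hy : y ≠ 0)
    (hN : IsSquare (Algebra.norm K y)) (c : SC K) : tp v (sc (Algebra.norm K y)) c = 0 := by
  rw [(H38T1.sc_eq_zero ((Algebra.norm_ne_zero_iff (R := K)).2 hy)).2 hN]
  unfold H38T1.tp
  rw [H38T1.eo_zero, H38T1.la_zero hv]
  ring

theorem gg_eo1 {A B : 𝓞 K} {θ : L} (hR : HR2 K L A B θ) {v : HeightOneSpectrum (𝓞 K)}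
    (hv : OddP v) {w₁ w₂ : HeightOneSpectrum (𝓞 L)} (h2 : TwG K v w₁ w₂)
    (h3 : Module.finrank K L = 3) {y : L} (hy : y ≠ 0)
    (hN : IsSquare (Algebra.norm K y)) : eo w₁ (sc y) = 0 := by
  obtain ⟨q, d, ψ, hl⟩ := H38T1.loc_of v
  obtain ⟨u, hu, hu'⟩ := exists_nonsq hl hv
  have hu0 : u ≠ 0 := by
    rintro rfl
    rw [map_zero] at hu
    exact zero_ne_one hu
  have he : eo v (sc u) = 0 := by
    rw [H38T1.eo_sc hu0]
    unfold ord
    rw [hu, log_one, neg_zero, Int.cast_zero]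
  have hla : la v (sc u) = 1 := by
    rw [H38T1.la_sc hv hu0, lam_unit hu, if_neg hu']
  have h4 := hR.proj hv hy hu0
  rw [gg_sum h2 (fun w => tp w (sc y) (sc (algebraMap K L u))), Gg_tp0 hv hy hN] at h4
  unfold H38T1.tp at h4
  rw [Gg_eo1 h2 hu0, Gg_eo2 h2 hu0, he, gg_la1 hv h2 hu0 he, hla,
    gg_la2 hR hv h2 h3 hu0 he] at h4
  have e3 : ∀ a b c d e f : ZMod 2, (a * 1 + 0 * b + a * 0 * c) + (d * 0 + 0 * e + d * 0 * f) = 0 →
    a = 0 := by decide
  exact e3 _ _ _ _ _ _ h4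

theorem gg_la12 {A B : 𝓞 K} {θ : L} (hR : HR2 K L A B θ) {v : HeightOneSpectrum (𝓞 K)}
    (hv : OddP v) {w₁ w₂ : HeightOneSpectrum (𝓞 L)} (h2 : TwG K v w₁ w₂)
    (h3 : Module.finrank K L = 3) {y : L} (hy : y ≠ 0)
    (hN : IsSquare (Algebra.norm K y)) (h0 : eo w₂ (sc y) = 0) : la w₂ (sc y) = la w₁ (sc y) := by
  have hπ := Gg_unif_ne v
  have h1 := gg_eo1 hR hv h2 h3 hy hN
  have h4 := hR.proj hv hy hπ
  rw [gg_sum h2 (fun w => tp w (sc y) (sc (algebraMap K L (unif v)))), Gg_tp0 hv hy hN] at h4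
  unfold H38T1.tp at h4
  rw [Gg_eo1 h2 hπ, Gg_eo2 h2 hπ, h0, h1, Gg_eo_unif] at h4
  have e3 : ∀ a b c d e f : ZMod 2, (0 * a + 1 * b + 0 * 1 * c) + (0 * d + 1 * e + 0 * 1 * f) = 0 →
    e = b := by decide
  exact e3 _ _ _ _ _ _ h4

end H76MQ
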