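import Pool.Agent.H76.MQ.Df
import Pool.Agent.H36.MT.Td

/-!
ROW Aa (project MP_78d38b_MQT, about 350 lines): the places above an auxiliary place.

Let `r` be as in AuxT. Taking `s = 0`: `3 r f(r) ∉ v^3` with `f(r) = r^3 + A r + B ∈ v^2`: so `r` is a unit at `v` and `ord_v f(r) = 2`. `A ≡ -3 r^2`, `B ≡ 2 r^3` modulo `v^2`. Let `π ∈ K` (or 𝓞 K) be a uniformizer at `v`,
`φ = (θ - r) / π`. From `f(r + π φ) = 0`: `π φ^3 + 3 r φ^2 + b φ + c₀ = 0` with `b = (3 r^2 + A)/π`, `v.valuation b < 1`, `c₀ = f(r)/π^2` a unit, and `- c₀ / (3 r)` is not a square modulo `v`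
(`- 3 r c₀` is not: if `x^2 ≡ -3 r c₀` modulo `v` then `s = π x` gives `3 r f(r) + s^2 ∈ v^3`).
`f ≡ (X - r)^2 (X + 2r)` modulo `v`, so every `w | v` contains `θ - r` or `θ + 2 r`, and not both (`3 r` is a unit). `N (r - θ) = f(r) ∈ v` and `N (-2r - θ) = f(-2r) ∈ v` (`-8 r^3 - 2 A r + B ≡ 0`), so both kinds occur
(if no `w | v` contained `r - θ` its norm would be a unit at `v`; e.g. `f(r)` is divisible by every `w | v`, use `(r - θ) * cof = f(r)` and the product over.. or `Ideal` norm; see how `exists_two` (H76/PP/Td.lean) finds its places).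
Let `w₂` contain `θ - r`. `w₂.valuation φ = 1`: if `> 1`, then `w₂(π φ) = w₂(θ - r) < 1`, so `3 r φ^2` has strictly larger valuation than the other three terms, impossible; if `< 1` then `c₀` dominates, impossible. Modulo `w₂`: `φ^2 ≡ - c₀/(3r)`,
not a square in the residue field of `v`, so the inertia degree of `w₂` over `v` is at least two (if it is one, `φ ≡ x ∈ K`). As `∑ e f = 3` (`Ideal.sum_ramification_inertia`, as in `exists_two` H76/PP/Td.lean) and there is a place `w₁` containing `θ + 2r`: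
exactly two places, `w₁` with `e = f = 1`, `w₂` with `e = 1, f = 2`. This gives TwG (ord1, ord2 from `e = 1`; res1 from `f = 1`).
nr: `v.valuation (x - r) < 1`: `x - θ = π ((x - r)/π - φ)`, `(x - r)/π` is `v`-integral and `φ` is not congruent to an element of `K` modulo `w₂`, so `w₂.valuation (x - θ) = w₂.valuation π = exp (-1)`.
r1, rt clear.
-/

set_option autoImplicit false
set_option linter.unusedSectionVars false
open scoped Classical

open WithZero NumberField IsDedekindDomain H38RT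
open H38T1 (SC sc scu rep eo la si Pri OddP tp unif ka)
open H76PP

namespace H76MQ

variable {K L : Type} [Field K] [NumberField K] [Field L] [NumberField L] [Algebra K L]

private theorem Aa_norm (v : HeightOneSpectrum (𝓞 K)) {u : L} (hu : u ≠ 0) :
    ord (v.valuation K) (Algebra.norm K u) =
      ∑ w ∈ (fin_above (L := L) v).toFinset,
        (w.asIdeal.inertiaDeg (𝓞 K) : ℤ) * ord (w.valuation L) u := by
  rw [ord_norm v hu, ← finsum_mem_eq_finite_toFinset_sum (fun w : HeightOneSpectrum (𝓞 L) =>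
      (w.asIdeal.inertiaDeg (𝓞 K) : ℤ) * ord (w.valuation L) u) (fin_above (L := L) v)]
  exact finsum_set_coe_eq_finsum_mem {w : HeightOneSpectrum (𝓞 L) | dn K w = v}
      (f := fun w => (w.asIdeal.inertiaDeg (𝓞 K) : ℤ) * ord (w.valuation L) u)

private theorem Aa_res {w : HeightOneSpectrum (𝓞 L)} (hf : w.asIdeal.inertiaDeg (𝓞 K) = 1) {y : L}
    (hy : w.valuation L y ≤ 1) : ∃ x : K, (dn K w).valuation K x ≤ 1 ∧
      w.valuation L (y - algebraMap K L x) < 1 := by
  have hm1 := w.isMaximal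
  have hm2 := (dn K w).isMaximal
  have hl : w.asIdeal.LiesOver (dn K w).asIdeal := ⟨rfl⟩
  rw [Ideal.inertiaDeg_eq_of_isMaximal (dn K w).asIdeal w.asIdeal] at hf
  obtain ⟨b, hb⟩ := w.exists_valuation_sub_lt_of_integer hy
    (Units.mk0 (1 : WithZero (Multiplicative ℤ)) one_ne_zero)
  have hb' : w.valuation L ((b : L) - y) < 1 := hb
  obtain ⟨c, hc⟩ := (finrank_eq_one_iff_of_nonzero' (1 : 𝓞 L ⧸ w.asIdeal) one_ne_zero).1 hf
    (Ideal.Quotient.mk _ b)
  obtain ⟨s, rfl⟩ := Ideal.Quotient.mk_surjective c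
  rw [Algebra.smul_def, mul_one] at hc
  have hc' : Ideal.Quotient.mk w.asIdeal (algebraMap (𝓞 K) (𝓞 L) s) = Ideal.Quotient.mk w.asIdeal b := hc
  have h1 : b - algebraMap (𝓞 K) (𝓞 L) s ∈ w.asIdeal := Ideal.Quotient.eq.1 hc'.symm
  have h2 : w.valuation L (algebraMap (𝓞 L) L (b - algebraMap (𝓞 K) (𝓞 L) s)) < 1 :=
    (w.valuation_lt_one_iff_mem (K := L) _).2 h1
  refine ⟨(s : K), (dn K w).valuation_le_one s, ?_⟩
  have h3 : y - algebraMap K L (s : K) =
      algebraMap (𝓞 L) L (b - algebraMap (𝓞 K) (𝓞 L) s) - ((b : L) - y) := by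
    rw [map_sub (algebraMap (𝓞 L) L)]
    change y - algebraMap K L (s : K) = (b : L) - algebraMap K L (s : K) - ((b : L) - y)
    ring
  rw [h3]
  exact (Valuation.map_sub _ _ _).trans_lt (max_lt h2 hb')

private theorem Aa_lt {w : HeightOneSpectrum (𝓞 L)} {x : K}
    (h : w.valuation L (algebraMap K L x) < 1) : (dn K w).valuation K x < 1 := by
  by_contra hn
  rw [not_lt] at hn
  have hx : x ≠ 0 := by
    rintro rfl
    rw [map_zero] at hn
    exact absurd hn (not_le.2 zero_lt_one)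
  have h1 : (dn K w).valuation K x⁻¹ ≤ 1 := by
    rw [map_inv₀]
    exact inv_le_one_of_one_le₀ hn
  have h2 := val_le (w := w) h1
  rw [map_inv₀, map_inv₀] at h2
  have h0 : w.valuation L (algebraMap K L x) ≠ 0 :=
    (Valuation.ne_zero_iff _).2 ((map_ne_zero _).2 hx)
  have h3 : (1 : WithZero (Multiplicative ℤ)) < (w.valuation L (algebraMap K L x))⁻¹ :=
    (one_lt_inv₀ (zero_lt_iff.2 h0)).2 h
  exact absurd h2 (not_le.2 h3)

private theorem Aa_le_neg {x : WithZero (Multiplicative ℤ)} {m : ℤ} (h : x < exp (-m)) :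
    x ≤ exp (-(m + 1)) := by
  rcases eq_or_ne x 0 with rfl | h0
  · exact zero_le
  rw [← exp_log h0, exp_lt_exp] at h
  rw [← exp_log h0, exp_le_exp]
  omega

theorem exists_TwA {A B : 𝓞 K} {θ : L} (h : Cub K L (A : K) (B : K) θ)
    {v : HeightOneSpectrum (𝓞 K)} (h6 : (6 : 𝓞 K) ∉ v.asIdeal) (ht : AuxT v A B) :
    ∃ (w₁ w₂ : HeightOneSpectrum (𝓞 L)) (r : K), TwA K θ v w₁ w₂ r := by
  obtain ⟨r, hr1, hr2, hr3⟩ := ht
  -- the elements of `K`
  have hint : ∀ x : 𝓞 K, v.valuation K (x : K) ≤ 1 := fun x => v.valuation_le_one x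
  have hpow : ∀ (x : 𝓞 K) (n : ℕ), v.valuation K (x : K) ≤ exp (-(n : ℤ)) ↔ x ∈ v.asIdeal ^ n := by
    intro x n
    rw [← v.intValuation_le_pow_iff_mem, ← v.valuation_of_algebraMap (K := K)]
  obtain ⟨f, hf⟩ : ∃ f : 𝓞 K, f = r ^ 3 + A * r + B := ⟨_, rfl⟩
  obtain ⟨g, hg⟩ : ∃ g : 𝓞 K, g = 3 * r ^ 2 + A := ⟨_, rfl⟩
  rw [← hf] at hr2
  rw [← hf] at hr3
  rw [← hg] at hr1
  have hfK : (f : K) = (r : K) ^ 3 + (A : K) * (r : K) + (B : K) := by
    rw [hf]
    rfl
  have hgK : (g : K) = 3 * (r : K) ^ 2 + (A : K) := by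
    rw [hg]
    change algebraMap (𝓞 K) K (3 * r ^ 2 + A) = _
    rw [map_add, map_mul, map_pow, map_ofNat]
  have h3K : ((3 : 𝓞 K) : K) = 3 := by
    change algebraMap (𝓞 K) K 3 = 3
    rw [map_ofNat]
  have hvg : v.valuation K (g : K) ≤ exp (-(2 : ℤ)) := by
    have h1 := (hpow g 2).2 hr1
    exact_mod_cast h1
  have hvf1 : v.valuation K (f : K) ≤ exp (-(2 : ℤ)) := by
    have h1 := (hpow f 2).2 hr2
    exact_mod_cast h1
  have h3rf : exp (-(3 : ℤ)) < v.valuation K (3 * (r : K) * (f : K)) := by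
    have h1 := hr3 0
    rw [← hpow, not_le] at h1
    have h2 : ((3 * r * f + 0 ^ 2 : 𝓞 K) : K) = 3 * (r : K) * (f : K) := by
      change algebraMap (𝓞 K) K (3 * r * f + 0 ^ 2) = _
      rw [zero_pow two_ne_zero, add_zero, map_mul, map_mul, map_ofNat]
    rw [h2] at h1
    exact_mod_cast h1
  have hv3r1 : v.valuation K (3 * (r : K)) ≤ 1 := by
    rw [map_mul, ← h3K]
    exact mul_le_one' (hint 3) (hint r)
  have hf0 : v.valuation K (f : K) ≠ 0 := by
    intro h0
    rw [map_mul, h0, mul_zero] at h3rf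
    exact absurd h3rf (not_lt.2 zero_le)
  have hvf : v.valuation K (f : K) = exp (-(2 : ℤ)) := by
    refine le_antisymm hvf1 ?_
    rw [← not_lt]
    intro h1
    have h2 := Aa_le_neg h1
    rw [map_mul] at h3rf
    refine absurd h3rf (not_lt.2 ?_)
    exact (mul_le_of_le_one_left' hv3r1).trans h2
  have hv3r : v.valuation K (3 * (r : K)) = 1 := by
    refine le_antisymm hv3r1 ?_
    rw [← not_lt]
    intro h1
    have h2 : v.valuation K (3 * (r : K)) ≤ exp (-(1 : ℤ)) := by
      have h1' : v.valuation K (3 * (r : K)) < exp (-(0 : ℤ)) := by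
        rw [neg_zero, exp_zero]
        exact h1
      have h3 := Aa_le_neg h1'
      rwa [zero_add] at h3
    rw [map_mul, hvf] at h3rf
    refine absurd h3rf (not_lt.2 ?_)
    refine (mul_le_mul_left h2 _).trans ?_
    rw [← exp_add]
    norm_num
  have hv3 : v.valuation K (3 : K) = 1 ∧ v.valuation K (r : K) = 1 := by
    rw [map_mul] at hv3r
    have h1 := hint 3
    rw [h3K] at h1
    have h2 := hint r
    constructor
    · refine le_antisymm h1 ?_
      rw [← hv3r]
      exact mul_le_of_le_one_right' h2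
    · refine le_antisymm h2 ?_
      rw [← hv3r]
      exact mul_le_of_le_one_left' h1
  obtain ⟨hv3, hvr⟩ := hv3
  -- a uniformizer
  obtain ⟨ϖ, hϖ⟩ := v.valuation_exists_uniformizer K
  have hϖ' : v.valuation K ϖ = exp (-(1 : ℤ)) := hϖ
  have hϖ0 : ϖ ≠ 0 := by
    rintro rfl
    rw [map_zero] at hϖ'
    exact exp_ne_zero hϖ'.symm
  have hϖlt : v.valuation K ϖ < 1 := by
    rw [hϖ', ← exp_zero, exp_lt_exp]
    norm_num
  -- the non-square condition
  have hns : ∀ x : K, v.valuation K x ≤ 1 → ¬ v.valuation K (3 * (r : K) * (f : K) + x ^ 2) ≤ exp (-(3 : ℤ)) := by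
    intro x hx hcon
    obtain ⟨b, hb⟩ := v.exists_valuation_sub_lt_of_integer hx
      (Units.mk0 (exp (-(3 : ℤ)) : WithZero (Multiplicative ℤ)) exp_ne_zero)
    have hb' : v.valuation K ((b : K) - x) < exp (-(3 : ℤ)) := hb
    apply hr3 b
    rw [← hpow]
    have h2 : ((3 * r * f + b ^ 2 : 𝓞 K) : K) = (3 * (r : K) * (f : K) + x ^ 2) +
        ((b : K) - x) * ((b : K) + x) := by
      change algebraMap (𝓞 K) K (3 * r * f + b ^ 2) = _
      rw [map_add, map_mul, map_mul, map_ofNat, map_pow]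
      change 3 * (r : K) * (f : K) + (b : K) ^ 2 = _
      ring
    rw [h2]
    have h3 : v.valuation K ((b : K) + x) ≤ 1 :=
      (Valuation.map_add _ _ _).trans (max_le (hint b) hx)
    have h4 : v.valuation K (((b : K) - x) * ((b : K) + x)) ≤ exp (-(3 : ℤ)) := by
      rw [map_mul]
      exact (mul_le_of_le_one_right' h3).trans hb'.le
    have h5 := (Valuation.map_add (v.valuation K) (3 * (r : K) * (f : K) + x ^ 2)
      (((b : K) - x) * ((b : K) + x))).trans (max_le hcon h4)
    exact_mod_cast h5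
  -- elements of `L`
  obtain ⟨u, hu⟩ : ∃ u : L, u = θ - algebraMap K L (r : K) := ⟨_, rfl⟩
  have hequ : algebraMap K L (f : K) + algebraMap K L (g : K) * u +
      algebraMap K L (3 * (r : K)) * u ^ 2 + u ^ 3 = 0 := by
    rw [hfK, hgK, hu]
    simp only [map_add, map_mul, map_pow, map_ofNat]
    linear_combination h.root
  obtain ⟨θ', hθ'⟩ := theta_int h
  have hθw : ∀ w : HeightOneSpectrum (𝓞 L), w.valuation L θ ≤ 1 := by
    intro w
    rw [← hθ']
    exact w.valuation_le_one θ'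
  have hKw : ∀ (w : HeightOneSpectrum (𝓞 L)) (x : 𝓞 K), w.valuation L (algebraMap K L (x : K)) ≤ 1 := by
    intro w x
    exact val_le ((dn K w).valuation_le_one x)
  have huw : ∀ w : HeightOneSpectrum (𝓞 L), w.valuation L u ≤ 1 := by
    intro w
    rw [hu]
    exact (Valuation.map_sub _ _ _).trans (max_le (hθw w) (hKw w r))
  have hu0 : u ≠ 0 := by
    intro h0
    rw [h0] at hu
    have h1 := h.li (-(r : K)) 1 0 (by
      rw [map_neg, map_one, map_zero]
      linear_combination -hu)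
    exact one_ne_zero h1.2.1
  -- value of `u` at the places with `w u < 1`
  have hval : ∀ w : HeightOneSpectrum (𝓞 L), dn K w = v → w.valuation L u < 1 →
      w.valuation L u = w.valuation L (algebraMap K L ϖ) := by
    intro w hw hlt
    obtain ⟨a, ha⟩ : ∃ a, a = w.valuation L u := ⟨_, rfl⟩
    obtain ⟨p, hp⟩ : ∃ p, p = w.valuation L (algebraMap K L ϖ) := ⟨_, rfl⟩
    rw [← ha] at hlt
    rw [← ha, ← hp]
    have ha0 : a ≠ 0 := by
      rw [ha]
      exact (Valuation.ne_zero_iff _).2 hu0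
    have hp0 : p ≠ 0 := by
      rw [hp]
      exact (Valuation.ne_zero_iff _).2 ((map_ne_zero _).2 hϖ0)
    have hwf : w.valuation L (algebraMap K L (f : K)) = p ^ 2 := by
      have h1 : v.valuation K ((f : K) / ϖ ^ 2) = 1 := by
        rw [map_div₀, map_pow, hvf, hϖ', ← exp_nsmul]
        norm_num
      have h2 := val_one (w := w) (x := (f : K) / ϖ ^ 2) (by rw [hw]; exact h1)
      rw [map_div₀, map_div₀, map_pow, map_pow, ← hp, div_eq_one_iff_eq (pow_ne_zero 2 hp0)] at h2
      exact h2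
    have hwg : w.valuation L (algebraMap K L (g : K)) ≤ p ^ 2 := by
      have h1 : v.valuation K ((g : K) / ϖ ^ 2) ≤ 1 := by
        rw [map_div₀, map_pow, hϖ', ← exp_nsmul]
        have h2 : (exp (2 • -(1 : ℤ)) : WithZero (Multiplicative ℤ)) = exp (-(2 : ℤ)) := by norm_num
        rw [h2]
        exact div_le_one_of_le₀ hvg zero_le
      have h2 := val_le (w := w) (x := (g : K) / ϖ ^ 2) (by rw [hw]; exact h1)
      rw [map_div₀, map_div₀, map_pow, map_pow, ← hp] at h2
      have h3 : w.valuation L (algebraMap K L (g : K)) =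
          w.valuation L (algebraMap K L (g : K)) / p ^ 2 * p ^ 2 :=
        (div_mul_cancel₀ _ (pow_ne_zero 2 hp0)).symm
      rw [h3]
      exact mul_le_of_le_one_left' h2
    have hw3 : w.valuation L (algebraMap K L (3 * (r : K)) * u ^ 2) = a ^ 2 := by
      rw [map_mul, map_pow, ← ha, val_one (w := w) (x := 3 * (r : K)) (by rw [hw]; exact hv3r), one_mul]
    by_contra hne
    have hne2 : p ^ 2 ≠ a ^ 2 := by
      intro h1
      exact hne ((pow_left_inj₀ zero_le zero_le two_ne_zero).1 h1).symm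
    have h1 : w.valuation L (algebraMap K L (f : K) + algebraMap K L (3 * (r : K)) * u ^ 2) =
        max (p ^ 2) (a ^ 2) := by
      rw [Valuation.map_add_of_distinct_val _ (by rw [hwf, hw3]; exact hne2), hwf, hw3]
    have h2 : algebraMap K L (f : K) + algebraMap K L (3 * (r : K)) * u ^ 2 =
        -(u * (algebraMap K L (g : K) + u ^ 2)) := by
      linear_combination hequ
    rw [h2, Valuation.map_neg, map_mul, ← ha] at h1
    have h3 : w.valuation L (algebraMap K L (g : K) + u ^ 2) ≤ max (p ^ 2) (a ^ 2) := by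
      refine (Valuation.map_add _ _ _).trans (max_le_max hwg ?_)
      rw [map_pow, ← ha]
    have h4 : a * w.valuation L (algebraMap K L (g : K) + u ^ 2) < max (p ^ 2) (a ^ 2) := by
      have hm : 0 < max (p ^ 2) (a ^ 2) := lt_of_lt_of_le (zero_lt_iff.2 (pow_ne_zero 2 hp0)) (le_max_left _ _)
      calc a * w.valuation L (algebraMap K L (g : K) + u ^ 2) ≤ a * max (p ^ 2) (a ^ 2) :=
            mul_le_mul_right h3 _
        _ < 1 * max (p ^ 2) (a ^ 2) := mul_lt_mul_of_pos_right hlt hm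
        _ = _ := one_mul _
    rw [h1] at h4
    exact lt_irrefl _ h4
  -- the quotient is not congruent to an element of `K`
  have hnK : ∀ w : HeightOneSpectrum (𝓞 L), dn K w = v → w.valuation L u < 1 →
      ∀ x : K, v.valuation K x ≤ 1 → w.valuation L (u / algebraMap K L ϖ - algebraMap K L x) = 1 := by
    intro w hw hlt x hx
    have hϖL : algebraMap K L ϖ ≠ 0 := (map_ne_zero _).2 hϖ0
    have hwϖ0 : w.valuation L (algebraMap K L ϖ) ≠ 0 := (Valuation.ne_zero_iff _).2 hϖL
    have hwϖ1 : w.valuation L (algebraMap K L ϖ) < 1 := val_lt (by rw [hw]; exact hϖlt)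
    obtain ⟨φ, hφ⟩ : ∃ φ, φ = u / algebraMap K L ϖ := ⟨_, rfl⟩
    have hφu : u = algebraMap K L ϖ * φ := by
      rw [hφ, mul_div_cancel₀ _ hϖL]
    have hφ1 : w.valuation L φ = 1 := by
      rw [hφ, map_div₀, hval w hw hlt, div_self hwϖ0]
    have hxw : w.valuation L (algebraMap K L x) ≤ 1 := val_le (by rw [hw]; exact hx)
    rw [← hφ]
    refine le_antisymm ((Valuation.map_sub _ _ _).trans (max_le hφ1.le hxw)) (not_lt.1 fun hcon => ?_)
    -- c + 3 r x^2 is small
    have h1 : w.valuation L (algebraMap K L ((f : K) / ϖ ^ 2 + 3 * (r : K) * x ^ 2)) < 1 := by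
      have e1 : algebraMap K L ((f : K) / ϖ ^ 2 + 3 * (r : K) * x ^ 2) =
          -(algebraMap K L ((g : K) / ϖ) * φ + algebraMap K L ϖ * φ ^ 3 +
            algebraMap K L (3 * (r : K)) * ((φ - algebraMap K L x) * (φ + algebraMap K L x))) := by
        have e2 : algebraMap K L ϖ ^ 2 * (algebraMap K L ((f : K) / ϖ ^ 2 + 3 * (r : K) * x ^ 2) +
            (algebraMap K L ((g : K) / ϖ) * φ + algebraMap K L ϖ * φ ^ 3 +
            algebraMap K L (3 * (r : K)) * ((φ - algebraMap K L x) * (φ + algebraMap K L x)))) = 0 := by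
          rw [hφu] at hequ
          rw [map_add, map_div₀, map_div₀, map_pow, map_mul, map_pow]
          field_simp
          linear_combination hequ
        have e3 := (mul_eq_zero.1 e2).resolve_left (pow_ne_zero 2 hϖL)
        linear_combination e3
      rw [e1, Valuation.map_neg]
      refine (Valuation.map_add _ _ _).trans_lt (max_lt ((Valuation.map_add _ _ _).trans_lt (max_lt ?_ ?_)) ?_)
      · rw [map_mul, hφ1, mul_one]
        apply val_lt
        rw [hw, map_div₀, hϖ']
        calc v.valuation K (g : K) / exp (-(1 : ℤ)) ≤ exp (-(2 : ℤ)) / exp (-(1 : ℤ)) :=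
              div_le_div_of_nonneg_right hvg zero_le
          _ = exp (-(1 : ℤ)) := by rw [← exp_sub]; norm_num
          _ < 1 := by
              rw [← exp_zero, exp_lt_exp]
              norm_num
      · rw [map_mul, map_pow, hφ1, one_pow, mul_one]
        exact hwϖ1
      · rw [Valuation.map_mul, Valuation.map_mul,
          val_one (w := w) (x := 3 * (r : K)) (by rw [hw]; exact hv3r), one_mul]
        have h5 : w.valuation L (φ + algebraMap K L x) ≤ 1 :=
          (Valuation.map_add _ _ _).trans (max_le hφ1.le hxw)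
        exact (mul_le_of_le_one_right' h5).trans_lt hcon
    have h2 := Aa_lt h1
    rw [hw] at h2
    apply hns (3 * (r : K) * x * ϖ)
    · rw [map_mul, map_mul, hv3r, one_mul]
      exact mul_le_one' hx hϖlt.le
    · have e4 : 3 * (r : K) * (f : K) + (3 * (r : K) * x * ϖ) ^ 2 =
          3 * (r : K) * ϖ ^ 2 * ((f : K) / ϖ ^ 2 + 3 * (r : K) * x ^ 2) := by
        field_simp
      rw [e4, map_mul, map_mul, hv3r, one_mul, map_pow, hϖ']
      have h3 : v.valuation K ((f : K) / ϖ ^ 2 + 3 * (r : K) * x ^ 2) ≤ exp (-(1 : ℤ)) := by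
        have h2' : v.valuation K ((f : K) / ϖ ^ 2 + 3 * (r : K) * x ^ 2) < exp (-(0 : ℤ)) := by
          rw [neg_zero, exp_zero]
          exact h2
        have h3 := Aa_le_neg h2'
        rwa [zero_add] at h3
      refine (mul_le_mul_right h3 _).trans ?_
      rw [← exp_nsmul, ← exp_add]
      norm_num
  have hinert : ∀ w : HeightOneSpectrum (𝓞 L), dn K w = v → w.valuation L u < 1 →
      2 ≤ w.asIdeal.inertiaDeg (𝓞 K) := by
    intro w hw hlt
    have h1 := Ideal.inertiaDeg_pos w.asIdeal (𝓞 K)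
    by_contra h2
    have h3 : w.asIdeal.inertiaDeg (𝓞 K) = 1 := by omega
    have hϖL : algebraMap K L ϖ ≠ 0 := (map_ne_zero _).2 hϖ0
    have hwϖ0 : w.valuation L (algebraMap K L ϖ) ≠ 0 := (Valuation.ne_zero_iff _).2 hϖL
    obtain ⟨x, hx, hx2⟩ := Aa_res (K := K) h3 (y := u / algebraMap K L ϖ) (by
      rw [map_div₀, hval w hw hlt, div_self hwϖ0])
    rw [hw] at hx
    rw [hnK w hw hlt x hx] at hx2
    exact lt_irrefl _ hx2
  -- sums over the places above `v`
  obtain ⟨W, hW⟩ : ∃ W, W = (fin_above (L := L) v).toFinset := ⟨_, rfl⟩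
  have hmemW : ∀ w : HeightOneSpectrum (𝓞 L), w ∈ W ↔ dn K w = v := by
    intro w
    rw [hW, Set.Finite.mem_toFinset]
    exact Iff.rfl
  have hordnn : ∀ (w : HeightOneSpectrum (𝓞 L)) (y : L), y ≠ 0 → w.valuation L y ≤ 1 →
      0 ≤ ord (w.valuation L) y := by
    intro w y hy hy1
    unfold ord
    have h0 : w.valuation L y ≠ 0 := (Valuation.ne_zero_iff _).2 hy
    rw [← exp_log h0, ← exp_zero, exp_le_exp] at hy1
    omega
  have hordpos : ∀ (w : HeightOneSpectrum (𝓞 L)) (y : L), y ≠ 0 → w.valuation L y < 1 →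
      0 < ord (w.valuation L) y := by
    intro w y hy hy1
    unfold ord
    have h0 : w.valuation L y ≠ 0 := (Valuation.ne_zero_iff _).2 hy
    rw [← exp_log h0, ← exp_zero, exp_lt_exp] at hy1
    omega
  have hordone : ∀ (w : HeightOneSpectrum (𝓞 L)) (y : L), w.valuation L y = 1 →
      ord (w.valuation L) y = 0 := by
    intro w y hy
    unfold ord
    rw [hy, log_one, neg_zero]
  have hϖL : algebraMap K L ϖ ≠ 0 := (map_ne_zero _).2 hϖ0
  have hordv : ∀ (x : K) (n : ℤ), v.valuation K x = exp (-n) → ord (v.valuation K) x = n := by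
    intro x n hx
    unfold ord
    rw [hx, log_exp, neg_neg]
  have hsum3 : ∑ w ∈ W, (w.asIdeal.inertiaDeg (𝓞 K) : ℤ) *
      ord (w.valuation L) (algebraMap K L ϖ) = 3 := by
    rw [hW, ← Aa_norm v hϖL, Algebra.norm_algebraMap, h.finrank]
    apply hordv
    rw [map_pow, hϖ', ← exp_nsmul]
    norm_num
  have hsum2 : ∑ w ∈ W, (w.asIdeal.inertiaDeg (𝓞 K) : ℤ) * ord (w.valuation L) u = 2 := by
    rw [hW, ← Aa_norm v hu0]
    apply hordv
    have e1 : u = -(algebraMap K L (r : K) - θ) := by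
      rw [hu]
      ring
    have e2 : Algebra.norm K (algebraMap K L (r : K) - θ) = (f : K) := by
      rw [h.norm_sub, hfK]
    have e3 : Algebra.norm K u = -(f : K) := by
      rw [e1, ← neg_one_mul, map_mul, e2]
      have e4 : (-1 : L) = algebraMap K L (-1) := by rw [map_neg, map_one]
      rw [e4, Algebra.norm_algebraMap, h.finrank]
      ring
    rw [e3, Valuation.map_neg]
    exact hvf
  have hfpos : ∀ w : HeightOneSpectrum (𝓞 L), (1 : ℤ) ≤ w.asIdeal.inertiaDeg (𝓞 K) := by
    intro w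
    have h1 := Ideal.inertiaDeg_pos w.asIdeal (𝓞 K)
    exact_mod_cast h1
  have hepos : ∀ w ∈ W, 0 < ord (w.valuation L) (algebraMap K L ϖ) := by
    intro w hw
    exact hordpos w _ hϖL (val_lt (by rw [(hmemW w).1 hw]; exact hϖlt))
  -- the place `w₂`
  obtain ⟨w₂, hw2W, hw2⟩ : ∃ w₂ ∈ W, w₂.valuation L u < 1 := by
    by_contra hcon
    push Not at hcon
    have h1 : ∑ w ∈ W, (w.asIdeal.inertiaDeg (𝓞 K) : ℤ) * ord (w.valuation L) u = 0 := by
      refine Finset.sum_eq_zero fun w hw => ?_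
      rw [hordone w u (le_antisymm (huw w) (hcon w hw)), mul_zero]
    omega
  have hd2 := (hmemW w₂).1 hw2W
  -- the place `w₁`
  obtain ⟨z, hz⟩ : ∃ z : L, z = algebraMap K L (-2 * (r : K)) - θ := ⟨_, rfl⟩
  have hz0 : z ≠ 0 := by
    intro h0
    rw [h0] at hz
    have h1 := h.li (-2 * (r : K)) (-1) 0 (by
      rw [map_neg (algebraMap K L) 1, map_one, map_zero]
      linear_combination -hz)
    exact one_ne_zero (neg_eq_zero.1 h1.2.1)
  have hzw : ∀ w : HeightOneSpectrum (𝓞 L), w.valuation L z ≤ 1 := by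
    intro w
    rw [hz]
    refine (Valuation.map_sub _ _ _).trans (max_le ?_ (hθw w))
    have e1 : (-2 * (r : K)) = ((-2 * r : 𝓞 K) : K) := by
      change _ = algebraMap (𝓞 K) K (-2 * r)
      rw [map_mul, map_neg, map_ofNat]
    rw [e1]
    exact hKw w _
  obtain ⟨w₁, hw1W, hw1⟩ : ∃ w₁ ∈ W, w₁.valuation L z < 1 := by
    by_contra hcon
    push Not at hcon
    have h1 : ∑ w ∈ W, (w.asIdeal.inertiaDeg (𝓞 K) : ℤ) * ord (w.valuation L) z = 0 := by
      refine Finset.sum_eq_zero fun w hw => ?_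
      rw [hordone w z (le_antisymm (hzw w) (hcon w hw)), mul_zero]
    rw [hW, ← Aa_norm v hz0, hz, h.norm_sub] at h1
    have h2 : (-2 * (r : K)) ^ 3 + (A : K) * (-2 * (r : K)) + (B : K) =
        (f : K) - 3 * (r : K) * (g : K) := by
      rw [hfK, hgK]
      ring
    rw [h2] at h1
    have h3 : v.valuation K ((f : K) - 3 * (r : K) * (g : K)) ≤ exp (-(2 : ℤ)) := by
      refine (Valuation.map_sub _ _ _).trans (max_le hvf1 ?_)
      rw [map_mul, hv3r, one_mul]
      exact hvg
    have h4 : v.valuation K ((f : K) - 3 * (r : K) * (g : K)) ≠ 0 := by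
      rw [Valuation.ne_zero_iff, ← h2, ← h.norm_sub, ← hz]
      exact (Algebra.norm_ne_zero_iff).2 hz0
    unfold ord at h1
    rw [← exp_log h4, exp_le_exp] at h3
    omega
  have hd1 := (hmemW w₁).1 hw1W
  have hu1 : w₁.valuation L u = 1 := by
    have e1 : u = -(z + algebraMap K L (3 * (r : K))) := by
      rw [hu, hz]
      simp only [map_mul, map_neg, map_ofNat]
      ring
    rw [e1, Valuation.map_neg]
    have h1 : w₁.valuation L (algebraMap K L (3 * (r : K))) = 1 :=
      val_one (by rw [hd1]; exact hv3r)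
    rw [Valuation.map_add_eq_of_lt_right _ (by rw [h1]; exact hw1), h1]
  have hne : w₁ ≠ w₂ := by
    intro h1
    rw [← h1, hu1] at hw2
    exact lt_irrefl _ hw2
  -- degrees
  have h12 : ({w₁, w₂} : Finset (HeightOneSpectrum (𝓞 L))) ⊆ W := by
    intro w hw
    rw [Finset.mem_insert, Finset.mem_singleton] at hw
    rcases hw with rfl | rfl
    · exact hw1W
    · exact hw2W
  have hle3 : ∀ S : Finset (HeightOneSpectrum (𝓞 L)), S ⊆ W →
      ∑ w ∈ S, (w.asIdeal.inertiaDeg (𝓞 K) : ℤ) * ord (w.valuation L) (algebraMap K L ϖ) ≤ 3 := by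
    intro S hS
    rw [← hsum3]
    refine Finset.sum_le_sum_of_subset_of_nonneg hS fun w hw _ => ?_
    exact mul_nonneg (by have := hfpos w; omega) (hepos w hw).le
  have hf1 := hfpos w₁
  have hf2 : (2 : ℤ) ≤ w₂.asIdeal.inertiaDeg (𝓞 K) := by
    exact_mod_cast hinert w₂ hd2 hw2
  have he1 := hepos w₁ hw1W
  have he2 := hepos w₂ hw2W
  have hs12 := hle3 _ h12
  rw [Finset.sum_pair hne] at hs12
  have hE2 : ord (w₂.valuation L) (algebraMap K L ϖ) = 1 := by
    nlinarith
  have hE1 : ord (w₁.valuation L) (algebraMap K L ϖ) = 1 := by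
    rw [hE2] at hs12
    nlinarith
  have hF1 : (w₁.asIdeal.inertiaDeg (𝓞 K) : ℤ) = 1 := by
    rw [hE2, hE1] at hs12
    linarith
  have honly : ∀ w : HeightOneSpectrum (𝓞 L), dn K w = v → w = w₁ ∨ w = w₂ := by
    intro w hw
    by_contra hcon
    push Not at hcon
    have hwW := (hmemW w).2 hw
    have h1 := hle3 {w, w₁, w₂} (by
      intro w' hw'
      rw [Finset.mem_insert] at hw'
      rcases hw' with rfl | hw'
      · exact hwW
      · exact h12 hw')
    rw [Finset.sum_insert (by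
      rw [Finset.mem_insert, Finset.mem_singleton]
      push Not
      exact hcon), Finset.sum_pair hne, hE1, hE2] at h1
    have h2 := hepos w hwW
    have h3 := hfpos w
    nlinarith
  have hordw : ∀ w : HeightOneSpectrum (𝓞 L), dn K w = v →
      ord (w.valuation L) (algebraMap K L ϖ) = 1 → ∀ x : K, x ≠ 0 →
        ord (w.valuation L) (algebraMap K L x) = ord (v.valuation K) x := by
    intro w hw he x hx
    obtain ⟨e, -, h1⟩ := ord_dn (K := K) w
    have h2 := h1 ϖ hϖ0
    rw [hw, hordv ϖ 1 hϖ', mul_one, he] at h2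
    rw [h1 x hx, hw, ← h2, one_mul]
  refine ⟨w₁, w₂, (r : K), ⟨⟨hne, hd1, hd2, honly, hordw w₁ hd1 hE1, hordw w₂ hd2 hE2, ?_⟩, hvr, ?_, ?_⟩⟩
  · intro y hy
    have h1 : w₁.asIdeal.inertiaDeg (𝓞 K) = 1 := by exact_mod_cast hF1
    obtain ⟨x, hx, hx2⟩ := Aa_res (K := K) h1 hy
    rw [hd1] at hx
    exact ⟨x, hx, hx2⟩
  · have e1 : θ + algebraMap K L (2 * (r : K)) = -z := by
      rw [hz]
      simp only [map_mul, map_neg, map_ofNat]
      ring
    rw [e1, Valuation.map_neg]
    exact hw1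
  · intro x hx
    have hx1 : v.valuation K ((x - (r : K)) / ϖ) ≤ 1 := by
      rw [map_div₀, hϖ']
      have h1 : v.valuation K (x - (r : K)) ≤ exp (-(1 : ℤ)) := by
        have h2' : v.valuation K (x - (r : K)) < exp (-(0 : ℤ)) := by
          rw [neg_zero, exp_zero]
          exact hx
        have h3 := Aa_le_neg h2'
        rwa [zero_add] at h3
      exact div_le_one_of_le₀ h1 zero_le
    have h1 := hnK w₂ hd2 hw2 _ hx1
    have e1 : algebraMap K L x - θ = -(algebraMap K L ϖ *
        (u / algebraMap K L ϖ - algebraMap K L ((x - (r : K)) / ϖ))) := by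
      rw [map_div₀, hu, map_sub]
      field_simp
      ring
    rw [e1, Valuation.map_neg, map_mul, h1, mul_one]
    have h0 : w₂.valuation L (algebraMap K L ϖ) ≠ 0 := (Valuation.ne_zero_iff _).2 hϖL
    unfold ord at hE2
    rw [← exp_log h0]
    congr 1
    omega

end H76MQ
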