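import Pool.Agent.H76.MQ.Pc

/-!
ROW Pd (project MP_78d38b_MQT, about 200 lines): the four classes are different; the additive functions.

rm_uniq: `y z^2 = ρ + ε`, `y z'^2 = ρ' + ε'`, `w ε, w ε' < w 4 = exp (-6)`, i.e. `≤ exp (-7)`; all `ρ` are units at `w` (`w ω = exp (-1)`). `u = z / z'` is a unit at `w` and `ρ' u^2 - ρ = ε - u^2 ε'` has `w.valuation ≤ exp (-7)`. `u = ev ω c`, `c₀` a unit, `c₁, c₂` integral; modulo
`w^4` `u` is congruent to `m = m₀ + m₁ ω + m₂ ω^2` with `m₀ ∈ {1, 3}`, `m₁, m₂ ∈ {0, 1}`, and `u^2 ≡ m^2` modulo `w^7` (`u = m + x`, `w x ≤ exp (-4)`: `2 m x` and `x^2` are `≤ exp (-7)`). So `ρ' m^2 ≡ ρ` modulo `w^7`: coordinates congruent modulo `(8, 4, 4)` (rm_val). The classes of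
`ρ' m^2` (`m₀ = 3` gives the same squares as `m₀ = 1` modulo `w^7`): ρ₀₀: (1,0,0),(1,2,1),(1,2,2),(5,0,3); ρ₁₀: (1,2,0),(5,0,1),(1,0,2),(1,2,3); ρ₀₁: (7,1,0),(5,3,1),(3,3,0),(5,1,1); ρ₁₁: (7,3,2),(1,1,3),(3,1,2),(1,3,3): disjoint. (`decide` over integers modulo 8.)
exists_IJ: `G = {c : SC L | scm norm c = 0}` (a `ZMod 2`-subspace). For `c ∈ G` let `(i, j)` be the unique pair with `Nr w y (rho θ i j)` for `y` with `sc y = c` (does not depend on `y`: changing `y` by a square changes `z`). Additive: `Nr w y ρ`, `Nr w y' ρ'` give `Nr w (y y') (ρ ρ')`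
(`z z'`; units), and `rho i j * rho i' j' = rho (i+i') (j+j') * (unit of L)^2` (`(1+θ)^2`, `(ω-1)^2` or `1`), so `Nr w (y y') (rho (i+i') (j+j'))`. Extend from `G` to `SC L` linearly (`LinearMap.exists_extend`; an additive map between `ZMod 2`-modules is linear,
`AddMonoidHom.toZModLinearMap`).
-/

set_option autoImplicit false
set_option linter.unusedSectionVars false
open scoped Classical

open WithZero NumberField IsDedekindDomain H38RT
open H38T1 (SC sc scu rep eo la si Pri OddP tp unif ka)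
open H76PP

namespace H76MQ

variable {K L : Type} [Field K] [NumberField K] [Field L] [NumberField L] [Algebra K L]

/-! ### Powers of exponentials -/

private lemma Pd_cube {g : WithZero (Multiplicative ℤ)} {m k : ℤ} (h : g ^ 3 ≤ exp m)
    (hk : m < 3 * k + 3) : g ≤ exp k := by
  by_contra h1
  rw [not_le] at h1
  have h0 : g ≠ 0 := by
    rintro rfl
    exact absurd h1 (not_lt.2 zero_le)
  rw [← exp_log h0] at h h1
  rw [exp_lt_exp] at h1
  rw [← exp_nsmul, exp_le_exp] at h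
  simp only [nsmul_eq_mul] at h
  push_cast at h
  omega

private lemma Pd_cube2 {g : WithZero (Multiplicative ℤ)} {m k l : ℤ} (h : g ^ 3 * exp l ≤ exp m)
    (hk : m < 3 * k + 3 + l) : g ≤ exp k := by
  refine Pd_cube (m := m - l) ?_ (by omega)
  have e1 : g ^ 3 = g ^ 3 * exp l * exp (-l) := by
    rw [mul_assoc, ← exp_add, add_neg_cancel, exp_zero, mul_one]
  rw [e1, sub_eq_add_neg, exp_add]
  exact mul_le_mul_left h _

/-! ### Congruences -/

/-- congruence of integral elements -/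
private def Pd_Cg (v : HeightOneSpectrum (𝓞 K)) (t : WithZero (Multiplicative ℤ)) (x y : K) :
    Prop := v.valuation K (x - y) ≤ t ∧ v.valuation K x ≤ 1 ∧ v.valuation K y ≤ 1

private lemma Pd_int (v : HeightOneSpectrum (𝓞 K)) (n : ℤ) : v.valuation K (n : K) ≤ 1 := by
  have h := v.valuation_le_one (K := K) (n : 𝓞 K)
  simpa using h

private lemma Pd_Cg_int (v : HeightOneSpectrum (𝓞 K)) (t : WithZero (Multiplicative ℤ)) (n : ℤ) :
    Pd_Cg v t (n : K) (n : K) := by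
  refine ⟨?_, Pd_int v n, Pd_int v n⟩
  rw [sub_self, map_zero]
  exact zero_le

private lemma Pd_Cg_add {v : HeightOneSpectrum (𝓞 K)} {t : WithZero (Multiplicative ℤ)}
    {x y x' y' : K} (h : Pd_Cg v t x y) (h' : Pd_Cg v t x' y') : Pd_Cg v t (x + x') (y + y') := by
  obtain ⟨h1, h2, h3⟩ := h
  obtain ⟨h1', h2', h3'⟩ := h'
  refine ⟨?_, (Valuation.map_add _ _ _).trans (max_le h2 h2'),
    (Valuation.map_add _ _ _).trans (max_le h3 h3')⟩
  have e : x + x' - (y + y') = (x - y) + (x' - y') := by ring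
  rw [e]
  exact (Valuation.map_add _ _ _).trans (max_le h1 h1')

private lemma Pd_Cg_neg {v : HeightOneSpectrum (𝓞 K)} {t : WithZero (Multiplicative ℤ)}
    {x y : K} (h : Pd_Cg v t x y) : Pd_Cg v t (-x) (-y) := by
  obtain ⟨h1, h2, h3⟩ := h
  refine ⟨?_, by rwa [Valuation.map_neg], by rwa [Valuation.map_neg]⟩
  have e : -x - -y = -(x - y) := by ring
  rw [e, Valuation.map_neg]
  exact h1

private lemma Pd_Cg_sub {v : HeightOneSpectrum (𝓞 K)} {t : WithZero (Multiplicative ℤ)}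
    {x y x' y' : K} (h : Pd_Cg v t x y) (h' : Pd_Cg v t x' y') : Pd_Cg v t (x - x') (y - y') := by
  rw [sub_eq_add_neg, sub_eq_add_neg]
  exact Pd_Cg_add h (Pd_Cg_neg h')

private lemma Pd_Cg_mul {v : HeightOneSpectrum (𝓞 K)} {t : WithZero (Multiplicative ℤ)}
    {x y x' y' : K} (h : Pd_Cg v t x y) (h' : Pd_Cg v t x' y') : Pd_Cg v t (x * x') (y * y') := by
  obtain ⟨h1, h2, h3⟩ := h
  obtain ⟨h1', h2', h3'⟩ := h'
  refine ⟨?_, by rw [map_mul]; exact mul_le_one' h2 h2', by rw [map_mul]; exact mul_le_one' h3 h3'⟩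
  have e : x * x' - y * y' = (x - y) * x' + y * (x' - y') := by ring
  rw [e]
  refine (Valuation.map_add _ _ _).trans (max_le ?_ ?_)
  · rw [map_mul]
    exact (mul_le_mul' h1 h2').trans_eq (mul_one _)
  · rw [map_mul]
    exact (mul_le_mul' h3 h1').trans_eq (one_mul _)

private lemma Pd_Cg_m3 {v : HeightOneSpectrum (𝓞 K)} {t : WithZero (Multiplicative ℤ)}
    {a a' b b' : K} (ha : Pd_Cg v t a a') (hb : Pd_Cg v t b b') {x x' y y' : Fin 3 → K}
    (hx : ∀ j, Pd_Cg v t (x j) (x' j)) (hy : ∀ j, Pd_Cg v t (y j) (y' j)) (j : Fin 3) :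
    Pd_Cg v t (m3 a b x y j) (m3 a' b' x' y' j) := by
  have hh : ∀ i k, Pd_Cg v t (x i * y k) (x' i * y' k) := fun i k => Pd_Cg_mul (hx i) (hy k)
  fin_cases j
  · exact Pd_Cg_sub (hh 0 0) (Pd_Cg_mul hb (Pd_Cg_add (hh 1 2) (hh 2 1)))
  · exact Pd_Cg_sub (Pd_Cg_sub (Pd_Cg_add (hh 0 1) (hh 1 0))
      (Pd_Cg_mul ha (Pd_Cg_add (hh 1 2) (hh 2 1)))) (Pd_Cg_mul hb (hh 2 2))
  · exact Pd_Cg_sub (Pd_Cg_add (Pd_Cg_add (hh 0 2) (hh 1 1)) (hh 2 0)) (Pd_Cg_mul ha (hh 2 2))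

/-! ### The finite computation -/

/-- coordinates of the representatives -/
private def Pd_r (i j : ZMod 2) : Fin 3 → ℤ :=
  if i = 0 then (if j = 0 then ![1, 0, 0] else ![-1, 1, 0])
  else (if j = 0 then ![1, 2, 0] else ![-1, -1, 2])

/-- coordinates of the difference -/
private def Pd_D (i j i' j' : ZMod 2) (n : Fin 3 → ℤ) (t : Fin 3) : ℤ :=
  m3 4 2 (Pd_r i' j') (m3 4 2 n n) t - Pd_r i j t

private lemma Pd_dec : ∀ (i j i' j' : ZMod 2) (n0 : Fin 4) (n1 n2 : Fin 2),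
    (8 : ℤ) ∣ Pd_D i j i' j' ![((n0 : ℕ) : ℤ), ((n1 : ℕ) : ℤ), ((n2 : ℕ) : ℤ)] 0 →
    (4 : ℤ) ∣ Pd_D i j i' j' ![((n0 : ℕ) : ℤ), ((n1 : ℕ) : ℤ), ((n2 : ℕ) : ℤ)] 1 →
    (4 : ℤ) ∣ Pd_D i j i' j' ![((n0 : ℕ) : ℤ), ((n1 : ℕ) : ℤ), ((n2 : ℕ) : ℤ)] 2 →
    i = i' ∧ j = j' := by
  decide +kernel

private lemma Pd_dvd (v : HeightOneSpectrum (𝓞 K)) (h2 : v.valuation K 2 = exp (-1)) (k : ℕ) :
    ∀ D : ℤ, v.valuation K (D : K) ≤ exp (-(k : ℤ)) → (2 : ℤ) ^ k ∣ D := by
  induction k with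
  | zero =>
    intro D _
    rw [pow_zero]
    exact one_dvd D
  | succ k ih =>
    intro D hD
    have hlt : v.valuation K (D : K) < 1 := by
      refine hD.trans_lt ?_
      rw [← exp_zero, exp_lt_exp]
      push_cast
      omega
    have heven : Even D := by
      by_contra hodd
      rw [Int.not_even_iff_odd] at hodd
      obtain ⟨q, hq⟩ := hodd
      have h3 : (1 : K) = (D : K) - 2 * (q : K) := by
        rw [hq]
        push_cast
        ring
      have h4 : v.valuation K (1 : K) < 1 := by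
        rw [h3]
        refine (Valuation.map_sub _ _ _).trans_lt (max_lt hlt ?_)
        rw [map_mul, h2]
        refine (mul_le_mul' le_rfl (Pd_int v q)).trans_lt ?_
        rw [mul_one, ← exp_zero, exp_lt_exp]
        omega
      rw [map_one] at h4
      exact lt_irrefl _ h4
    obtain ⟨q, hq⟩ := heven
    have h3 : (D : K) = 2 * (q : K) := by
      rw [hq]
      push_cast
      ring
    rw [h3, map_mul, h2] at hD
    have h4 : v.valuation K (q : K) ≤ exp (-(k : ℤ)) := by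
      have e1 : v.valuation K (q : K) = exp 1 * (exp (-1) * v.valuation K (q : K)) := by
        rw [← mul_assoc, ← exp_add]
        norm_num
      have e2 : exp (-(k : ℤ)) = exp 1 * exp (-((k + 1 : ℕ) : ℤ)) := by
        rw [← exp_add]
        congr 1
        push_cast
        ring
      rw [e1, e2]
      exact mul_le_mul' le_rfl hD
    have h5 := ih q h4
    rw [hq, pow_succ, ← mul_two]
    exact mul_dvd_mul_right h5 2

/-! ### Uniqueness -/

private lemma Pd_rho (θ : L) (i j : ZMod 2) :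
    rho θ i j = ev (θ / 2) (fun t => ((Pd_r i j t : ℤ) : K)) := by
  have h2 : (2 : L) ≠ 0 := two_ne_zero
  have hz : ∀ i : ZMod 2, i = 0 ∨ i = 1 := by decide
  have e2 : algebraMap K L 2 = 2 := map_ofNat _ 2
  rcases hz i with rfl | rfl <;> rcases hz j with rfl | rfl
  · simp [rho, ev, Pd_r]
  · simp [rho, ev, Pd_r]
    ring
  · simp [rho, ev, Pd_r, e2]
    field_simp
  · simp [rho, ev, Pd_r, e2]
    field_simp
    ring

private lemma Pd_wnat {A B : K} {θ : L} {v : HeightOneSpectrum (𝓞 K)}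
    {w : HeightOneSpectrum (𝓞 L)} (hr : Rm K A B θ v w) :
    w.valuation L (2 : L) = exp (-3) ∧ w.valuation L (4 : L) = exp (-6) := by
  have e2 : w.valuation L (2 : L) = exp (-3) := by
    have h := hr.val 2
    rw [hr.two, map_ofNat] at h
    rw [h]
    rfl
  refine ⟨e2, ?_⟩
  have e4 : (4 : L) = 2 * 2 := by norm_num
  rw [e4, map_mul, e2, ← exp_add]
  norm_num

private lemma Pd_key {A B : K} {θ : L} (h : Cub K L A B θ) {v : HeightOneSpectrum (𝓞 K)}
    {w : HeightOneSpectrum (𝓞 L)} (hr : Rm K A B θ v w) {u : L} (hu : w.valuation L u ≤ 1)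
    {i j i' j' : ZMod 2}
    (hd : w.valuation L (rho θ i' j' * u ^ 2 - rho θ i j) ≤ exp (-7)) : i = i' ∧ j = j' := by
  have hc := rm_cub h
  obtain ⟨c, rfl⟩ : ∃ c : Fin 3 → K, u = ev (θ / 2) c :=
    ⟨![hc.co 0 u, hc.co 1 u, hc.co 2 u], by
      have := hc.eq_co u
      simpa [ev] using this⟩
  rw [rm_val hr c] at hu
  have h0 : v.valuation K (c 0) ≤ 1 := by
    have h1 := (le_max_left _ _).trans hu
    rw [← exp_zero] at h1 ⊢
    exact Pd_cube h1 (by norm_num)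
  have h1 : v.valuation K (c 1) ≤ 1 := by
    have h1 := ((le_max_left _ _).trans (le_max_right _ _)).trans hu
    rw [← exp_zero] at h1 ⊢
    exact Pd_cube2 h1 (by norm_num)
  have h2 : v.valuation K (c 2) ≤ 1 := by
    have h1 := ((le_max_right _ _).trans (le_max_right _ _)).trans hu
    rw [← exp_zero] at h1 ⊢
    exact Pd_cube2 h1 (by norm_num)
  obtain ⟨n0, hn0, hc0⟩ := rm_nat hr 2 h0
  obtain ⟨n1, hn1, hc1⟩ := rm_nat hr 1 h1
  obtain ⟨n2, hn2, hc2⟩ := rm_nat hr 1 h2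
  obtain ⟨n, hn⟩ : ∃ n : Fin 3 → ℤ, n = ![(n0 : ℤ), (n1 : ℤ), (n2 : ℤ)] := ⟨_, rfl⟩
  obtain ⟨m, hm⟩ : ∃ m : L, m = ev (θ / 2) (fun t => ((n t : ℤ) : K)) := ⟨_, rfl⟩
  obtain ⟨x, hx⟩ : ∃ x : L, x = ev (θ / 2) (fun t => c t - ((n t : ℤ) : K)) := ⟨_, rfl⟩
  have hmx : ev (θ / 2) c = m + x := by
    rw [hm, hx]
    simp only [ev, map_sub]
    ring
  have hwm : w.valuation L m ≤ 1 := by
    rw [hm, rm_val hr]
    refine max_le (pow_le_one' (Pd_int v _) 3) (max_le ?_ ?_)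
    · refine (mul_le_mul' (pow_le_one' (Pd_int v _) 3) le_rfl).trans ?_
      rw [one_mul, ← exp_zero, exp_le_exp]
      norm_num
    · refine (mul_le_mul' (pow_le_one' (Pd_int v _) 3) le_rfl).trans ?_
      rw [one_mul, ← exp_zero, exp_le_exp]
      norm_num
  have hwx : w.valuation L x ≤ exp (-4) := by
    rw [hx, rm_val hr]
    have f0 : v.valuation K (c 0 - ((n 0 : ℤ) : K)) ≤ exp (-2) := by
      rw [hn]
      simpa using hc0
    have f1 : v.valuation K (c 1 - ((n 1 : ℤ) : K)) ≤ exp (-1) := by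
      rw [hn]
      simpa using hc1
    have f2 : v.valuation K (c 2 - ((n 2 : ℤ) : K)) ≤ exp (-1) := by
      rw [hn]
      simpa using hc2
    refine max_le ?_ (max_le ?_ ?_)
    · refine (pow_le_pow_left' f0 3).trans ?_
      rw [← exp_nsmul, exp_le_exp]
      norm_num
    · refine (mul_le_mul' (pow_le_pow_left' f1 3) le_rfl).trans ?_
      rw [← exp_nsmul, ← exp_add, exp_le_exp]
      norm_num
    · refine (mul_le_mul' (pow_le_pow_left' f2 3) le_rfl).trans ?_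
      rw [← exp_nsmul, ← exp_add, exp_le_exp]
      norm_num
  obtain ⟨w2, w4⟩ := Pd_wnat hr
  have hrho : ∀ i j : ZMod 2, w.valuation L (rho θ i j) ≤ 1 := by
    intro i j
    rw [Pd_rho (K := K), rm_val hr]
    refine max_le (pow_le_one' (Pd_int v _) 3) (max_le ?_ ?_)
    · refine (mul_le_mul' (pow_le_one' (Pd_int v _) 3) le_rfl).trans ?_
      rw [one_mul, ← exp_zero, exp_le_exp]
      norm_num
    · refine (mul_le_mul' (pow_le_one' (Pd_int v _) 3) le_rfl).trans ?_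
      rw [one_mul, ← exp_zero, exp_le_exp]
      norm_num
  have hd2 : w.valuation L (rho θ i' j' * m ^ 2 - rho θ i j) ≤ exp (-7) := by
    have e1 : rho θ i' j' * m ^ 2 - rho θ i j = (rho θ i' j' * ev (θ / 2) c ^ 2 - rho θ i j) -
        rho θ i' j' * (2 * m * x + x * x) := by
      rw [hmx]
      ring
    rw [e1]
    refine (Valuation.map_sub _ _ _).trans (max_le hd ?_)
    rw [map_mul]
    refine (mul_le_mul' (hrho i' j') le_rfl).trans ?_
    rw [one_mul]
    refine (Valuation.map_add _ _ _).trans (max_le ?_ ?_)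
    · rw [map_mul, map_mul, w2]
      refine (mul_le_mul' (mul_le_mul' le_rfl hwm) hwx).trans ?_
      rw [mul_one, ← exp_add, exp_le_exp]
      norm_num
    · rw [map_mul]
      refine (mul_le_mul' hwx hwx).trans ?_
      rw [← exp_add, exp_le_exp]
      norm_num
  -- coordinates
  obtain ⟨d, hdd⟩ : ∃ d : Fin 3 → K, d = fun t =>
      m3 (A / 4) (B / 8) (fun t => ((Pd_r i' j' t : ℤ) : K)) (m3 (A / 4) (B / 8)
        (fun t => ((n t : ℤ) : K)) (fun t => ((n t : ℤ) : K))) t - ((Pd_r i j t : ℤ) : K) :=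
    ⟨_, rfl⟩
  have e1 : rho θ i' j' * m ^ 2 - rho θ i j = ev (θ / 2) d := by
    rw [Pd_rho (K := K), Pd_rho (K := K), hm, sq, Te_ev_mul hc, Te_ev_mul hc, hdd]
    simp only [ev, map_sub]
    ring
  rw [e1, rm_val hr] at hd2
  have g0 : v.valuation K (d 0) ≤ exp (-3) := Pd_cube ((le_max_left _ _).trans hd2) (by norm_num)
  have g1 : v.valuation K (d 1) ≤ exp (-2) :=
    Pd_cube2 (((le_max_left _ _).trans (le_max_right _ _)).trans hd2) (by norm_num)
  have g2 : v.valuation K (d 2) ≤ exp (-2) :=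
    Pd_cube2 (((le_max_right _ _).trans (le_max_right _ _)).trans hd2) (by norm_num)
  have hA : Pd_Cg v (exp (-7)) (A / 4) ((4 : ℤ) : K) := by
    refine ⟨by simpa using hr.A4, ?_, Pd_int v 4⟩
    have e2 : A / 4 = (A / 4 - 4) + ((4 : ℤ) : K) := by
      push_cast
      ring
    rw [e2]
    refine (Valuation.map_add _ _ _).trans (max_le (hr.A4.trans ?_) (Pd_int v 4))
    rw [← exp_zero, exp_le_exp]
    norm_num
  have hB : Pd_Cg v (exp (-7)) (B / 8) ((2 : ℤ) : K) := by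
    refine ⟨by simpa using hr.B8, ?_, Pd_int v 2⟩
    have e2 : B / 8 = (B / 8 - 2) + ((2 : ℤ) : K) := by
      push_cast
      ring
    rw [e2]
    refine (Valuation.map_add _ _ _).trans (max_le (hr.B8.trans ?_) (Pd_int v 2))
    rw [← exp_zero, exp_le_exp]
    norm_num
  have hcg : ∀ t, v.valuation K (d t - ((Pd_D i j i' j' n t : ℤ) : K)) ≤ exp (-7) := by
    intro t
    have e2 : ((Pd_D i j i' j' n t : ℤ) : K) =
        m3 ((4 : ℤ) : K) ((2 : ℤ) : K) (fun t => ((Pd_r i' j' t : ℤ) : K))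
          (m3 ((4 : ℤ) : K) ((2 : ℤ) : K) (fun t => ((n t : ℤ) : K)) (fun t => ((n t : ℤ) : K))) t -
          ((Pd_r i j t : ℤ) : K) := by
      have e3 : (m3 ((4 : ℤ) : K) ((2 : ℤ) : K) (fun t => ((n t : ℤ) : K))
          (fun t => ((n t : ℤ) : K))) = fun t => ((m3 (4 : ℤ) 2 n n t : ℤ) : K) := by
        funext t
        exact Te_m3_map (Int.castRingHom K) 4 2 n n t
      rw [e3]
      have e4 := Te_m3_map (Int.castRingHom K) 4 2 (Pd_r i' j') (m3 (4 : ℤ) 2 n n) t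
      simp only [eq_intCast] at e4
      rw [e4]
      unfold Pd_D
      push_cast
      rfl
    rw [e2, hdd]
    exact (Pd_Cg_sub (Pd_Cg_m3 hA hB (fun t => Pd_Cg_int v _ _)
      (fun t => Pd_Cg_m3 hA hB (fun t => Pd_Cg_int v _ _) (fun t => Pd_Cg_int v _ _) t) t)
      (Pd_Cg_int v _ _)).1
  have hD : ∀ (t : Fin 3) (k : ℕ), k ≤ 7 → v.valuation K (d t) ≤ exp (-(k : ℤ)) →
      (2 : ℤ) ^ k ∣ Pd_D i j i' j' n t := by
    intro t k hk hdt
    refine Pd_dvd v hr.two k _ ?_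
    have e2 : ((Pd_D i j i' j' n t : ℤ) : K) = d t - (d t - ((Pd_D i j i' j' n t : ℤ) : K)) := by
      ring
    rw [e2]
    refine (Valuation.map_sub _ _ _).trans (max_le hdt ((hcg t).trans ?_))
    rw [exp_le_exp]
    omega
  have k0 := hD 0 3 (by norm_num) g0
  have k1 := hD 1 2 (by norm_num) g1
  have k2 := hD 2 2 (by norm_num) g2
  norm_num at k0 k1 k2
  rw [hn] at k0 k1 k2
  exact Pd_dec i j i' j' ⟨n0, by omega⟩ ⟨n1, by omega⟩ ⟨n2, by omega⟩ k0 k1 k2

private lemma Pd_sq {g : WithZero (Multiplicative ℤ)} (h : g ^ 2 = 1) : g = 1 := by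
  have h0 : g ≠ 0 := by
    rintro rfl
    rw [zero_pow two_ne_zero] at h
    exact zero_ne_one h
  rw [← exp_log h0, ← exp_nsmul, exp_eq_one] at h
  rw [← exp_log h0, exp_eq_one]
  simp only [nsmul_eq_mul] at h
  push_cast at h
  omega

private lemma Pd_lt {A B : K} {θ : L} {v : HeightOneSpectrum (𝓞 K)}
    {w : HeightOneSpectrum (𝓞 L)} (hr : Rm K A B θ v w) (x : L) :
    w.valuation L x < w.valuation L 4 ↔ w.valuation L x ≤ exp (-7) := by
  have e : w.valuation L (4 : L) = exp (-7) * exp 1 := by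
    rw [(Pd_wnat hr).2, ← exp_add]
    norm_num
  rw [e]
  exact lt_mul_exp_iff_le exp_ne_zero

private lemma Pd_rho_one {A B : K} {θ : L} {v : HeightOneSpectrum (𝓞 K)}
    {w : HeightOneSpectrum (𝓞 L)} (hr : Rm K A B θ v w) (i j : ZMod 2) :
    w.valuation L (rho θ i j) = 1 := by
  rw [Pd_rho (K := K), rm_val hr]
  have h0 : v.valuation K ((Pd_r i j 0 : ℤ) : K) = 1 := by
    have h1 : Pd_r i j 0 = 1 ∨ Pd_r i j 0 = -1 := by
      revert i j
      decide
    rcases h1 with h1 | h1 <;> rw [h1]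
    · rw [Int.cast_one, map_one]
    · rw [Int.cast_neg, Int.cast_one, Valuation.map_neg, map_one]
  rw [h0, one_pow]
  apply max_eq_left
  refine max_le ?_ ?_
  · refine (mul_le_mul' (pow_le_one' (Pd_int v _) 3) le_rfl).trans ?_
    rw [one_mul, ← exp_zero, exp_le_exp]
    norm_num
  · refine (mul_le_mul' (pow_le_one' (Pd_int v _) 3) le_rfl).trans ?_
    rw [one_mul, ← exp_zero, exp_le_exp]
    norm_num

private lemma Pd_unit {A B : K} {θ : L} {v : HeightOneSpectrum (𝓞 K)}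
    {w : HeightOneSpectrum (𝓞 L)} (hr : Rm K A B θ v w) {y z : L} {i j : ZMod 2}
    (hz : w.valuation L (y * z ^ 2 - rho θ i j) ≤ exp (-7)) :
    w.valuation L (y * z ^ 2) = 1 := by
  have e : y * z ^ 2 = (y * z ^ 2 - rho θ i j) + rho θ i j := by ring
  rw [e, Valuation.map_add_eq_of_lt_right, Pd_rho_one hr]
  rw [Pd_rho_one hr]
  refine hz.trans_lt ?_
  rw [← exp_zero, exp_lt_exp]
  norm_num

theorem rm_uniq {A B : K} {θ : L} (h : Cub K L A B θ) {v : HeightOneSpectrum (𝓞 K)}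
    {w : HeightOneSpectrum (𝓞 L)} (hr : Rm K A B θ v w) {y : L} {i j i' j' : ZMod 2}
    (h1 : Nr w y (rho θ i j)) (h2 : Nr w y (rho θ i' j')) : i = i' ∧ j = j' := by
  obtain ⟨z, hz0, hz⟩ := h1
  obtain ⟨z', hz0', hz'⟩ := h2
  rw [Pd_lt hr] at hz hz'
  have u1 := Pd_unit hr hz
  have u2 := Pd_unit hr hz'
  have hy : y ≠ 0 := by
    rintro rfl
    rw [zero_mul, map_zero] at u1
    exact zero_ne_one u1
  have hu2 : w.valuation L (z / z') ^ 2 = 1 := by
    rw [← map_pow, div_pow]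
    have e : z ^ 2 / z' ^ 2 = (y * z ^ 2) / (y * z' ^ 2) := by
      field_simp
    rw [e, map_div₀, u1, u2, div_one]
  have hu := Pd_sq hu2
  refine Pd_key h hr hu.le ?_
  have e : rho θ i' j' * (z / z') ^ 2 - rho θ i j = (y * z ^ 2 - rho θ i j) -
      (z / z') ^ 2 * (y * z' ^ 2 - rho θ i' j') := by
    field_simp
    ring
  rw [e]
  refine (Valuation.map_sub _ _ _).trans (max_le hz ?_)
  rw [map_mul, map_pow, hu2, one_mul]
  exact hz'

/-! ### Additivity -/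

private lemma Pd_Nr_sq {w : HeightOneSpectrum (𝓞 L)} {y ρ s : L} (hs : s ≠ 0) (h : Nr w y ρ) :
    Nr w (y * s ^ 2) ρ := by
  obtain ⟨z, hz0, hz⟩ := h
  refine ⟨z / s, div_ne_zero hz0 hs, ?_⟩
  have e : y * s ^ 2 * (z / s) ^ 2 = y * z ^ 2 := by field_simp
  rw [e]
  exact hz

private lemma Pd_Nr_mul {A B : K} {θ : L} {v : HeightOneSpectrum (𝓞 K)}
    {w : HeightOneSpectrum (𝓞 L)} (hr : Rm K A B θ v w) {y y' ρ ρ' : L}
    (hρ : w.valuation L ρ = 1) (hρ' : w.valuation L ρ' = 1) (h : Nr w y ρ) (h' : Nr w y' ρ') :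
    Nr w (y * y') (ρ * ρ') := by
  obtain ⟨z, hz0, hz⟩ := h
  obtain ⟨z', hz0', hz'⟩ := h'
  refine ⟨z * z', mul_ne_zero hz0 hz0', ?_⟩
  rw [Pd_lt hr] at hz hz' ⊢
  have e : y * y' * (z * z') ^ 2 - ρ * ρ' = (y * z ^ 2 - ρ) * (y' * z' ^ 2 - ρ') +
      (ρ * (y' * z' ^ 2 - ρ') + ρ' * (y * z ^ 2 - ρ)) := by ring
  rw [e]
  refine (Valuation.map_add _ _ _).trans (max_le ?_ ((Valuation.map_add _ _ _).trans
    (max_le ?_ ?_)))
  · rw [map_mul]
    refine (mul_le_mul' hz hz').trans ?_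
    rw [← exp_add, exp_le_exp]
    norm_num
  · rw [map_mul, hρ, one_mul]
    exact hz'
  · rw [map_mul, hρ', one_mul]
    exact hz

private lemma Pd_Nr_div {A B : K} {θ : L} {v : HeightOneSpectrum (𝓞 K)}
    {w : HeightOneSpectrum (𝓞 L)} (hr : Rm K A B θ v w) {y ρ s : L}
    (hs : w.valuation L s = 1) (h : Nr w y (ρ * s ^ 2)) : Nr w y ρ := by
  have hs0 : s ≠ 0 := by
    rintro rfl
    rw [map_zero] at hs
    exact zero_ne_one hs
  obtain ⟨z, hz0, hz⟩ := h
  refine ⟨z / s, div_ne_zero hz0 hs0, ?_⟩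
  have e : y * (z / s) ^ 2 - ρ = (y * z ^ 2 - ρ * s ^ 2) / s ^ 2 := by field_simp
  rw [e, map_div₀, map_pow, hs, one_pow, div_one]
  exact hz

private lemma Pd_rho_mul {A B : K} {θ : L} {v : HeightOneSpectrum (𝓞 K)}
    {w : HeightOneSpectrum (𝓞 L)} (hr : Rm K A B θ v w) (i j i' j' : ZMod 2) :
    ∃ s : L, w.valuation L s = 1 ∧
      rho θ i j * rho θ i' j' = rho θ (i + i') (j + j') * s ^ 2 := by
  have hz : ∀ i : ZMod 2, i = 0 ∨ i = 1 := by decide
  have h11 : (1 : ZMod 2) + 1 = 0 := by decide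
  have h10 : (1 : ZMod 2) ≠ 0 := by decide
  have w1 : w.valuation L (1 + θ) = 1 := by
    have := Pd_rho_one hr 1 0
    simpa [rho] using this
  have w2 : w.valuation L (θ / 2 - 1) = 1 := by
    have := Pd_rho_one hr 0 1
    simpa [rho] using this
  have k1 : ∀ i i' : ZMod 2, ∃ s : L, w.valuation L s = 1 ∧
      (if i = 0 then (1 : L) else 1 + θ) * (if i' = 0 then (1 : L) else 1 + θ) =
        (if i + i' = 0 then (1 : L) else 1 + θ) * s ^ 2 := by
    intro i i'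
    rcases hz i with rfl | rfl <;> rcases hz i' with rfl | rfl
    · exact ⟨1, map_one _, by simp⟩
    · exact ⟨1, map_one _, by simp⟩
    · exact ⟨1, map_one _, by simp⟩
    · refine ⟨1 + θ, w1, ?_⟩
      rw [h11, if_neg h10, if_pos rfl]
      ring
  have k2 : ∀ i i' : ZMod 2, ∃ s : L, w.valuation L s = 1 ∧
      (if i = 0 then (1 : L) else θ / 2 - 1) * (if i' = 0 then (1 : L) else θ / 2 - 1) =
        (if i + i' = 0 then (1 : L) else θ / 2 - 1) * s ^ 2 := by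
    intro i i'
    rcases hz i with rfl | rfl <;> rcases hz i' with rfl | rfl
    · exact ⟨1, map_one _, by simp⟩
    · exact ⟨1, map_one _, by simp⟩
    · exact ⟨1, map_one _, by simp⟩
    · refine ⟨θ / 2 - 1, w2, ?_⟩
      rw [h11, if_neg h10, if_pos rfl]
      ring
  obtain ⟨s1, hs1, e1⟩ := k1 i i'
  obtain ⟨s2, hs2, e2⟩ := k2 j j'
  refine ⟨s1 * s2, by rw [map_mul, hs1, hs2, one_mul], ?_⟩
  unfold rho
  rw [mul_mul_mul_comm, e1, e2]
  ring

private lemma Pd_sc {y y' : L} (hy : y ≠ 0) (hy' : y' ≠ 0) (h : sc y = sc y') :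
    ∃ s : L, s ≠ 0 ∧ y = y' * s ^ 2 := by
  have h1 : sc (y * y') = 0 := by
    rw [H38T1.sc_mul hy hy', h]
    exact (two_nsmul _).symm.trans (H38T1.SC.two_smul _)
  obtain ⟨t, ht⟩ := (H38T1.sc_eq_zero (mul_ne_zero hy hy')).1 h1
  have ht0 : t ≠ 0 := by
    rintro rfl
    rw [mul_zero] at ht
    exact mul_ne_zero hy hy' ht
  refine ⟨t / y', div_ne_zero ht0 hy', ?_⟩
  have e : y' * (t / y') ^ 2 = t * t / y' := by field_simp
  rw [e, ← ht]
  field_simp

theorem exists_IJ {A B : K} {θ : L} (h : Cub K L A B θ) {v : HeightOneSpectrum (𝓞 K)}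
    {w : HeightOneSpectrum (𝓞 L)} (hr : Rm K A B θ v w) :
    ∃ I J : SC L →+ ZMod 2, IJ K θ w I J := by
  have hsq : ∀ c : SC L, scm (Algebra.norm K : L →* K) c = 0 →
      IsSquare (Algebra.norm K (rep c)) := by
    intro c hc
    have h0 : (Algebra.norm K : L →* K) (rep c) ≠ 0 :=
      scm_ne (Algebra.norm K : L →* K) (H38T1.rep_ne c)
    have h1 := scm_sc (Algebra.norm K : L →* K) (H38T1.rep_ne c)
    rw [H38T1.sc_rep, hc] at h1
    exact (H38T1.sc_eq_zero h0).1 h1.symm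
  obtain ⟨p, hp⟩ : ∃ p : Submodule (ZMod 2) (SC L),
      ∀ c, c ∈ p ↔ scm (Algebra.norm K : L →* K) c = 0 :=
    ⟨AddSubgroup.toZModSubmodule 2 (scm (Algebra.norm K : L →* K)).ker, fun c => Iff.rfl⟩
  have hex : ∀ c : p, ∃ x : ZMod 2 × ZMod 2, Nr w (rep (c : SC L)) (rho θ x.1 x.2) := by
    intro c
    obtain ⟨i, j, hij⟩ := rm_class h hr (H38T1.rep_ne (c : SC L)) (hsq _ ((hp _).1 c.2))
    exact ⟨(i, j), hij⟩
  choose f hf using hex
  have huniq : ∀ (c : p) (y : L), y ≠ 0 → sc y = (c : SC L) → ∀ i j : ZMod 2,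
      Nr w y (rho θ i j) → i = (f c).1 ∧ j = (f c).2 := by
    intro c y hy hc i j hij
    obtain ⟨s, hs, e⟩ := Pd_sc hy (H38T1.rep_ne (c : SC L)) (hc.trans (H38T1.sc_rep _).symm)
    have h1 : Nr w y (rho θ (f c).1 (f c).2) := by
      rw [e]
      exact Pd_Nr_sq hs (hf c)
    exact rm_uniq h hr hij h1
  have hadd : ∀ c c' : p, f (c + c') = f c + f c' := by
    intro c c'
    have h1 := Pd_Nr_mul hr (Pd_rho_one hr (f c).1 (f c).2) (Pd_rho_one hr (f c').1 (f c').2)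
      (hf c) (hf c')
    obtain ⟨s, hs, e⟩ := Pd_rho_mul hr (f c).1 (f c).2 (f c').1 (f c').2
    rw [e] at h1
    have h2 := Pd_Nr_div hr hs h1
    have h3 := huniq (c + c') (rep (c : SC L) * rep (c' : SC L))
      (mul_ne_zero (H38T1.rep_ne _) (H38T1.rep_ne _)) (by
        rw [H38T1.sc_mul (H38T1.rep_ne _) (H38T1.rep_ne _), H38T1.sc_rep, H38T1.sc_rep]
        rfl) _ _ h2
    exact (Prod.ext h3.1 h3.2).symm
  obtain ⟨g, hg⟩ := LinearMap.exists_extend
    ((AddMonoidHom.mk' f hadd : p →+ ZMod 2 × ZMod 2).toZModLinearMap 2)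
  have hgf : ∀ c : p, g (c : SC L) = f c := fun c => LinearMap.congr_fun hg c
  have key : ∀ y : L, y ≠ 0 → IsSquare (Algebra.norm K y) → ∃ c : p, (c : SC L) = sc y := by
    intro y hy hN
    refine ⟨⟨sc y, (hp _).2 ?_⟩, rfl⟩
    rw [scm_sc (Algebra.norm K : L →* K) hy]
    exact (H38T1.sc_eq_zero (scm_ne (Algebra.norm K : L →* K) hy)).2 hN
  refine ⟨(AddMonoidHom.fst (ZMod 2) (ZMod 2)).comp g.toAddMonoidHom,
    (AddMonoidHom.snd (ZMod 2) (ZMod 2)).comp g.toAddMonoidHom, ⟨?_, ?_⟩⟩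
  · intro y hy hN
    obtain ⟨c, hc⟩ := key y hy hN
    obtain ⟨s, hs, e⟩ := Pd_sc hy (H38T1.rep_ne (c : SC L)) (hc.symm.trans (H38T1.sc_rep _).symm)
    have h1 : Nr w y (rho θ (f c).1 (f c).2) := by
      rw [e]
      exact Pd_Nr_sq hs (hf c)
    rw [← hgf c, hc] at h1
    exact h1
  · intro y hy hN i j hij
    obtain ⟨c, hc⟩ := key y hy hN
    have h1 := huniq c y hy hc.symm i j hij
    rw [← hgf c, hc] at h1
    exact h1

end H76MQ
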