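import Pool.Agent.H76.MQ.Dl
import Pool.Agent.H76.MQ.Aa
import Pool.Agent.H76.MQ.Tt
import Pool.Agent.H76.MQ.Pd

/-!
ROW Lx (project MP_78d38b_MQT, about 60 lines): existence of the local data: exists_Rm, exists_IJ (for `v ∈ C.P`; `hC.mem2, hC.sq2, hC.nv, hF.two`), exists_TwA (`hC.a6, hF.aux`), exists_TwT
(`v ∈ T`: `v ∉ C.S`, so `dsc ∉ v^2` by `hF.sqf` and `6 ∉ v`: a prime containing 2 is in `C.P`, a prime containing 3 is in `C.R`; `hF.typ`). Use `choose!` (the type of places of L is nonempty).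
Also fam_S: `FamQ` implies `H36MT.FamS` with exponent 10 for every `S'` between `C.S` and `C.S ∪ T`: bdd: `v ∈ C.P`: `dsc A B ≡ 4 * 16^3 + 27 * 16^2 = 256 * 91` modulo `v^10`, which is not in `v^10` (`2 ∉ v^2`: `256` has order 8); `v = a`: `dsc ∉ a^3`
(with `A = -3 r^2 + x`, `B = 2 r^3 - r x + y`, `x = 3r^2 + A ∈ a^2`, `y = f(r) ∈ a^2`: `dsc = 108 r^3 y + 36 r^2 .. ` : precisely `4 (x - 3r^2)^3 + 27 (2 r^3 - r x + y)^2 ≡ 108 r^3 y` modulo `a^4` (the terms linear in `x` cancel), and `108 r^3 y ∉ a^3` as `6, r ∉ a`, `y ∉ a^3`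
(`r, y`: take `s = 0` in AuxT)); `v ∈ R`: `dsc ∉ v` (fam_R below: no root modulo `v` odd implies `dsc ∉ v`; if `3 ∉ v` a double root `t = -3B/(2A)` or `t = 0` would be a root; if `3 ∈ v`: `dsc ≡ 4 A^3`, if `A ∈ v` then `t^3 ≡ -B` has a solution (Frobenius is bijective)); `v ∈ T`: `dsc ∉ v^2` by sqf.
-/

set_option autoImplicit false
set_option linter.unusedSectionVars false
open scoped Classical

open WithZero NumberField IsDedekindDomain H38RT
open H38T1 (SC sc scu rep eo la si Pri OddP tp unif ka)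
open H76PP

namespace H76MQ

variable {K L : Type} [Field K] [NumberField K] [Field L] [NumberField L] [Algebra K L]

private theorem Lx_le {x : WithZero (Multiplicative ℤ)} {m : ℤ} (h : x < exp (-m)) :
    x ≤ exp (-(m + 1)) := by
  rcases eq_or_ne x 0 with rfl | h0
  · exact zero_le
  rw [← exp_log h0, exp_lt_exp] at h
  rw [← exp_log h0, exp_le_exp]
  omega

private theorem Lx_not (v : HeightOneSpectrum (𝓞 K)) {x : 𝓞 K} {m n : ℕ} (h : x ∉ v.asIdeal ^ m)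
    (hmn : m ≤ n) : x ∉ v.asIdeal ^ n := fun h1 => h (Ideal.pow_le_pow_right hmn h1)

private theorem Lx_mul (v : HeightOneSpectrum (𝓞 K)) {x y : 𝓞 K} {n : ℕ} (hx : x ∉ v.asIdeal)
    (h : x * y ∈ v.asIdeal ^ n) : y ∈ v.asIdeal ^ n := by
  rw [← v.intValuation_le_pow_iff_mem] at h ⊢
  rw [map_mul, v.intValuation_eq_one_iff.2 hx, one_mul] at h
  exact h

private theorem Lx_two (v : HeightOneSpectrum (𝓞 K)) (h2 : (2 : 𝓞 K) ∈ v.asIdeal)
    (h22 : (2 : 𝓞 K) ∉ v.asIdeal ^ 2) : (256 * 91 : 𝓞 K) ∉ v.asIdeal ^ 10 := by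
  intro h
  have h91 : (91 : 𝓞 K) ∉ v.asIdeal := by
    intro h1
    apply v.isPrime.ne_top
    rw [Ideal.eq_top_iff_one]
    have e1 : (1 : 𝓞 K) = 91 - 45 * 2 := by norm_num
    rw [e1]
    exact Ideal.sub_mem _ h1 (Ideal.mul_mem_left _ _ h2)
  have h3 : (2 : 𝓞 K) ^ 8 ∈ v.asIdeal ^ 10 := by
    apply Lx_mul v h91
    have e1 : (91 * 2 ^ 8 : 𝓞 K) = 256 * 91 := by norm_num
    rw [e1]
    exact h
  rw [← v.intValuation_le_pow_iff_mem] at h3 h22
  have h4 : exp (-(1 : ℤ)) ≤ v.intValuation (2 : 𝓞 K) := by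
    rw [← not_lt]
    intro h5
    apply h22
    have h6 := Lx_le h5
    norm_num at h6
    exact_mod_cast h6
  rw [map_pow] at h3
  have h5 := (pow_le_pow_left₀ zero_le h4 8).trans h3
  rw [← exp_nsmul, exp_le_exp] at h5
  norm_num at h5

theorem six_notMem {C : Cfg K} (hC : C.Ok) {v : HeightOneSpectrum (𝓞 K)} (hv : v ∉ C.S) :
    (6 : 𝓞 K) ∉ v.asIdeal := by
  intro h6
  apply hv
  have e1 : (6 : 𝓞 K) = 2 * 3 := by norm_num
  rw [e1] at h6
  rcases v.isPrime.mem_or_mem h6 with h | h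
  · exact Finset.mem_union_left _ ((hC.mem2 v).2 h)
  · exact Finset.mem_union_right _ (Finset.mem_union_right _ (hC.R3 v h))

/-- No root modulo an odd prime implies that the discriminant is a unit. -/
theorem fam_R {v : HeightOneSpectrum (𝓞 K)} (h2 : (2 : 𝓞 K) ∉ v.asIdeal) {A B : 𝓞 K}
    (hr : ∀ t : 𝓞 K, t ^ 3 + A * t + B ∉ v.asIdeal) : dsc A B ∉ v.asIdeal := by
  intro hd
  have hm := v.isMaximal
  have hfin : Finite (𝓞 K ⧸ v.asIdeal) := Ideal.finiteQuotientOfFreeOfNeBot v.asIdeal v.ne_bot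
  let _ := Ideal.Quotient.field v.asIdeal
  obtain ⟨a, ha⟩ : ∃ a, a = Ideal.Quotient.mk v.asIdeal A := ⟨_, rfl⟩
  obtain ⟨b, hb⟩ : ∃ b, b = Ideal.Quotient.mk v.asIdeal B := ⟨_, rfl⟩
  have hd' : 4 * a ^ 3 + 27 * b ^ 2 = 0 := by
    have h1 := Ideal.Quotient.eq_zero_iff_mem.2 hd
    unfold dsc at h1
    rw [map_add, map_mul, map_mul, map_pow, map_pow, map_ofNat, map_ofNat, ← ha, ← hb] at h1
    exact h1
  have h2' : (2 : 𝓞 K ⧸ v.asIdeal) ≠ 0 := by
    intro h1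
    apply h2
    rw [← Ideal.Quotient.eq_zero_iff_mem, map_ofNat]
    exact h1
  have hex : ∃ t : 𝓞 K ⧸ v.asIdeal, t ^ 3 + a * t + b = 0 := by
    by_cases h3 : (3 : 𝓞 K ⧸ v.asIdeal) = 0
    · have ha0 : a = 0 := by
        have e1 : (27 : 𝓞 K ⧸ v.asIdeal) = 9 * 3 := by norm_num
        have e2 : (4 : 𝓞 K ⧸ v.asIdeal) = 2 * 2 := by norm_num
        rw [e1, h3, mul_zero, zero_mul, add_zero, e2] at hd'
        have h4 := (mul_eq_zero.1 hd').resolve_left (mul_ne_zero h2' h2')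
        exact (pow_eq_zero_iff three_ne_zero).1 h4
      have hinj : Function.Injective (fun x : 𝓞 K ⧸ v.asIdeal => x ^ 3) := by
        intro x y hxy
        have hxy' : x ^ 3 = y ^ 3 := hxy
        have h4 : (x - y) ^ 3 = 0 := by
          have e1 : (x - y) ^ 3 = x ^ 3 - y ^ 3 - 3 * (x ^ 2 * y - x * y ^ 2) := by ring
          rw [e1, h3, zero_mul, hxy', sub_self, sub_zero]
        exact sub_eq_zero.1 ((pow_eq_zero_iff three_ne_zero).1 h4)
      obtain ⟨t, ht⟩ := (Finite.injective_iff_surjective.1 hinj) (-b)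
      have ht' : t ^ 3 = -b := ht
      exact ⟨t, by rw [ha0, zero_mul, add_zero, ht', neg_add_cancel]⟩
    · by_cases ha0 : a = 0
      · rw [ha0, zero_pow three_ne_zero, mul_zero, zero_add] at hd'
        have e1 : (27 : 𝓞 K ⧸ v.asIdeal) = 3 ^ 3 := by norm_num
        rw [e1] at hd'
        have h4 := (mul_eq_zero.1 hd').resolve_left (pow_ne_zero 3 h3)
        have hb0 := (pow_eq_zero_iff two_ne_zero).1 h4
        exact ⟨0, by rw [hb0, ha0]; ring⟩
      · refine ⟨-3 * b / (2 * a), ?_⟩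
        have e1 : (-3 * b / (2 * a)) ^ 3 + a * (-3 * b / (2 * a)) + b =
            -(b * (4 * a ^ 3 + 27 * b ^ 2)) / (8 * a ^ 3) := by
          have h8 : (8 : 𝓞 K ⧸ v.asIdeal) = 2 * 2 * 2 := by norm_num
          rw [h8]
          field_simp
          ring
        rw [e1, hd', mul_zero, neg_zero, zero_div]
  obtain ⟨t, ht⟩ := hex
  obtain ⟨s, rfl⟩ := Ideal.Quotient.mk_surjective t
  apply hr s
  rw [← Ideal.Quotient.eq_zero_iff_mem, map_add, map_add, map_pow, map_mul, ← ha, ← hb]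
  exact ht

theorem exists_LData {C : Cfg K} (hC : C.Ok) {q₀ : HeightOneSpectrum (𝓞 K)}
    {T : Finset (HeightOneSpectrum (𝓞 K))} (hT : ∀ v ∈ T, v ∉ C.S ∧ v ≠ q₀)
    {A B : 𝓞 K} (hF : FamQ C q₀ T A B) {θ : L} (h : Cub K L (A : K) (B : K) θ) :
    Nonempty (LData C T A B θ) := by
  obtain ⟨w₀, -⟩ := exists_above (L := L) q₀
  have hne : Nonempty (HeightOneSpectrum (𝓞 L)) := ⟨w₀⟩
  have h1 : ∀ v ∈ C.P, ∃ (w : HeightOneSpectrum (𝓞 L)) (I J : SC L →+ ZMod 2),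
      Rm K (A : K) (B : K) θ v w ∧ IJ K θ w I J := by
    intro v hv
    obtain ⟨w, hw⟩ := exists_Rm h ((hC.mem2 v).1 hv) (hC.sq2 v hv) (hC.nv v hv) (hF.two v hv).1
      (hF.two v hv).2
    obtain ⟨I, J, hIJ⟩ := exists_IJ h hw
    exact ⟨w, I, J, hw, hIJ⟩
  have h2 : ∀ v ∈ C.P, ∃ (a₁ a₂ : HeightOneSpectrum (𝓞 L)) (r : K),
      TwA K θ (C.a v) a₁ a₂ r := fun v hv => exists_TwA h (hC.a6 v hv) (hF.aux v hv)
  have h3 : ∀ v ∈ T, ∃ t₁ t₂ : HeightOneSpectrum (𝓞 L), TwT K (A : K) θ v t₁ t₂ := fun v hv =>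
    exists_TwT h (hF.sqf v (hT v hv).1) (six_notMem hC (hT v hv).1) (hF.typ v hv)
  choose! w I J hw using h1
  choose! a₁ a₂ r hA using h2
  choose! t₁ t₂ hTT using h3
  exact ⟨⟨w, I, J, a₁, a₂, r, t₁, t₂, fun v hv => (hw v hv).1, fun v hv => (hw v hv).2, hA, hTT⟩⟩

theorem fam_S {C : Cfg K} (hC : C.Ok) {q₀ : HeightOneSpectrum (𝓞 K)}
    {T S' T' : Finset (HeightOneSpectrum (𝓞 K))} (hT : ∀ v ∈ T, v ∉ C.S ∧ v ≠ q₀)
    {A B : 𝓞 K} (hF : FamQ C q₀ T A B) (h1 : C.S ⊆ S') (h2 : S' ⊆ C.S ∪ T) (h3 : T' ⊆ T) :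
    H36MT.FamS S' 10 q₀ T' A B := by
  refine ⟨hF.irr, fun v hv => hF.typ v (h3 hv), fun v hv => hF.sqf v fun h => hv (h1 h), ?_⟩
  intro v hv
  rcases Finset.mem_union.1 (h2 hv) with hv | hv
  · rcases Finset.mem_union.1 hv with hv | hv
    · -- above two
      intro hcon
      obtain ⟨hA, hB⟩ := hF.two v hv
      apply Lx_two v ((hC.mem2 v).1 hv) (hC.sq2 v hv)
      have e1 : (256 * 91 : 𝓞 K) = dsc A B - ((A - 16) * (4 * (A ^ 2 + 16 * A + 256)) +
          (B - 16) * (27 * (B + 16))) := by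
        unfold dsc
        ring
      rw [e1]
      exact Ideal.sub_mem _ hcon (Ideal.add_mem _ (Ideal.mul_mem_right _ _ hA)
        (Ideal.mul_mem_right _ _ hB))
    rcases Finset.mem_union.1 hv with hv | hv
    · -- auxiliary
      obtain ⟨u, hu, rfl⟩ := Finset.mem_image.1 hv
      obtain ⟨r, hr1, hr2, hr3⟩ := hF.aux u hu
      have h6 := hC.a6 u hu
      apply Lx_not (C.a u) (m := 3) ?_ (by norm_num)
      intro hcon
      have hr0 := hr3 0
      rw [zero_pow two_ne_zero, add_zero] at hr0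
      have hr : r ∉ (C.a u).asIdeal := by
        intro h
        apply hr0
        have e1 : 3 * r * (r ^ 3 + A * r + B) = 3 * (r * (r ^ 3 + A * r + B)) := by ring
        rw [e1, pow_succ' (C.a u).asIdeal 2]
        exact Ideal.mul_mem_left _ _ (Ideal.mul_mem_mul h hr2)
      apply hr0
      have h36 : (36 * r ^ 2 : 𝓞 K) ∉ (C.a u).asIdeal := by
        intro h
        have e1 : (36 * r ^ 2 : 𝓞 K) = 6 * 6 * (r * r) := by ring
        rw [e1] at h
        rcases (C.a u).isPrime.mem_or_mem h with h | h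
        · rcases (C.a u).isPrime.mem_or_mem h with h | h
          · exact h6 h
          · exact h6 h
        · rcases (C.a u).isPrime.mem_or_mem h with h | h
          · exact hr h
          · exact hr h
      apply Lx_mul (C.a u) h36
      obtain ⟨x, hx⟩ : ∃ x, x = 3 * r ^ 2 + A := ⟨_, rfl⟩
      obtain ⟨y, hy⟩ : ∃ y, y = r ^ 3 + A * r + B := ⟨_, rfl⟩
      rw [← hx] at hr1
      rw [← hy] at hr2 ⊢
      have hAx : A = x - 3 * r ^ 2 := by rw [hx]; ring
      have hBy : B = y + 2 * r ^ 3 - r * x := by rw [hy, hx]; ring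
      have e1 : 36 * r ^ 2 * (3 * r * y) = dsc A B - (x * x * (4 * x - 9 * r ^ 2) +
          (27 * (y * y) - 54 * r * (x * y))) := by
        unfold dsc
        rw [hAx, hBy]
        ring
      have h4 : (C.a u).asIdeal ^ 2 * (C.a u).asIdeal ^ 2 ≤ (C.a u).asIdeal ^ 3 := by
        rw [← pow_add]
        exact Ideal.pow_le_pow_right (by norm_num)
      rw [e1]
      refine Ideal.sub_mem _ hcon (Ideal.add_mem _ (Ideal.mul_mem_right _ _ (h4
        (Ideal.mul_mem_mul hr1 hr1))) (Ideal.sub_mem _ (Ideal.mul_mem_left _ _ (h4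
        (Ideal.mul_mem_mul hr2 hr2))) (Ideal.mul_mem_left _ _ (h4 (Ideal.mul_mem_mul hr1 hr2)))))
    · -- further places
      apply Lx_not v (m := 1) ?_ (by norm_num)
      rw [pow_one]
      exact fam_R (hC.R2 v hv) (hF.res v hv)
  · exact Lx_not v (hF.sqf v (hT v hv).1) (by norm_num)

end H76MQ
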