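import Pool.Agent.H76.MQ.Dl
import Pool.Agent.H76.MQ.Lx
import Pool.Agent.H76.MQ.Gg
import Pool.Agent.H30.ZO.Ga
import Pool.Agent.H30.ZO.Gb
import Pool.Agent.H30.ZO.Gc
import Pool.Agent.H24.TD.Fi
import Pool.Agent.H73.P2.Nq
import Pool.Agent.H73.P2.Gd

/-!
ROW Dx (project MP_78d38b_MQT, about 300 lines): the number of elements of `X J`.

card_P: `∑ e f = [K : ℚ]` over the primes above `2` (`Ideal.sum_ramification_inertia` for `ℤ ⊆ 𝓞 K`, the prime `2`); `f = 1` as `Nv v = 2`, `e = 1` as `2 ∉ v^2`; the primes above `2` are `C.P`.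
card_X: let `S = C.S ∪ J`, `U = H24TD.US L {w | dn K w ∈ S} ⊓ H30ZO.HH K L` (see H30/ZO/Ga.lean, `card_X`, namespace as there): `Nat.card U * 2^(|S| + r K) = 2^(∑_{v ∈ S} nb K L v + r L)`, `r = nrRealPlaces + nrComplexPlaces`.
`nb K L v` = number of places above `v`: `1` for `v ∈ C.P` (`(D.hw v _).only`), `2` for `v = C.a v'` (`(D.hA v' _).only, ne`), `1` for `v ∈ C.R` (no root modulo `v`: the proof of `H73P2.even_unique`, `Nq_sub`, shows that there is only one place), `2` for `v ∈ J ⊆ T`. These sets are disjoint, so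
`∑ nb = |S| + |C.P| + |J|`. `places_count` (H30/ZO/Gb.lean): `r L = r K + [K : ℚ] + #{s | nr K L s = 3}`, and `nr K L s = 3` is impossible: three real embeddings of `L` above `s` give three different real roots of `X^3 + s A X + s B`, so `-(4 (s A)^3 + 27 (s B)^2) > 0`
(product of the squares of the differences), against `hF.pos`. With `card_P`: `Nat.card U = 2^(2 |C.P| + |J|)`. `U` is contained in `HH K (C.S ∪ J)` (S-units have order zero outside). The elements of `U` with `la (t₁ v) c + nu v * eo (t₂ v) c = 0` for `v ∈ J` form the kernel of a homomorphism `U → (J → ZMod 2)`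
(`H38T1.la_add` at odd places, `H38T1.eo_add`), so there are at least `2^(2 |C.P|)` of them. Finiteness of `{c // D.X J c}`: `H38T1.fin_US` (H38/T1/Sa.lean) as there are finitely many places above `S` (`fin_above`).
fin_HH: the same finiteness.
-/

set_option autoImplicit false
set_option linter.unusedSectionVars false
open scoped Classical

open WithZero NumberField IsDedekindDomain H38RT
open H38T1 (SC sc scu rep eo la si Pri OddP tp unif ka)
open H76PP

namespace H76MQ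

variable {K L : Type} [Field K] [NumberField K] [Field L] [NumberField L] [Algebra K L]

theorem Dx_two {v : HeightOneSpectrum (𝓞 K)} (h2 : (2 : 𝓞 K) ∈ v.asIdeal)
    (h22 : (2 : 𝓞 K) ∉ v.asIdeal ^ 2) : H30ZO.e2 v = 1 := by
  have h3 := H30ZO.e2_spec v
  have h33 : algebraMap (𝓞 K) K 2 = 2 := map_ofNat _ 2
  rw [← h33, v.valuation_of_algebraMap] at h3
  have h4 : v.intValuation (2 : 𝓞 K) ≤ exp (-((1 : ℕ) : ℤ)) :=
    (v.intValuation_le_pow_iff_mem 2 1).2 (by rwa [pow_one])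
  have h5 : ¬ v.intValuation (2 : 𝓞 K) ≤ exp (-((2 : ℕ) : ℤ)) := fun h =>
    h22 ((v.intValuation_le_pow_iff_mem 2 2).1 h)
  rw [h3, exp_le_exp] at h4 h5
  push_cast at h4 h5
  omega

theorem Dx_fin (S : Finset (HeightOneSpectrum (𝓞 K))) :
    {w : HeightOneSpectrum (𝓞 L) | dn K w ∈ S}.Finite := by
  have h1 : {w : HeightOneSpectrum (𝓞 L) | dn K w ∈ S} =
      ⋃ v ∈ S, {w : HeightOneSpectrum (𝓞 L) | dn K w = v} := by
    ext w
    rw [Set.mem_iUnion₂]
    constructor
    · intro hw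
      exact ⟨dn K w, hw, rfl⟩
    · rintro ⟨v, hv, hw⟩
      have hw' : dn K w = v := hw
      change dn K w ∈ S
      rw [hw']
      exact hv
  rw [h1]
  exact S.finite_toSet.biUnion fun v _ => fin_above v

theorem Dx_nb1 (v : HeightOneSpectrum (𝓞 K)) : 1 ≤ H30ZO.nb K L v := by
  obtain ⟨w, hw⟩ := exists_above (L := L) v
  have h1 : 0 < {w : HeightOneSpectrum (𝓞 L) | dn K w = v}.ncard :=
    (Set.ncard_pos (fin_above v)).2 ⟨w, hw⟩
  exact h1

theorem Dx_nb2 {v : HeightOneSpectrum (𝓞 K)} {w₁ w₂ : HeightOneSpectrum (𝓞 L)}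
    (h : TwG K v w₁ w₂) : 2 ≤ H30ZO.nb K L v := by
  have h1 : ({w₁, w₂} : Set (HeightOneSpectrum (𝓞 L))) ⊆
      {w : HeightOneSpectrum (𝓞 L) | dn K w = v} := by
    rintro w (rfl | hw)
    · exact h.dn1
    · have hw' : w = w₂ := hw
      rw [hw']
      exact h.dn2
  have h2 := Set.ncard_le_ncard h1 (fin_above v)
  rw [Set.ncard_pair h.ne] at h2
  exact h2

/-- A sum over four disjoint pieces. -/
theorem Dx_sum {C : Cfg K} (hC : C.Ok) {J : Finset (HeightOneSpectrum (𝓞 K))}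
    (hJ : ∀ v ∈ J, v ∉ C.S) {f : HeightOneSpectrum (𝓞 K) → ℕ} (h1 : ∀ v, 1 ≤ f v)
    (ha : ∀ v ∈ C.P, 2 ≤ f (C.a v)) (hj : ∀ v ∈ J, 2 ≤ f v) :
    (C.S ∪ J).card + C.P.card + J.card ≤ ∑ v ∈ C.S ∪ J, f v := by
  obtain ⟨Q, hQ⟩ : ∃ Q, Q = C.P.image C.a ∪ J := ⟨_, rfl⟩
  have hQs : Q ⊆ C.S ∪ J := by
    rw [hQ]
    refine Finset.union_subset_union ?_ (Finset.Subset.refl _)
    exact (Finset.subset_union_left.trans Finset.subset_union_right)
  have hQc : Q.card = C.P.card + J.card := by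
    rw [hQ, Finset.card_union_of_disjoint]
    · rw [Finset.card_image_of_injOn]
      intro v hv v' hv' hvv
      exact hC.inj v hv v' hv' hvv
    · rw [Finset.disjoint_left]
      intro v hv hvJ
      exact hJ v hvJ (Finset.mem_union_right _ (Finset.mem_union_left _ hv))
  have hQ2 : ∀ v ∈ Q, 2 ≤ f v := by
    intro v hv
    rw [hQ] at hv
    rcases Finset.mem_union.1 hv with hv | hv
    · obtain ⟨u, hu, rfl⟩ := Finset.mem_image.1 hv
      exact ha u hu
    · exact hj v hv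
  have h2 : (C.S ∪ J).card + Q.card = ∑ v ∈ C.S ∪ J, (1 + if v ∈ Q then 1 else 0) := by
    rw [Finset.sum_add_distrib, Finset.sum_const, smul_eq_mul, mul_one, ← Finset.sum_filter,
      Finset.sum_const, smul_eq_mul, mul_one, Finset.filter_mem_eq_inter,
      Finset.inter_eq_right.2 hQs]
  rw [add_assoc, ← hQc, h2]
  refine Finset.sum_le_sum fun v _ => ?_
  by_cases hv : v ∈ Q
  · rw [if_pos hv]
    exact hQ2 v hv
  · rw [if_neg hv]
    exact h1 v

/-- The units lie in the group of the classes of even order outside. -/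
theorem Dx_le {S : Finset (HeightOneSpectrum (𝓞 K))} {c : SC L}
    (hc : c ∈ H24TD.US L {w : HeightOneSpectrum (𝓞 L) | dn K w ∈ S} ⊓ H30ZO.HH K L) :
    c ∈ (HH K S : AddSubgroup (SC L)) := by
  refine ⟨(AddSubgroup.mem_inf.1 hc).2, fun w hw => ?_⟩
  obtain ⟨u, hu, rfl⟩ := (AddSubgroup.mem_inf.1 hc).1
  rw [H24TD.cls_eq, H38T1.eo_sc (Units.ne_zero _)]
  have h1 : w.valuation L ((Additive.toMul u : Lˣ) : L) = 1 := hu w hw
  rw [ord, h1, log_one, neg_zero, Int.cast_zero]

/-- The kernel of a homomorphism to a finite vector space over two elements is large. -/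
theorem Dx_ker {G : Type} [AddCommGroup G] {J : Type} [Fintype J] (φ : G →+ (J → ZMod 2)) {m : ℕ}
    (h : 2 ^ (m + Fintype.card J) ≤ Nat.card G) : 2 ^ m ≤ Nat.card φ.ker := by
  have h1 := AddSubgroup.card_mul_index φ.ker
  rw [AddSubgroup.index_ker] at h1
  have h2 : Nat.card φ.range ≤ 2 ^ Fintype.card J := by
    have h3 : Nat.card φ.range ≤ Nat.card (J → ZMod 2) :=
      Nat.card_le_card_of_injective (fun x : φ.range => (x : J → ZMod 2)) Subtype.val_injective
    rw [Nat.card_eq_fintype_card (α := J → ZMod 2), Fintype.card_fun, ZMod.card] at h3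
    exact h3
  have h3 : 2 ^ m * 2 ^ Fintype.card J ≤ Nat.card φ.ker * 2 ^ Fintype.card J := by
    rw [← pow_add]
    refine h.trans ?_
    rw [← h1]
    exact Nat.mul_le_mul_left _ h2
  exact Nat.le_of_mul_le_mul_right h3 (pow_pos two_pos _)

theorem card_P {C : Cfg K} (hC : C.Ok) : C.P.card = Module.finrank ℚ K := by
  have h1 := H30ZO.prod_two C.P (fun v hv => by
    refine (hC.mem2 v).2 ?_
    have h33 : algebraMap (𝓞 K) K 2 = 2 := map_ofNat _ 2
    rw [← h33] at hv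
    exact (v.valuation_lt_one_iff_mem (K := K) 2).1 hv)
  have h2 : ∀ v ∈ C.P, H30ZO.qq v = 2 := by
    intro v hv
    rw [H30ZO.qq, Dx_two ((hC.mem2 v).1 hv) (hC.sq2 v hv), hC.nv v hv, pow_one]
  rw [Finset.prod_congr rfl h2, Finset.prod_const] at h1
  exact Nat.pow_right_injective (le_refl 2) h1

theorem fin_HH (K : Type) {L : Type} [Field K] [NumberField K] [Field L] [NumberField L]
    [Algebra K L] (S : Finset (HeightOneSpectrum (𝓞 K))) :
    Finite (HH K S : AddSubgroup (SC L)) := by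
  have h1 := (H24TD.fin_US (Dx_fin (L := L) S)).subset
    (fun c (hc : c ∈ ((HH K S : AddSubgroup (SC L)) : Set (SC L))) w hw => hc.2 w hw)
  exact h1.to_subtype

theorem card_XJ {C : Cfg K} (hC : C.Ok) {q₀ : HeightOneSpectrum (𝓞 K)}
    {T : Finset (HeightOneSpectrum (𝓞 K))} (hT : ∀ v ∈ T, v ∉ C.S ∧ v ≠ q₀)
    {A B : 𝓞 K} (hF : FamQ C q₀ T A B) {θ : L} (h : Cub K L (A : K) (B : K) θ)
    (hR : HR2 K L A B θ) (D : LData C T A B θ) {J : Finset (HeightOneSpectrum (𝓞 K))}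
    (hJ : J ⊆ T) : 2 ^ (2 * C.P.card) ≤ Nat.card {c : SC L // D.X J c} := by
  -- the discriminant
  have hn := card_P hC
  have hP : 0 < C.P.card := by
    rw [hn]
    exact Module.finrank_pos
  obtain ⟨v₀, hv₀⟩ := Finset.card_pos.1 hP
  have hfs := fam_S (T' := ∅) hC hT hF (Finset.Subset.refl C.S) Finset.subset_union_left
    (Finset.empty_subset T)
  have hd : dsc A B ≠ 0 := by
    intro h0
    apply hfs.bdd v₀ (Finset.mem_union_left _ hv₀)
    rw [h0]
    exact Ideal.zero_mem _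
  have hD : 4 * (A : K) ^ 3 + 27 * (B : K) ^ 2 ≠ 0 := by
    intro h0
    apply hd
    apply RingOfIntegers.coe_injective
    unfold dsc
    simpa only [map_add, map_mul, map_pow, map_ofNat, map_zero] using h0
  -- the number of units
  obtain ⟨U, hU⟩ : ∃ U : AddSubgroup (SC L), U =
      H24TD.US L {w : HeightOneSpectrum (𝓞 L) | dn K w ∈ C.S ∪ J} ⊓ H30ZO.HH K L := ⟨_, rfl⟩
  have hc1 := H30ZO.card_X h (C.S ∪ J)
  rw [← hU] at hc1
  have hc2 := H30ZO.places_count h hD
  have hc3 := Dx_sum hC (J := J) (fun v hv => (hT v (hJ hv)).1) (f := H30ZO.nb K L)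
    Dx_nb1 (fun v hv => Dx_nb2 (D.hA v hv).toTwG) (fun v hv => Dx_nb2 (D.hT v (hJ hv)).toTwG)
  have hUc : 2 ^ (2 * C.P.card + J.card) ≤ Nat.card U := by
    refine Nat.le_of_mul_le_mul_right (c := 2 ^ ((C.S ∪ J).card +
      (InfinitePlace.nrRealPlaces K + InfinitePlace.nrComplexPlaces K))) ?_ (pow_pos two_pos _)
    rw [hc1, ← pow_add]
    refine Nat.pow_le_pow_right two_pos ?_
    rw [hc2, ← hn]
    omega
  -- the conditions at `J`
  have hodd : ∀ v ∈ J, OddP v := by
    intro v hv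
    have h6 := six_notMem hC (hT v (hJ hv)).1
    unfold OddP
    have h33 : algebraMap (𝓞 K) K 2 = 2 := map_ofNat _ 2
    rw [← h33]
    refine (v.valuation_eq_one_iff_notMem (K := K)).2 fun h2 => h6 ?_
    have e1 : (6 : 𝓞 K) = 3 * 2 := by norm_num
    rw [e1]
    exact Ideal.mul_mem_left _ _ h2
  let φ : U →+ ({v // v ∈ J} → ZMod 2) :=
    { toFun := fun c v => la (D.t₁ v.1) c.1 + D.nu v.1 * eo (D.t₂ v.1) c.1
      map_zero' := by
        funext v
        have h1 := H38T1.la_add (Gg_odd1 (hodd v.1 v.2) (D.hT v.1 (hJ v.2)).toTwG) 0 0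
        rw [add_zero] at h1
        have h2 := left_eq_add.1 h1
        show la (D.t₁ v.1) 0 + D.nu v.1 * eo (D.t₂ v.1) 0 = 0
        rw [h2, H38T1.eo_zero, mul_zero, add_zero]
      map_add' := by
        intro c c'
        funext v
        show la (D.t₁ v.1) (c.1 + c'.1) + D.nu v.1 * eo (D.t₂ v.1) (c.1 + c'.1) =
          (la (D.t₁ v.1) c.1 + D.nu v.1 * eo (D.t₂ v.1) c.1) +
          (la (D.t₁ v.1) c'.1 + D.nu v.1 * eo (D.t₂ v.1) c'.1)
        rw [H38T1.la_add (Gg_odd1 (hodd v.1 v.2) (D.hT v.1 (hJ v.2)).toTwG), H38T1.eo_add]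
        ring }
  have hker := Dx_ker (m := 2 * C.P.card) φ (by rw [Fintype.card_coe]; exact hUc)
  refine hker.trans ?_
  have hfin : Finite {c : SC L // D.X J c} := by
    have h1 : ((HH K (C.S ∪ J) : AddSubgroup (SC L)) : Set (SC L)).Finite :=
      Set.finite_coe_iff.1 (fin_HH K (C.S ∪ J))
    exact (h1.subset (fun c (hc : c ∈ {c : SC L | D.X J c}) => hc.1)).to_subtype
  have hX : ∀ c : φ.ker, D.X J c.1.1 := by
    rintro ⟨⟨c, hcU⟩, hc⟩
    refine ⟨?_, ?_⟩
    · rw [hU] at hcU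
      exact Dx_le hcU
    · intro v hv
      have h1 := congrFun (AddMonoidHom.mem_ker.1 hc) ⟨v, hv⟩
      have h2 : la (D.t₁ v) c + D.nu v * eo (D.t₂ v) c = 0 := h1
      exact CharTwo.add_eq_zero.1 h2
  refine Nat.card_le_card_of_injective (fun c : φ.ker => (⟨c.1.1, hX c⟩ : {c : SC L // D.X J c})) ?_
  intro c c' hcc
  have h0 : (⟨c.1.1, hX c⟩ : {c : SC L // D.X J c}) = ⟨c'.1.1, hX c'⟩ := hcc
  have h1 : c.1.1 = c'.1.1 := Subtype.mk.inj h0
  exact Subtype.ext (Subtype.ext h1)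

end H76MQ
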