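import Pool.Agent.H76.MQ.Df
import Pool.Agent.H54.MT.La

/-!
ROW Fs (project MP_78d38b_MQT, about 160 lines): the symbol of the conic of `y` at an odd place.

`α = al h y = y2`, `β = be h y = y1^2 - y0 y2 + A y2^2` (`yi = h.co i y`). Put `t = y1 / y2`, `s = - (y0 y1 + B y2^2) / β`,
`U = t - θ`, `W = s - θ` (nonzero: `H54PR.sub_ne`), `f(x) = x^3 + A x + B ≠ 0` on `K` (`H54PR.ff_ne`). With `θ^3 = -Aθ - B`:
`y * (y1 - y2 θ) = (y0 y1 + B y2^2) + β θ`, i.e. `y * (y2 U) = - β W` (`h.eq_co y`), so `sc y = sc (-(α β)) + sc U + sc W` in `SC L` (2 = 0).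
Norms (`h.norm_sub`: `N (x - θ) = f x`): `N y * y2^3 f t = - β^3 f s`, so `-(α β) f(t) f(s)` is a square. `t - s = y2^2 f(t) / β` (direct computation), so
`t ≠ s` and `sc β = sc (t - s) + sc (f t)` in `SC K`.
At an odd `v` (all `w | v` odd, `oddP_dn`; `tp` is symmetric and additive: `H38T1.tp_comm`, `H54PR.tp_add_right`; `tp (x) (-x) = 0`: `H38T1.tp_neg`; projection formula
`hR.proj`; `H54PR.tp_sub`; see the proof of `H54MT.loc_iso`): write `λ = -(α β)`, `δ = t - s`.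
`G = ∑_w tp_w (y, U) = ∑ tp_w (λ, U) + tp_w (U, U) + tp_w (W, U) = tp_v (f t, λ) + tp_v (f t, -1) + [tp_v (f t, -δ) + tp_v (f s, δ)]`, and `sc (f s) = sc λ + sc (f t)`. So
`G = (f t, λ) + (f t, -1) + (f t, -1) + (f t, δ) + (λ, δ) + (f t, δ) = (λ, f t) + (λ, δ) = (λ, β) = (α, β) + (-β, β) = (α, β)`.
Second: `∑ tp_w (y, U) + ∑ tp_w (y, W) = ∑ tp_w (y, U W) = ∑ tp_w (y, y) + tp_w (y, λ) = ∑ tp_w (y, -1) + tp_w (y, λ) = tp_v (N y, -1) + tp_v (N y, λ) = 0`
(`sc (U W) = sc y + sc λ`, `N y` a square).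
-/

set_option autoImplicit false
set_option linter.unusedSectionVars false
open scoped Classical

open WithZero NumberField IsDedekindDomain H38RT
open H38T1 (SC sc scu rep eo la si Pri OddP tp unif ka)
open H76PP

namespace H76MQ

variable {K L : Type} [Field K] [NumberField K] [Field L] [NumberField L] [Algebra K L]

theorem Fs_self {F : Type} [Field F] [NumberField F] {v : HeightOneSpectrum (𝓞 F)} (hv : OddP v)
    {x : F} (hx : x ≠ 0) : tp v (sc x) (sc x) = tp v (sc x) (sc (-1 : F)) := by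
  have b1 := H38T1.tp_neg hv hx
  have b2 : sc (-x) = sc (-1 : F) + sc x := by
    rw [← H38T1.sc_mul (neg_ne_zero.2 one_ne_zero) hx, neg_one_mul]
  rw [b2, H54PR.tp_add_right hv] at b1
  have e3 : ∀ p q : ZMod 2, p + q = 0 → q = p := by decide
  exact e3 _ _ b1

theorem Fs_zero {F : Type} [Field F] [NumberField F] {v : HeightOneSpectrum (𝓞 F)} (hv : OddP v)
    (c : SC F) : tp v 0 c = 0 := by
  have h1 := H38T1.tp_add_left hv (0 : SC F) 0 c
  rw [add_zero] at h1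
  exact left_eq_add.1 h1

theorem Fs_key {A B : 𝓞 K} {θ : L} (h : Cub K L (A : K) (B : K) θ) {y : L}
    (ha : al h y ≠ 0) (hb : be h y ≠ 0) {t s : K} (ht : t = h.co 1 y / al h y)
    (hs : s = -(h.co 0 y * h.co 1 y + (B : K) * al h y ^ 2) / be h y) :
    y * (algebraMap K L (al h y) * (algebraMap K L t - θ)) =
      algebraMap K L (-be h y) * (algebraMap K L s - θ) := by
  have k1 : algebraMap K L (al h y) * algebraMap K L t = algebraMap K L (h.co 1 y) := by
    rw [← map_mul, ht, mul_div_cancel₀ _ ha]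
  have k2 : algebraMap K L (-be h y) * algebraMap K L s =
      algebraMap K L (h.co 0 y * h.co 1 y + (B : K) * al h y ^ 2) := by
    rw [← map_mul, hs]
    congr 1
    field_simp
  have k3 : be h y = h.co 1 y ^ 2 - h.co 0 y * h.co 2 y + (A : K) * h.co 2 y ^ 2 := rfl
  have k4 : al h y = h.co 2 y := rfl
  have hr := h.root
  have k5 := h.eq_co y
  rw [mul_sub, mul_sub, mul_sub, k1, k2, k3, k4]
  simp only [map_add, map_sub, map_neg, map_mul, map_pow]
  obtain ⟨a0, e0⟩ : ∃ a, a = algebraMap K L (h.co 0 y) := ⟨_, rfl⟩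
  obtain ⟨a1, e1⟩ : ∃ a, a = algebraMap K L (h.co 1 y) := ⟨_, rfl⟩
  obtain ⟨a2, e2⟩ : ∃ a, a = algebraMap K L (h.co 2 y) := ⟨_, rfl⟩
  rw [← e0, ← e1, ← e2] at k5 ⊢
  linear_combination (a1 - a2 * θ) * k5 - a2 ^ 2 * hr

theorem Fs_diff {A B : 𝓞 K} {θ : L} (h : Cub K L (A : K) (B : K) θ) {y : L}
    (ha : al h y ≠ 0) (hb : be h y ≠ 0) {t s : K} (ht : t = h.co 1 y / al h y)
    (hs : s = -(h.co 0 y * h.co 1 y + (B : K) * al h y ^ 2) / be h y) :
    be h y * (t - s) = al h y ^ 2 * (t ^ 3 + (A : K) * t + (B : K)) := by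
  have k3 : be h y = h.co 1 y ^ 2 - h.co 0 y * al h y + (A : K) * al h y ^ 2 := rfl
  have k1 : al h y * t = h.co 1 y := by
    rw [ht, mul_div_cancel₀ _ ha]
  have k2 : be h y * s = -(h.co 0 y * h.co 1 y + (B : K) * al h y ^ 2) := by
    rw [hs, mul_div_cancel₀ _ hb]
  rw [mul_sub, k2, k3, ← k1]
  ring

theorem Fs_main {A B : 𝓞 K} {θ : L} (h : Cub K L (A : K) (B : K) θ) (hR : HR2 K L A B θ) {y : L}
    (hy : y ≠ 0) (hN : IsSquare (Algebra.norm K y)) {α β t s : K} (ha : α ≠ 0) (hb : β ≠ 0)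
    (e1 : sc y = sc (algebraMap K L (-(α * β))) + sc (algebraMap K L t - θ) +
        sc (algebraMap K L s - θ))
    (hsq : IsSquare (-(α * β) * (t ^ 3 + (A : K) * t + (B : K)) *
        (s ^ 3 + (A : K) * s + (B : K))))
    (hd : β * (t - s) = α ^ 2 * (t ^ 3 + (A : K) * t + (B : K)))
    {v : HeightOneSpectrum (𝓞 K)} (hv : OddP v) :
        tp v (sc α) (sc β) = ∑ᶠ w : {w : HeightOneSpectrum (𝓞 L) // dn K w = v},
          tp w.1 (sc y) (sc (algebraMap K L t - θ)) ∧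
        tp v (sc α) (sc β) = ∑ᶠ w : {w : HeightOneSpectrum (𝓞 L) // dn K w = v},
          tp w.1 (sc y) (sc (algebraMap K L s - θ)) := by
  obtain ⟨U, hU⟩ : ∃ U : L, U = algebraMap K L t - θ := ⟨_, rfl⟩
  obtain ⟨W, hW⟩ : ∃ W : L, W = algebraMap K L s - θ := ⟨_, rfl⟩
  have hU0 : U ≠ 0 := hU ▸ H54PR.sub_ne h t
  have hW0 : W ≠ 0 := hW ▸ H54PR.sub_ne h s
  have hft : t ^ 3 + (A : K) * t + (B : K) ≠ 0 := H54PR.ff_ne h t
  have hfs : s ^ 3 + (A : K) * s + (B : K) ≠ 0 := H54PR.ff_ne h s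
  have hNU : Algebra.norm K U = t ^ 3 + (A : K) * t + (B : K) := by rw [hU, h.norm_sub]
  have hNW : Algebra.norm K W = s ^ 3 + (A : K) * s + (B : K) := by rw [hW, h.norm_sub]
  rw [← hU, ← hW] at e1 ⊢
  obtain ⟨ft, eft⟩ : ∃ ft : K, ft = t ^ 3 + (A : K) * t + (B : K) := ⟨_, rfl⟩
  obtain ⟨fs, efs⟩ : ∃ fs : K, fs = s ^ 3 + (A : K) * s + (B : K) := ⟨_, rfl⟩
  rw [← eft] at hft hNU hsq hd
  rw [← efs] at hfs hNW hsq
  have hl : -(α * β) ≠ 0 := neg_ne_zero.2 (mul_ne_zero ha hb)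
  have hδ : t - s ≠ 0 := by
    intro h0
    rw [h0, mul_zero] at hd
    exact mul_ne_zero (pow_ne_zero 2 ha) hft hd.symm
  have hm1 : (-1 : K) ≠ 0 := neg_ne_zero.2 one_ne_zero
  -- relations between the classes
  have r1 : sc fs = sc (-(α * β)) + sc ft := by
    have h1 := (H38T1.sc_eq_zero (mul_ne_zero (mul_ne_zero hl hft) hfs)).2 hsq
    rw [H38T1.sc_mul (mul_ne_zero hl hft) hfs, H38T1.sc_mul hl hft] at h1
    have h2 : sc fs = (sc (-(α * β)) + sc ft + sc fs) + (sc (-(α * β)) + sc ft) := by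
      rw [add_right_comm, H54MT.two_add, zero_add]
    rw [h2, h1, zero_add]
  have r2 : sc β = sc (t - s) + sc ft := by
    have h1 := congrArg sc hd
    rw [H38T1.sc_mul hb hδ, H38T1.sc_mul (pow_ne_zero 2 ha) hft, H54MT.sc_sq ha, zero_add] at h1
    rw [← h1, add_comm (sc β), ← add_assoc, H54MT.two_add, zero_add]
  have r3 : sc (-(α * β)) = sc α + sc (-β) := by
    rw [← H38T1.sc_mul ha (neg_ne_zero.2 hb), mul_neg]
  have r4 : sc (-(t - s)) = sc (-1 : K) + sc (t - s) := by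
    rw [← H38T1.sc_mul hm1 hδ, neg_one_mul]
  have hodd : ∀ w : {w : HeightOneSpectrum (𝓞 L) // dn K w = v}, OddP w.1 := by
    intro w
    rw [oddP_dn (K := K), w.2]
    exact hv
  have hfin : Finite {w : HeightOneSpectrum (𝓞 L) // dn K w = v} := (fin_above v).to_subtype
  have hUW : U - W = algebraMap K L (t - s) := by
    rw [hU, hW, map_sub]
    ring
  have hUW0 : U - W ≠ 0 := by
    rw [hUW]
    exact (map_ne_zero (algebraMap K L)).2 hδ
  have hm : sc (-1 : L) = sc (algebraMap K L (-1)) := by rw [map_neg, map_one]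
  -- the first sum
  have g1 : ∑ᶠ w : {w : HeightOneSpectrum (𝓞 L) // dn K w = v}, tp w.1 (sc y) (sc U) =
      tp v (sc α) (sc β) := by
    have e2 : ∀ w : {w : HeightOneSpectrum (𝓞 L) // dn K w = v},
        tp w.1 (sc y) (sc U) = (tp w.1 (sc U) (sc (algebraMap K L (-(α * β)))) +
          tp w.1 (sc U) (sc (algebraMap K L (-1)))) +
          (tp w.1 (sc U) (sc (algebraMap K L (-(t - s)))) +
          tp w.1 (sc W) (sc (algebraMap K L (t - s)))) := by
      intro w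
      rw [e1, H38T1.tp_add_left (hodd w), H38T1.tp_add_left (hodd w), Fs_self (hodd w) hU0,
        H38T1.tp_comm (sc W) (sc U), H54PR.tp_sub (hodd w) hU0 hW0 hUW0, map_neg _ (t - s), hUW,
        H38T1.tp_comm _ (sc U), hm]
    rw [finsum_congr e2, finsum_add_distrib (Set.toFinite _) (Set.toFinite _),
      finsum_add_distrib (Set.toFinite _) (Set.toFinite _),
      finsum_add_distrib (Set.toFinite _) (Set.toFinite _),
      hR.proj hv hU0 hl, hR.proj hv hU0 hm1, hR.proj hv hU0 (neg_ne_zero.2 hδ),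
      hR.proj hv hW0 hδ, hNU, hNW, r1, r4, H54PR.tp_add_right hv, H38T1.tp_add_left hv]
    have h3 : tp v (sc (-(α * β))) (sc β) = tp v (sc α) (sc β) := by
      rw [r3, H38T1.tp_add_left hv, H38T1.tp_comm (sc (-β)), H38T1.tp_neg hv hb, add_zero]
    rw [← h3, r2, H54PR.tp_add_right hv, H38T1.tp_comm (sc ft) (sc (-(α * β)))]
    have e3 : ∀ p q r u : ZMod 2, p + q + (q + r + (u + r)) = u + p := by decide
    exact e3 _ _ _ _
  refine ⟨g1.symm, ?_⟩
  -- the second sum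
  have g2 : ∑ᶠ w : {w : HeightOneSpectrum (𝓞 L) // dn K w = v}, tp w.1 (sc y) (sc U) +
      ∑ᶠ w : {w : HeightOneSpectrum (𝓞 L) // dn K w = v}, tp w.1 (sc y) (sc W) = 0 := by
    have e2 : ∀ w : {w : HeightOneSpectrum (𝓞 L) // dn K w = v},
        tp w.1 (sc y) (sc U) + tp w.1 (sc y) (sc W) = tp w.1 (sc y) (sc (algebraMap K L (-1))) +
          tp w.1 (sc y) (sc (algebraMap K L (-(α * β)))) := by
      intro w
      have h1 : sc U + sc W = sc y + sc (algebraMap K L (-(α * β))) := by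
        have h0 : sc (algebraMap K L (-(α * β))) + sc U + sc W + sc (algebraMap K L (-(α * β))) =
            (sc (algebraMap K L (-(α * β))) + sc (algebraMap K L (-(α * β)))) + (sc U + sc W) := by
          abel
        rw [e1, h0, H54MT.two_add, zero_add]
      rw [← H54PR.tp_add_right (hodd w), h1, H54PR.tp_add_right (hodd w), Fs_self (hodd w) hy, hm]
    rw [← finsum_add_distrib (Set.toFinite _) (Set.toFinite _), finsum_congr e2,
      finsum_add_distrib (Set.toFinite _) (Set.toFinite _), hR.proj hv hy hm1, hR.proj hv hy hl]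
    have hNy : Algebra.norm K y ≠ 0 := Algebra.norm_ne_zero_iff.2 hy
    rw [(H38T1.sc_eq_zero hNy).2 hN, Fs_zero hv, Fs_zero hv, add_zero]
  rw [g1] at g2
  have e3 : ∀ p q : ZMod 2, p + q = 0 → p = q := by decide
  exact e3 _ _ g2

theorem conic_F {A B : 𝓞 K} {θ : L} (h : Cub K L (A : K) (B : K) θ) (hR : HR2 K L A B θ) {y : L}
    (hy : y ≠ 0) (hN : IsSquare (Algebra.norm K y)) (ha : al h y ≠ 0) (hb : be h y ≠ 0) :
    ∃ t s : K, sc y = sc (algebraMap K L (-(al h y * be h y))) + sc (algebraMap K L t - θ) +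
        sc (algebraMap K L s - θ) ∧
      IsSquare (-(al h y * be h y) * (t ^ 3 + (A : K) * t + (B : K)) *
        (s ^ 3 + (A : K) * s + (B : K))) ∧
      ∀ v : HeightOneSpectrum (𝓞 K), OddP v →
        tp v (sc (al h y)) (sc (be h y)) = ∑ᶠ w : {w : HeightOneSpectrum (𝓞 L) // dn K w = v},
          tp w.1 (sc y) (sc (algebraMap K L t - θ)) ∧
        tp v (sc (al h y)) (sc (be h y)) = ∑ᶠ w : {w : HeightOneSpectrum (𝓞 L) // dn K w = v},
          tp w.1 (sc y) (sc (algebraMap K L s - θ)) := by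
  obtain ⟨t, ht⟩ : ∃ t : K, t = h.co 1 y / al h y := ⟨_, rfl⟩
  obtain ⟨s, hs⟩ : ∃ s : K, s = -(h.co 0 y * h.co 1 y + (B : K) * al h y ^ 2) / be h y := ⟨_, rfl⟩
  have key := Fs_key h ha hb ht hs
  have hd := Fs_diff h ha hb ht hs
  have hU0 := H54PR.sub_ne h t
  have hW0 := H54PR.sub_ne h s
  obtain ⟨α, hα⟩ : ∃ α : K, α = al h y := ⟨_, rfl⟩
  obtain ⟨β, hβ⟩ : ∃ β : K, β = be h y := ⟨_, rfl⟩
  rw [← hα, ← hβ] at key hd
  rw [← hα] at ha
  rw [← hβ] at hb
  rw [← hα, ← hβ]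
  have haL : algebraMap K L α ≠ 0 := (map_ne_zero (algebraMap K L)).2 ha
  have hbL : algebraMap K L (-β) ≠ 0 := (map_ne_zero (algebraMap K L)).2 (neg_ne_zero.2 hb)
  have e1 : sc y = sc (algebraMap K L (-(α * β))) + sc (algebraMap K L t - θ) +
        sc (algebraMap K L s - θ) := by
    have h1 := congrArg sc key
    rw [H38T1.sc_mul hy (mul_ne_zero haL hU0), H38T1.sc_mul haL hU0, H38T1.sc_mul hbL hW0] at h1
    have h2 : sc (algebraMap K L (-(α * β))) = sc (algebraMap K L α) + sc (algebraMap K L (-β)) := by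
      rw [← H38T1.sc_mul haL hbL, ← map_mul, mul_neg]
    have h3 : sc y = (sc y + (sc (algebraMap K L α) + sc (algebraMap K L t - θ))) +
        (sc (algebraMap K L α) + sc (algebraMap K L t - θ)) := by
      rw [add_assoc, H54MT.two_add, add_zero]
    rw [h3, h1, h2]
    abel
  have hsq : IsSquare (-(α * β) * (t ^ 3 + (A : K) * t + (B : K)) *
        (s ^ 3 + (A : K) * s + (B : K))) := by
    have n1 := congrArg (Algebra.norm K) key
    rw [map_mul, map_mul, map_mul, Algebra.norm_algebraMap, Algebra.norm_algebraMap, h.finrank,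
      h.norm_sub, h.norm_sub] at n1
    obtain ⟨z, hz⟩ := hN
    rw [hz] at n1
    refine ⟨z * α ^ 2 * (t ^ 3 + (A : K) * t + (B : K)) / β, ?_⟩
    rw [div_mul_div_comm, eq_div_iff (mul_ne_zero hb hb)]
    linear_combination (-(α * (t ^ 3 + (A : K) * t + (B : K)))) * n1
  exact ⟨t, s, e1, hsq, fun v hv => Fs_main h hR hy hN ha hb e1 hsq hd hv⟩

end H76MQ
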