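import Pool.Agent.H76.MQ.Gg
import Pool.Agent.H76.MQ.Fs
import Pool.Agent.H76.PP.Tc

/-!
ROW Ac (project MP_78d38b_MQT, about 230 lines): the symbol of the conic at an auxiliary place.

`m = la_{w₁} y`, `n = eo_{w₂} y`, `eo_{w₁} y = 0` (gg_eo1), `la_{w₂}(-1) = 0` (gg_la2). `conic_F`: `t, s`, `λ = -(α β)`, `U = t - θ`, `W = s - θ`, `sc y = sc λ + sc U + sc W`.
For `x ∈ {t, s}`: `G x = ∑_w tp_w (y, x - θ) = tp_v (α, β)` (gg_sum). `w₂.valuation (θ - r) < 1` (nr for `x = r`), `θ ≡ -2r` at `w₁` (rt), `3 r` is a unit (`OddP` and `3` a unit: hypothesis h3).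
(a) `x` not integral: `G x = ∑ tp_w (y, x) = tp_v (N y, x) = 0` (`ord_sub_big`), `eo_{w₁}(x - θ) = eo_{w₂}(x - θ) = eo_v x`, and `la_{w₂}(x - θ) = la_{w₂} x`.
(b) `x` integral, `v.valuation (x - r) < 1`: at `w₁` `x - θ ≡ 3 r` is a unit, so `tp_{w₁}(y, x - θ) = 0`; at `w₂` `eo_{w₂}(x - θ) = 1` (nr), `tp_{w₂}(y, x - θ) = n la_{w₂}(x - θ) + la_{w₂} y`. If `n = 0`: `G x = la_{w₂} y = m` (gg_la12).
(c) `x` integral, `v.valuation (x - r) = 1`: at `w₂` `x - θ ≡ x - r` is a unit and a unit of `K`, so `eo_{w₂} = 0`, `la_{w₂}(x - θ) = la_{w₂}(x - r) = 0` (gg_la2), `tp_{w₂}(y, x - θ) = 0`; `G x = m * eo_{w₁}(x - θ)`.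
Let `p x = eo_{w₁}(x - θ) + eo_{w₂}(x - θ)`: `0` in case (a), `1` in case (b), `eo_{w₁}(x - θ)` in case (c). From `sc y = sc λ + sc U + sc W` and `eo_{w₁} λ = eo_{w₂} λ`: `n = p t + p s`.
n = 1: one of `t, s`, say `x`, has `p x = 0`: case (a) or (c) with `eo_{w₁}(x - θ) = 0`; `G x = 0 = m (n + 1)`.
n = 0, `p t = p s = 1`: case (b) gives `G t = m`, case (c) gives `G t = m * 1`. n = 0, `p t = p s = 0`: both in case (a) or (c) with `eo_{w₁} = 0`, `G t = 0`; to show `m = 0`: `m = la_{w₂} y` (gg_la12); in case (c) `U` contributes zero to `la_{w₂}` and is a unit at `w₂`;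
in case (a) it contributes like `t ∈ K`. So `sc y` has at `w₂` the same `la` as `sc μ` with `μ ∈ K` (`μ = λ` times those of `t, s` in case (a)), and `eo_v μ = eo_{w₂} y = 0`; `la_{w₂} μ = 0` by gg_la2.
-/

set_option autoImplicit false
set_option linter.unusedSectionVars false
open scoped Classical

open WithZero NumberField IsDedekindDomain H38RT
open H38T1 (SC sc scu rep eo la si Pri OddP tp unif ka)
open H76PP

namespace H76MQ

open H54MT

variable {K L : Type} [Field K] [NumberField K] [Field L] [NumberField L] [Algebra K L]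

section one

variable {F : Type} [Field F] [NumberField F] {v : HeightOneSpectrum (𝓞 F)}

theorem Ac_ord {y : F} (h : v.valuation F y = 1) : ord (v.valuation F) y = 0 := by
  unfold ord
  rw [h, log_one, neg_zero]

theorem Ac_of_ord {y : F} (hy : y ≠ 0) (h : ord (v.valuation F) y = 0) :
    v.valuation F y = 1 := by
  unfold ord at h
  have h1 := exp_log ((Valuation.ne_zero_iff (v.valuation F)).2 hy)
  rw [neg_eq_zero.1 h, exp_zero] at h1
  exact h1.symm

theorem Ac_ne {y : F} (h : v.valuation F y = 1) : y ≠ 0 := by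
  rintro rfl
  rw [map_zero] at h
  exact zero_ne_one h

theorem Ac_eo {y : F} (h : v.valuation F y = 1) : eo v (sc y) = 0 := by
  rw [H38T1.eo_sc (Ac_ne h), Ac_ord h, Int.cast_zero]

theorem Ac_la (hv : OddP v) {y : F} (h : v.valuation F (y - 1) < 1) : la v (sc y) = 0 := by
  have h1 := near_one h
  rw [H38T1.la_sc hv (Ac_ne h1), lam_unit h1]
  refine if_pos ⟨1, ?_⟩
  rwa [one_pow]

/-- If `x / y` is close to one the classes agree at `v`. -/
theorem Ac_close (hv : OddP v) {x y : F} (hy : y ≠ 0) (h : v.valuation F (x / y - 1) < 1) :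
    eo v (sc x) = eo v (sc y) ∧ la v (sc x) = la v (sc y) := by
  have h1 : sc x = sc (x / y) + sc y := by
    rw [← H38T1.sc_mul (Ac_ne (near_one h)) hy, div_mul_cancel₀ _ hy]
  rw [h1, H38T1.eo_add, H38T1.la_add hv, Ac_eo (near_one h), Ac_la hv h, zero_add, zero_add]
  exact ⟨rfl, rfl⟩

theorem Ac_tp_zero (hv : OddP v) (c : SC F) : tp v 0 c = 0 := by
  unfold tp
  rw [H38T1.eo_zero, H38T1.la_zero hv]
  ring

end one

theorem Ac_eo1 {v : HeightOneSpectrum (𝓞 K)} {w₁ w₂ : HeightOneSpectrum (𝓞 L)}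
    (h2 : TwG K v w₁ w₂) {x : K} (hx : x ≠ 0) :
    eo w₁ (sc (algebraMap K L x)) = eo v (sc x) := by
  rw [H38T1.eo_sc ((map_ne_zero _).2 hx), H38T1.eo_sc hx, h2.ord1 x hx]

theorem Ac_eo2 {v : HeightOneSpectrum (𝓞 K)} {w₁ w₂ : HeightOneSpectrum (𝓞 L)}
    (h2 : TwG K v w₁ w₂) {x : K} (hx : x ≠ 0) :
    eo w₂ (sc (algebraMap K L x)) = eo v (sc x) := by
  rw [H38T1.eo_sc ((map_ne_zero _).2 hx), H38T1.eo_sc hx, h2.ord2 x hx]

theorem Ac_G {A B : 𝓞 K} {θ : L} (h : Cub K L (A : K) (B : K) θ) (hR : HR2 K L A B θ)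
    {v : HeightOneSpectrum (𝓞 K)} (hv : OddP v) (h3 : v.valuation K 3 = 1)
    {w₁ w₂ : HeightOneSpectrum (𝓞 L)} {r : K}
    (h2 : TwA K θ v w₁ w₂ r) {y : L} (hy : y ≠ 0) (hN : IsSquare (Algebra.norm K y))
    (x : K) {X : L} (hX : X = algebraMap K L x - θ) :
    (tp w₁ (sc y) (sc X) + tp w₂ (sc y) (sc X) = la w₁ (sc y) * (eo w₁ (sc X) + eo w₂ (sc X)) ∧
      ∃ μ : K, μ ≠ 0 ∧ la w₂ (sc X) = la w₂ (sc (algebraMap K L μ)) ∧
        eo w₂ (sc X) = eo v (sc μ)) ∨
    (eo w₁ (sc X) + eo w₂ (sc X) = 1 ∧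
      (eo w₂ (sc y) = 0 → tp w₁ (sc y) (sc X) + tp w₂ (sc y) (sc X) = la w₁ (sc y))) := by
  have hG : TwG K v w₁ w₂ := h2.toTwG
  have hw1 : OddP w₁ := by
    rw [oddP_dn (K := K), hG.dn1]
    exact hv
  have hw2 : OddP w₂ := by
    rw [oddP_dn (K := K), hG.dn2]
    exact hv
  have hX0 : X ≠ 0 := by
    rw [hX]
    exact H54PR.sub_ne h x
  have e1 : eo w₁ (sc y) = 0 := gg_eo1 hR hv hG h.finrank hy hN
  have hm1 : v.valuation K (-1) = 1 := by rw [Valuation.map_neg, map_one]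
  have lm : la w₂ (sc (-1 : L)) = 0 := by
    have h4 := gg_la2 hR hv hG h.finrank (neg_ne_zero.2 (one_ne_zero (α := K))) (Ac_eo hm1)
    rwa [map_neg, map_one] at h4
  have t1 : tp w₁ (sc y) (sc X) = eo w₁ (sc X) * la w₁ (sc y) := by
    unfold tp
    rw [e1]
    ring
  have t2 : tp w₂ (sc y) (sc X) = eo w₂ (sc y) * la w₂ (sc X) + eo w₂ (sc X) * la w₂ (sc y) := by
    unfold tp
    rw [lm]
    ring
  rcases lt_or_ge 1 (v.valuation K x) with hx | hx
  · -- the denominator case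
    have hx0 : x ≠ 0 := by
      rintro rfl
      rw [map_zero] at hx
      exact absurd hx (not_lt.2 zero_le_one)
    have hx1 : algebraMap K L x ≠ 0 := (map_ne_zero _).2 hx0
    have hc : ∀ w : HeightOneSpectrum (𝓞 L), dn K w = v →
        w.valuation L (X / algebraMap K L x - 1) < 1 := by
      intro w hw
      have h4 := (ord_sub_big h (w := w) (x := x) (by rw [hw]; exact hx)).2.1
      have h5 : X / algebraMap K L x - 1 = -(θ / algebraMap K L x) := by
        rw [hX]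
        field_simp
        ring
      rw [h5, Valuation.map_neg]
      exact h4
    obtain ⟨a1, b1⟩ := Ac_close hw1 hx1 (hc w₁ hG.dn1)
    obtain ⟨a2, b2⟩ := Ac_close hw2 hx1 (hc w₂ hG.dn2)
    have hz : tp w₁ (sc y) (sc X) + tp w₂ (sc y) (sc X) = 0 := by
      have h5 := gg_sum hG (fun w => tp w (sc y) (sc (algebraMap K L x)))
      have h6 := hR.proj hv hy hx0
      rw [h6] at h5
      have h7 : sc (Algebra.norm K y) = 0 := by
        have : Module.Finite K L := Module.Finite.of_basis h.basis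
        exact (H38T1.sc_eq_zero (Algebra.norm_ne_zero_iff.2 hy)).2 hN
      rw [h7, Ac_tp_zero hv] at h5
      have h8 : tp w₁ (sc y) (sc X) = tp w₁ (sc y) (sc (algebraMap K L x)) := by
        unfold tp
        rw [a1, b1]
      have h9 : tp w₂ (sc y) (sc X) = tp w₂ (sc y) (sc (algebraMap K L x)) := by
        unfold tp
        rw [a2, b2]
      rw [h8, h9]
      exact h5.symm
    left
    refine ⟨?_, x, hx0, b2, a2.trans (Ac_eo2 hG hx0)⟩
    rw [hz, a1, a2, Ac_eo1 hG hx0, Ac_eo2 hG hx0, CharTwo.add_self_eq_zero, mul_zero]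
  by_cases hr : v.valuation K (x - r) < 1
  · -- the double root
    right
    have h3r : v.valuation K (3 * r) = 1 := by
      rw [map_mul, h3, h2.r1, one_mul]
    have h3r0 : (3 * r : K) ≠ 0 := Ac_ne h3r
    have h3w : w₁.valuation L (algebraMap K L (3 * r)) = 1 := by
      refine Ac_of_ord ((map_ne_zero _).2 h3r0) ?_
      rw [hG.ord1 _ h3r0]
      exact Ac_ord h3r
    have hXw : w₁.valuation L X = 1 := by
      rw [← h3w]
      refine Valuation.map_eq_of_sub_lt _ ?_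
      have h4 : X - algebraMap K L (3 * r) = algebraMap K L (x - r) - (θ + algebraMap K L (2 * r)) := by
        rw [hX]
        simp only [map_sub, map_mul, map_ofNat]
        ring
      rw [h4, h3w]
      refine Valuation.map_sub_lt _ ?_ h2.rt
      refine val_lt ?_
      rw [hG.dn1]
      exact hr
    have hE1 : eo w₁ (sc X) = 0 := Ac_eo hXw
    have hE2 : eo w₂ (sc X) = 1 := by
      have h4 := h2.nr x hr
      rw [← hX] at h4
      rw [H38T1.eo_sc hX0]
      unfold ord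
      rw [h4, log_exp]
      norm_num
    refine ⟨by rw [hE1, hE2, zero_add], fun h0 => ?_⟩
    rw [t1, t2, hE1, hE2, h0, gg_la12 hR hv hG h.finrank hy hN h0]
    ring
  · -- the other integral case
    left
    have hr1 : v.valuation K (x - r) = 1 := by
      refine le_antisymm ?_ (not_lt.1 hr)
      refine (Valuation.map_sub (v.valuation K) x r).trans ?_
      rw [h2.r1]
      exact max_le hx le_rfl
    have hc0 : x - r ≠ 0 := Ac_ne hr1
    have hcw : w₂.valuation L (algebraMap K L (x - r)) = 1 := by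
      refine Ac_of_ord ((map_ne_zero _).2 hc0) ?_
      rw [hG.ord2 _ hc0]
      exact Ac_ord hr1
    have hcl : algebraMap K L (x - r) ≠ 0 := (map_ne_zero _).2 hc0
    have hnear : w₂.valuation L (X / algebraMap K L (x - r) - 1) < 1 := by
      have h4 : X / algebraMap K L (x - r) - 1 = (algebraMap K L r - θ) / algebraMap K L (x - r) := by
        rw [div_sub_one hcl, hX, map_sub]
        congr 1
        ring
      rw [h4, map_div₀, hcw, div_one, h2.nr r (by rw [sub_self, map_zero]; exact zero_lt_one)]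
      rw [← exp_zero, exp_lt_exp]
      norm_num
    obtain ⟨a2, b2⟩ := Ac_close hw2 hcl hnear
    have hev : eo v (sc (x - r)) = 0 := Ac_eo hr1
    have hE2 : eo w₂ (sc X) = 0 := by rw [a2, Ac_eo2 hG hc0, hev]
    have hL2 : la w₂ (sc X) = 0 := by rw [b2, gg_la2 hR hv hG h.finrank hc0 hev]
    refine ⟨?_, x - r, hc0, b2, by rw [hE2, hev]⟩
    rw [t1, t2, hE2, hL2]
    ring

theorem conic_CA {A B : 𝓞 K} {θ : L} (h : Cub K L (A : K) (B : K) θ) (hR : HR2 K L A B θ)
    {v : HeightOneSpectrum (𝓞 K)} (hv : OddP v) (h3 : v.valuation K 3 = 1)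
    {w₁ w₂ : HeightOneSpectrum (𝓞 L)} {r : K}
    (h2 : TwA K θ v w₁ w₂ r) {y : L} (hy : y ≠ 0) (hN : IsSquare (Algebra.norm K y))
    (ha : al h y ≠ 0) (hb : be h y ≠ 0) :
    tp v (sc (al h y)) (sc (be h y)) = la w₁ (sc y) * (eo w₂ (sc y) + 1) := by
  have hG : TwG K v w₁ w₂ := h2.toTwG
  have hw2 : OddP w₂ := by
    rw [oddP_dn (K := K), hG.dn2]
    exact hv
  have hE1 : eo w₁ (sc y) = 0 := gg_eo1 hR hv hG h.finrank hy hN
  obtain ⟨t, s, he, -, hT⟩ := conic_F h hR hy hN ha hb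
  obtain ⟨ht, hs⟩ := hT v hv
  obtain ⟨l, hl⟩ : ∃ l, l = -(al h y * be h y) := ⟨_, rfl⟩
  obtain ⟨U, hU⟩ : ∃ U, U = algebraMap K L t - θ := ⟨_, rfl⟩
  obtain ⟨W, hW⟩ : ∃ W, W = algebraMap K L s - θ := ⟨_, rfl⟩
  have hl0 : l ≠ 0 := by
    rw [hl]
    exact neg_ne_zero.2 (mul_ne_zero ha hb)
  rw [← hl, ← hU, ← hW] at he
  rw [← hU, gg_sum hG (fun w => tp w (sc y) (sc U))] at ht
  rw [← hW, gg_sum hG (fun w => tp w (sc y) (sc W))] at hs
  change _ = tp w₁ (sc y) (sc U) + tp w₂ (sc y) (sc U) at ht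
  change _ = tp w₁ (sc y) (sc W) + tp w₂ (sc y) (sc W) at hs
  have f1 : eo w₁ (sc y) = eo v (sc l) + eo w₁ (sc U) + eo w₁ (sc W) := by
    rw [he, H38T1.eo_add, H38T1.eo_add, Ac_eo1 hG hl0]
  have f2 : eo w₂ (sc y) = eo v (sc l) + eo w₂ (sc U) + eo w₂ (sc W) := by
    rw [he, H38T1.eo_add, H38T1.eo_add, Ac_eo2 hG hl0]
  have f3 : (eo w₁ (sc U) + eo w₂ (sc U)) + (eo w₁ (sc W) + eo w₂ (sc W)) = eo w₂ (sc y) := by
    rw [hE1] at f1
    have e3 : ∀ n l a b c d : ZMod 2, 0 = l + a + b → n = l + c + d → (a + c) + (b + d) = n := by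
      decide
    exact e3 _ _ _ _ _ _ f1 f2
  have gU := Ac_G h hR hv h3 h2 hy hN t hU
  have gW := Ac_G h hR hv h3 h2 hy hN s hW
  rw [← ht] at gU
  rw [← hs] at gW
  have hz : ∀ x : ZMod 2, x = 0 ∨ x = 1 := by decide
  rcases hz (eo w₂ (sc y)) with hn | hn
  · rcases gU with ⟨g1, μ, hμ, m1, m2⟩ | ⟨-, g1⟩
    · rcases gW with ⟨g2, ν, hν, n1, n2⟩ | ⟨-, g2⟩
      · have hm : la w₁ (sc y) = 0 := by
          have k0 : l * μ * ν ≠ 0 := mul_ne_zero (mul_ne_zero hl0 hμ) hν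
          have k1 : sc (l * μ * ν) = sc l + sc μ + sc ν := by
            rw [H38T1.sc_mul (mul_ne_zero hl0 hμ) hν, H38T1.sc_mul hl0 hμ]
          have k2 : eo v (sc (l * μ * ν)) = 0 := by
            rw [k1, H38T1.eo_add, H38T1.eo_add, ← m2, ← n2, ← f2, hn]
          have k3 := gg_la2 hR hv hG h.finrank k0 k2
          have k4 : sc (algebraMap K L (l * μ * ν)) =
              sc (algebraMap K L l) + sc (algebraMap K L μ) + sc (algebraMap K L ν) := by
            rw [map_mul, map_mul, H38T1.sc_mul (mul_ne_zero ((map_ne_zero _).2 hl0)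
              ((map_ne_zero _).2 hμ)) ((map_ne_zero _).2 hν), H38T1.sc_mul ((map_ne_zero _).2 hl0)
              ((map_ne_zero _).2 hμ)]
          rw [k4, H38T1.la_add hw2, H38T1.la_add hw2, ← m1, ← n1, ← H38T1.la_add hw2,
            ← H38T1.la_add hw2, ← he] at k3
          rw [← gg_la12 hR hv hG h.finrank hy hN hn]
          exact k3
        rw [g1, hm, zero_mul, zero_mul]
      · rw [g2 hn, hn, zero_add, mul_one]
    · rw [g1 hn, hn, zero_add, mul_one]
  · rw [hn] at f3 ⊢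
    rcases gU with ⟨g1, -⟩ | ⟨g1, -⟩
    · rcases gW with ⟨g2, -⟩ | ⟨g2, -⟩
      · have e3 : ∀ a m p q : ZMod 2, a = m * p → a = m * q → p + q = 1 → a = m * (1 + 1) := by
          decide
        exact e3 _ _ _ _ g1 g2 f3
      · rw [g2] at f3
        have e3 : ∀ a m p : ZMod 2, a = m * p → p + 1 = 1 → a = m * (1 + 1) := by
          decide
        exact e3 _ _ _ g1 f3
    · rcases gW with ⟨g2, -⟩ | ⟨g2, -⟩
      · rw [g1] at f3
        have e3 : ∀ a m p : ZMod 2, a = m * p → 1 + p = 1 → a = m * (1 + 1) := by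
          decide
        exact e3 _ _ _ g2 f3
      · rw [g1, g2] at f3
        exact absurd f3 (by decide)

end H76MQ
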