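import Pool.Agent.H76.MQ.Fs
import Pool.Agent.H36.MT.Tc
import Pool.Agent.H76.PP.Tf
import Pool.Agent.H76.PP.Tg
import Pool.Agent.H36.MT.Tc

/-!
ROW Cl (project MP_78d38b_MQT, about 300 lines): the symbol of the conic vanishes at an odd place where the order is maximal and the class is even.

Use `conic_F` (row Fs, only its statement): `t, s, λ = -(α β)`, `U = t - θ`, `W = s - θ`. For `x ∈ {t, s}` put `G x = ∑_{w | v} tp_w (y, x - θ)` (both are the symbol).
As `eo_w y = 0`: `tp_w (y, z) = eo_w z * la_w y`.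
(a) `v.valuation x > 1`: `x - θ = x (1 - θ / x)`, `ord_sub_big` (H76/PP/Tc.lean): `w.valuation (θ/x) < 1`, so `tp_w (y, x - θ) = tp_w (y, x)` (`tp_near` of H54/MT/La.lean) and
`G x = tp_v (N y, x) = 0` by `hR.proj`.
(b) `x` integral, `ord_v f(x)` even: by `H36MT.ord_subL` all `eo_w (x - θ) = 0`, `G x = 0`.
(c) So assume `t, s` integral with `f(t), f(s)` of odd order. `H36MT.ord_subL` gives `w1` for `t`, `w1'` for `s`. `λ f(t) f(s)` is a square, so `ord_v λ` is even and `eo_w λ = 0`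
for all `w | v`. At `w1`: `0 = eo_{w1} y = 0 + 1 + eo_{w1} W`, so `w1 = w1'` . `G t = la_{w1} y` (only `w1` contributes). To show: `la_{w1} y = 0`.
`w1.valuation U < 1`, `w1.valuation W < 1` (positive orders), so `w1.valuation (t - s) < 1`, `v.valuation (t - s) < 1`, and `w.valuation (t - s) < 1` for all `w | v`.
For `w ≠ w1`, `w | v`: `U, W` are units at `w` and `w.valuation (U / W - 1) < 1`, so `la_w U = la_w W`, `la_w y = la_w λ`.
Let `π = unif v` (`eo_v π = 1`). `hR.proj`: `∑_w eo_w π * la_w y = ∑ tp_w (y, π) = tp_v (N y, π) = 0`;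
`∑_w eo_w π * la_w λ = ∑ tp_w (λ, π) = tp_v (N λ, π) = tp_v (λ^3, π) = tp_v (λ, π) = la_v λ`. Subtract: `eo_{w1} π * (la_{w1} y + la_{w1} λ) = la_v λ`.
Case `eo_{w1} π = 1`: `la_{w1} y = la_{w1} λ + la_v λ`, and `la_{w1} λ = la_v λ`: after multiplying `λ` by an even power of `π` it is a unit at `v`; a unit of `K` is a square modulo `v`
iff it is a square modulo `w1`, because every integer of `L` is congruent modulo `w1` to an integer of `K` (`H36MT.Tc_sL`, applied with an integer `a ≡ t` modulo `v`).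
Case `eo_{w1} π = 0`: then `la_v λ = 0`, so `la_{w1} λ = 0` and `la_{w1} y = la_{w1} (U W)`; claim `w1.valuation (U / W - 1) < 1`, which gives `la_{w1} (U W) = la_{w1} (U / W) = 0`.
`w1.valuation π ≤ exp (-2)` (it is `< 1` and of even order), `w1.valuation (t - s) ≤ w1.valuation π ≤ exp (-2)` (`(t - s)/π` is `v`-integral). It suffices that `ord_v f(s) = 1` (then
`w1.valuation W = exp (-1)`). Suppose `ord_v f(s) ≥ 2`. (i) if `v.valuation (3 s^2 + A) < 1`: with `f' = 3 s^2 + A`, `f = f(s)`: `A = f' - 3 s^2`, `B = f - s f' + 2 s^3` and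
`4 A^3 + 27 B^2 = 108 s^3 f + (terms divisible by f^2, f f' or f'^2)` has order `≥ 2`: contradiction with `hd`. (ii) otherwise `v.valuation (3 s^2 + A) = 1`: `s' = s + π` is integral,
`f(s') = f(s) + π (3 s^2 + A) + π^2 (..)` has order exactly one; `H36MT.ord_subL` for `s'` gives a place which must be `w1` (`s' - θ = W + π` has `w1.valuation < 1`), so
`w1.valuation (s' - θ) = exp (-1)`; but `s' - θ = W + π` with `w1.valuation W = exp (- ord_v f(s)) ≤ exp (-2)`, `w1.valuation π ≤ exp (-2)`: contradiction.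
-/

set_option autoImplicit false
set_option linter.unusedSectionVars false
open scoped Classical

open WithZero NumberField IsDedekindDomain H38RT
open H38T1 (SC sc scu rep eo la si Pri OddP tp unif ka)
open H76PP

namespace H76MQ

open H54MT

variable {K L : Type} [Field K] [NumberField K] [Field L] [NumberField L] [Algebra K L]

section loc

variable {F : Type} [Field F] [NumberField F] {v : HeightOneSpectrum (𝓞 F)}

theorem Cl_tp {c d : SC F} (h : eo v c = 0) : tp v c d = eo v d * la v c := by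
  unfold H38T1.tp
  rw [h]
  ring

theorem Cl_tp0 (hv : OddP v) (d : SC F) : tp v 0 d = 0 := by
  rw [Cl_tp (H38T1.eo_zero v), H38T1.la_zero hv, mul_zero]

theorem Cl_eo_one {x : F} (hx : v.valuation F x = 1) : eo v (sc x) = 0 := by
  have hx0 : x ≠ 0 := by
    rintro rfl
    rw [map_zero] at hx
    exact zero_ne_one hx
  rw [H38T1.eo_sc hx0, Tc_ord_one hx, Int.cast_zero]

theorem Cl_sc_div {a b : F} (ha : a ≠ 0) (hb : b ≠ 0) : sc (a / b) = sc a + sc b := by
  have h1 : sc a = sc (a / b) + sc b := by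
    rw [← H38T1.sc_mul (div_ne_zero ha hb) hb, div_mul_cancel₀ a hb]
  rw [h1, add_assoc, H54MT.two_add, add_zero]

theorem Cl_val {x : F} (hx : x ≠ 0) : v.valuation F x = exp (-(ord (v.valuation F) x)) := by
  unfold ord
  rw [neg_neg, exp_log ((Valuation.ne_zero_iff _).2 hx)]

theorem Cl_lt {x : F} (hx : x ≠ 0) : v.valuation F x < 1 ↔ 0 < ord (v.valuation F) x := by
  rw [Cl_val hx, ← exp_zero, exp_lt_exp]
  omega

theorem Cl_le {x : F} (hx : x ≠ 0) : v.valuation F x ≤ 1 ↔ 0 ≤ ord (v.valuation F) x := by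
  rw [Cl_val hx, ← exp_zero, exp_le_exp]
  omega

theorem Cl_le_exp {x : F} (hx : v.valuation F x < 1) : v.valuation F x ≤ exp (-1) := by
  by_cases h0 : x = 0
  · rw [h0, map_zero]
    exact zero_le
  · have h1 := (Cl_lt h0).1 hx
    rw [Cl_val h0, exp_le_exp]
    omega

theorem Cl_unif_ne (v : HeightOneSpectrum (𝓞 F)) : unif v ≠ 0 := by
  intro h
  have h1 := H38T1.unif_spec v
  rw [h, map_zero] at h1
  exact exp_ne_zero h1.symm

theorem Cl_unif_ord (v : HeightOneSpectrum (𝓞 F)) : ord (v.valuation F) (unif v) = 1 := by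
  unfold ord
  rw [H38T1.unif_spec, log_exp, neg_neg]

end loc

theorem Cl_big {A B : 𝓞 K} {θ : L} (h : Cub K L (A : K) (B : K) θ) (hR : HR2 K L A B θ)
    {v : HeightOneSpectrum (𝓞 K)} (hv : OddP v) {y : L} (hy : y ≠ 0)
    (hN : IsSquare (Algebra.norm K y)) {x : K} (hx : 1 < v.valuation K x) :
    ∑ᶠ w : {w : HeightOneSpectrum (𝓞 L) // dn K w = v},
      tp w.1 (sc y) (sc (algebraMap K L x - θ)) = 0 := by
  have hx0 : x ≠ 0 := by
    rintro rfl
    rw [map_zero] at hx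
    exact absurd hx (not_lt.2 zero_le_one)
  have hX : algebraMap K L x ≠ 0 := (map_ne_zero _).2 hx0
  have e1 : ∀ w : {w : HeightOneSpectrum (𝓞 L) // dn K w = v},
      tp w.1 (sc y) (sc (algebraMap K L x - θ)) = tp w.1 (sc y) (sc (algebraMap K L x)) := by
    intro w
    have hw : OddP w.1 := by
      rw [oddP_dn (K := K), w.2]
      exact hv
    obtain ⟨-, b2, -, -⟩ := ord_sub_big h (w := w.1) (x := x) (by rw [w.2]; exact hx)
    have hb : w.1.valuation L ((1 - θ / algebraMap K L x) - 1) < 1 := by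
      rw [sub_sub_cancel_left, Valuation.map_neg]
      exact b2
    have hz : (1 - θ / algebraMap K L x) ≠ 0 := (Tg_ne hb).2
    have e : algebraMap K L x - θ = algebraMap K L x * (1 - θ / algebraMap K L x) := by
      rw [mul_sub, mul_one, mul_div_cancel₀ _ hX]
    rw [e, H38T1.sc_mul hX hz, H54PR.tp_add_right hw, H54MT.tp_near hw hb, add_zero]
  rw [finsum_congr e1, hR.proj hv hy hx0,
    (H38T1.sc_eq_zero (scm_ne (Algebra.norm K : L →* K) hy)).2 hN]
  exact Cl_tp0 hv _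

theorem Cl_even {A B : 𝓞 K} {θ : L} (h : Cub K L (A : K) (B : K) θ)
    {v : HeightOneSpectrum (𝓞 K)} (hd : dsc A B ∉ v.asIdeal ^ 2) {y : L}
    (he : ∀ w : HeightOneSpectrum (𝓞 L), dn K w = v → eo w (sc y) = 0) {x : K}
    (hx : v.valuation K x ≤ 1)
    (hev : Even (ord (v.valuation K) (x ^ 3 + (A : K) * x + (B : K)))) :
    ∑ᶠ w : {w : HeightOneSpectrum (𝓞 L) // dn K w = v},
      tp w.1 (sc y) (sc (algebraMap K L x - θ)) = 0 := by
  obtain ⟨w₁, hw1, ho, hu⟩ := H36MT.ord_subL h hd hx (H54PR.ff_ne h x)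
  apply finsum_eq_zero_of_forall_eq_zero
  rintro ⟨w, hw⟩
  change tp w (sc y) (sc (algebraMap K L x - θ)) = 0
  rw [Cl_tp (he w hw)]
  by_cases hww : w = w₁
  · rw [hww, H38T1.eo_sc (H54PR.sub_ne h x), ho, Tg_even.2 hev, zero_mul]
  · rw [Cl_eo_one (hu w hw hww), zero_mul]

theorem Cl_odd {n : ℤ} (h : Odd n) : (n : ZMod 2) = 1 := by
  obtain ⟨k, rfl⟩ := h
  push_cast
  have h2 : (2 : ZMod 2) = 0 := by decide
  rw [h2, zero_mul, zero_add]

theorem Cl_one {A B : 𝓞 K} {θ : L} (h : Cub K L (A : K) (B : K) θ)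
    {v : HeightOneSpectrum (𝓞 K)} (hd : dsc A B ∉ v.asIdeal ^ 2) {y : L}
    (he : ∀ w : HeightOneSpectrum (𝓞 L), dn K w = v → eo w (sc y) = 0) {x : K}
    (hx : v.valuation K x ≤ 1)
    (hod : Odd (ord (v.valuation K) (x ^ 3 + (A : K) * x + (B : K)))) :
    ∃ w₁ : HeightOneSpectrum (𝓞 L), dn K w₁ = v ∧
      ord (w₁.valuation L) (algebraMap K L x - θ) =
        ord (v.valuation K) (x ^ 3 + (A : K) * x + (B : K)) ∧
      (∀ w : HeightOneSpectrum (𝓞 L), dn K w = v → w ≠ w₁ →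
        w.valuation L (algebraMap K L x - θ) = 1) ∧
      ∑ᶠ w : {w : HeightOneSpectrum (𝓞 L) // dn K w = v},
        tp w.1 (sc y) (sc (algebraMap K L x - θ)) = la w₁ (sc y) := by
  obtain ⟨w₁, hw1, ho, hu⟩ := H36MT.ord_subL h hd hx (H54PR.ff_ne h x)
  refine ⟨w₁, hw1, ho, hu, ?_⟩
  rw [finsum_eq_single _ (⟨w₁, hw1⟩ : {w : HeightOneSpectrum (𝓞 L) // dn K w = v})]
  · change tp w₁ (sc y) (sc (algebraMap K L x - θ)) = la w₁ (sc y)
    rw [Cl_tp (he w₁ hw1), H38T1.eo_sc (H54PR.sub_ne h x), ho, Cl_odd hod, one_mul]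
  · rintro ⟨w, hw⟩ hne
    have hne' : w ≠ w₁ := fun h0 => hne (Subtype.ext h0)
    change tp w (sc y) (sc (algebraMap K L x - θ)) = 0
    rw [Cl_tp (he w hw), Cl_eo_one (hu w hw hne'), zero_mul]

theorem Cl_res {A B : 𝓞 K} {θ : L} (h : Cub K L (A : K) (B : K) θ)
    {v : HeightOneSpectrum (𝓞 K)} (hd : dsc A B ∉ v.asIdeal ^ 2) {w₁ : HeightOneSpectrum (𝓞 L)}
    (hw : dn K w₁ = v) {x : K} (hx : v.valuation K x ≤ 1)
    (hU : w₁.valuation L (algebraMap K L x - θ) < 1) {z : L} (hz : w₁.valuation L z ≤ 1) :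
    ∃ c : K, v.valuation K c ≤ 1 ∧ w₁.valuation L (z - algebraMap K L c) < 1 := by
  obtain ⟨t, ht⟩ := theta_int h
  obtain ⟨a, ha⟩ := Tf_approx v hx
  obtain ⟨y, hy⟩ := Tf_approx w₁ hz
  obtain ⟨s, hs⟩ := H36MT.Tc_sL h hd ht a y
  have h1 : algebraMap (𝓞 K) (𝓞 L) a - t ∈ w₁.asIdeal := by
    rw [← w₁.valuation_lt_one_iff_mem (K := L)]
    have e1 : algebraMap (𝓞 L) L (algebraMap (𝓞 K) (𝓞 L) a - t) =
        (algebraMap K L x - θ) - algebraMap K L (x - (a : K)) := by
      rw [map_sub (algebraMap (𝓞 L) L), map_sub (algebraMap K L), ← ht]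
      change algebraMap K L (a : K) - (t : L) = _
      ring
    refine lt_of_eq_of_lt (congrArg _ e1) ?_
    refine lt_of_le_of_lt (Valuation.map_sub _ _ _) (max_lt hU ?_)
    exact val_lt (by rw [hw]; exact ha)
  have h2 := hs w₁ hw h1
  rw [← w₁.valuation_lt_one_iff_mem (K := L)] at h2
  refine ⟨(s : K), v.valuation_le_one s, ?_⟩
  have e2 : z - algebraMap K L (s : K) =
      (z - (y : L)) + algebraMap (𝓞 L) L (y - algebraMap (𝓞 K) (𝓞 L) s) := by
    rw [map_sub (algebraMap (𝓞 L) L)]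
    change _ = (z - (y : L)) + ((y : L) - algebraMap K L (s : K))
    ring
  rw [e2]
  exact Valuation.map_add_lt _ hy h2

theorem Cl_la {A B : 𝓞 K} {θ : L} (h : Cub K L (A : K) (B : K) θ)
    {v : HeightOneSpectrum (𝓞 K)} (hv : OddP v) (hd : dsc A B ∉ v.asIdeal ^ 2)
    {w₁ : HeightOneSpectrum (𝓞 L)}
    (hw : dn K w₁ = v) {x : K} (hx : v.valuation K x ≤ 1)
    (hU : w₁.valuation L (algebraMap K L x - θ) < 1) {l : K} (hl : l ≠ 0)
    (hev : Even (ord (v.valuation K) l)) :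
    la w₁ (sc (algebraMap K L l)) = la v (sc l) := by
  obtain ⟨m, hm⟩ := hev
  have hπ := Cl_unif_ne v
  obtain ⟨p, hp⟩ : ∃ p : K, p = unif v ^ (-m) := ⟨_, rfl⟩
  have hp0 : p ≠ 0 := by
    rw [hp]
    exact zpow_ne_zero _ hπ
  have hpv : v.valuation K p = exp m := by
    rw [hp, map_zpow₀, H38T1.unif_spec, ← exp_zsmul]
    congr 1
    simp
  have hl' : v.valuation K (p ^ 2 * l) = 1 := by
    rw [map_mul, map_pow, hpv, Cl_val hl, hm, pow_two, ← exp_add, ← exp_add, ← exp_zero]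
    congr 1
    ring
  have hw1 : OddP w₁ := by
    rw [oddP_dn (K := K), hw]
    exact hv
  have hlw : w₁.valuation L (algebraMap K L (p ^ 2 * l)) = 1 := val_one (by rw [hw]; exact hl')
  have hpl : p ^ 2 * l ≠ 0 := mul_ne_zero (pow_ne_zero 2 hp0) hl
  have hplL : algebraMap K L (p ^ 2 * l) ≠ 0 := (map_ne_zero _).2 hpl
  have hlL : algebraMap K L l ≠ 0 := (map_ne_zero _).2 hl
  have hpL : algebraMap K L p ≠ 0 := (map_ne_zero _).2 hp0
  have e1 : (sc l : SC K) = sc (p ^ 2 * l) := (Tg_sq hp0 hl).symm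
  have e2 : (sc (algebraMap K L l) : SC L) = sc (algebraMap K L (p ^ 2 * l)) := by
    rw [map_mul, map_pow]
    exact (Tg_sq hpL hlL).symm
  rw [e1, e2, H38T1.la_sc hw1 hplL, H38T1.la_sc hv hpl, lam_unit hlw, lam_unit hl']
  refine if_congr ⟨?_, ?_⟩ rfl rfl
  · rintro ⟨z, hz⟩
    have hz1 : w₁.valuation L z ≤ 1 := by
      have h3 : w₁.valuation L (z ^ 2) ≤ 1 := by
        have h4 : z ^ 2 = algebraMap K L (p ^ 2 * l) - (algebraMap K L (p ^ 2 * l) - z ^ 2) := by
          ring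
        rw [h4]
        exact (Valuation.map_sub _ _ _).trans (max_le hlw.le hz.le)
      rw [map_pow] at h3
      exact (pow_le_one_iff two_ne_zero).1 h3
    obtain ⟨c, hc, hcz⟩ := Cl_res h hd hw hx hU hz1
    have hcL : w₁.valuation L (algebraMap K L c) ≤ 1 := val_le (by rw [hw]; exact hc)
    have h5 : w₁.valuation L (algebraMap K L (p ^ 2 * l - c ^ 2)) < 1 := by
      have h6 : algebraMap K L (p ^ 2 * l - c ^ 2) = (algebraMap K L (p ^ 2 * l) - z ^ 2) +
          (z - algebraMap K L c) * (z + algebraMap K L c) := by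
        rw [map_sub, map_pow _ c]
        ring
      rw [h6]
      refine Valuation.map_add_lt _ hz ?_
      rw [map_mul]
      calc _ ≤ w₁.valuation L (z - algebraMap K L c) * 1 :=
            mul_le_mul_right ((Valuation.map_add _ _ _).trans (max_le hz1 hcL)) _
        _ < 1 := by rw [mul_one]; exact hcz
    refine ⟨c, ?_⟩
    have h7 : v.valuation K (p ^ 2 * l - c ^ 2) ≤ 1 := by
      refine (Valuation.map_sub _ _ _).trans (max_le hl'.le ?_)
      rw [map_pow]
      exact pow_le_one' hc 2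
    refine lt_of_le_of_ne h7 fun h8 => ?_
    have h9 : w₁.valuation L (algebraMap K L (p ^ 2 * l - c ^ 2)) = 1 :=
      val_one (by rw [hw]; exact h8)
    rw [h9] at h5
    exact lt_irrefl _ h5
  · rintro ⟨z, hz⟩
    refine ⟨algebraMap K L z, ?_⟩
    rw [← map_pow, ← map_sub]
    exact val_lt (by rw [hw]; exact hz)

theorem Cl_dv {F : Type} [Field F] {U W : F} (hW : W ≠ 0) : U / W - 1 = (U - W) / W := by
  rw [sub_div, div_self hW]

theorem Cl_int {v : HeightOneSpectrum (𝓞 K)} (A B : 𝓞 K) {s : K} (hs : v.valuation K s ≤ 1) :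
    v.valuation K (s ^ 3 + (A : K) * s + (B : K)) ≤ 1 := by
  have hvA : v.valuation K (A : K) ≤ 1 := v.valuation_le_one A
  have hvB : v.valuation K (B : K) ≤ 1 := v.valuation_le_one B
  refine (v.valuation K).map_add_le ((v.valuation K).map_add_le ?_ ?_) hvB
  · rw [map_pow]
    exact pow_le_one' hs 3
  · rw [map_mul]
    exact mul_le_one' hvA hs

theorem Cl_nat (v : HeightOneSpectrum (𝓞 K)) (n : ℕ) : v.valuation K (n : K) ≤ 1 := by
  have h1 := v.valuation_le_one (K := K) (n : 𝓞 K)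
  have h2 : algebraMap (𝓞 K) K (n : 𝓞 K) = (n : K) := map_natCast _ n
  change v.valuation K (algebraMap (𝓞 K) K (n : 𝓞 K)) ≤ 1 at h1
  rwa [h2] at h1

theorem Cl_ramA {v : HeightOneSpectrum (𝓞 K)} {A B : 𝓞 K} (hd : dsc A B ∉ v.asIdeal ^ 2) {s : K}
    (hs : v.valuation K s ≤ 1)
    (hf : v.valuation K (s ^ 3 + (A : K) * s + (B : K)) ≤ exp (-2)) :
    v.valuation K (3 * s ^ 2 + (A : K)) = 1 := by
  have hvA : v.valuation K (A : K) ≤ 1 := v.valuation_le_one A
  have hn : ∀ n : ℕ, v.valuation K (n : K) ≤ 1 := Cl_nat v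
  have h1 : v.valuation K (3 * s ^ 2 + (A : K)) ≤ 1 := by
    refine (v.valuation K).map_add_le ?_ hvA
    rw [map_mul, map_pow]
    exact mul_le_one' (by exact_mod_cast hn 3) (pow_le_one' hs 2)
  by_contra hne
  have h2 : v.valuation K (3 * s ^ 2 + (A : K)) < 1 := lt_of_le_of_ne h1 hne
  have h3 := Cl_le_exp h2
  apply hd
  rw [← v.intValuation_le_pow_iff_mem]
  obtain ⟨f, hf'⟩ : ∃ f, f = s ^ 3 + (A : K) * s + (B : K) := ⟨_, rfl⟩
  obtain ⟨g, hg⟩ : ∃ g, g = 3 * s ^ 2 + (A : K) := ⟨_, rfl⟩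
  have e1 : ((dsc A B : 𝓞 K) : K) = g ^ 2 * (4 * g - 9 * s ^ 2) +
      f * (27 * f - 54 * s * g + 108 * s ^ 3) := by
    change algebraMap (𝓞 K) K (dsc A B) = _
    unfold dsc
    rw [map_add, map_mul, map_mul, map_pow, map_pow, map_ofNat, map_ofNat, hf', hg]
    change 4 * (A : K) ^ 3 + 27 * (B : K) ^ 2 = _
    ring
  have e2 : v.intValuation (dsc A B) = v.valuation K (g ^ 2 * (4 * g - 9 * s ^ 2) +
      f * (27 * f - 54 * s * g + 108 * s ^ 3)) := by
    rw [← e1]
    exact (v.valuation_of_algebraMap (dsc A B)).symm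
  have hmul : ∀ {a b : K}, v.valuation K a ≤ 1 → v.valuation K b ≤ 1 → v.valuation K (a * b) ≤ 1 := by
    intro a b ha hb
    rw [map_mul]
    exact mul_le_one' ha hb
  have hsub : ∀ {a b : K}, v.valuation K a ≤ 1 → v.valuation K b ≤ 1 → v.valuation K (a - b) ≤ 1 :=
    fun ha hb => (Valuation.map_sub _ _ _).trans (max_le ha hb)
  have hadd : ∀ {a b : K}, v.valuation K a ≤ 1 → v.valuation K b ≤ 1 → v.valuation K (a + b) ≤ 1 :=
    fun ha hb => (v.valuation K).map_add_le ha hb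
  have hpow : ∀ (n : ℕ), v.valuation K (s ^ n) ≤ 1 := by
    intro n
    rw [map_pow]
    exact pow_le_one' hs n
  have hg1 : v.valuation K g ≤ 1 := by rw [hg]; exact h1
  have hf1 : v.valuation K f ≤ 1 := by rw [hf']; exact Cl_int A B hs
  have h4 : v.valuation K (4 * g - 9 * s ^ 2) ≤ 1 :=
    hsub (hmul (by exact_mod_cast hn 4) hg1) (hmul (by exact_mod_cast hn 9) (hpow 2))
  have h5 : v.valuation K (27 * f - 54 * s * g + 108 * s ^ 3) ≤ 1 :=
    hadd (hsub (hmul (by exact_mod_cast hn 27) hf1)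
      (hmul (hmul (by exact_mod_cast hn 54) hs) hg1)) (hmul (by exact_mod_cast hn 108) (hpow 3))
  have hx2 : (exp (-2) : ℤᵐ⁰) = exp (-1) * exp (-1) := by
    rw [← exp_add]
    norm_num
  rw [e2]
  change _ ≤ exp (-((2 : ℕ) : ℤ))
  have e3 : (exp (-((2 : ℕ) : ℤ)) : ℤᵐ⁰) = exp (-2) := by norm_num
  rw [e3]
  refine (v.valuation K).map_add_le ?_ ?_
  · rw [map_mul, pow_two, map_mul, hx2]
    rw [hg] at h4 ⊢
    calc _ ≤ (exp (-1) * exp (-1) : ℤᵐ⁰) * 1 := mul_le_mul' (mul_le_mul' h3 h3) h4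
      _ = _ := mul_one _
  · rw [map_mul]
    rw [hf'] at h5 ⊢
    calc _ ≤ (exp (-2) : ℤᵐ⁰) * 1 := mul_le_mul' hf h5
      _ = _ := mul_one _

theorem Cl_ram {A B : 𝓞 K} {θ : L} (h : Cub K L (A : K) (B : K) θ)
    {v : HeightOneSpectrum (𝓞 K)} (hd : dsc A B ∉ v.asIdeal ^ 2) {w₁ : HeightOneSpectrum (𝓞 L)}
    (hw : dn K w₁ = v) {s : K} (hs : v.valuation K s ≤ 1)
    (hπ : w₁.valuation L (algebraMap K L (unif v)) ≤ exp (-2))
    (hW : w₁.valuation L (algebraMap K L s - θ) ≤ exp (-2))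
    (hf : v.valuation K (s ^ 3 + (A : K) * s + (B : K)) ≤ exp (-2)) : False := by
  have h1 := Cl_ramA hd hs hf
  have hu := H38T1.unif_spec v
  have hlt : (exp (-2) : ℤᵐ⁰) < exp (-1) := by
    rw [exp_lt_exp]
    norm_num
  have hlt1 : (exp (-2) : ℤᵐ⁰) < 1 := by
    rw [← exp_zero, exp_lt_exp]
    norm_num
  have hu1 : v.valuation K (unif v) ≤ 1 := by
    rw [hu, ← exp_zero, exp_le_exp]
    norm_num
  have hs' : v.valuation K (s + unif v) ≤ 1 := (v.valuation K).map_add_le hs hu1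
  have hm : v.valuation K (unif v * (3 * s ^ 2 + (A : K))) = exp (-1) := by
    rw [map_mul, hu, h1, mul_one]
  have h2 : v.valuation K ((s + unif v) ^ 3 + (A : K) * (s + unif v) + (B : K)) = exp (-1) := by
    rw [← hm]
    refine Valuation.map_eq_of_sub_lt _ ?_
    have e1 : (s + unif v) ^ 3 + (A : K) * (s + unif v) + (B : K) -
        unif v * (3 * s ^ 2 + (A : K)) = (s ^ 3 + (A : K) * s + (B : K)) +
          unif v * unif v * (3 * s + unif v) := by ring
    rw [hm, e1]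
    refine lt_of_le_of_lt ((v.valuation K).map_add_le hf ?_) hlt
    rw [map_mul, map_mul, hu, ← exp_add]
    have h3 : v.valuation K (3 * s + unif v) ≤ 1 := by
      refine (v.valuation K).map_add_le ?_ hu1
      rw [map_mul]
      exact mul_le_one' (by exact_mod_cast Cl_nat v 3) hs
    calc _ ≤ (exp (-1 + -1) : ℤᵐ⁰) * 1 := mul_le_mul' le_rfl h3
      _ = _ := by rw [mul_one]; norm_num
  obtain ⟨w₃, hw3, ho, hu3⟩ := H36MT.ord_subL h hd hs' (H54PR.ff_ne h (s + unif v))
  have e2 : algebraMap K L (s + unif v) - θ = (algebraMap K L s - θ) + algebraMap K L (unif v) := by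
    rw [map_add]
    ring
  have h4 : w₁.valuation L (algebraMap K L (s + unif v) - θ) ≤ exp (-2) := by
    rw [e2]
    exact (w₁.valuation L).map_add_le hW hπ
  have h5 : w₁ = w₃ := by
    by_contra hne
    rw [hu3 w₁ hw hne] at h4
    exact absurd h4 (not_le.2 hlt1)
  rw [← h5] at ho
  have h6 : ord (v.valuation K) ((s + unif v) ^ 3 + (A : K) * (s + unif v) + (B : K)) = 1 := by
    unfold ord
    rw [h2, log_exp, neg_neg]
  rw [h6] at ho
  rw [Cl_val (H54PR.sub_ne h (s + unif v)), ho] at h4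
  exact absurd h4 (not_le.2 hlt)

theorem Cl_main {A B : 𝓞 K} {θ : L} (h : Cub K L (A : K) (B : K) θ) (hR : HR2 K L A B θ)
    {v : HeightOneSpectrum (𝓞 K)} (hv : OddP v) (hd : dsc A B ∉ v.asIdeal ^ 2) {y : L}
    (hy : y ≠ 0) (hN : IsSquare (Algebra.norm K y)) {l : K} (hl : l ≠ 0)
    (he : ∀ w : HeightOneSpectrum (𝓞 L), dn K w = v → eo w (sc y) = 0) {t s : K}
    (ht : v.valuation K t ≤ 1) (hs : v.valuation K s ≤ 1)
    (hto : Odd (ord (v.valuation K) (t ^ 3 + (A : K) * t + (B : K))))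
    (hso : Odd (ord (v.valuation K) (s ^ 3 + (A : K) * s + (B : K))))
    (hsc : sc y = sc (algebraMap K L l) + sc (algebraMap K L t - θ) + sc (algebraMap K L s - θ))
    (hsq : IsSquare (l * (t ^ 3 + (A : K) * t + (B : K)) * (s ^ 3 + (A : K) * s + (B : K)))) :
    ∑ᶠ w : {w : HeightOneSpectrum (𝓞 L) // dn K w = v},
      tp w.1 (sc y) (sc (algebraMap K L t - θ)) = 0 := by
  obtain ⟨w₁, hw1, hot, hut, hG⟩ := Cl_one h hd he ht hto
  obtain ⟨w₂, hw2, hos, hus⟩ := H36MT.ord_subL h hd hs (H54PR.ff_ne h s)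
  rw [hG]
  have hU0 : algebraMap K L t - θ ≠ 0 := H54PR.sub_ne h t
  have hW0 : algebraMap K L s - θ ≠ 0 := H54PR.sub_ne h s
  have hft : t ^ 3 + (A : K) * t + (B : K) ≠ 0 := H54PR.ff_ne h t
  have hfs : s ^ 3 + (A : K) * s + (B : K) ≠ 0 := H54PR.ff_ne h s
  have hlL : algebraMap K L l ≠ 0 := (map_ne_zero _).2 hl
  have hodd : ∀ w : HeightOneSpectrum (𝓞 L), dn K w = v → OddP w := by
    intro w hw
    rw [oddP_dn (K := K), hw]
    exact hv
  have htp : 0 < ord (v.valuation K) (t ^ 3 + (A : K) * t + (B : K)) := by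
    have h1 := (Cl_le hft).1 (Cl_int A B ht)
    obtain ⟨k, hk⟩ := hto
    omega
  have hsp : 0 < ord (v.valuation K) (s ^ 3 + (A : K) * s + (B : K)) := by
    have h1 := (Cl_le hfs).1 (Cl_int A B hs)
    obtain ⟨k, hk⟩ := hso
    omega
  have hel : Even (ord (v.valuation K) l) := by
    obtain ⟨r, hr⟩ := hsq
    have hne : l * (t ^ 3 + (A : K) * t + (B : K)) ≠ 0 := mul_ne_zero hl hft
    have hr0 : r ≠ 0 := by
      rintro rfl
      rw [mul_zero] at hr
      exact mul_ne_zero hne hfs hr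
    have h1 : ord (v.valuation K) (l * (t ^ 3 + (A : K) * t + (B : K)) *
        (s ^ 3 + (A : K) * s + (B : K))) = ord (v.valuation K) (r * r) := by rw [hr]
    rw [ord_mul hne hfs, ord_mul hl hft, ord_mul hr0 hr0] at h1
    obtain ⟨k, hk⟩ := hto
    obtain ⟨m, hm⟩ := hso
    exact ⟨ord (v.valuation K) r - k - m - 1, by omega⟩
  have helw : ∀ w : HeightOneSpectrum (𝓞 L), dn K w = v → eo w (sc (algebraMap K L l)) = 0 := by
    intro w hw
    obtain ⟨e, -, h1⟩ := ord_dn (K := K) w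
    rw [H38T1.eo_sc hlL, h1 l hl, hw]
    exact Tg_even.2 (hel.mul_left _)
  have hw12 : w₂ = w₁ := by
    by_contra hne
    have h1 := he w₁ hw1
    rw [hsc, H38T1.eo_add, H38T1.eo_add, helw w₁ hw1, H38T1.eo_sc hU0, hot, Cl_odd hto,
      Cl_eo_one (hus w₁ hw1 (fun h0 => hne h0.symm)), zero_add, add_zero] at h1
    exact one_ne_zero h1
  rw [hw12] at hos hus
  have hU1 : w₁.valuation L (algebraMap K L t - θ) < 1 := (Cl_lt hU0).2 (by rw [hot]; exact htp)
  have hW1 : w₁.valuation L (algebraMap K L s - θ) < 1 := (Cl_lt hW0).2 (by rw [hos]; exact hsp)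
  have hUW : (algebraMap K L t - θ) - (algebraMap K L s - θ) = algebraMap K L (t - s) := by
    rw [map_sub]
    ring
  have hts : v.valuation K (t - s) < 1 := by
    have h1 : w₁.valuation L (algebraMap K L (t - s)) < 1 := by
      rw [← hUW]
      exact lt_of_le_of_lt (Valuation.map_sub _ _ _) (max_lt hU1 hW1)
    refine lt_of_le_of_ne ((Valuation.map_sub _ _ _).trans (max_le ht hs)) fun h2 => ?_
    have h3 : w₁.valuation L (algebraMap K L (t - s)) = 1 := val_one (by rw [hw1]; exact h2)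
    rw [h3] at h1
    exact lt_irrefl _ h1
  have hdiv : ∀ w : HeightOneSpectrum (𝓞 L), dn K w = v →
      w.valuation L ((algebraMap K L t - θ) / (algebraMap K L s - θ) - 1) < 1 →
      la w (sc y) = la w (sc (algebraMap K L l)) := by
    intro w hw hlt
    have h1 := Tg_la (hodd w hw) hlt
    rw [Cl_sc_div hU0 hW0] at h1
    rw [hsc, add_assoc, H38T1.la_add (hodd w hw), h1, add_zero]
  have hother : ∀ w : HeightOneSpectrum (𝓞 L), dn K w = v → w ≠ w₁ →
      la w (sc y) = la w (sc (algebraMap K L l)) := by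
    intro w hw hne
    refine hdiv w hw ?_
    have e1 : (algebraMap K L t - θ) / (algebraMap K L s - θ) - 1 =
        algebraMap K L (t - s) / (algebraMap K L s - θ) := by
      rw [← hUW, Cl_dv hW0]
    rw [e1, map_div₀, hus w hw hne, div_one]
    exact val_lt (by rw [hw]; exact hts)
  have hπ0 := Cl_unif_ne v
  have hπL : algebraMap K L (unif v) ≠ 0 := (map_ne_zero _).2 hπ0
  have hp := hR.proj hv hy hπ0
  have hq := hR.proj hv hlL hπ0
  rw [(H38T1.sc_eq_zero (scm_ne (Algebra.norm K : L →* K) hy)).2 hN, Cl_tp0 hv] at hp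
  have hnl : sc (Algebra.norm K (algebraMap K L l)) = sc l := by
    rw [Algebra.norm_algebraMap, h.finrank, pow_succ l 2]
    exact Tg_sq hl hl
  rw [hnl] at hq
  have hfin : Finite {w : HeightOneSpectrum (𝓞 L) // dn K w = v} := (fin_above v).to_subtype
  have hsum := finsum_add_distrib
    (f := fun w : {w : HeightOneSpectrum (𝓞 L) // dn K w = v} =>
      tp w.1 (sc y) (sc (algebraMap K L (unif v))))
    (g := fun w : {w : HeightOneSpectrum (𝓞 L) // dn K w = v} =>
      tp w.1 (sc (algebraMap K L l)) (sc (algebraMap K L (unif v))))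
    (Set.toFinite _) (Set.toFinite _)
  rw [hp, hq, zero_add, finsum_eq_single _
    (⟨w₁, hw1⟩ : {w : HeightOneSpectrum (𝓞 L) // dn K w = v})] at hsum
  swap
  · rintro ⟨w, hw⟩ hne
    have hne' : w ≠ w₁ := fun h0 => hne (Subtype.ext h0)
    change tp w (sc y) (sc (algebraMap K L (unif v))) +
      tp w (sc (algebraMap K L l)) (sc (algebraMap K L (unif v))) = 0
    rw [Cl_tp (he w hw), Cl_tp (helw w hw), hother w hw hne']
    exact CharTwo.add_self_eq_zero _
  have hev0 : eo v (sc l) = 0 := by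
    rw [H38T1.eo_sc hl]
    exact Tg_even.2 hel
  have heu : eo v (sc (unif v)) = 1 := by
    rw [H38T1.eo_sc hπ0, Cl_unif_ord, Int.cast_one]
  change tp w₁ (sc y) (sc (algebraMap K L (unif v))) +
      tp w₁ (sc (algebraMap K L l)) (sc (algebraMap K L (unif v))) = _ at hsum
  rw [Cl_tp (he w₁ hw1), Cl_tp (helw w₁ hw1), Cl_tp hev0, heu, one_mul,
    Cl_la h hv hd hw1 ht hU1 hl hel] at hsum
  have hz : ∀ z : ZMod 2, z = 0 ∨ z = 1 := by decide
  rcases hz (eo w₁ (sc (algebraMap K L (unif v)))) with h0 | h0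
  · rw [h0, zero_mul, zero_mul, zero_add] at hsum
    rw [hdiv w₁ hw1 ?_, Cl_la h hv hd hw1 ht hU1 hl hel, ← hsum]
    obtain ⟨e, he0, h1⟩ := ord_dn (K := K) w₁
    have h2 : ord (w₁.valuation L) (algebraMap K L (unif v)) = e := by
      rw [h1 _ hπ0, hw1, Cl_unif_ord, mul_one]
    have h3 : Even (e : ℤ) := by
      rw [← Tg_even, ← h2, ← H38T1.eo_sc hπL]
      exact h0
    have h4 : w₁.valuation L (algebraMap K L (unif v)) ≤ exp (-2) := by
      rw [Cl_val hπL, h2, exp_le_exp]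
      obtain ⟨k, hk⟩ := h3
      omega
    have h5 : w₁.valuation L (algebraMap K L (t - s)) ≤ exp (-2) := by
      have h6 : v.valuation K ((t - s) / unif v) ≤ 1 := by
        rw [map_div₀, H38T1.unif_spec]
        exact div_le_one_of_le₀ (Cl_le_exp hts) zero_le
      have h7 : w₁.valuation L (algebraMap K L ((t - s) / unif v)) ≤ 1 :=
        val_le (by rw [hw1]; exact h6)
      have h8 : algebraMap K L (t - s) = algebraMap K L ((t - s) / unif v) *
          algebraMap K L (unif v) := by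
        rw [← map_mul, div_mul_cancel₀ _ hπ0]
      rw [h8, map_mul]
      calc _ ≤ (1 : ℤᵐ⁰) * exp (-2) := mul_le_mul' h7 h4
        _ = _ := one_mul _
    have h9 : ord (v.valuation K) (s ^ 3 + (A : K) * s + (B : K)) = 1 := by
      by_contra hne
      have h10 : 2 ≤ ord (v.valuation K) (s ^ 3 + (A : K) * s + (B : K)) := by omega
      refine Cl_ram h hd hw1 hs h4 ?_ ?_
      · rw [Cl_val hW0, hos, exp_le_exp]
        omega
      · rw [Cl_val hfs, exp_le_exp]
        omega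
    have e1 : (algebraMap K L t - θ) / (algebraMap K L s - θ) - 1 =
        algebraMap K L (t - s) / (algebraMap K L s - θ) := by
      rw [← hUW, Cl_dv hW0]
    rw [e1, map_div₀, Cl_val hW0, hos, h9]
    have h11 : (exp (-2) : ℤᵐ⁰) < exp (-1) := by
      rw [exp_lt_exp]
      norm_num
    rw [div_lt_one₀ (zero_lt_iff.2 exp_ne_zero)]
    exact lt_of_le_of_lt h5 h11
  · rw [h0, one_mul, one_mul] at hsum
    exact (add_eq_right).1 hsum

theorem conic_CL {A B : 𝓞 K} {θ : L} (h : Cub K L (A : K) (B : K) θ) (hR : HR2 K L A B θ)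
    {v : HeightOneSpectrum (𝓞 K)} (hv : OddP v) (hd : dsc A B ∉ v.asIdeal ^ 2) {y : L}
    (hy : y ≠ 0) (hN : IsSquare (Algebra.norm K y)) (ha : al h y ≠ 0) (hb : be h y ≠ 0)
    (he : ∀ w : HeightOneSpectrum (𝓞 L), dn K w = v → eo w (sc y) = 0) :
    tp v (sc (al h y)) (sc (be h y)) = 0 := by
  obtain ⟨t, s, hsc, hsq, hF⟩ := conic_F h hR hy hN ha hb
  obtain ⟨hFt, hFs⟩ := hF v hv
  rcases lt_or_ge 1 (v.valuation K t) with ht | ht
  · rw [hFt, Cl_big h hR hv hy hN ht]
  rcases lt_or_ge 1 (v.valuation K s) with hs | hs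
  · rw [hFs, Cl_big h hR hv hy hN hs]
  rcases Int.even_or_odd (ord (v.valuation K) (t ^ 3 + (A : K) * t + (B : K))) with hto | hto
  · rw [hFt, Cl_even h hd he ht hto]
  rcases Int.even_or_odd (ord (v.valuation K) (s ^ 3 + (A : K) * s + (B : K))) with hso | hso
  · rw [hFs, Cl_even h hd he hs hso]
  rw [hFt]
  exact Cl_main h hR hv hd hy hN (neg_ne_zero.2 (mul_ne_zero ha hb)) he ht hs hto hso hsc hsq

end H76MQ
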