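import Pool.Agent.H76.MQ.Gg
import Pool.Agent.H76.MQ.Fs
import Pool.Agent.H76.PP.Tc

/-!
ROW Ct (project MP_78d38b_MQT, about 200 lines): the symbol of the conic at a place of `T` when the class is odd at `w₂`.

`m = la_{w₁} y`, `n = eo_{w₂} y = 1`, `eo_{w₁} y = 0` (gg_eo1), `ν = la_{w₁}(3θ^2 + A)`; `la_{w₂}(-1) = 0` (gg_la2). `conic_F`: `t, s`, `λ = -(α β)`, `U = t - θ`, `W = s - θ`, `sc y = sc λ + sc U + sc W`.
For `x ∈ {t, s}`: `G x = ∑_w tp_w (y, x - θ) = tp_v (α, β)` (gg_sum).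
(a) `x` not integral: `x - θ = x (1 - θ/x)` (`ord_sub_big`), so `G x = ∑ tp_w (y, x) = tp_v (N y, x) = 0`, and `eo_{w₁}(x - θ) = eo_{w₂}(x - θ) = eo_v x`.
(b) `x` integral: `w₂.valuation (x - θ) = 1` (unit2), `tp_{w₁}(y, x - θ) = m * eo_{w₁}(x - θ)`, `tp_{w₂}(y, x - θ) = la_{w₂}(x - θ)`. If moreover `eo_{w₁}(x - θ) = 1`, then `w₁.valuation (x - θ) < 1` and `la_{w₂}(x - θ) = ν`: let `π = unif v`,
`cof = θ^2 + xθ + x^2 + A`, `(x - θ) cof = f(x)` (`H54PR.sub_mul_quad`), `N (x - θ) = f(x)`; `tp_{w₁}(x - θ, π) + tp_{w₂}(x - θ, π) = tp_v (f(x), π)` (proj) `= tp_{w₁}(f(x), π)` (gg_tp1)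
`= tp_{w₁}(x - θ, π) + tp_{w₁}(cof, π)`, so `la_{w₂}(x - θ) = tp_{w₂}(x - θ, π) = tp_{w₁}(cof, π) = la_{w₁} cof = ν` as `cof ≡ 3θ^2 + A` modulo `w₁`, a unit by der.
Parities: `eo_v λ + eo_{w₁} U + eo_{w₁} W = 0`, `eo_v λ + eo_{w₂} U + eo_{w₂} W = 1`; in case (a) both parities of `x - θ` agree, in case (b) `eo_{w₂} = 0`. Adding: the number of `x ∈ {t, s}` in case (b) with `eo_{w₁}(x - θ) = 1` is odd,
so there is one such `x`, and `G x = m + ν`.
-/

set_option autoImplicit false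
set_option linter.unusedSectionVars false
open scoped Classical

open WithZero NumberField IsDedekindDomain H38RT
open H38T1 (SC sc scu rep eo la si Pri OddP tp unif ka)
open H76PP

namespace H76MQ

open H54MT

variable {K L : Type} [Field K] [NumberField K] [Field L] [NumberField L] [Algebra K L]

private theorem Ct_eo_one {F : Type} [Field F] [NumberField F] {v : HeightOneSpectrum (𝓞 F)} {y : F}
    (h : v.valuation F y = 1) : eo v (sc y) = 0 := by
  have hy : y ≠ 0 := by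
    rintro rfl
    rw [map_zero] at h
    exact zero_ne_one h
  rw [H38T1.eo_sc hy]
  unfold ord
  rw [h, log_one, neg_zero, Int.cast_zero]

private theorem Ct_la_near {F : Type} [Field F] [NumberField F] {v : HeightOneSpectrum (𝓞 F)}
    (hv : OddP v) {y z : F} (hz : v.valuation F z = 1) (h : v.valuation F (y - z) < 1) :
    v.valuation F y = 1 ∧ la v (sc y) = la v (sc z) := by
  have hz0 : z ≠ 0 := by
    rintro rfl
    rw [map_zero] at hz
    exact zero_ne_one hz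
  have h1 : v.valuation F (y / z - 1) < 1 := by
    have e : y / z - 1 = (y - z) / z := by rw [sub_div, div_self hz0]
    rw [e, map_div₀, hz, div_one]
    exact h
  have h2 := near_one h1
  have hq : y / z ≠ 0 := by
    intro h0
    rw [h0, map_zero] at h2
    exact zero_ne_one h2
  have e2 : y = y / z * z := (div_mul_cancel₀ y hz0).symm
  refine ⟨?_, ?_⟩
  · rw [e2, map_mul, h2, hz, one_mul]
  · have h3 : la v (sc (y / z)) = 0 := by
      rw [H38T1.la_sc hv hq, lam_unit h2]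
      refine if_pos ⟨1, ?_⟩
      rwa [one_pow]
    rw [e2, H38T1.sc_mul hq hz0, H38T1.la_add hv, h3, zero_add]

private theorem Ct_unif_ne (v : HeightOneSpectrum (𝓞 K)) : unif v ≠ 0 := by
  intro h
  have h1 := H38T1.unif_spec v
  rw [h, map_zero] at h1
  exact exp_ne_zero h1.symm

private theorem Ct_eo1 {v : HeightOneSpectrum (𝓞 K)} {w₁ w₂ : HeightOneSpectrum (𝓞 L)}
    (h2 : TwG K v w₁ w₂) {x : K} (hx : x ≠ 0) :
    eo w₁ (sc (algebraMap K L x)) = eo v (sc x) := by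
  rw [H38T1.eo_sc ((map_ne_zero _).2 hx), H38T1.eo_sc hx, h2.ord1 x hx]

private theorem Ct_eo2 {v : HeightOneSpectrum (𝓞 K)} {w₁ w₂ : HeightOneSpectrum (𝓞 L)}
    (h2 : TwG K v w₁ w₂) {x : K} (hx : x ≠ 0) :
    eo w₂ (sc (algebraMap K L x)) = eo v (sc x) := by
  rw [H38T1.eo_sc ((map_ne_zero _).2 hx), H38T1.eo_sc hx, h2.ord2 x hx]

private theorem Ct_eo_unif (v : HeightOneSpectrum (𝓞 K)) : eo v (sc (unif v)) = 1 := by
  rw [H38T1.eo_sc (Ct_unif_ne v)]
  unfold ord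
  rw [H38T1.unif_spec, log_exp, neg_neg, Int.cast_one]

private theorem Ct_big {A B : 𝓞 K} {θ : L} (h : Cub K L (A : K) (B : K) θ)
    {v : HeightOneSpectrum (𝓞 K)} {w₁ w₂ : HeightOneSpectrum (𝓞 L)}
    (h2 : TwG K v w₁ w₂) {x : K} (hx : 1 < v.valuation K x) :
    eo w₁ (sc (algebraMap K L x - θ)) = eo w₂ (sc (algebraMap K L x - θ)) := by
  have hx0 : x ≠ 0 := by
    rintro rfl
    rw [map_zero] at hx
    exact absurd hx (not_lt.2 zero_le_one)
  have h0 := H54PR.sub_ne h x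
  have a1 : 1 < (dn K w₁).valuation K x := by rw [h2.dn1]; exact hx
  have a2 : 1 < (dn K w₂).valuation K x := by rw [h2.dn2]; exact hx
  have b1 := (ord_sub_big h a1).1
  have b2 := (ord_sub_big h a2).1
  have c1 : ord (w₁.valuation L) (algebraMap K L x - θ) = ord (w₁.valuation L) (algebraMap K L x) := by
    unfold ord
    rw [b1]
  have c2 : ord (w₂.valuation L) (algebraMap K L x - θ) = ord (w₂.valuation L) (algebraMap K L x) := by
    unfold ord
    rw [b2]
  rw [H38T1.eo_sc h0, H38T1.eo_sc h0, c1, c2, h2.ord1 x hx0, h2.ord2 x hx0]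

private theorem Ct_la2 {A B : 𝓞 K} {θ : L} (h : Cub K L (A : K) (B : K) θ) (hR : HR2 K L A B θ)
    {v : HeightOneSpectrum (𝓞 K)} (hv : OddP v) {w₁ w₂ : HeightOneSpectrum (𝓞 L)}
    (h2 : TwT K (A : K) θ v w₁ w₂) {x : K} (hx : v.valuation K x ≤ 1)
    (hu1 : w₁.valuation L (algebraMap K L x - θ) < 1)
    (hu2 : w₂.valuation L (algebraMap K L x - θ) = 1) :
    la w₂ (sc (algebraMap K L x - θ)) = la w₁ (sc (3 * θ ^ 2 + algebraMap K L A)) := by
  obtain ⟨t, ht⟩ := theta_int h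
  have hw1 : OddP w₁ := (oddP_dn (K := K)).2 (by rw [h2.dn1]; exact hv)
  have hu0 := H54PR.sub_ne h x
  have hf0 := H54PR.ff_ne h x
  have hπ := Ct_unif_ne v
  obtain ⟨cof, hcof⟩ : ∃ c, c = θ ^ 2 + algebraMap K L x * θ + algebraMap K L x ^ 2 + algebraMap K L A :=
    ⟨_, rfl⟩
  have hmul : (algebraMap K L x - θ) * cof = algebraMap K L (H54PR.ff (A : K) (B : K) x) := by
    rw [hcof]
    exact H54PR.sub_mul_quad h.root x
  have hcof0 : cof ≠ 0 := by
    rintro rfl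
    rw [mul_zero] at hmul
    exact hf0 ((map_eq_zero _).1 hmul.symm)
  have hxw : w₁.valuation L (algebraMap K L x) ≤ 1 := by
    have h5 : w₁.valuation L (algebraMap K L x - θ + θ) ≤ 1 := by
      refine (w₁.valuation L).map_add_le hu1.le ?_
      rw [← ht]
      exact w₁.valuation_le_one t
    rwa [sub_add_cancel] at h5
  have hθw : w₁.valuation L θ ≤ 1 := by
    rw [← ht]
    exact w₁.valuation_le_one t
  have hnear : w₁.valuation L (cof - (3 * θ ^ 2 + algebraMap K L A)) < 1 := by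
    have e : cof - (3 * θ ^ 2 + algebraMap K L A) =
        (algebraMap K L x - θ) * (algebraMap K L x + (θ + θ)) := by
      rw [hcof]
      ring
    have h6 : w₁.valuation L (algebraMap K L x + (θ + θ)) ≤ 1 :=
      (w₁.valuation L).map_add_le hxw ((w₁.valuation L).map_add_le hθw hθw)
    rw [e, map_mul]
    exact mul_lt_one_of_lt_of_le hu1 h6
  obtain ⟨hc1, hc2⟩ := Ct_la_near hw1 h2.der hnear
  have hp := hR.proj hv hu0 hπ
  rw [gg_sum h2.toTwG (fun w => tp w (sc (algebraMap K L x - θ)) (sc (algebraMap K L (unif v)))),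
    h.norm_sub x] at hp
  have hp2 : tp v (sc (x ^ 3 + (A : K) * x + (B : K))) (sc (unif v)) =
      tp w₁ (sc (algebraMap K L x - θ)) (sc (algebraMap K L (unif v))) +
        tp w₁ (sc cof) (sc (algebraMap K L (unif v))) := by
    have h7 := gg_tp1 hv h2.toTwG hf0 hπ
    rw [← hmul, H38T1.sc_mul hu0 hcof0, H38T1.tp_comm, H54PR.tp_add_right hw1] at h7
    rw [H38T1.tp_comm (sc (algebraMap K L x - θ)), H38T1.tp_comm (sc cof)]
    exact h7.symm
  rw [hp2] at hp
  have hp3 := add_left_cancel hp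
  have g1 : eo w₁ (sc cof) = 0 := Ct_eo_one hc1
  have g2 : eo w₂ (sc (algebraMap K L x - θ)) = 0 := Ct_eo_one hu2
  have g3 : eo w₁ (sc (algebraMap K L (unif v))) = 1 := by rw [Ct_eo1 h2.toTwG hπ, Ct_eo_unif]
  have g4 : eo w₂ (sc (algebraMap K L (unif v))) = 1 := by rw [Ct_eo2 h2.toTwG hπ, Ct_eo_unif]
  unfold tp at hp3
  rw [g1, g2, g3, g4, zero_mul, zero_mul, zero_mul, zero_mul, zero_mul, zero_add, add_zero,
    zero_add, add_zero, one_mul, one_mul] at hp3
  rw [hp3, hc2]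

private theorem Ct_main {A B : 𝓞 K} {θ : L} (h : Cub K L (A : K) (B : K) θ) (hR : HR2 K L A B θ)
    {v : HeightOneSpectrum (𝓞 K)} (hv : OddP v) {w₁ w₂ : HeightOneSpectrum (𝓞 L)}
    (h2 : TwT K (A : K) θ v w₁ w₂) {c : SC L} (hc1 : eo w₁ c = 0) (hc2 : eo w₂ c = 1) {x : K}
    (hx : eo w₁ (sc (algebraMap K L x - θ)) + eo w₂ (sc (algebraMap K L x - θ)) = 1) :
    tp w₁ c (sc (algebraMap K L x - θ)) + tp w₂ c (sc (algebraMap K L x - θ)) =
      la w₁ c + la w₁ (sc (3 * θ ^ 2 + algebraMap K L A)) := by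
  have hx1 : v.valuation K x ≤ 1 := by
    by_contra hlt
    rw [Ct_big h h2.toTwG (not_le.1 hlt)] at hx
    have h3 : ∀ a : ZMod 2, a + a ≠ 1 := by decide
    exact h3 _ hx
  have hu2 := h2.unit2 x hx1
  have e2 : eo w₂ (sc (algebraMap K L x - θ)) = 0 := Ct_eo_one hu2
  rw [e2, add_zero] at hx
  obtain ⟨t, ht⟩ := theta_int h
  have hθw : w₁.valuation L θ ≤ 1 := by
    rw [← ht]
    exact w₁.valuation_le_one t
  have hxw : w₁.valuation L (algebraMap K L x) ≤ 1 := by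
    rcases eq_or_ne x 0 with rfl | hx0
    · rw [map_zero, map_zero]
      exact zero_le_one
    · have h4 := h2.ord1 x hx0
      unfold ord at h4
      have h5 : log (w₁.valuation L (algebraMap K L x)) = log (v.valuation K x) := neg_injective h4
      have h6 : w₁.valuation L (algebraMap K L x) ≠ 0 :=
        (Valuation.ne_zero_iff _).2 ((map_ne_zero _).2 hx0)
      have h7 : v.valuation K x ≠ 0 := (Valuation.ne_zero_iff _).2 hx0
      rw [← exp_log h6, h5, exp_log h7]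
      exact hx1
  have hu1 : w₁.valuation L (algebraMap K L x - θ) < 1 := by
    refine lt_of_le_of_ne ((w₁.valuation L).map_sub_le hxw hθw) ?_
    intro h8
    rw [Ct_eo_one h8] at hx
    exact zero_ne_one hx
  have h9 := Ct_la2 h hR hv h2 hx1 hu1 hu2
  unfold tp
  rw [hc1, hc2, hx, e2, h9]
  ring

theorem conic_CT {A B : 𝓞 K} {θ : L} (h : Cub K L (A : K) (B : K) θ) (hR : HR2 K L A B θ)
    {v : HeightOneSpectrum (𝓞 K)} (hv : OddP v) {w₁ w₂ : HeightOneSpectrum (𝓞 L)}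
    (h2 : TwT K (A : K) θ v w₁ w₂) {y : L} (hy : y ≠ 0) (hN : IsSquare (Algebra.norm K y))
    (ha : al h y ≠ 0) (hb : be h y ≠ 0) (hn : eo w₂ (sc y) = 1) :
    tp v (sc (al h y)) (sc (be h y)) =
      la w₁ (sc y) + la w₁ (sc (3 * θ ^ 2 + algebraMap K L A)) := by
  obtain ⟨t, s, hsc, -, htp⟩ := conic_F h hR hy hN ha hb
  obtain ⟨ht, hs⟩ := htp v hv
  have h1 := gg_eo1 hR hv h2.toTwG h.finrank hy hN
  have hl0 : -(al h y * be h y) ≠ 0 := neg_ne_zero.2 (mul_ne_zero ha hb)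
  rw [gg_sum h2.toTwG (fun w => tp w (sc y) (sc (algebraMap K L t - θ)))] at ht
  rw [gg_sum h2.toTwG (fun w => tp w (sc y) (sc (algebraMap K L s - θ)))] at hs
  have p1 : eo w₁ (sc y) = eo v (sc (-(al h y * be h y))) + eo w₁ (sc (algebraMap K L t - θ)) +
      eo w₁ (sc (algebraMap K L s - θ)) := by
    rw [hsc, H38T1.eo_add, H38T1.eo_add, Ct_eo1 h2.toTwG hl0]
  have p2 : eo w₂ (sc y) = eo v (sc (-(al h y * be h y))) + eo w₂ (sc (algebraMap K L t - θ)) +
      eo w₂ (sc (algebraMap K L s - θ)) := by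
    rw [hsc, H38T1.eo_add, H38T1.eo_add, Ct_eo2 h2.toTwG hl0]
  rw [h1] at p1
  rw [hn] at p2
  have key : ∀ l a b c d : ZMod 2, 0 = l + a + b → 1 = l + c + d → a + c = 1 ∨ b + d = 1 := by
    decide
  rcases key _ _ _ _ _ p1 p2 with h3 | h3
  · rw [ht]
    exact Ct_main h hR hv h2 h1 hn h3
  · rw [hs]
    exact Ct_main h hR hv h2 h1 hn h3

end H76MQ
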