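import Pool.Agent.H76.MQ.Pd
import Pool.Agent.H54.PR.Wb
import Pool.Agent.H38.T1.Ea
import Pool.Agent.H54.PR.Va
import Pool.Agent.H36.MT.Th
import Pool.Agent.H76.PP.Tg
import Pool.Agent.H76.PP.Te

/-!
ROW Ph (project MP_78d38b_MQT, about 350 lines): choice of the representative at the places above two.

`ω = θ/2`. `h.co 2 y = c₂ / 4`, `h.co 1 y = c₁ / 2`, `h.co 0 y = c₀` for `y = ev ω c`; so `al h y = c₂ / 4`, `be h y = (c₁^2 - c₀ c₂ + (A/4) c₂^2) / 4`.
rm_conic. (1) `y z^2 / ρ = 1 + ε`, `w ε ≤ exp (-7)`. Hensel: for every `N` there is `r ∈ L`, a unit at `w`, with `w (1 + ε - r^2) ≤ exp (-N)` (completion: `H36MT.sq_S` for `L` with `D = 1 + ε`, `m = 1`, and density; or Newton's iteration `r ↦ r - (r^2 - u) / (2 r)`). So with `z' = z / r`: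
`w (y z'^2 - ρ) ≤ exp (-20)`. (2) `κ = ω` if `j = 0`, `κ = ω - ω^2` if `j = 1`; `Y₀ = z' κ`. If `w (Y - Y₀) ≤ exp (-M)`, `M` large (depending on `w y`, `w Y₀`), then `w (y Y^2 - ρ κ^2) ≤ exp (-18)`, so by rm_val the coordinates `c` of `y Y^2` are congruent modulo `v^6` to those of `ρ κ^2`, and these are
(computed with `ω^3 = -a ω - b`, `a = A/4 ≡ 4`, `b = B/8 ≡ 2` modulo `v^7`), modulo `v^6`: (0,0): (0, 0, 1); (1,0): (-4, -8, 1); (0,1): (2, 10, 9); (1,1): (-34, -58, 29).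
(3) `β' = c₁^2 - c₀ c₂ + (A/4) c₂^2` is congruent modulo `v^6` to 4, 72, 406, 7714, of orders 2, 3, 1, 1 at `v`. So `c₂ ≠ 0`, `β' ≠ 0`, `eo_v (be) = eo_v (β' / 4) = 0, 1, 1, 1`. (4) `sc (al) = sc c₂` (`4` is a square), `c₂ ≡ 1, 1, 9, 29` modulo `v^6`: in the first three cases `c₂ = 1 - 4 c` with `c ∈ 2 O_v`:
`Prm` with `t = z = 1`, and `kap 1 c = 0` (root `t = 0` of `t^2 + t + c` modulo `v`); in the last `c₂ = 1 - 4 c`, `c ≡ -7` modulo `v^4`, a unit `≡ 1` modulo `v`, `kap 1 c = 1`: `t^2 + t + 1` has no root modulo `v` (res; a non-integral `t` is no root either). `H38T1.pri_sc`, `H38T1.ka_sc`, and the well-definedness of `kp`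
(`H38RT.kp_eq` in H38/RT/Kq.lean; see how `ka_sc`, `H38T1.Ea` use it, e.g. a lemma `kp (t^2 (z^2 - 4c)) = kap z c` for number fields). So `eo_v(be) * ka_v(al)` = 0, 0, 0, 1 = i * j.
exists_Y: `H54PR.fin_app` for `L` and the finite set of the `w v`, `v ∈ P` (`w.valuation 2 < 1`): `Y` close to all `Y₀ (w v)`. (`P` nonempty or not: if `P` is empty there is nothing to prove except nonvanishing; but `P` is not empty, add the hypothesis `hP`.)
-/

set_option autoImplicit false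
set_option linter.unusedSectionVars false
open scoped Classical

open WithZero NumberField IsDedekindDomain H38RT
open H38T1 (SC sc scu rep eo la si Pri OddP tp unif ka)
open H76PP

namespace H76MQ

variable {K L : Type} [Field K] [NumberField K] [Field L] [NumberField L] [Algebra K L]

/-! ### Powers of exponentials -/

private lemma Ph_cube {g : WithZero (Multiplicative ℤ)} {m k : ℤ} (h : g ^ 3 ≤ exp m)
    (hk : m < 3 * k + 3) : g ≤ exp k := by
  by_contra h1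
  rw [not_le] at h1
  have h0 : g ≠ 0 := by
    rintro rfl
    exact absurd h1 (not_lt.2 zero_le)
  rw [← exp_log h0] at h h1
  rw [exp_lt_exp] at h1
  rw [← exp_nsmul, exp_le_exp] at h
  simp only [nsmul_eq_mul] at h
  push_cast at h
  omega

private lemma Ph_cube2 {g : WithZero (Multiplicative ℤ)} {m k l : ℤ} (h : g ^ 3 * exp l ≤ exp m)
    (hk : m < 3 * k + 3 + l) : g ≤ exp k := by
  refine Ph_cube (m := m - l) ?_ (by omega)
  have e1 : g ^ 3 = g ^ 3 * exp l * exp (-l) := by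
    rw [mul_assoc, ← exp_add, add_neg_cancel, exp_zero, mul_one]
  rw [e1, sub_eq_add_neg, exp_add]
  exact mul_le_mul_left h _

/-! ### Congruences -/

/-- congruence of integral elements -/
private def Ph_Cg (v : HeightOneSpectrum (𝓞 K)) (t : WithZero (Multiplicative ℤ)) (x y : K) :
    Prop := v.valuation K (x - y) ≤ t ∧ v.valuation K x ≤ 1 ∧ v.valuation K y ≤ 1

private lemma Ph_int (v : HeightOneSpectrum (𝓞 K)) (n : ℤ) : v.valuation K (n : K) ≤ 1 := by
  have h := v.valuation_le_one (K := K) (n : 𝓞 K)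
  simpa using h

private lemma Ph_Cg_int (v : HeightOneSpectrum (𝓞 K)) (t : WithZero (Multiplicative ℤ)) (n : ℤ) :
    Ph_Cg v t (n : K) (n : K) := by
  refine ⟨?_, Ph_int v n, Ph_int v n⟩
  rw [sub_self, map_zero]
  exact zero_le

private lemma Ph_Cg_add {v : HeightOneSpectrum (𝓞 K)} {t : WithZero (Multiplicative ℤ)}
    {x y x' y' : K} (h : Ph_Cg v t x y) (h' : Ph_Cg v t x' y') : Ph_Cg v t (x + x') (y + y') := by
  obtain ⟨h1, h2, h3⟩ := h
  obtain ⟨h1', h2', h3'⟩ := h'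
  refine ⟨?_, (Valuation.map_add _ _ _).trans (max_le h2 h2'),
    (Valuation.map_add _ _ _).trans (max_le h3 h3')⟩
  have e : x + x' - (y + y') = (x - y) + (x' - y') := by ring
  rw [e]
  exact (Valuation.map_add _ _ _).trans (max_le h1 h1')

private lemma Ph_Cg_neg {v : HeightOneSpectrum (𝓞 K)} {t : WithZero (Multiplicative ℤ)}
    {x y : K} (h : Ph_Cg v t x y) : Ph_Cg v t (-x) (-y) := by
  obtain ⟨h1, h2, h3⟩ := h
  refine ⟨?_, by rwa [Valuation.map_neg], by rwa [Valuation.map_neg]⟩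
  have e : -x - -y = -(x - y) := by ring
  rw [e, Valuation.map_neg]
  exact h1

private lemma Ph_Cg_sub {v : HeightOneSpectrum (𝓞 K)} {t : WithZero (Multiplicative ℤ)}
    {x y x' y' : K} (h : Ph_Cg v t x y) (h' : Ph_Cg v t x' y') : Ph_Cg v t (x - x') (y - y') := by
  rw [sub_eq_add_neg, sub_eq_add_neg]
  exact Ph_Cg_add h (Ph_Cg_neg h')

private lemma Ph_Cg_mul {v : HeightOneSpectrum (𝓞 K)} {t : WithZero (Multiplicative ℤ)}
    {x y x' y' : K} (h : Ph_Cg v t x y) (h' : Ph_Cg v t x' y') : Ph_Cg v t (x * x') (y * y') := by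
  obtain ⟨h1, h2, h3⟩ := h
  obtain ⟨h1', h2', h3'⟩ := h'
  refine ⟨?_, by rw [map_mul]; exact mul_le_one' h2 h2', by rw [map_mul]; exact mul_le_one' h3 h3'⟩
  have e : x * x' - y * y' = (x - y) * x' + y * (x' - y') := by ring
  rw [e]
  refine (Valuation.map_add _ _ _).trans (max_le ?_ ?_)
  · rw [map_mul]
    exact (mul_le_mul' h1 h2').trans_eq (mul_one _)
  · rw [map_mul]
    exact (mul_le_mul' h3 h1').trans_eq (one_mul _)

private lemma Ph_Cg_m3 {v : HeightOneSpectrum (𝓞 K)} {t : WithZero (Multiplicative ℤ)}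
    {a a' b b' : K} (ha : Ph_Cg v t a a') (hb : Ph_Cg v t b b') {x x' y y' : Fin 3 → K}
    (hx : ∀ j, Ph_Cg v t (x j) (x' j)) (hy : ∀ j, Ph_Cg v t (y j) (y' j)) (j : Fin 3) :
    Ph_Cg v t (m3 a b x y j) (m3 a' b' x' y' j) := by
  have hh : ∀ i k, Ph_Cg v t (x i * y k) (x' i * y' k) := fun i k => Ph_Cg_mul (hx i) (hy k)
  fin_cases j
  · exact Ph_Cg_sub (hh 0 0) (Ph_Cg_mul hb (Ph_Cg_add (hh 1 2) (hh 2 1)))
  · exact Ph_Cg_sub (Ph_Cg_sub (Ph_Cg_add (hh 0 1) (hh 1 0))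
      (Ph_Cg_mul ha (Ph_Cg_add (hh 1 2) (hh 2 1)))) (Ph_Cg_mul hb (hh 2 2))
  · exact Ph_Cg_sub (Ph_Cg_add (Ph_Cg_add (hh 0 2) (hh 1 1)) (hh 2 0)) (Ph_Cg_mul ha (hh 2 2))

/-- coordinates of the representatives -/
private def Ph_r (i j : ZMod 2) : Fin 3 → ℤ :=
  if i = 0 then (if j = 0 then ![1, 0, 0] else ![-1, 1, 0])
  else (if j = 0 then ![1, 2, 0] else ![-1, -1, 2])

/-- coordinates of the square of the second factor -/
private def Ph_k (j : ZMod 2) : Fin 3 → ℤ := if j = 0 then ![0, 1, 0] else ![0, 1, -1]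

/-- the coordinates of the product -/
private def Ph_t (i j : ZMod 2) : Fin 3 → ℤ :=
  m3 4 2 (Ph_r i j) (m3 4 2 (Ph_k j) (Ph_k j))

private lemma Ph_t_eq : ∀ i j : ZMod 2, Ph_t i j =
    if i = 0 then (if j = 0 then ![0, 0, 1] else ![2, 10, 9])
    else (if j = 0 then ![-4, -8, 1] else ![-34, -58, 29]) := by
  decide +kernel

private lemma Ph_odd {v : HeightOneSpectrum (𝓞 K)} (h2 : v.valuation K 2 = exp (-1)) (n : ℤ) :
    v.valuation K ((2 * n + 1 : ℤ) : K) = 1 := by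
  refine le_antisymm (Ph_int v _) ?_
  by_contra hlt
  rw [not_le] at hlt
  have h3 : (1 : K) = ((2 * n + 1 : ℤ) : K) - 2 * (n : K) := by
    push_cast
    ring
  have h4 : v.valuation K (1 : K) < 1 := by
    rw [h3]
    refine (Valuation.map_sub _ _ _).trans_lt (max_lt hlt ?_)
    rw [map_mul, h2]
    refine (mul_le_mul' le_rfl (Ph_int v n)).trans_lt ?_
    rw [mul_one, ← exp_zero, exp_lt_exp]
    omega
  rw [map_one] at h4
  exact lt_irrefl _ h4

private lemma Ph_pow2 {v : HeightOneSpectrum (𝓞 K)} (h2 : v.valuation K 2 = exp (-1)) (k : ℕ)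
    (n : ℤ) : v.valuation K ((2 ^ k * (2 * n + 1) : ℤ) : K) = exp (-(k : ℤ)) := by
  have e : ((2 ^ k * (2 * n + 1) : ℤ) : K) = 2 ^ k * ((2 * n + 1 : ℤ) : K) := by
    push_cast
    ring
  rw [e, map_mul, map_pow, h2, Ph_odd h2 n, mul_one, ← exp_nsmul]
  congr 1
  simp

private lemma Ph_ord {v : HeightOneSpectrum (𝓞 K)} {x y : K} {k : ℤ}
    (h : v.valuation K (x - y) ≤ exp (-6)) (hy : v.valuation K y = exp (-k)) (hk : k < 6) :
    v.valuation K x = exp (-k) ∧ x ≠ 0 ∧ ord (v.valuation K) x = k := by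
  have h1 : v.valuation K x = exp (-k) := by
    rw [← hy]
    refine Valuation.map_eq_of_sub_lt _ (h.trans_lt ?_)
    rw [hy, exp_lt_exp]
    omega
  refine ⟨h1, ?_, ?_⟩
  · rintro rfl
    rw [map_zero] at h1
    exact exp_ne_zero h1.symm
  · unfold ord
    rw [h1, log_exp, neg_neg]

private lemma Ph_kap0 {v : HeightOneSpectrum (𝓞 K)} {c : K} (hc : v.valuation K c < 1) :
    kap (v.valuation K) 1 c = 0 := by
  unfold kap
  rw [if_pos]
  refine ⟨0, ?_⟩
  have e : (0 : K) ^ 2 + 1 * 0 + c = c := by ring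
  rw [e]
  exact hc

private lemma Ph_kap1 {v : HeightOneSpectrum (𝓞 K)} (h2 : v.valuation K 2 = exp (-1))
    (hres : ∀ x : K, v.valuation K x ≤ 1 → v.valuation K x < 1 ∨ v.valuation K (x - 1) < 1)
    {c : K} (hc : v.valuation K c = 1) :
    kap (v.valuation K) 1 c = 1 := by
  unfold kap
  rw [if_neg]
  rintro ⟨t, ht⟩
  have h2' : v.valuation K 2 < 1 := by
    rw [h2, ← exp_zero, exp_lt_exp]
    norm_num
  rcases le_or_gt (v.valuation K t) 1 with h1 | h1
  · rcases hres t h1 with h3 | h3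
    · have e : c = (t ^ 2 + 1 * t + c) - t * (t + 1) := by ring
      have h4 : v.valuation K c < 1 := by
        rw [e]
        refine (Valuation.map_sub _ _ _).trans_lt (max_lt ht ?_)
        rw [map_mul]
        refine (mul_le_mul' le_rfl ((Valuation.map_add _ _ _).trans
          (max_le h1 (map_one _).le))).trans_lt ?_
        rw [mul_one]
        exact h3
      rw [hc] at h4
      exact lt_irrefl _ h4
    · have e : c = (t ^ 2 + 1 * t + c) - ((t - 1) * (t + 2) + 2) := by ring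
      have h4 : v.valuation K c < 1 := by
        rw [e]
        refine (Valuation.map_sub _ _ _).trans_lt (max_lt ht ?_)
        refine (Valuation.map_add _ _ _).trans_lt (max_lt ?_ h2')
        rw [map_mul]
        refine (mul_le_mul' le_rfl ((Valuation.map_add _ _ _).trans (max_le h1 h2'.le))).trans_lt ?_
        rw [mul_one]
        exact h3
      rw [hc] at h4
      exact lt_irrefl _ h4
  · have h3 : v.valuation K (t ^ 2) = v.valuation K t ^ 2 := map_pow _ _ _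
    have h4 : v.valuation K (1 * t + c) ≤ v.valuation K t := by
      rw [one_mul]
      exact (Valuation.map_add _ _ _).trans (max_le le_rfl (hc.le.trans h1.le))
    have h0 : (0 : ℤᵐ⁰) < v.valuation K t := lt_trans zero_lt_one h1
    have h5 : v.valuation K t < v.valuation K t ^ 2 := by
      rw [pow_two]
      exact lt_mul_of_one_lt_left h0 h1
    have e : t ^ 2 = (t ^ 2 + 1 * t + c) - (1 * t + c) := by ring
    have h6 : v.valuation K (t ^ 2) < v.valuation K (t ^ 2) := by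
      conv_lhs => rw [e]
      refine (Valuation.map_sub _ _ _).trans_lt (max_lt ?_ ?_)
      · rw [h3]
        exact (ht.trans h1).trans h5
      · rw [h3]
        exact h4.trans_lt h5
    exact lt_irrefl _ h6

private lemma Ph_core {v : HeightOneSpectrum (𝓞 K)} (h2 : v.valuation K 2 = exp (-1))
    (hres : ∀ x : K, v.valuation K x ≤ 1 → v.valuation K x < 1 ∨ v.valuation K (x - 1) < 1)
    {a : K} (ha : v.valuation K (a - 4) ≤ exp (-7)) {i j : ZMod 2} {c : Fin 3 → K}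
    (hc : ∀ t, v.valuation K (c t - ((Ph_t i j t : ℤ) : K)) ≤ exp (-6)) :
    c 2 ≠ 0 ∧ c 1 ^ 2 - c 0 * c 2 + a * c 2 ^ 2 ≠ 0 ∧ Pri v (sc (c 2)) ∧
      eo v (sc (c 1 ^ 2 - c 0 * c 2 + a * c 2 ^ 2)) * ka v (sc (c 2)) = i * j := by
  have hv : ¬ OddP v := by
    rw [H38T1.not_oddP, h2, ← exp_zero, exp_lt_exp]
    norm_num
  have hv2 := H38T1.not_oddP.1 hv
  have hle : (exp (-6) : ℤᵐ⁰) ≤ 1 := by
    rw [← exp_zero, exp_le_exp]
    norm_num
  have hcg : ∀ t, Ph_Cg v (exp (-6)) (c t) ((Ph_t i j t : ℤ) : K) := by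
    intro t
    refine ⟨hc t, ?_, Ph_int v _⟩
    have e : c t = (c t - ((Ph_t i j t : ℤ) : K)) + ((Ph_t i j t : ℤ) : K) := by ring
    rw [e]
    exact (Valuation.map_add _ _ _).trans (max_le ((hc t).trans hle) (Ph_int v _))
  have hag : Ph_Cg v (exp (-6)) a ((4 : ℤ) : K) := by
    have h7 : (exp (-7) : ℤᵐ⁰) ≤ exp (-6) := by
      rw [exp_le_exp]
      norm_num
    refine ⟨by simpa using ha.trans h7, ?_, Ph_int v 4⟩
    have e : a = (a - 4) + ((4 : ℤ) : K) := by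
      push_cast
      ring
    rw [e]
    exact (Valuation.map_add _ _ _).trans (max_le ((ha.trans h7).trans hle) (Ph_int v 4))
  have hβ : v.valuation K ((c 1 * c 1 - c 0 * c 2 + a * (c 2 * c 2)) -
      ((Ph_t i j 1 * Ph_t i j 1 - Ph_t i j 0 * Ph_t i j 2 +
        4 * (Ph_t i j 2 * Ph_t i j 2) : ℤ) : K)) ≤ exp (-6) := by
    have h := (Ph_Cg_add (Ph_Cg_sub (Ph_Cg_mul (hcg 1) (hcg 1)) (Ph_Cg_mul (hcg 0) (hcg 2)))
      (Ph_Cg_mul hag (Ph_Cg_mul (hcg 2) (hcg 2)))).1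
    push_cast at h ⊢
    exact h
  have eβ : c 1 ^ 2 - c 0 * c 2 + a * c 2 ^ 2 = c 1 * c 1 - c 0 * c 2 + a * (c 2 * c 2) := by ring
  rw [eβ]
  have h4v : v.valuation K (4 : K) = exp (-2) := by
    have e : (4 : K) = 2 * 2 := by norm_num
    rw [e, map_mul, h2, ← exp_add]
    norm_num
  have hc2 := hc 2
  -- the four cases
  have main : ∀ (n k : ℤ) (r : ℕ) (q : ℤ), Ph_t i j 2 = 1 - 4 * n → r < 6 →
      Ph_t i j 1 * Ph_t i j 1 - Ph_t i j 0 * Ph_t i j 2 + 4 * (Ph_t i j 2 * Ph_t i j 2) =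
        2 ^ r * (2 * q + 1) →
      kap (v.valuation K) 1 ((1 - c 2) / 4) = k →
      c 2 ≠ 0 ∧ c 1 * c 1 - c 0 * c 2 + a * (c 2 * c 2) ≠ 0 ∧ Pri v (sc (c 2)) ∧
      eo v (sc (c 1 * c 1 - c 0 * c 2 + a * (c 2 * c 2))) * ka v (sc (c 2)) =
        (r : ZMod 2) * (k : ZMod 2) := by
    intro n k r q hn hr hq hk
    rw [hn] at hc2
    have e0 : (1 - 4 * n : ℤ) = 2 ^ 0 * (2 * (-2 * n) + 1) := by ring
    have hv0 : v.valuation K ((1 - 4 * n : ℤ) : K) = exp (-(0 : ℤ)) := by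
      rw [e0]
      exact Ph_pow2 h2 0 _
    obtain ⟨-, c20, -⟩ := Ph_ord hc2 hv0 (by norm_num)
    rw [hq] at hβ
    obtain ⟨-, b0, bo⟩ := Ph_ord hβ (Ph_pow2 h2 r q) (by exact_mod_cast hr)
    have hcc : v.valuation K ((1 - c 2) / 4) ≤ 1 := by
      have e : (1 - c 2) / 4 = (n : K) - (c 2 - ((1 - 4 * n : ℤ) : K)) / 4 := by
        push_cast
        field_simp
        ring
      rw [e]
      refine (Valuation.map_sub _ _ _).trans (max_le (Ph_int v n) ?_)
      rw [map_div₀, h4v]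
      refine div_le_one_of_le₀ (hc2.trans ?_) zero_le
      rw [exp_le_exp]
      norm_num
    have hPrm : c 2 = 1 ^ 2 * (1 ^ 2 - 4 * ((1 - c 2) / 4)) := by
      field_simp
      ring
    have hp : Prm (v.valuation K) (c 2) :=
      ⟨1, 1, (1 - c 2) / 4, one_ne_zero, map_one _, hcc, hPrm⟩
    refine ⟨c20, b0, (H38T1.pri_sc hv c20).2 hp, ?_⟩
    obtain ⟨q', d', ψ, hl⟩ := H38T1.loc_of v
    rw [H38T1.ka_sc hv c20 hp, kp_eq hl hv2 two_ne_zero one_ne_zero (map_one _) hcc hPrm, hk,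
      H38T1.eo_sc b0, bo]
    push_cast
    rfl
  have small : ∀ n : ℤ, Ph_t i j 2 = 1 - 4 * n →
      v.valuation K ((1 - c 2) / 4 - (n : K)) ≤ exp (-4) := by
    intro n hn
    rw [hn] at hc2
    have e : (1 - c 2) / 4 - (n : K) = -((c 2 - ((1 - 4 * n : ℤ) : K)) / 4) := by
      push_cast
      field_simp
      ring
    rw [e, Valuation.map_neg, map_div₀, h4v]
    have e2 : (exp (-4) : ℤᵐ⁰) = exp (-6) / exp (-2) := by
      rw [← exp_sub]
      norm_num
    rw [e2]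
    exact div_le_div_of_nonneg_right hc2 zero_le
  have lt1 : (exp (-4) : ℤᵐ⁰) < 1 := by
    rw [← exp_zero, exp_lt_exp]
    norm_num
  have hz : ∀ i : ZMod 2, i = 0 ∨ i = 1 := by decide
  have h10 : (1 : ZMod 2) ≠ 0 := by decide
  rcases hz i with rfl | rfl <;> rcases hz j with rfl | rfl
  · have et := Ph_t_eq 0 0
    rw [if_pos rfl, if_pos rfl] at et
    have h3 := small 0 (by rw [et]; rfl)
    have h4 := main 0 0 2 0 (by rw [et]; rfl) (by norm_num) (by rw [et]; rfl) (by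
      rw [Ph_kap0, Int.cast_zero]
      rw [Int.cast_zero, sub_zero] at h3
      exact h3.trans_lt lt1)
    rw [Int.cast_zero, mul_zero] at h4
    rw [mul_zero]
    exact h4
  · have et := Ph_t_eq 0 1
    rw [if_pos rfl, if_neg h10] at et
    have h3 := small (-2) (by rw [et]; rfl)
    have h4 := main (-2) 0 1 101 (by rw [et]; rfl) (by norm_num) (by rw [et]; rfl) (by
      rw [Ph_kap0, Int.cast_zero]
      have e : (1 - c 2) / 4 = ((1 - c 2) / 4 - ((-2 : ℤ) : K)) - 2 := by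
        push_cast
        ring
      rw [e]
      exact (Valuation.map_sub _ _ _).trans_lt (max_lt (h3.trans_lt lt1) hv2))
    rw [Int.cast_zero, mul_zero] at h4
    rw [zero_mul]
    exact h4
  · have et := Ph_t_eq 1 0
    rw [if_neg h10, if_pos rfl] at et
    have h3 := small 0 (by rw [et]; rfl)
    have h4 := main 0 0 3 4 (by rw [et]; rfl) (by norm_num) (by rw [et]; rfl) (by
      rw [Ph_kap0, Int.cast_zero]
      rw [Int.cast_zero, sub_zero] at h3
      exact h3.trans_lt lt1)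
    rw [Int.cast_zero, mul_zero] at h4
    rw [mul_zero]
    exact h4
  · have et := Ph_t_eq 1 1
    rw [if_neg h10, if_neg h10] at et
    have h3 := small (-7) (by rw [et]; rfl)
    have h5 : v.valuation K ((1 - c 2) / 4) = 1 := by
      have h6 : v.valuation K ((-7 : ℤ) : K) = 1 := by
        have h7 := Ph_odd h2 (-4)
        have e7 : (2 * (-4) + 1 : ℤ) = -7 := by norm_num
        rwa [e7] at h7
      rw [← h6]
      refine Valuation.map_eq_of_sub_lt _ (h3.trans_lt ?_)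
      rw [h6]
      exact lt1
    have h4 := main (-7) 1 1 1928 (by rw [et]; rfl) (by norm_num) (by rw [et]; rfl) (by
      rw [Ph_kap1 h2 hres h5, Int.cast_one])
    rw [Int.cast_one, Nat.cast_one] at h4
    exact h4

private lemma Ph_rho (θ : L) (i j : ZMod 2) :
    rho θ i j = ev (θ / 2) (fun t => ((Ph_r i j t : ℤ) : K)) := by
  have h2 : (2 : L) ≠ 0 := two_ne_zero
  have hz : ∀ i : ZMod 2, i = 0 ∨ i = 1 := by decide
  have e2 : algebraMap K L 2 = 2 := map_ofNat _ 2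
  rcases hz i with rfl | rfl <;> rcases hz j with rfl | rfl
  · simp [rho, ev, Ph_r]
  · simp [rho, ev, Ph_r]
    ring
  · simp [rho, ev, Ph_r, e2]
    field_simp
  · simp [rho, ev, Ph_r, e2]
    field_simp
    ring

private lemma Ph_wnat {A B : K} {θ : L} {v : HeightOneSpectrum (𝓞 K)}
    {w : HeightOneSpectrum (𝓞 L)} (hr : Rm K A B θ v w) :
    w.valuation L (2 : L) = exp (-3) ∧ w.valuation L (4 : L) = exp (-6) := by
  have e2 : w.valuation L (2 : L) = exp (-3) := by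
    have h := hr.val 2
    rw [hr.two, map_ofNat] at h
    rw [h]
    rfl
  refine ⟨e2, ?_⟩
  have e4 : (4 : L) = 2 * 2 := by norm_num
  rw [e4, map_mul, e2, ← exp_add]
  norm_num

private lemma Ph_lt {A B : K} {θ : L} {v : HeightOneSpectrum (𝓞 K)}
    {w : HeightOneSpectrum (𝓞 L)} (hr : Rm K A B θ v w) (x : L) :
    w.valuation L x < w.valuation L 4 ↔ w.valuation L x ≤ exp (-7) := by
  have e : w.valuation L (4 : L) = exp (-7) * exp 1 := by
    rw [(Ph_wnat hr).2, ← exp_add]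
    norm_num
  rw [e]
  exact lt_mul_exp_iff_le exp_ne_zero

private lemma Ph_rho_one {A B : K} {θ : L} {v : HeightOneSpectrum (𝓞 K)}
    {w : HeightOneSpectrum (𝓞 L)} (hr : Rm K A B θ v w) (i j : ZMod 2) :
    w.valuation L (rho θ i j) = 1 := by
  rw [Ph_rho (K := K), rm_val hr]
  have h0 : v.valuation K ((Ph_r i j 0 : ℤ) : K) = 1 := by
    have h1 : Ph_r i j 0 = 1 ∨ Ph_r i j 0 = -1 := by
      revert i j
      decide
    rcases h1 with h1 | h1 <;> rw [h1]
    · rw [Int.cast_one, map_one]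
    · rw [Int.cast_neg, Int.cast_one, Valuation.map_neg, map_one]
  rw [h0, one_pow]
  apply max_eq_left
  refine max_le ?_ ?_
  · refine (mul_le_mul' (pow_le_one' (Ph_int v _) 3) le_rfl).trans ?_
    rw [one_mul, ← exp_zero, exp_le_exp]
    norm_num
  · refine (mul_le_mul' (pow_le_one' (Ph_int v _) 3) le_rfl).trans ?_
    rw [one_mul, ← exp_zero, exp_le_exp]
    norm_num

private lemma Ph_hensel {w : HeightOneSpectrum (𝓞 L)} {D : L}
    (h : w.valuation L (D - 1) < w.valuation L 4) (N : ℕ) :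
    ∃ r : L, r ≠ 0 ∧ w.valuation L r = 1 ∧ w.valuation L (D - r ^ 2) ≤ exp (-(N : ℤ)) := by
  obtain ⟨r, hr⟩ := H36MT.sq_S (v := w) (D := D) (m := 1) one_ne_zero (by
    rw [one_pow, mul_one]
    exact h)
  have hval : ∀ k : L, (Valued.v (algebraMap L (w.adicCompletion L) k) :
      WithZero (Multiplicative ℤ)) = w.valuation L k := fun k =>
    HeightOneSpectrum.valuedAdicCompletion_eq_valuation' w k
  have h41 : w.valuation L 4 ≤ 1 := by
    have h1 := w.valuation_le_one (K := L) (4 : 𝓞 L)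
    have e5 : algebraMap (𝓞 L) L 4 = 4 := map_ofNat (algebraMap (𝓞 L) L) 4
    change w.valuation L (algebraMap (𝓞 L) L 4) ≤ 1 at h1
    rwa [e5] at h1
  have hD1 : w.valuation L (D - 1) < 1 := h.trans_le h41
  have hD : w.valuation L D = 1 := (Tg_ne hD1).1
  have hr1 : (Valued.v r : WithZero (Multiplicative ℤ)) = 1 := by
    have h1 : (Valued.v r : WithZero (Multiplicative ℤ)) ^ 2 = 1 := by
      rw [← map_pow, ← hr, hval, hD]
    have h0 : (Valued.v r : WithZero (Multiplicative ℤ)) ≠ 0 := by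
      intro h2
      rw [h2, zero_pow two_ne_zero] at h1
      exact zero_ne_one h1
    rw [← exp_log h0, ← exp_nsmul, exp_eq_one] at h1
    rw [← exp_log h0, exp_eq_one]
    simp only [nsmul_eq_mul] at h1
    push_cast at h1
    omega
  obtain ⟨k, hk⟩ := H54PR.Va_dense w r (N + 1)
  have hlt : (exp (-((N + 1 : ℕ) : ℤ)) : ℤᵐ⁰) < 1 := by
    rw [← exp_zero, exp_lt_exp]
    push_cast
    omega
  have hk1 : w.valuation L k = 1 := by
    rw [← hval, ← hr1]
    refine Valuation.map_eq_of_sub_lt _ ?_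
    rw [hr1]
    exact hk.trans_lt hlt
  refine ⟨k, ?_, hk1, ?_⟩
  · rintro rfl
    rw [map_zero] at hk1
    exact zero_ne_one hk1
  · rw [← hval, map_sub, map_pow, hr]
    have e : r ^ 2 - algebraMap L (w.adicCompletion L) k ^ 2 =
        -((algebraMap L (w.adicCompletion L) k - r) * (algebraMap L (w.adicCompletion L) k + r)) := by
      ring
    rw [e, Valuation.map_neg, map_mul]
    have h2 : (Valued.v (algebraMap L (w.adicCompletion L) k + r) :
        WithZero (Multiplicative ℤ)) ≤ 1 :=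
      (Valuation.map_add _ _ _).trans (max_le (by rw [hval, hk1]) hr1.le)
    refine (mul_le_mul' hk h2).trans ?_
    rw [mul_one, exp_le_exp]
    push_cast
    omega

private lemma Ph_co {A B : K} {θ : L} (h : Cub K L A B θ) (c : Fin 3 → K) :
    h.co 0 (ev (θ / 2) c) = c 0 ∧ h.co 1 (ev (θ / 2) c) = c 1 / 2 ∧
      h.co 2 (ev (θ / 2) c) = c 2 / 4 := by
  have e2 : algebraMap K L 2 = 2 := map_ofNat _ 2
  have e4 : algebraMap K L 4 = 4 := map_ofNat _ 4
  have e : ev (θ / 2) c = algebraMap K L (c 0) + algebraMap K L (c 1 / 2) * θ +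
      algebraMap K L (c 2 / 4) * θ ^ 2 := by
    unfold ev
    rw [map_div₀, map_div₀, e2, e4]
    field_simp
    ring
  rw [e]
  exact h.co_mk' _ _ _

private lemma Ph_kval {A B : K} {θ : L} {v : HeightOneSpectrum (𝓞 K)}
    {w : HeightOneSpectrum (𝓞 L)} (hr : Rm K A B θ v w) (j : ZMod 2) :
    w.valuation L (ev (θ / 2) (fun t => ((Ph_k j t : ℤ) : K))) ≤ 1 ∧
      ev (θ / 2) (fun t => ((Ph_k j t : ℤ) : K)) ≠ 0 := by
  constructor
  · rw [rm_val hr]
    refine max_le (pow_le_one' (Ph_int v _) 3) (max_le ?_ ?_)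
    · refine (mul_le_mul' (pow_le_one' (Ph_int v _) 3) le_rfl).trans ?_
      rw [one_mul, ← exp_zero, exp_le_exp]
      norm_num
    · refine (mul_le_mul' (pow_le_one' (Ph_int v _) 3) le_rfl).trans ?_
      rw [one_mul, ← exp_zero, exp_le_exp]
      norm_num
  · have h1 : Ph_k j 1 = 1 := by
      revert j
      decide
    have h2 : exp (-1) ≤ w.valuation L (ev (θ / 2) (fun t => ((Ph_k j t : ℤ) : K))) := by
      rw [rm_val hr]
      refine le_trans ?_ ((le_max_left _ _).trans (le_max_right _ _))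
      rw [h1, Int.cast_one, map_one, one_pow, one_mul]
    intro h3
    rw [h3, map_zero] at h2
    exact absurd h2 (not_le.2 (zero_lt_iff.2 exp_ne_zero))

private lemma Ph_coord {A B : K} {θ : L} (h : Cub K L A B θ) {v : HeightOneSpectrum (𝓞 K)}
    {w : HeightOneSpectrum (𝓞 L)} (hr : Rm K A B θ v w) {i j : ZMod 2} {c : Fin 3 → K}
    (hc : w.valuation L (ev (θ / 2) c -
      rho θ i j * ev (θ / 2) (fun t => ((Ph_k j t : ℤ) : K)) ^ 2) ≤ exp (-18)) :
    ∀ t, v.valuation K (c t - ((Ph_t i j t : ℤ) : K)) ≤ exp (-6) := by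
  have hcc := rm_cub h
  obtain ⟨d, hdd⟩ : ∃ d : Fin 3 → K, d = fun t => c t -
      m3 (A / 4) (B / 8) (fun t => ((Ph_r i j t : ℤ) : K)) (m3 (A / 4) (B / 8)
        (fun t => ((Ph_k j t : ℤ) : K)) (fun t => ((Ph_k j t : ℤ) : K))) t := ⟨_, rfl⟩
  have e1 : ev (θ / 2) c - rho θ i j * ev (θ / 2) (fun t => ((Ph_k j t : ℤ) : K)) ^ 2 =
      ev (θ / 2) d := by
    rw [Ph_rho (K := K), sq, Te_ev_mul hcc, Te_ev_mul hcc, hdd]
    simp only [ev, map_sub]
    ring
  rw [e1, rm_val hr] at hc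
  have g0 : v.valuation K (d 0) ≤ exp (-6) := Ph_cube ((le_max_left _ _).trans hc) (by norm_num)
  have g1 : v.valuation K (d 1) ≤ exp (-6) :=
    Ph_cube2 (((le_max_left _ _).trans (le_max_right _ _)).trans hc) (by norm_num)
  have g2 : v.valuation K (d 2) ≤ exp (-6) :=
    Ph_cube2 (((le_max_right _ _).trans (le_max_right _ _)).trans hc) (by norm_num)
  have g : ∀ t, v.valuation K (d t) ≤ exp (-6) := by
    intro t
    fin_cases t
    · exact g0
    · exact g1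
    · exact g2
  have hA : Ph_Cg v (exp (-7)) (A / 4) ((4 : ℤ) : K) := by
    refine ⟨by simpa using hr.A4, ?_, Ph_int v 4⟩
    have e2 : A / 4 = (A / 4 - 4) + ((4 : ℤ) : K) := by
      push_cast
      ring
    rw [e2]
    refine (Valuation.map_add _ _ _).trans (max_le (hr.A4.trans ?_) (Ph_int v 4))
    rw [← exp_zero, exp_le_exp]
    norm_num
  have hB : Ph_Cg v (exp (-7)) (B / 8) ((2 : ℤ) : K) := by
    refine ⟨by simpa using hr.B8, ?_, Ph_int v 2⟩
    have e2 : B / 8 = (B / 8 - 2) + ((2 : ℤ) : K) := by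
      push_cast
      ring
    rw [e2]
    refine (Valuation.map_add _ _ _).trans (max_le (hr.B8.trans ?_) (Ph_int v 2))
    rw [← exp_zero, exp_le_exp]
    norm_num
  intro t
  have hcg := (Ph_Cg_m3 hA hB (fun t => Ph_Cg_int v (exp (-7)) (Ph_r i j t))
      (fun t => Ph_Cg_m3 hA hB (fun t => Ph_Cg_int v (exp (-7)) (Ph_k j t))
        (fun t => Ph_Cg_int v (exp (-7)) (Ph_k j t)) t) t).1
  have e2 : ((Ph_t i j t : ℤ) : K) =
      m3 ((4 : ℤ) : K) ((2 : ℤ) : K) (fun t => ((Ph_r i j t : ℤ) : K))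
        (m3 ((4 : ℤ) : K) ((2 : ℤ) : K) (fun t => ((Ph_k j t : ℤ) : K))
          (fun t => ((Ph_k j t : ℤ) : K))) t := by
    have e3 : (m3 ((4 : ℤ) : K) ((2 : ℤ) : K) (fun t => ((Ph_k j t : ℤ) : K))
        (fun t => ((Ph_k j t : ℤ) : K))) = fun t => ((m3 (4 : ℤ) 2 (Ph_k j) (Ph_k j) t : ℤ) : K) := by
      funext t
      exact Te_m3_map (Int.castRingHom K) 4 2 (Ph_k j) (Ph_k j) t
    rw [e3]
    exact (Te_m3_map (Int.castRingHom K) 4 2 (Ph_r i j) (m3 (4 : ℤ) 2 (Ph_k j) (Ph_k j)) t).symm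
  rw [← e2] at hcg
  have e4 : c t - ((Ph_t i j t : ℤ) : K) = d t +
      (m3 (A / 4) (B / 8) (fun t => ((Ph_r i j t : ℤ) : K)) (m3 (A / 4) (B / 8)
        (fun t => ((Ph_k j t : ℤ) : K)) (fun t => ((Ph_k j t : ℤ) : K))) t -
          ((Ph_t i j t : ℤ) : K)) := by
    rw [hdd]
    ring
  rw [e4]
  refine (Valuation.map_add _ _ _).trans (max_le (g t) (hcg.trans ?_))
  rw [exp_le_exp]
  norm_num

theorem rm_conic {A B : K} {θ : L} (h : Cub K L A B θ) {v : HeightOneSpectrum (𝓞 K)}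
    {w : HeightOneSpectrum (𝓞 L)} (hr : Rm K A B θ v w) {y : L} (hy : y ≠ 0) {i j : ZMod 2}
    (hij : Nr w y (rho θ i j)) : ∃ (Y₀ : L) (M : ℕ), ∀ Y : L,
      w.valuation L (Y - Y₀) ≤ exp (-(M : ℤ)) → Y ≠ 0 ∧ al h (y * Y ^ 2) ≠ 0 ∧
      be h (y * Y ^ 2) ≠ 0 ∧ Pri v (sc (al h (y * Y ^ 2))) ∧
      eo v (sc (be h (y * Y ^ 2))) * ka v (sc (al h (y * Y ^ 2))) = i * j := by
  obtain ⟨z, hz0, hz⟩ := hij
  rw [Ph_lt hr] at hz
  have hρ := Ph_rho_one hr i j
  have hρ0 : rho θ i j ≠ 0 := by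
    intro h0
    rw [h0, map_zero] at hρ
    exact zero_ne_one hρ
  have hD : w.valuation L (y * z ^ 2 / rho θ i j - 1) < w.valuation L 4 := by
    have e : y * z ^ 2 / rho θ i j - 1 = (y * z ^ 2 - rho θ i j) / rho θ i j := by
      rw [sub_div, div_self hρ0]
    rw [e, map_div₀, hρ, div_one, Ph_lt hr]
    exact hz
  obtain ⟨r, hr0, hr1, hr2⟩ := Ph_hensel hD 20
  obtain ⟨hκ1, hκ0⟩ := Ph_kval hr j
  obtain ⟨κ, hκ⟩ : ∃ κ : L, κ = ev (θ / 2) (fun t => ((Ph_k j t : ℤ) : K)) := ⟨_, rfl⟩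
  rw [← hκ] at hκ1 hκ0
  obtain ⟨Y₀, hY₀⟩ : ∃ Y₀ : L, Y₀ = z / r * κ := ⟨_, rfl⟩
  have hY0 : Y₀ ≠ 0 := by
    rw [hY₀]
    exact mul_ne_zero (div_ne_zero hz0 hr0) hκ0
  have key : w.valuation L (y * Y₀ ^ 2 - rho θ i j * κ ^ 2) ≤ exp (-20) := by
    have e : y * Y₀ ^ 2 - rho θ i j * κ ^ 2 =
        (y * z ^ 2 / rho θ i j - r ^ 2) * (rho θ i j * κ ^ 2 / r ^ 2) := by
      rw [hY₀]
      field_simp
    rw [e, map_mul, map_div₀, map_mul, map_pow, map_pow, hr1, hρ, one_pow, div_one, one_mul]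
    refine (mul_le_mul' hr2 (pow_le_one' hκ1 2)).trans ?_
    rw [mul_one]
    exact le_rfl
  have hwy : w.valuation L y ≠ 0 := (Valuation.ne_zero_iff _).2 hy
  have hwY : w.valuation L Y₀ ≠ 0 := (Valuation.ne_zero_iff _).2 hY0
  obtain ⟨a, ha⟩ : ∃ a : ℤ, w.valuation L y = exp a := ⟨_, (exp_log hwy).symm⟩
  obtain ⟨b, hb⟩ : ∃ b : ℤ, w.valuation L Y₀ = exp b := ⟨_, (exp_log hwY).symm⟩
  refine ⟨Y₀, (|a| + |b| + 19).toNat, fun Y hY => ?_⟩
  have hM : (((|a| + |b| + 19).toNat : ℕ) : ℤ) = |a| + |b| + 19 :=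
    Int.toNat_of_nonneg (by positivity)
  rw [hM] at hY
  have ha1 := le_abs_self a
  have hb1 := le_abs_self b
  have hb2 := neg_abs_le b
  have ha2 := abs_nonneg a
  have hlt : (exp (-(|a| + |b| + 19)) : ℤᵐ⁰) < exp b := by
    rw [exp_lt_exp]
    omega
  have hYne : Y ≠ 0 := by
    rintro rfl
    rw [zero_sub, Valuation.map_neg, hb] at hY
    exact absurd hY (not_le.2 hlt)
  have hsum : w.valuation L (Y + Y₀) ≤ exp b := by
    have e : Y + Y₀ = (Y - Y₀) + 2 * Y₀ := by ring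
    rw [e]
    refine (Valuation.map_add _ _ _).trans (max_le (hY.trans hlt.le) ?_)
    rw [map_mul, hb, (Ph_wnat hr).1, ← exp_add, exp_le_exp]
    omega
  have hfin : w.valuation L (y * Y ^ 2 - rho θ i j * κ ^ 2) ≤ exp (-18) := by
    have e : y * Y ^ 2 - rho θ i j * κ ^ 2 = y * (Y - Y₀) * (Y + Y₀) +
        (y * Y₀ ^ 2 - rho θ i j * κ ^ 2) := by ring
    rw [e]
    refine (Valuation.map_add _ _ _).trans (max_le ?_ (key.trans ?_))
    · rw [map_mul, map_mul, ha]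
      refine (mul_le_mul' (mul_le_mul' le_rfl hY) hsum).trans ?_
      rw [← exp_add, ← exp_add, exp_le_exp]
      omega
    · rw [exp_le_exp]
      norm_num
  have hcub := rm_cub h
  obtain ⟨c, hc⟩ : ∃ c : Fin 3 → K, y * Y ^ 2 = ev (θ / 2) c :=
    ⟨![hcub.co 0 (y * Y ^ 2), hcub.co 1 (y * Y ^ 2), hcub.co 2 (y * Y ^ 2)], by
      have := hcub.eq_co (y * Y ^ 2)
      simpa [ev] using this⟩
  rw [hc, hκ] at hfin
  have hcoord := Ph_coord h hr hfin
  obtain ⟨c20, b0, hp, he⟩ := Ph_core hr.two hr.res hr.A4 hcoord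
  obtain ⟨k0, k1, k2⟩ := Ph_co h c
  have h20 : (1 / 2 : K) ≠ 0 := by norm_num
  have eal : al h (y * Y ^ 2) = (1 / 2) ^ 2 * c 2 := by
    unfold al
    rw [hc, k2]
    ring
  have ebe : be h (y * Y ^ 2) = (1 / 2) ^ 2 * (c 1 ^ 2 - c 0 * c 2 + A / 4 * c 2 ^ 2) := by
    unfold be
    rw [hc, k0, k1, k2]
    ring
  rw [eal, ebe, Tg_sq h20 c20, Tg_sq h20 b0]
  exact ⟨hYne, mul_ne_zero (pow_ne_zero 2 h20) c20, mul_ne_zero (pow_ne_zero 2 h20) b0, hp, he⟩

theorem exists_Y {A B : K} {θ : L} (h : Cub K L A B θ) (P : Finset (HeightOneSpectrum (𝓞 K)))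
    (hP : P.Nonempty) (w : HeightOneSpectrum (𝓞 K) → HeightOneSpectrum (𝓞 L))
    (hr : ∀ v ∈ P, Rm K A B θ v (w v)) {y : L} (hy : y ≠ 0)
    (i j : HeightOneSpectrum (𝓞 K) → ZMod 2) (hij : ∀ v ∈ P, Nr (w v) y (rho θ (i v) (j v))) :
    ∃ Y : L, Y ≠ 0 ∧ al h (y * Y ^ 2) ≠ 0 ∧ be h (y * Y ^ 2) ≠ 0 ∧
      ∀ v ∈ P, Pri v (sc (al h (y * Y ^ 2))) ∧
        eo v (sc (be h (y * Y ^ 2))) * ka v (sc (al h (y * Y ^ 2))) = i v * j v := by
  have h1 : ∀ v ∈ P, ∃ (Y₀ : L) (M : ℕ), ∀ Y : L,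
      (w v).valuation L (Y - Y₀) ≤ exp (-(M : ℤ)) → Y ≠ 0 ∧ al h (y * Y ^ 2) ≠ 0 ∧
      be h (y * Y ^ 2) ≠ 0 ∧ Pri v (sc (al h (y * Y ^ 2))) ∧
      eo v (sc (be h (y * Y ^ 2))) * ka v (sc (al h (y * Y ^ 2))) = i v * j v :=
    fun v hv => rm_conic h (hr v hv) hy (hij v hv)
  choose! f M hf using h1
  obtain ⟨x, hx⟩ := H54PR.fin_app (K := L) (P.image w) (by
    intro w' hw'
    obtain ⟨v, hv, rfl⟩ := Finset.mem_image.1 hw'
    rw [(Ph_wnat (hr v hv)).1, ← exp_zero, exp_lt_exp]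
    norm_num) (fun w' => f (dn K w')) (P.sup M)
  have hx' : ∀ v ∈ P, (w v).valuation L (x - f v) ≤ exp (-(M v : ℤ)) := by
    intro v hv
    have h2 := hx (w v) (Finset.mem_image_of_mem w hv)
    rw [(hr v hv).dn] at h2
    refine h2.trans ?_
    rw [exp_le_exp]
    have h3 : M v ≤ P.sup M := Finset.le_sup hv
    omega
  obtain ⟨v₀, hv₀⟩ := hP
  obtain ⟨a1, a2, a3, -, -⟩ := hf v₀ hv₀ x (hx' v₀ hv₀)
  refine ⟨x, a1, a2, a3, fun v hv => ?_⟩
  obtain ⟨-, -, -, a4, a5⟩ := hf v hv x (hx' v hv)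
  exact ⟨a4, a5⟩

end H76MQ
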