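import Pool.Agent.H76.MQ.Df
import Pool.Agent.H76.PP.Te

/-!
ROW Rr (project MP_78d38b_MQT, about 130 lines): the conic at a real place with one real root.

Let `a = s A`, `b₀ = s B`, `yi = s (h.co i y)` (reals), `α = y2 = s (al h y)`, `β = y1^2 - y0 y2 + a y2^2 = s (be h y)`. `N y` is the polynomial `Te_nf A B (co)` (`Te_norm` with `h.eq_co`), a nonzero square, so
`Nr := s (N y) > 0`. Let `t` be a real root of `X^3 + a X + b₀` (odd degree; intermediate value theorem). Put `P = y0 + y1 t + y2 t^2`, `c = y0 - y2 (t^2 + a)`, `e = y1 - y2 t`, `M = c^2 - t c e + (t^2 + a) e^2`, `R = -(c + e t)`,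
`f' = 3 t^2 + a`. Identities (with `b₀ = - t^3 - a t`, `ring`/`linear_combination`): `Nr = P M`, `α f' = P + R`, `α M - β R = P e^2` (the last two hold without using the root).
`4 a^3 + 27 b₀^2 = (3 t^2 + 4 a) (3 t^2 + a)^2` (check), positive, so `3 t^2 + 4 a > 0`, hence `M ≥ 0` (`4 M = (2 c - t e)^2 + (3 t^2 + 4 a) e^2`) and `f' > 0` (`4 f' = 9 t^2 + (3 t^2 + 4a)`). `P M > 0` gives `M > 0`, `P > 0`.
If `α < 0` and `β < 0`: `R = α f' - P < 0`, so `β R > 0`, `α M < 0`, and `P e^2 = α M - β R < 0`, impossible.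
-/

set_option autoImplicit false
set_option linter.unusedSectionVars false
open scoped Classical

open WithZero NumberField IsDedekindDomain H38RT
open H38T1 (SC sc scu rep eo la si Pri OddP tp unif ka)
open H76PP

namespace H76MQ

variable {K L : Type} [Field K] [NumberField K] [Field L] [NumberField L] [Algebra K L]

/-- a real root of `X^3 + a X + b` -/
lemma Rr_root (a b : ℝ) : ∃ t : ℝ, t ^ 3 + a * t + b = 0 := by
  have hR : (1 : ℝ) ≤ 1 + |a| + |b| := by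
    have := abs_nonneg a
    have := abs_nonneg b
    linarith
  obtain ⟨R, hRd⟩ : ∃ R : ℝ, R = 1 + |a| + |b| := ⟨_, rfl⟩
  rw [← hRd] at hR
  have ha := abs_nonneg a
  have hb := abs_nonneg b
  have ha1 := le_abs_self a
  have ha2 := neg_abs_le a
  have hb1 := le_abs_self b
  have hb2 := neg_abs_le b
  have hR2 : R ≤ R ^ 2 := by nlinarith
  have h1 : |b| ≤ R * (R ^ 2 - |a|) := by
    have h3 : 1 ≤ R ^ 2 - |a| := by linarith
    have h4 : R * 1 ≤ R * (R ^ 2 - |a|) := mul_le_mul_of_nonneg_left h3 (by linarith)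
    linarith
  have hp : 0 ≤ R ^ 3 + a * R + b := by
    have h5 : -(|a| * R) ≤ a * R := by nlinarith
    nlinarith
  have hn : (-R) ^ 3 + a * (-R) + b ≤ 0 := by
    have h5 : -(|a| * R) ≤ a * R := by nlinarith
    nlinarith
  have hc : ContinuousOn (fun x : ℝ => x ^ 3 + a * x + b) (Set.Icc (-R) R) := by
    fun_prop
  obtain ⟨t, -, ht⟩ := intermediate_value_Icc (by linarith : -R ≤ R) hc ⟨hn, hp⟩
  exact ⟨t, ht⟩

/-- the statement about real numbers -/
lemma Rr_real {a b y0 y1 y2 : ℝ} (hd : 0 < 4 * a ^ 3 + 27 * b ^ 2)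
    (hN : 0 < y0 * ((y0 - a * y2) ^ 2 + a * y1 ^ 2 + b * y1 * y2) +
      b * y2 * (y0 * y1 + b * y2 ^ 2) - b * y1 * (y1 ^ 2 - y0 * y2 + a * y2 ^ 2))
    (h1 : y2 < 0) (h2 : y1 ^ 2 - y0 * y2 + a * y2 ^ 2 < 0) : False := by
  obtain ⟨t, ht⟩ := Rr_root a b
  obtain rfl : b = -t ^ 3 - a * t := by linarith
  obtain ⟨P, hP⟩ : ∃ P, P = y0 + y1 * t + y2 * t ^ 2 := ⟨_, rfl⟩
  obtain ⟨c, hc⟩ : ∃ c, c = y0 - y2 * (t ^ 2 + a) := ⟨_, rfl⟩
  obtain ⟨e, he⟩ : ∃ e, e = y1 - y2 * t := ⟨_, rfl⟩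
  obtain ⟨M, hM⟩ : ∃ M, M = c ^ 2 - t * c * e + (t ^ 2 + a) * e ^ 2 := ⟨_, rfl⟩
  obtain ⟨β, hβ⟩ : ∃ β, β = y1 ^ 2 - y0 * y2 + a * y2 ^ 2 := ⟨_, rfl⟩
  have hPM : 0 < P * M := by
    refine lt_of_lt_of_eq hN ?_
    rw [hM, hP, hc, he]
    ring
  have hdd : 4 * a ^ 3 + 27 * (-t ^ 3 - a * t) ^ 2 = (3 * t ^ 2 + 4 * a) * (3 * t ^ 2 + a) ^ 2 := by
    ring
  rw [hdd] at hd
  have hD : 0 < 3 * t ^ 2 + 4 * a := by
    by_contra hcon
    have h3 := sq_nonneg (3 * t ^ 2 + a)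
    nlinarith
  have hM0 : 0 ≤ M := by
    have h4 : 4 * M = (2 * c - t * e) ^ 2 + (3 * t ^ 2 + 4 * a) * e ^ 2 := by rw [hM]; ring
    have h5 : 0 ≤ (3 * t ^ 2 + 4 * a) * e ^ 2 := mul_nonneg hD.le (sq_nonneg e)
    have h6 := sq_nonneg (2 * c - t * e)
    linarith
  have hM1 : 0 < M := by
    rcases hM0.lt_or_eq with h | h
    · exact h
    · rw [← h, mul_zero] at hPM
      exact absurd hPM (lt_irrefl 0)
  have hP0 : 0 < P := by
    by_contra hcon
    have : P * M ≤ 0 := mul_nonpos_of_nonpos_of_nonneg (not_lt.1 hcon) hM0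
    linarith
  have hf : 0 < 3 * t ^ 2 + a := by
    have := sq_nonneg t
    linarith
  have e1 : y2 * (3 * t ^ 2 + a) = P - (c + e * t) := by rw [hP, hc, he]; ring
  have e2 : y2 * M + β * (c + e * t) = P * e ^ 2 := by rw [hM, hβ, hP, hc, he]; ring
  have h7 : y2 * (3 * t ^ 2 + a) < 0 := mul_neg_of_neg_of_pos h1 hf
  have h8 : 0 < c + e * t := by linarith
  have h9 : β * (c + e * t) < 0 := mul_neg_of_neg_of_pos (by rw [hβ]; exact h2) h8
  have h10 : y2 * M < 0 := mul_neg_of_neg_of_pos h1 hM1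
  have h11 : 0 ≤ P * e ^ 2 := mul_nonneg hP0.le (sq_nonneg e)
  linarith

theorem conic_real {A B : 𝓞 K} {θ : L} (h : Cub K L (A : K) (B : K) θ) {s : K →+* ℝ}
    (hs : 0 < s ((dsc A B : 𝓞 K) : K)) {y : L} (hy : y ≠ 0) (hN : IsSquare (Algebra.norm K y)) :
    ¬ (s (al h y) < 0 ∧ s (be h y) < 0) := by
  rintro ⟨h1, h2⟩
  have hy' : ev θ (fun i => h.co i y) = y := (h.eq_co y).symm
  have hn : Algebra.norm K y = Te_nf (A : K) (B : K) (fun i => h.co i y) := by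
    have h3 := Te_norm h (fun i => h.co i y)
    rwa [hy'] at h3
  have hfin : Module.Finite K L := Module.Finite.of_basis h.basis
  have hn0 : Algebra.norm K y ≠ 0 := by
    rw [Ne, Algebra.norm_eq_zero_iff]
    exact hy
  have hpos : 0 < s (Algebra.norm K y) := by
    obtain ⟨r, hr⟩ := hN
    have hr0 : s r ≠ 0 := by
      intro h4
      apply hn0
      rw [hr, (map_eq_zero s).1 h4, mul_zero]
    rw [hr, map_mul]
    exact mul_self_pos.2 hr0
  rw [hn, ← Te_nf_map s] at hpos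
  have hd : 0 < 4 * s (A : K) ^ 3 + 27 * s (B : K) ^ 2 := by
    refine lt_of_lt_of_eq hs ?_
    have e0 : algebraMap (𝓞 K) K (dsc A B) = 4 * (A : K) ^ 3 + 27 * (B : K) ^ 2 := by
      unfold dsc
      rw [map_add, map_mul, map_mul, map_pow, map_pow, map_ofNat, map_ofNat]
    refine (congrArg s e0).trans ?_
    rw [map_add, map_mul, map_mul, map_pow, map_pow, map_ofNat, map_ofNat]
  refine Rr_real (y0 := s (h.co 0 y)) (y1 := s (h.co 1 y)) (y2 := s (h.co 2 y)) hd hpos h1 ?_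
  refine lt_of_eq_of_lt ?_ h2
  unfold be
  rw [map_add, map_sub, map_mul, map_mul, map_pow, map_pow]

end H76MQ
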