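import Pool.Agent.H76.MQ.Dl
import Pool.Agent.H76.MQ.Lx
import Pool.Agent.H76.MQ.Cl
import Pool.Agent.H76.MQ.Ct
import Pool.Agent.H76.MQ.Ac
import Pool.Agent.H76.MQ.Rr
import Pool.Agent.H76.MQ.Ph
import Pool.Agent.H88.T7.Un
import Pool.Agent.H73.P2.Nq
import Pool.Agent.H73.P2.Gd

/-!
ROW Re (project MP_78d38b_MQT, about 250 lines): the conic reciprocity law.

`c = sc y`, `y ≠ 0` (`H38T1.sc_surj`), `N y` a square (`scm_sc`, `H38T1.sc_eq_zero`). `exists_Y` (row Ph) for `P = C.P` (nonempty: some prime contains 2), `w = D.w`, `i v = D.I v c`, `j v = D.J v c` (`D.hIJ.nr`): `Y`. Put `y' = y Y^2`: `sc y' = c`, `N y'` a square, `α = al h y'`, `β = be h y'`, both nonzero.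
`H88T7.recip_sc7` over `K` with `c := sc β`, `c' := sc α`, `T := ` the finite set of all `v` with `¬ OddP v`, `eo v (sc α) ≠ 0`, `eo v (sc β) ≠ 0`, together with `C.P ∪ C.P.image C.a ∪ T` (finiteness: `H54PR.tp_fin`, `H38RT.fin_bad`). `hp`: `¬ OddP v` means `v ∈ C.P`, exists_Y gives `Pri v (sc α)`.
The local terms: `v ∈ C.P`: `eo v (sc β) * ka v (sc α) = I J`. `v = C.a v'`: `tp v (sc β) (sc α) = tp v (sc α) (sc β)` (`H38T1.tp_comm`) `= la (a₁ v') c * (eo (a₂ v') c + 1)` (conic_CA; `3` is a unit at `v` by a6). `v ∈ T`: if `eo (t₂ v) c = 1`: conic_CT; if it is `0`: conic_CL (`eo (t₁ v) c = 0` by gg_eo1, `dsc ∉ v^2` by sqf),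
both sides zero. Other odd `v`: conic_CL gives zero: if `v ∉ C.S ∪ T`: `dsc ∉ v^2` by sqf, `eo w c = 0` by `hc`; if `v ∈ C.R`: `dsc ∉ v` (fam_R), `eo w c = 0` by `H73P2.even_unique` (NoRootAt from `hF.res`, see H73/P2/Gd.lean line 45) applied to `y'`. Real places: conic_real, so `si s (sc β) * si s (sc α) = 0`.
The sets `C.P`, `C.P.image C.a` (`C.a` injective on `C.P`; `2 ∈ v` against `6 ∉ C.a v'`) and `T` are disjoint.
-/

set_option autoImplicit false
set_option linter.unusedSectionVars false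
open scoped Classical

open WithZero NumberField IsDedekindDomain H38RT
open H38T1 (SC sc scu rep eo la si Pri OddP tp unif ka)
open H76PP

namespace H76MQ

variable {K L : Type} [Field K] [NumberField K] [Field L] [NumberField L] [Algebra K L]

theorem Re_two (K : Type) [Field K] [NumberField K] :
    ∃ v : HeightOneSpectrum (𝓞 K), (2 : 𝓞 K) ∈ v.asIdeal := by
  have h2 : ¬ IsUnit (2 : 𝓞 K) := by
    rintro ⟨u, hu⟩
    have h1 : (2 : 𝓞 K) * ((u⁻¹ : (𝓞 K)ˣ) : 𝓞 K) = 1 := by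
      rw [← hu]
      exact u.mul_inv
    have h3 : (2 : K) * (((u⁻¹ : (𝓞 K)ˣ) : 𝓞 K) : K) = 1 := by
      have h4 := congrArg (algebraMap (𝓞 K) K) h1
      rw [map_mul, map_one, map_ofNat] at h4
      exact h4
    have h5 : (((u⁻¹ : (𝓞 K)ˣ) : 𝓞 K) : K) = algebraMap ℚ K (1 / 2) := by
      rw [map_div₀, map_one, map_ofNat, eq_div_iff (two_ne_zero), mul_comm]
      exact h3
    have h6 : IsIntegral ℤ (algebraMap ℚ K (1 / 2)) := by
      rw [← h5]
      exact ((u⁻¹ : (𝓞 K)ˣ) : 𝓞 K).isIntegral_coe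
    have h7 : IsIntegral ℤ (1 / 2 : ℚ) :=
      (isIntegral_algebraMap_iff (algebraMap ℚ K).injective).1 h6
    obtain ⟨n, hn⟩ := IsIntegrallyClosed.isIntegral_iff.1 h7
    have h8 : (2 * n : ℚ) = 1 := by
      have h9 : (n : ℚ) = 1 / 2 := by
        rw [← hn]
        rfl
      rw [h9]
      norm_num
    have h10 : (2 * n : ℤ) = 1 := by exact_mod_cast h8
    omega
  obtain ⟨M, hM, hle⟩ := Ideal.exists_le_maximal (Ideal.span {(2 : 𝓞 K)})
    (fun h => h2 (Ideal.span_singleton_eq_top.1 h))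
  have hm : (2 : 𝓞 K) ∈ M := hle (Ideal.mem_span_singleton_self _)
  refine ⟨⟨M, hM.isPrime, ?_⟩, hm⟩
  rintro rfl
  exact two_ne_zero (Ideal.mem_bot.1 hm)

theorem Re_odd {v : HeightOneSpectrum (𝓞 K)} (h2 : (2 : 𝓞 K) ∉ v.asIdeal) : OddP v := by
  have h3 := (v.valuation_eq_one_iff_notMem (K := K) (r := (2 : 𝓞 K))).2 h2
  unfold H38T1.OddP
  rw [← h3]
  congr 1

theorem Re_nodd {v : HeightOneSpectrum (𝓞 K)} (h : (2 : 𝓞 K) ∈ v.asIdeal) : ¬ OddP v := by
  intro h1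
  unfold H38T1.OddP at h1
  have h3 := (v.valuation_lt_one_iff_mem (K := K) (2 : 𝓞 K)).2 h
  have h4 : algebraMap (𝓞 K) K 2 = 2 := map_ofNat _ 2
  change v.valuation K (algebraMap (𝓞 K) K 2) < 1 at h3
  rw [h4, h1] at h3
  exact lt_irrefl _ h3

theorem Re_three {v : HeightOneSpectrum (𝓞 K)} (h6 : (6 : 𝓞 K) ∉ v.asIdeal) :
    v.valuation K 3 = 1 := by
  have h2 : (3 : 𝓞 K) ∉ v.asIdeal := by
    intro h
    apply h6
    have : (6 : 𝓞 K) = 2 * 3 := by norm_num
    rw [this]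
    exact v.asIdeal.mul_mem_left _ h
  have h3 := (v.valuation_eq_one_iff_notMem (K := K) (r := (3 : 𝓞 K))).2 h2
  rw [← h3]
  congr 1

theorem Re_two6 {v : HeightOneSpectrum (𝓞 K)} (h6 : (6 : 𝓞 K) ∉ v.asIdeal) :
    (2 : 𝓞 K) ∉ v.asIdeal := by
  intro h
  apply h6
  have : (6 : 𝓞 K) = 3 * 2 := by norm_num
  rw [this]
  exact v.asIdeal.mul_mem_left _ h

theorem Re_eo {v : HeightOneSpectrum (𝓞 K)} {x : K} (hx : x ≠ 0) (h : v.valuation K x = 1) :
    eo v (sc x) = 0 := by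
  rw [H38T1.eo_sc hx]
  unfold ord
  rw [h, log_one, neg_zero, Int.cast_zero]

theorem Re_sq {v : HeightOneSpectrum (𝓞 K)} {x : 𝓞 K} (h : x ∉ v.asIdeal) :
    x ∉ v.asIdeal ^ 2 := fun h1 => h (Ideal.pow_le_self two_ne_zero h1)

theorem conic_rec {C : Cfg K} (hC : C.Ok) {q₀ : HeightOneSpectrum (𝓞 K)}
    {T : Finset (HeightOneSpectrum (𝓞 K))} (hT : ∀ v ∈ T, v ∉ C.S ∧ v ≠ q₀)
    {A B : 𝓞 K} (hF : FamQ C q₀ T A B) {θ : L} (h : Cub K L (A : K) (B : K) θ)
    (hR : HR2 K L A B θ) (D : LData C T A B θ) {c : SC L}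
    (hc : c ∈ (HH K (C.S ∪ T) : AddSubgroup (SC L))) :
    ∑ v ∈ C.P, (D.I v c * D.J v c + la (D.a₁ v) c * (eo (D.a₂ v) c + 1)) +
      ∑ v ∈ T, eo (D.t₂ v) c * (la (D.t₁ v) c + D.nu v) = 0 := by
  obtain ⟨y, hy, hyc⟩ := H38T1.sc_surj c
  obtain ⟨hcN, hcE⟩ := mem_HH.1 hc
  have hN : IsSquare (Algebra.norm K y) := by
    have h1 := scm_sc (Algebra.norm K : L →* K) hy
    rw [hyc, hcN] at h1
    exact (H38T1.sc_eq_zero (scm_ne (Algebra.norm K : L →* K) hy)).1 h1.symm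
  have hP : C.P.Nonempty := by
    obtain ⟨v, hv⟩ := Re_two K
    exact ⟨v, (hC.mem2 v).2 hv⟩
  obtain ⟨Y, hY, ha, hb, hPP⟩ := exists_Y h C.P hP D.w D.hw hy (fun v => D.I v c)
    (fun v => D.J v c) (fun v hv => by
      have h1 := (D.hIJ v hv).nr y hy hN
      rw [hyc] at h1
      exact h1)
  obtain ⟨y', hy'⟩ : ∃ y', y' = y * Y ^ 2 := ⟨_, rfl⟩
  have hy0 : y' ≠ 0 := by
    rw [hy']
    exact mul_ne_zero hy (pow_ne_zero 2 hY)
  have hsc : sc y' = c := by
    rw [hy', H38T1.sc_mul hy (pow_ne_zero 2 hY), H54MT.sc_sq hY, add_zero, hyc]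
  have hN' : IsSquare (Algebra.norm K y') := by
    obtain ⟨r, hr⟩ := hN
    refine ⟨r * Algebra.norm K Y, ?_⟩
    rw [hy', map_mul, map_pow, hr]
    ring
  rw [← hy'] at ha hb hPP
  -- oddness
  have hodd : ∀ v : HeightOneSpectrum (𝓞 K), v ∉ C.P → OddP v := fun v hv =>
    Re_odd (fun h2 => hv ((hC.mem2 v).2 h2))
  have hnod : ∀ v ∈ C.P, ¬ OddP v := fun v hv => Re_nodd ((hC.mem2 v).1 hv)
  have haP : ∀ v ∈ C.P, C.a v ∉ C.P := fun v hv h1 =>
    Re_two6 (hC.a6 v hv) ((hC.mem2 _).1 h1)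
  have hTP : ∀ v ∈ T, v ∉ C.P ∧ v ∉ C.P.image C.a ∧ v ∉ C.R := by
    intro v hv
    have h1 := (hT v hv).1
    unfold Cfg.S at h1
    rw [Finset.mem_union, Finset.mem_union, not_or, not_or] at h1
    exact h1
  obtain ⟨T0, hT0⟩ : ∃ T0, T0 = (C.P ∪ (C.P.image C.a ∪ T)) ∪
      ((fin_bad ha).toFinset ∪ (fin_bad hb).toFinset) := ⟨_, rfl⟩
  have hout : ∀ v, v ∉ T0 → v ∉ C.P ∧ v.valuation K (al h y') = 1 ∧
      v.valuation K (be h y') = 1 := by
    intro v hv
    simp only [hT0, Finset.mem_union, not_or] at hv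
    refine ⟨hv.1.1, ?_, ?_⟩
    · by_contra h1
      exact hv.2.1 ((Set.Finite.mem_toFinset _).2 h1)
    · by_contra h1
      exact hv.2.2 ((Set.Finite.mem_toFinset _).2 h1)
  have hrec := H88T7.recip_sc7 (c := sc (be h y')) (c' := sc (al h y')) T0
    (fun v hv => by
      by_contra h1
      exact hv (hodd v (hout v h1).1))
    (fun v hv => Re_eo hb (hout v hv).2.2) (fun v hv => Re_eo ha (hout v hv).2.1)
    (fun v hv => by
      have h1 : v ∈ C.P := by
        by_contra h1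
        exact hv (hodd v h1)
      exact (hPP v h1).1)
  have hreal : ∑ w : K →+* ℝ, si w (sc (be h y')) * si w (sc (al h y')) = 0 := by
    refine Finset.sum_eq_zero fun s _ => ?_
    have h1 := conic_real h (hF.pos s) hy0 hN'
    rw [H38T1.si_sc s hb, H38T1.si_sc s ha]
    unfold sw
    by_cases h2 : s (be h y') < 0
    · have h3 : ¬ s (al h y') < 0 := fun h3 => h1 ⟨h3, h2⟩
      rw [if_neg h3, mul_zero]
    · rw [if_neg h2, zero_mul]
  rw [hreal, add_zero] at hrec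
  obtain ⟨g, hg⟩ : ∃ g : HeightOneSpectrum (𝓞 K) → ZMod 2, g = fun v =>
    if OddP v then tp v (sc (be h y')) (sc (al h y')) else eo v (sc (be h y')) *
      ka v (sc (al h y')) := ⟨_, rfl⟩
  have hrec2 : ∑ v ∈ T0, g v = 0 := by
    rw [hg]
    exact hrec
  have hgodd : ∀ v, OddP v → g v = tp v (sc (al h y')) (sc (be h y')) := by
    intro v hv
    rw [hg]
    change (if OddP v then _ else _) = _
    rw [if_pos hv, H38T1.tp_comm]
  have hzero : ∀ v ∈ T0, v ∉ C.P ∪ (C.P.image C.a ∪ T) → g v = 0 := by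
    intro v _ hv
    rw [Finset.mem_union, Finset.mem_union, not_or, not_or] at hv
    obtain ⟨v1, v2, v3⟩ := hv
    have hvo := hodd v v1
    rw [hgodd v hvo]
    by_cases hvR : v ∈ C.R
    · refine conic_CL h hR hvo (Re_sq (fam_R (hC.R2 v hvR) (hF.res v hvR))) hy0 hN' ha hb ?_
      intro w hw
      have h1 : H73P2.NoRootAt (dn K w) (A : K) (B : K) := by
        rw [hw]
        exact H73P2.noRootAt_of (hF.res v hvR)
      exact H73P2.even_unique h w h1 hy0 hN'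
    · have hvS : v ∉ C.S := by
        unfold Cfg.S
        rw [Finset.mem_union, Finset.mem_union, not_or, not_or]
        exact ⟨v1, v2, hvR⟩
      refine conic_CL h hR hvo (hF.sqf v hvS) hy0 hN' ha hb ?_
      intro w hw
      rw [hsc]
      refine hcE w ?_
      rw [hw, Finset.mem_union, not_or]
      exact ⟨hvS, v3⟩
  have hsub : C.P ∪ (C.P.image C.a ∪ T) ⊆ T0 := by
    rw [hT0]
    exact Finset.subset_union_left
  rw [← Finset.sum_subset hsub hzero] at hrec2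
  have hd1 : Disjoint C.P (C.P.image C.a ∪ T) := by
    rw [Finset.disjoint_left]
    intro v hv h1
    rcases Finset.mem_union.1 h1 with h1 | h1
    · obtain ⟨v', hv', rfl⟩ := Finset.mem_image.1 h1
      exact haP v' hv' hv
    · exact (hTP v h1).1 hv
  have hd2 : Disjoint (C.P.image C.a) T := by
    rw [Finset.disjoint_left]
    intro v hv h1
    exact (hTP v h1).2.1 hv
  rw [Finset.sum_union hd1, Finset.sum_union hd2, Finset.sum_image (fun v hv v' hv' h1 =>
    hC.inj v hv v' hv' h1), ← add_assoc, ← Finset.sum_add_distrib] at hrec2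
  rw [← hrec2]
  congr 1
  · refine Finset.sum_congr rfl fun v hv => ?_
    have h1 : g v = D.I v c * D.J v c := by
      rw [hg]
      change (if OddP v then _ else _) = _
      rw [if_neg (hnod v hv)]
      exact (hPP v hv).2
    have hvo := hodd _ (haP v hv)
    have h2 : g (C.a v) = la (D.a₁ v) c * (eo (D.a₂ v) c + 1) := by
      rw [hgodd _ hvo, conic_CA h hR hvo (Re_three (hC.a6 v hv)) (D.hA v hv) hy0 hN' ha hb, hsc]
    rw [h1, h2]
  · refine Finset.sum_congr rfl fun v hv => ?_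
    have hvo := hodd v (hTP v hv).1
    have hTT := D.hT v hv
    have hz : ∀ x : ZMod 2, x = 0 ∨ x = 1 := by decide
    rw [hgodd v hvo]
    rcases hz (eo (D.t₂ v) c) with h0 | h0
    · rw [h0, zero_mul]
      symm
      refine conic_CL h hR hvo (hF.sqf v (hT v hv).1) hy0 hN' ha hb ?_
      intro w hw
      rcases hTT.only w hw with hww | hww
      · rw [hww]
        exact gg_eo1 hR hvo hTT.toTwG h.finrank hy0 hN'
      · rw [hww, hsc]
        exact h0
    · rw [h0, one_mul]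
      have h1 := conic_CT h hR hvo hTT hy0 hN' ha hb (by rw [hsc]; exact h0)
      rw [h1, hsc]
      rfl

end H76MQ
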