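import Pool.Agent.H76.MQ.Wk
import Pool.Agent.H76.MQ.Re
import Pool.Agent.H76.MQ.Dx

/-!
ROW Sa (project MP_78d38b_MQT, about 250 lines): the walk applied to the classes.

`Tall = (Finset.range k).biUnion T`. `H = HH K (C.S ∪ Tall)` (finite by fin_HH) as a `ZMod 2`-module (`AddSubgroup.toZModSubmodule` or `AddCommGroup.zmodModule` with `H38T1.SC.two_smul`). Additive maps on `H` are linear (`AddMonoidHom.toZModLinearMap`). Apply `walk` with the index type `{v // v ∈ C.P}`,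
`I, J` the restrictions of `D.I v, D.J v`, `ia, ja` those of `D.ia v, D.ja v` (additive: `la` additive at the odd place `D.a₁ v`: `H38T1.la_add`, `oddP_dn`, `TjS_odd`; `eo` additive), `u v = la (D.t₁ v)`, `n v = eo (D.t₂ v)` for `v ∈ Tall` (zero otherwise, as in `H36MT.rel_S`), `ν = D.nu`.
hq: `conic_rec` and the identity in `ZMod 2`: `ia * ja = m (n + 1)` for `ja = m + ρ n`, `ia = n + ja` (`decide`); sum over the subtype = sum over `C.P` (`Finset.sum_coe_sort`/`sum_attach`). `Fintype.card {v // v ∈ C.P} = C.P.card`.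
Key remark: for `S ⊆ Tall`, `c ∈ HH K (C.S ∪ Tall)`: `c ∈ HH K (C.S ∪ S)` iff `eo (D.t₂ v) c = 0` for `v ∈ Tall \ S` (`eo (D.t₁ v) c = 0` by gg_eo1 for a representative, and `t₁, t₂` are the only places above `v`). hd: `card_XJ`. hr: `φ` on `H` extends to `SC L` (`LinearMap.exists_extend`), `(hG l _).2.2`.
hk: `l = 0`: `C.S ∪ ∅ = C.S`, `(hG 0 _).2.1` (`k > 0`, since `b 0 ≥ 1`... if `k = 0` then `hk` forces `b 0 = 0` or `C.P` empty; assume `0 < k`).
-/

set_option autoImplicit false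
set_option linter.unusedSectionVars false
open scoped Classical

open WithZero NumberField IsDedekindDomain H38RT
open H38T1 (SC sc scu rep eo la si Pri OddP tp unif ka)
open H76PP

namespace H76MQ

variable {K L : Type} [Field K] [NumberField K] [Field L] [NumberField L] [Algebra K L]

theorem Sa_odd {v : HeightOneSpectrum (𝓞 K)} (h6 : (6 : 𝓞 K) ∉ v.asIdeal) : OddP v := by
  have h2 : (2 : 𝓞 K) ∉ v.asIdeal := by
    intro h
    apply h6
    have : (6 : 𝓞 K) = 3 * 2 := by norm_num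
    rw [this]
    exact v.asIdeal.mul_mem_left _ h
  have h3 := (v.valuation_eq_one_iff_notMem (K := K) (r := (2 : 𝓞 K))).2 h2
  unfold H38T1.OddP
  rw [← h3]
  congr 1

theorem Sa_walk {H : Type} [AddCommGroup H] (h2 : ∀ x : H, 2 • x = 0) [Finite H] {P ι : Type}
    [Fintype P]
    (I J ia ja : P → H →+ ZMod 2) (u n : ι → H →+ ZMod 2) (ν : ι → ZMod 2) (k : ℕ)
    (T : ℕ → Finset ι) (hT : ∀ i < k, ∀ j < k, i ≠ j → Disjoint (T i) (T j))
    (hq : ∀ c : H, ∑ p, (I p c * J p c + ia p c * ja p c) +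
      ∑ v ∈ (Finset.range k).biUnion T, n v c * (u v c + ν v) = 0)
    (hd : ∀ S ⊆ (Finset.range k).biUnion T, 2 ^ (2 * Fintype.card P) ≤
      Nat.card {c : H // (∀ v ∈ (Finset.range k).biUnion T, v ∉ S → n v c = 0) ∧
        ∀ v ∈ S, u v c = ν v * n v c})
    (hr : ∀ l < k, ∀ φ : H →+ ZMod 2, ∃ v ∈ T l, ∀ c : H,
      (∀ v' ∈ (Finset.range k).biUnion T, v' ∉ (Finset.range l).biUnion T → n v' c = 0) →
      u v c = φ c)
    (hk : Nat.card {c : H // ∀ v ∈ (Finset.range k).biUnion T, n v c = 0} *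
      2 ^ (2 * Fintype.card P) ≤ 2 ^ k) :
    ∃ S ⊆ (Finset.range k).biUnion T, ∀ c : H,
      (∀ v ∈ (Finset.range k).biUnion T, v ∉ S → n v c = 0) →
      (∀ v ∈ S, u v c = ν v * n v c) →
      (∀ p, ia p c = J p c ∧ ja p c = I p c) ∧ ((∀ p, I p c = 0 ∧ J p c = 0) → c = 0) := by
  let _ : Module (ZMod 2) H := AddCommGroup.zmodModule h2
  exact walk (fun p => (I p).toZModLinearMap 2) (fun p => (J p).toZModLinearMap 2)
    (fun p => (ia p).toZModLinearMap 2) (fun p => (ja p).toZModLinearMap 2)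
    (fun p => (u p).toZModLinearMap 2) (fun p => (n p).toZModLinearMap 2) ν k T hT hq hd
    (fun l hl φ => hr l hl φ.toAddMonoidHom) hk

theorem Sa_ext {G : Type} [AddCommGroup G] [Module (ZMod 2) G] (H : AddSubgroup G)
    (φ : H →+ ZMod 2) : ∃ ψ : G →+ ZMod 2, ∀ c (hc : c ∈ H), ψ c = φ ⟨c, hc⟩ := by
  obtain ⟨ψ, hψ⟩ := LinearMap.exists_extend (p := AddSubgroup.toZModSubmodule 2 H)
    (AddMonoidHom.toZModLinearMap 2
      ({ toFun := fun x => φ ⟨x.1, x.2⟩
         map_zero' := map_zero φ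
         map_add' := fun x y => map_add φ ⟨x.1, x.2⟩ ⟨y.1, y.2⟩ } :
        (AddSubgroup.toZModSubmodule 2 H) →+ ZMod 2))
  refine ⟨ψ.toAddMonoidHom, fun c hc => ?_⟩
  exact LinearMap.congr_fun hψ ⟨c, hc⟩

theorem Sa_eo1 {A B : 𝓞 K} {θ : L} (h : Cub K L (A : K) (B : K) θ) (hR : HR2 K L A B θ)
    {v : HeightOneSpectrum (𝓞 K)} (hv : OddP v) {w₁ w₂ : HeightOneSpectrum (𝓞 L)}
    (h2 : TwG K v w₁ w₂) {c : SC L} (hN : scm (Algebra.norm K : L →* K) c = 0) :
    eo w₁ c = 0 := by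
  obtain ⟨y, hy, rfl⟩ := H38T1.sc_surj c
  refine gg_eo1 hR hv h2 h.finrank hy ?_
  rw [scm_sc _ hy] at hN
  exact (H38T1.sc_eq_zero (Algebra.norm_ne_zero_iff.2 hy)).1 hN

/-- the additive function `la w` on a subgroup (zero if `w` is not odd) -/
noncomputable def Sa_la (G : AddSubgroup (SC L)) (w : HeightOneSpectrum (𝓞 L)) : G →+ ZMod 2 :=
  if hw : OddP w then
    { toFun := fun c => la w c.1
      map_zero' := H38T1.la_zero hw
      map_add' := fun x y => H38T1.la_add hw x.1 y.1 }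
  else 0

theorem Sa_la_apply {G : AddSubgroup (SC L)} {w : HeightOneSpectrum (𝓞 L)} (hw : OddP w) (c : G) :
    Sa_la G w c = la w c.1 := by
  unfold Sa_la
  rw [dif_pos hw]
  rfl

/-- the additive function `eo w` on a subgroup -/
noncomputable def Sa_eo (G : AddSubgroup (SC L)) (w : HeightOneSpectrum (𝓞 L)) : G →+ ZMod 2 :=
  { toFun := fun c => eo w c.1
    map_zero' := H38T1.eo_zero w
    map_add' := fun x y => H38T1.eo_add w x.1 y.1 }

theorem Sa_eo_apply {G : AddSubgroup (SC L)} {w : HeightOneSpectrum (𝓞 L)} (c : G) :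
    Sa_eo G w c = eo w c.1 := rfl

theorem Sa_mul (m n ρ : ZMod 2) : (n + (m + ρ * n)) * (m + ρ * n) = m * (n + 1) := by
  revert m n ρ
  decide

theorem walk_app {C : Cfg K} (hC : C.Ok) {q₀ : HeightOneSpectrum (𝓞 K)} {k : ℕ} (hk0 : 0 < k)
    (T : ℕ → Finset (HeightOneSpectrum (𝓞 K))) (b : ℕ → ℕ)
    (hdis : ∀ i < k, ∀ j < k, i ≠ j → Disjoint (T i) (T j))
    (hT : ∀ v ∈ (Finset.range k).biUnion T, v ∉ C.S ∧ v ≠ q₀) {A B : 𝓞 K}
    (hF : FamQ C q₀ ((Finset.range k).biUnion T) A B)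
    (hG : ∀ l < k, GoodSt (C.S ∪ (Finset.range l).biUnion T) (T l) (b l) A B)
    (hk : b 0 * 2 ^ (2 * C.P.card) ≤ 2 ^ k) {θ : L} (h : Cub K L (A : K) (B : K) θ)
    (hR : HR2 K L A B θ) (D : LData C ((Finset.range k).biUnion T) A B θ) :
    ∃ J ⊆ (Finset.range k).biUnion T, ∀ c : SC L, D.X J c →
      (∀ v ∈ C.P, D.ia v c = D.J v c ∧ D.ja v c = D.I v c) ∧
      ((∀ v ∈ C.P, D.I v c = 0 ∧ D.J v c = 0) → c = 0) := by
  have hodd : ∀ v ∈ (Finset.range k).biUnion T, OddP v := fun v hv =>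
    Sa_odd (six_notMem hC (hT v hv).1)
  have hodd1 : ∀ v ∈ (Finset.range k).biUnion T, OddP (D.t₁ v) := fun v hv => by
    rw [oddP_dn (K := K), (D.hT v hv).dn1]
    exact hodd v hv
  have hodda : ∀ v ∈ C.P, OddP (D.a₁ v) := fun v hv => by
    rw [oddP_dn (K := K), (D.hA v hv).dn1]
    exact Sa_odd (hC.a6 v hv)
  -- monotonicity
  have hmono : ∀ S ⊆ (Finset.range k).biUnion T, ∀ c : SC L,
      c ∈ (HH K (C.S ∪ S) : AddSubgroup (SC L)) →
      c ∈ (HH K (C.S ∪ (Finset.range k).biUnion T) : AddSubgroup (SC L)) ∧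
        ∀ v ∈ (Finset.range k).biUnion T, v ∉ S → eo (D.t₂ v) c = 0 := by
    intro S hS c hc
    rw [mem_HH] at hc ⊢
    refine ⟨⟨hc.1, fun w hw => hc.2 w fun h0 => hw ?_⟩, fun v hv hvS => hc.2 _ ?_⟩
    · rcases Finset.mem_union.1 h0 with h1 | h1
      · exact Finset.mem_union_left _ h1
      · exact Finset.mem_union_right _ (hS h1)
    · rw [(D.hT v hv).dn2]
      intro h0
      rcases Finset.mem_union.1 h0 with h1 | h1
      · exact (hT v hv).1 h1
      · exact hvS h1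
  have hback : ∀ S : Finset (HeightOneSpectrum (𝓞 K)), ∀ c : SC L,
      c ∈ (HH K (C.S ∪ (Finset.range k).biUnion T) : AddSubgroup (SC L)) →
      (∀ v ∈ (Finset.range k).biUnion T, v ∉ S → eo (D.t₂ v) c = 0) →
      c ∈ (HH K (C.S ∪ S) : AddSubgroup (SC L)) := by
    intro S c hc h0
    rw [mem_HH] at hc ⊢
    refine ⟨hc.1, fun w hw => ?_⟩
    by_cases hw' : dn K w ∈ C.S ∪ (Finset.range k).biUnion T
    · rcases Finset.mem_union.1 hw' with h1 | h1
      · exact absurd (Finset.mem_union_left _ h1) hw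
      · have h3 : dn K w ∉ S := fun h4 => hw (Finset.mem_union_right _ h4)
        rcases (D.hT (dn K w) h1).only w rfl with h5 | h5
        · rw [h5]
          exact Sa_eo1 h hR (hodd _ h1) (D.hT (dn K w) h1).toTwG hc.1
        · rw [h5]
          exact h0 _ h1 h3
    · exact hc.2 w hw'
  have : Finite (HH K (C.S ∪ (Finset.range k).biUnion T) : AddSubgroup (SC L)) := fin_HH K _
  have hcard : Fintype.card {v // v ∈ C.P} = C.P.card := Fintype.card_coe _
  have key := Sa_walk (H := (HH K (C.S ∪ (Finset.range k).biUnion T) : AddSubgroup (SC L)))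
    (P := {v // v ∈ C.P}) (ι := HeightOneSpectrum (𝓞 K))
    (fun x => Subtype.ext (H38T1.SC.two_smul x.1))
    (fun p => (D.I p.1).comp (AddSubgroup.subtype _))
    (fun p => (D.J p.1).comp (AddSubgroup.subtype _))
    (fun p => Sa_eo _ (D.a₂ p.1) + (Sa_la _ (D.a₁ p.1) +
      (AddMonoidHom.mulLeft (D.ro p.1)).comp (Sa_eo _ (D.a₂ p.1))))
    (fun p => Sa_la _ (D.a₁ p.1) + (AddMonoidHom.mulLeft (D.ro p.1)).comp (Sa_eo _ (D.a₂ p.1)))
    (fun v => Sa_la _ (D.t₁ v)) (fun v => Sa_eo _ (D.t₂ v)) D.nu k T hdis ?_ ?_ ?_ ?_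
  · obtain ⟨S, hS, hS2⟩ := key
    refine ⟨S, hS, fun c hc => ?_⟩
    obtain ⟨hc1, hc2⟩ := hc
    obtain ⟨hc3, hc4⟩ := hmono S hS c hc1
    obtain ⟨h5, h6⟩ := hS2 ⟨c, hc3⟩ hc4 (fun v hv => by
      rw [Sa_la_apply (hodd1 v (hS hv))]
      exact hc2 v hv)
    refine ⟨fun v hv => ?_, fun h7 => ?_⟩
    · obtain ⟨h8, h9⟩ := h5 ⟨v, hv⟩
      have h10 := Sa_la_apply (G := HH K (C.S ∪ (Finset.range k).biUnion T)) (hodda v hv) ⟨c, hc3⟩
      simp only [AddMonoidHom.add_apply, AddMonoidHom.comp_apply] at h8 h9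
      rw [h10] at h8 h9
      exact ⟨h8, h9⟩
    · have h8 := h6 (fun p => h7 p.1 p.2)
      exact congrArg Subtype.val h8
  · -- hq
    intro c
    have h1 := conic_rec hC hT hF h hR D c.2
    refine Eq.trans ?_ h1
    congr 1
    rw [← Finset.sum_coe_sort C.P]
    · refine Finset.sum_congr rfl fun p _ => ?_
      simp only [AddMonoidHom.add_apply, AddMonoidHom.comp_apply]
      rw [Sa_la_apply (hodda p.1 p.2)]
      have h3 := Sa_mul (la (D.a₁ p.1) c.1) (eo (D.a₂ p.1) c.1) (D.ro p.1)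
      rw [← h3]
      rfl
    · refine Finset.sum_congr rfl fun v hv => ?_
      rw [Sa_la_apply (hodd1 v hv)]
      rfl
  · -- hd
    intro S hS
    rw [hcard]
    refine (card_XJ hC hT hF h hR D hS).trans ?_
    refine Nat.card_le_card_of_injective
      (fun c : {c : SC L // D.X S c} => (⟨⟨c.1, (hmono S hS c.1 c.2.1).1⟩,
        (hmono S hS c.1 c.2.1).2, fun v hv => by
          rw [Sa_la_apply (hodd1 v (hS hv))]
          exact c.2.2 v hv⟩ :
        {c : (HH K (C.S ∪ (Finset.range k).biUnion T) : AddSubgroup (SC L)) //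
          (∀ v ∈ (Finset.range k).biUnion T, v ∉ S → Sa_eo _ (D.t₂ v) c = 0) ∧
          ∀ v ∈ S, Sa_la _ (D.t₁ v) c = D.nu v * Sa_eo _ (D.t₂ v) c})) ?_
    intro c c' hcc
    have h1 := congrArg (fun z => z.1.1) hcc
    exact Subtype.ext h1
  · -- hr
    intro l hl φ
    obtain ⟨ψ, hψ⟩ := Sa_ext _ φ
    obtain ⟨v, hv, hv2⟩ := (hG l hl L θ h).2.2 ψ
    refine ⟨v, hv, fun c hc => ?_⟩
    have hvT : v ∈ (Finset.range k).biUnion T := Finset.mem_biUnion.2 ⟨l, Finset.mem_range.2 hl, hv⟩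
    rw [Sa_la_apply (hodd1 v hvT), hv2 c.1 (hback _ c.1 c.2 hc) _ (D.hT v hvT).dn1, hψ c.1 c.2]
  · -- hk
    rw [hcard]
    refine le_trans (Nat.mul_le_mul_right _ ?_) hk
    obtain ⟨h1, h2, -⟩ := hG 0 hk0 L θ h
    refine le_trans ?_ h2
    have := h1
    refine Nat.card_le_card_of_injective
      (fun c : {c : (HH K (C.S ∪ (Finset.range k).biUnion T) : AddSubgroup (SC L)) //
          ∀ v ∈ (Finset.range k).biUnion T, Sa_eo _ (D.t₂ v) c = 0} =>
        (⟨c.1.1, hback _ c.1.1 c.1.2 fun v hv _ => c.2 v hv⟩ :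
          (HH K (C.S ∪ (Finset.range 0).biUnion T) : AddSubgroup (SC L)))) ?_
    intro c c' hcc
    have h3 := congrArg (fun z => z.1) hcc
    exact Subtype.ext (Subtype.ext h3)

end H76MQ
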