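import Pool.Agent.H76.MQ.Gg
import Pool.Agent.H76.PP.Te
import Pool.Agent.H76.PP.Tf
import Pool.Agent.H76.PP.Tg

/-!
ROW Ak (project MP_78d38b_MQT, about 200 lines): the Kummer image at an auxiliary place of a twist by `E` of even order.

As in row Tk: `y = ev (E θ) d`, `Tf_twist`, `LC_approx`: `x = E x'`, at `w | v`: `eo_w y = eo_w (E (x' - θ))`, `la_w y = la_w (E (x' - θ))`, and `sc (E^3 f(x'))` has `eo_v = la_v = 0`.
`w₂.valuation (θ - r) < 1` (nr for `x = r`), `θ ≡ -2 r` at `w₁`. `ρ = la_{w₁}(-6 θ)`; `-6 θ = 4 * (-3/2 θ)` and `-3/2 θ ≡ 3 r` modulo `w₁` (a unit, `h3`), so `ρ = la_{w₁}(3 r)`.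
(a) `v.valuation x' > 1`: `ord_sub_big`: `E (x' - θ) ~ E x'` and `(E x')^3 ~ E^3 f(x')`, so `eo_v (E x') = la_v (E x') = 0`, `eo_{w₂} y = 0` and `la_{w₁} y = 0` (gg_la1). The claim reads `0 = 0`.
(b) `x'` integral, `v.valuation (x' - r) = 1`: at `w₂`: `x' - θ ≡ x' - r`, a unit; `eo_{w₂} y = eo_{w₂} E = 0`; `la_{w₂} y = la_{w₂} E + la_{w₂}(x' - r) = 0` (gg_la2 twice); so `la_{w₁} y = 0` by gg_la12. Claim `0 = 0`.
(c) `v.valuation (x' - r) < 1`: `eo_{w₂} y = eo_{w₂} E + 1 = 1` (nr); at `w₁`: `x' - θ ≡ 3 r`, so `la_{w₁} y = la_{w₁} E + la_{w₁}(3 r) = la_v E + ρ` (gg_la1).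
-/

set_option autoImplicit false
set_option linter.unusedSectionVars false
open scoped Classical

open WithZero NumberField IsDedekindDomain H38RT
open H38T1 (SC sc scu rep eo la si Pri OddP tp unif ka)
open H76PP

namespace H76MQ

open H54MT

variable {K L : Type} [Field K] [NumberField K] [Field L] [NumberField L] [Algebra K L]

theorem Ak_z2 : ∀ a b : ZMod 2, a + b = 0 → a = b := by decide

section near

variable {F : Type} [Field F] [NumberField F] {w : HeightOneSpectrum (𝓞 F)}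

/-- Elements with quotient near one have the same symbols. -/
theorem Ak_near (hw : OddP w) {a b : F} (hb : b ≠ 0) (h : w.valuation F (a / b - 1) < 1) :
    a ≠ 0 ∧ eo w (sc a) = eo w (sc b) ∧ la w (sc a) = la w (sc b) := by
  have h1 := near_one h
  have hab : a / b ≠ 0 := by
    intro h0
    rw [h0, map_zero] at h1
    exact zero_ne_one h1
  have ha : a ≠ 0 := by
    rintro rfl
    exact hab (zero_div _)
  have e2 : (sc a : SC F) = sc (a / b) + sc b := by
    rw [← H38T1.sc_mul hab hb, div_mul_cancel₀ a hb]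
  refine ⟨ha, ?_, ?_⟩
  · rw [e2, H38T1.eo_add, H38T1.eo_sc hab, Tf_ord_one _ h1, Int.cast_zero, zero_add]
  · rw [e2, H38T1.la_add hw, Tg_la hw h, zero_add]

theorem Ak_eo_unit {a : F} (ha : a ≠ 0) (h : w.valuation F a = 1) : eo w (sc a) = 0 := by
  rw [H38T1.eo_sc ha, Tf_ord_one _ h, Int.cast_zero]

theorem Ak_ne {a : F} (h : w.valuation F a = 1) : a ≠ 0 := by
  rintro rfl
  rw [map_zero] at h
  exact zero_ne_one h

end near

theorem Ak_eo1 {v : HeightOneSpectrum (𝓞 K)} {w : HeightOneSpectrum (𝓞 L)}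
    (ho : ∀ x : K, x ≠ 0 → ord (w.valuation L) (algebraMap K L x) = ord (v.valuation K) x)
    {u : K} (hu : u ≠ 0) : eo w (sc (algebraMap K L u)) = eo v (sc u) := by
  rw [H38T1.eo_sc ((map_ne_zero _).2 hu), ho u hu, ← H38T1.eo_sc hu]

theorem kum_A {A B : 𝓞 K} {θ : L} (h : Cub K L (A : K) (B : K) θ) (hR : HR2 K L A B θ)
    {v : HeightOneSpectrum (𝓞 K)} (hv : OddP v) (h3 : v.valuation K 3 = 1)
    {w₁ w₂ : HeightOneSpectrum (𝓞 L)} {r : K}
    (h2 : TwA K θ v w₁ w₂ r) {E : 𝓞 K} (hE : E ≠ 0)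
    (hEo : eo v (sc (E : K)) = 0) {d : Fin 3 → K} (hd0 : ev (algebraMap K L E * θ) d ≠ 0)
    (hN : IsSquare (Algebra.norm K (ev (algebraMap K L E * θ) d)))
    (hLC : LC (algebraMap K (v.adicCompletion K)) ((E : K) ^ 2 * A) ((E : K) ^ 3 * B) d) :
    la w₁ (sc (ev (algebraMap K L E * θ) d)) =
      (la w₁ (sc (-6 * θ)) + la v (sc (E : K))) * eo w₂ (sc (ev (algebraMap K L E * θ) d)) := by
  obtain ⟨D, hD⟩ : ∃ D : K, D = (E : K) := ⟨_, rfl⟩
  have hD0 : D ≠ 0 := by
    rw [hD]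
    exact RingOfIntegers.coe_ne_zero_iff.mpr hE
  rw [← hD] at hEo hd0 hN hLC ⊢
  have hDL : algebraMap K L D ≠ 0 := (map_ne_zero _).2 hD0
  obtain ⟨x', y, z, hy, hz, e1, hw⟩ := LC_approx (Tf_twist h hD0) hd0 v hLC
  obtain ⟨δ, hδ⟩ : ∃ δ, δ = ev (algebraMap K L D * θ) d := ⟨_, rfl⟩
  rw [← hδ] at hd0 hN hw ⊢
  obtain ⟨x, hx'⟩ : ∃ x, x' = D * x := ⟨x' / D, by rw [mul_div_cancel₀ _ hD0]⟩
  have hodd1 : OddP w₁ := by
    rw [oddP_dn (K := K), h2.dn1]
    exact hv
  have hodd2 : OddP w₂ := by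
    rw [oddP_dn (K := K), h2.dn2]
    exact hv
  have hw' : ∀ w : HeightOneSpectrum (𝓞 L), OddP w → dn K w = v → algebraMap K L x - θ ≠ 0 ∧
      eo w (sc δ) = eo w (sc (algebraMap K L D)) + eo w (sc (algebraMap K L x - θ)) ∧
      la w (sc δ) = la w (sc (algebraMap K L D)) + la w (sc (algebraMap K L x - θ)) := by
    intro w hwo hwd
    have g1 := hw w hwd
    have e2 : δ * (algebraMap K L x' - algebraMap K L D * θ) =
        δ * (algebraMap K L D * (algebraMap K L x - θ)) := by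
      rw [hx', map_mul]
      ring
    rw [e2] at g1
    obtain ⟨n, g2, g3⟩ := Ak_near hwo (pow_ne_zero 2 hz) g1
    have hxt : algebraMap K L x - θ ≠ 0 := right_ne_zero_of_mul (right_ne_zero_of_mul n)
    rw [sc_sq hz, H38T1.eo_zero, H38T1.sc_mul hd0 (mul_ne_zero hDL hxt), H38T1.sc_mul hDL hxt,
      H38T1.eo_add, H38T1.eo_add] at g2
    rw [sc_sq hz, H38T1.la_zero hwo, H38T1.sc_mul hd0 (mul_ne_zero hDL hxt),
      H38T1.sc_mul hDL hxt, H38T1.la_add hwo, H38T1.la_add hwo] at g3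
    exact ⟨hxt, Ak_z2 _ _ g2, Ak_z2 _ _ g3⟩
  have hDe : eo w₂ (sc (algebraMap K L D)) = 0 := by
    rw [Ak_eo1 h2.ord2 hD0]
    exact hEo
  have hDl1 : la w₁ (sc (algebraMap K L D)) = la v (sc D) := gg_la1 hv h2.toTwG hD0 hEo
  have hDl2 : la w₂ (sc (algebraMap K L D)) = 0 := gg_la2 hR hv h2.toTwG h.finrank hD0 hEo
  obtain ⟨hxt, p1, p2⟩ := hw' w₁ hodd1 h2.dn1
  obtain ⟨-, q1, q2⟩ := hw' w₂ hodd2 h2.dn2
  rw [hDe, zero_add] at q1
  rw [hDl1] at p2
  rw [hDl2, zero_add] at q2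
  rcases le_or_gt (v.valuation K x) 1 with hx | hx
  · have hr := h2.r1
    have hr0 : r ≠ 0 := Ak_ne hr
    have hxr : v.valuation K (x - r) ≤ 1 := Valuation.map_sub_le _ hx hr.le
    rcases lt_or_eq_of_le hxr with hlt | heq
    · -- case (c)
      have g1 := h2.nr x hlt
      have g2 : eo w₂ (sc (algebraMap K L x - θ)) = 1 := by
        rw [H38T1.eo_sc hxt]
        unfold ord
        rw [g1, log_exp]
        norm_num
      rw [g2] at q1
      have v3r : v.valuation K (3 * r) = 1 := by rw [map_mul, h3, hr, one_mul]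
      have v2r : v.valuation K (2 * r) = 1 := by
        have h5 : v.valuation K 2 = 1 := hv
        rw [map_mul, h5, hr, one_mul]
      have w3r : w₁.valuation L (algebraMap K L (3 * r)) = 1 :=
        val_one (w := w₁) (by rw [h2.dn1]; exact v3r)
      have w2r : w₁.valuation L (algebraMap K L (2 * r)) = 1 :=
        val_one (w := w₁) (by rw [h2.dn1]; exact v2r)
      have wxr : w₁.valuation L (algebraMap K L (x - r)) < 1 :=
        val_lt (w := w₁) (by rw [h2.dn1]; exact hlt)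
      have n3r := Ak_ne w3r
      have n2r := Ak_ne w2r
      have k1 : la w₁ (sc (algebraMap K L x - θ)) = la w₁ (sc (algebraMap K L (3 * r))) := by
        refine (Ak_near hodd1 n3r ?_).2.2
        have e3 : (algebraMap K L x - θ) / algebraMap K L (3 * r) - 1 =
            (algebraMap K L (x - r) - (θ + algebraMap K L (2 * r))) / algebraMap K L (3 * r) := by
          rw [div_sub_one n3r]
          congr 1
          simp only [map_sub, map_mul, map_ofNat]
          ring
        rw [e3, map_div₀, w3r, div_one]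
        exact Valuation.map_sub_lt _ wxr h2.rt
      have k2 : la w₁ (sc (-6 * θ)) = la w₁ (sc (algebraMap K L (3 * r))) := by
        have two0 : (2 : L) ≠ 0 := two_ne_zero
        have e4 : sc ((2 : L) ^ 2 * algebraMap K L (3 * r)) = sc (algebraMap K L (3 * r)) := by
          rw [H38T1.sc_mul (pow_ne_zero 2 two0) n3r, sc_sq two0, zero_add]
        rw [← e4]
        refine (Ak_near hodd1 (mul_ne_zero (pow_ne_zero 2 two0) n3r) ?_).2.2
        have rL : algebraMap K L r ≠ 0 := (map_ne_zero _).2 hr0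
        have e3 : -6 * θ / ((2 : L) ^ 2 * algebraMap K L (3 * r)) - 1 =
            -(θ + algebraMap K L (2 * r)) / algebraMap K L (2 * r) := by
          simp only [map_mul, map_ofNat]
          field_simp
          ring
        rw [e3, map_div₀, w2r, div_one, Valuation.map_neg]
        exact h2.rt
      rw [q1, p2, k1, k2, mul_one, add_comm]
    · -- case (b)
      have nxr := Ak_ne heq
      have wxr : w₂.valuation L (algebraMap K L (x - r)) = 1 :=
        val_one (w := w₂) (by rw [h2.dn2]; exact heq)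
      have nxrL := Ak_ne wxr
      have exr : eo v (sc (x - r)) = 0 := Ak_eo_unit nxr heq
      obtain ⟨-, k1, k2⟩ := Ak_near (a := algebraMap K L x - θ) hodd2 nxrL (by
        have e3 : (algebraMap K L x - θ) / algebraMap K L (x - r) - 1 =
            (algebraMap K L r - θ) / algebraMap K L (x - r) := by
          rw [div_sub_one nxrL]
          congr 1
          rw [map_sub]
          ring
        have g1 := h2.nr r (by rw [sub_self, map_zero]; exact zero_lt_one)
        rw [e3, map_div₀, wxr, div_one, g1, ← exp_zero, exp_lt_exp]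
        norm_num)
      rw [k1, Ak_eo1 h2.ord2 nxr, exr] at q1
      rw [k2, gg_la2 hR hv h2.toTwG h.finrank nxr exr] at q2
      rw [← gg_la12 hR hv h2.toTwG h.finrank hd0 hN q1, q2, q1, mul_zero]
  · -- case (a)
    have hx0 : x ≠ 0 := by
      rintro rfl
      rw [map_zero] at hx
      exact absurd hx (not_lt.2 zero_le_one)
    have hax : algebraMap K L x ≠ 0 := (map_ne_zero _).2 hx0
    have hx1 : 1 < (dn K w₁).valuation K x := by rw [h2.dn1]; exact hx
    have hx2 : 1 < (dn K w₂).valuation K x := by rw [h2.dn2]; exact hx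
    obtain ⟨-, c2, c3, -⟩ := ord_sub_big h hx1
    obtain ⟨-, c2', -, -⟩ := ord_sub_big h hx2
    rw [h2.dn1] at c3
    have hnear : ∀ w : HeightOneSpectrum (𝓞 L), w.valuation L (θ / algebraMap K L x) < 1 →
        w.valuation L ((algebraMap K L x - θ) / algebraMap K L x - 1) < 1 := by
      intro w hwt
      have e3 : (algebraMap K L x - θ) / algebraMap K L x - 1 = -(θ / algebraMap K L x) := by
        rw [div_sub_one hax]
        ring
      rw [e3, Valuation.map_neg]
      exact hwt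
    obtain ⟨-, -, k1⟩ := Ak_near hodd1 hax (hnear w₁ c2)
    obtain ⟨-, k2, -⟩ := Ak_near hodd2 hax (hnear w₂ c2')
    obtain ⟨f, hf⟩ : ∃ f, f = x ^ 3 + (A : K) * x + (B : K) := ⟨_, rfl⟩
    rw [← hf] at c3
    have e5 : x' ^ 3 + D ^ 2 * (A : K) * x' + D ^ 3 * (B : K) = D ^ 3 * f := by
      rw [hx', hf]
      ring
    rw [e5] at e1
    obtain ⟨nf, s1, s2⟩ := Ak_near hv (pow_ne_zero 2 hy) e1
    have hf0 : f ≠ 0 := right_ne_zero_of_mul nf
    obtain ⟨-, t1, t2⟩ := Ak_near hv (pow_ne_zero 3 hx0) c3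
    have hcube : ∀ a : K, a ≠ 0 → (sc (a ^ 3) : SC K) = sc a := by
      intro a ha
      rw [pow_succ, H38T1.sc_mul (pow_ne_zero 2 ha) ha, sc_sq ha, zero_add]
    have eDf : (sc (D ^ 3 * f) : SC K) = sc D + sc f := by
      rw [H38T1.sc_mul (pow_ne_zero 3 hD0) hf0, hcube D hD0]
    rw [eDf, sc_sq hy, H38T1.eo_zero, H38T1.eo_add, t1, hcube x hx0] at s1
    rw [eDf, sc_sq hy, H38T1.la_zero hv, H38T1.la_add hv, t2, hcube x hx0] at s2
    have hxe : eo v (sc x) = 0 := by
      rw [hEo, zero_add] at s1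
      exact s1
    have hq : eo w₂ (sc δ) = 0 := by
      rw [q1, k2, Ak_eo1 h2.ord2 hx0]
      exact hxe
    rw [hq, mul_zero, p2, k1, gg_la1 hv h2.toTwG hx0 hxe]
    exact s2

end H76MQ
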