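import Pool.Agent.H76.MQ.Df

/-!
The local data of a cubic field (project MP_78d38b_MQT, no row).
-/

set_option autoImplicit false
set_option linter.unusedSectionVars false
open scoped Classical

open WithZero NumberField IsDedekindDomain H38RT
open H38T1 (SC sc scu rep eo la si Pri OddP tp unif ka)
open H76PP

namespace H76MQ

/-- All the local data. -/
structure LData {K : Type} [Field K] [NumberField K] (C : Cfg K)
    (T : Finset (HeightOneSpectrum (𝓞 K))) (A B : 𝓞 K) {L : Type} [Field L] [NumberField L]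
    [Algebra K L] (θ : L) where
  w : HeightOneSpectrum (𝓞 K) → HeightOneSpectrum (𝓞 L)
  I : HeightOneSpectrum (𝓞 K) → SC L →+ ZMod 2
  J : HeightOneSpectrum (𝓞 K) → SC L →+ ZMod 2
  a₁ : HeightOneSpectrum (𝓞 K) → HeightOneSpectrum (𝓞 L)
  a₂ : HeightOneSpectrum (𝓞 K) → HeightOneSpectrum (𝓞 L)
  r : HeightOneSpectrum (𝓞 K) → K
  t₁ : HeightOneSpectrum (𝓞 K) → HeightOneSpectrum (𝓞 L)
  t₂ : HeightOneSpectrum (𝓞 K) → HeightOneSpectrum (𝓞 L)
  hw : ∀ v ∈ C.P, Rm K (A : K) (B : K) θ v (w v)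
  hIJ : ∀ v ∈ C.P, IJ K θ (w v) (I v) (J v)
  hA : ∀ v ∈ C.P, TwA K θ (C.a v) (a₁ v) (a₂ v) (r v)
  hT : ∀ v ∈ T, TwT K (A : K) θ v (t₁ v) (t₂ v)

section

variable {K : Type} [Field K] [NumberField K] {C : Cfg K}
  {T : Finset (HeightOneSpectrum (𝓞 K))} {A B : 𝓞 K} {L : Type} [Field L] [NumberField L]
  [Algebra K L] {θ : L}

/-- The constant at a place of `T`. -/
noncomputable def LData.nu (D : LData C T A B θ) (v : HeightOneSpectrum (𝓞 K)) : ZMod 2 :=
  la (D.t₁ v) (sc (3 * θ ^ 2 + algebraMap K L (A : K)))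

/-- The constant at an auxiliary place. -/
noncomputable def LData.ro (D : LData C T A B θ) (v : HeightOneSpectrum (𝓞 K)) : ZMod 2 :=
  la (D.a₁ v) (sc (-6 * θ))

/-- The second coordinate at the auxiliary place of `v`. -/
noncomputable def LData.ja (D : LData C T A B θ) (v : HeightOneSpectrum (𝓞 K)) (c : SC L) : ZMod 2 :=
  la (D.a₁ v) c + D.ro v * eo (D.a₂ v) c

/-- The first coordinate at the auxiliary place of `v`. -/
noncomputable def LData.ia (D : LData C T A B θ) (v : HeightOneSpectrum (𝓞 K)) (c : SC L) : ZMod 2 :=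
  eo (D.a₂ v) c + (la (D.a₁ v) c + D.ro v * eo (D.a₂ v) c)

/-- The class lies in the group `X J`. -/
def LData.X (D : LData C T A B θ) (J : Finset (HeightOneSpectrum (𝓞 K))) (c : SC L) : Prop :=
  c ∈ (HH K (C.S ∪ J) : AddSubgroup (SC L)) ∧
    ∀ v ∈ J, la (D.t₁ v) c = D.nu v * eo (D.t₂ v) c

end

end H76MQ
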