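import Pool.Agent.H76.MQ.Df
import Pool.Agent.H36.MT.Tf

/-!
ROW Ee (project MP_78d38b_MQT, about 100 lines): a modification of `H36MT.even_offS` (H36/MT/Tf.lean; copy its proof, the case `dn K w ≠ q₀`; it only uses that the order of the twisting factor at `dn K w` is even
and that `v^2` does not divide the discriminant).

`LC_approx` for `Cub K L (E^2 A) (E^3 B) (E θ)`: `x = E x'`, `eo_w y = eo_w (E (x' - θ))`, `E^3 f(x')` has even order at `v`. `eo_w E = 0`. `x'` not integral: `ord_sub_big`: `f(x') ~ x'^3`, so `x'` has even order. `x'` integral: `ord_subL`.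
-/

set_option autoImplicit false
set_option linter.unusedSectionVars false
open scoped Classical

open WithZero NumberField IsDedekindDomain H38RT
open H38T1 (SC sc scu rep eo la si Pri OddP tp unif ka)
open H76PP

namespace H76MQ

variable {K L : Type} [Field K] [NumberField K] [Field L] [NumberField L] [Algebra K L]

theorem even_loc {A B : 𝓞 K} {θ : L} (h : Cub K L (A : K) (B : K) θ) {E : 𝓞 K} (hE : E ≠ 0)
    {w : HeightOneSpectrum (𝓞 L)} (hd : dsc A B ∉ (dn K w).asIdeal ^ 2)
    (hEo : eo (dn K w) (sc (E : K)) = 0) {d : Fin 3 → K}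
    (hd0 : ev (algebraMap K L E * θ) d ≠ 0)
    (hLC : LC (algebraMap K ((dn K w).adicCompletion K)) ((E : K) ^ 2 * A) ((E : K) ^ 3 * B) d) :
    eo w (sc (ev (algebraMap K L E * θ) d)) = 0 := by
  have hD0 : (E : K) ≠ 0 := fun h0 => hE (RingOfIntegers.coe_eq_zero_iff.1 h0)
  have hDe : Even (ord ((dn K w).valuation K) (E : K)) := by
    rw [H38T1.eo_sc hD0] at hEo
    exact (ZMod.intCast_eq_zero_iff_even).1 hEo
  set D : K := (E : K) with hDdef
  have hDL : algebraMap K L D ≠ 0 := (map_ne_zero _).2 hD0
  obtain ⟨x', y, z, hy, hz, h1, h2⟩ := LC_approx (Tf_twist h hD0) hd0 (dn K w) hLC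
  have h2w := h2 w rfl
  obtain ⟨x, rfl⟩ : ∃ x : K, x' = D * x := ⟨x' / D, by field_simp⟩
  obtain ⟨h3, h4⟩ := Tf_ratio ((dn K w).valuation K) (pow_ne_zero 2 hy) h1
  obtain ⟨h5, h6⟩ := Tf_ratio (w.valuation L) (pow_ne_zero 2 hz) h2w
  have e1 : (D * x) ^ 3 + D ^ 2 * (A : K) * (D * x) + D ^ 3 * (B : K) =
      D ^ 3 * (x ^ 3 + (A : K) * x + (B : K)) := by ring
  have e2 : ev (algebraMap K L D * θ) d * (algebraMap K L (D * x) - algebraMap K L D * θ) =
      ev (algebraMap K L D * θ) d * (algebraMap K L D * (algebraMap K L x - θ)) := by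
    rw [map_mul]
    ring
  rw [e1] at h3 h4
  rw [e2] at h5 h6
  have hf : x ^ 3 + (A : K) * x + (B : K) ≠ 0 := right_ne_zero_of_mul h3
  have hxt : algebraMap K L x - θ ≠ 0 := right_ne_zero_of_mul (right_ne_zero_of_mul h5)
  rw [ord_mul (pow_ne_zero 3 hD0) hf, Tf_ord_pow, Tf_ord_pow] at h4
  rw [ord_mul hd0 (mul_ne_zero hDL hxt), ord_mul hDL hxt, Tf_ord_pow] at h6
  obtain ⟨e, -, he⟩ := ord_dn (K := K) w
  have key : Even (ord (w.valuation L) (algebraMap K L D) +
      ord (w.valuation L) (algebraMap K L x - θ)) := by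
    rw [he D hD0]
    by_cases hx : (dn K w).valuation K x ≤ 1
    · obtain ⟨w₁, -, hw1, hw2⟩ := H36MT.ord_subL h hd hx hf
      have hcase : Even (ord ((dn K w).valuation K) (x ^ 3 + (A : K) * x + (B : K))) →
          Even (ord (w.valuation L) (algebraMap K L x - θ)) := by
        intro hev
        by_cases hww : w = w₁
        · rw [hww, hw1]
          exact hev
        · rw [Tf_ord_one _ (hw2 w rfl hww)]
          exact Even.zero
      have hf0 : Even (ord ((dn K w).valuation K) (x ^ 3 + (A : K) * x + (B : K))) := by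
        obtain ⟨m, hm⟩ := hDe
        refine ⟨ord ((dn K w).valuation K) y - 3 * m, ?_⟩
        push_cast at h4
        rw [hm] at h4
        linarith
      exact (hDe.mul_left _).add (hcase hf0)
    · rw [not_le] at hx
      obtain ⟨g1, -, -, g4⟩ := ord_sub_big (w := w) h hx
      have hx0 : x ≠ 0 := by
        rintro rfl
        rw [map_zero] at hx
        exact absurd hx (not_lt.2 zero_le)
      have g5 : ord (w.valuation L) (algebraMap K L x - θ) =
          e * ord ((dn K w).valuation K) x := by
        rw [← he x hx0]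
        unfold ord
        rw [g1]
      have g6 : ord ((dn K w).valuation K) (x ^ 3 + (A : K) * x + (B : K)) =
          3 * ord ((dn K w).valuation K) x := by
        have g7 := Tf_ord_pow ((dn K w).valuation K) x 3
        rw [Nat.cast_ofNat] at g7
        rw [← g7]
        unfold ord
        rw [g4, map_pow]
      rw [g5, ← mul_add]
      refine Even.mul_left ?_ _
      refine ⟨ord ((dn K w).valuation K) y - ord ((dn K w).valuation K) D -
        ord ((dn K w).valuation K) x, ?_⟩
      rw [g6] at h4
      push_cast at h4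
      linarith
  rw [H38T1.eo_sc hd0]
  obtain ⟨m, hm⟩ := key
  have h7 : ord (w.valuation L) (ev (algebraMap K L D * θ) d) =
      (ord (w.valuation L) z - m) + (ord (w.valuation L) z - m) := by
    push_cast at h6
    linarith
  rw [h7, Int.cast_add]
  exact CharTwo.add_self_eq_zero _

end H76MQ
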