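import Pool.Agent.H76.MQ.Df
import Pool.Agent.H76.PP.Td
import Pool.Agent.H76.PP.Tf

/-!
ROW Pa (project MP_78d38b_MQT, about 250 lines): the place above a place `v` over two; valuation in coordinates.

exists_Rm. `v.valuation 2 = exp (-1)` (`2 ∈ v`, `2 ∉ v^2`). res: the residue field has two elements (`Nv v = 2`), every `v`-integral `x ∈ K` is congruent to an integer of `K` modulo `v` (`Tf_approx`), and an integer is `0` or `1` modulo `v`.
A4: `A / 4 - 4 = (A - 16) / 4`, `v.valuation ≤ exp (-10 + 2)`; B8: `(B - 16) / 8`, `≤ exp (-7)`. `ω = θ / 2`: `ω^3 + (A/4) ω + B/8 = 0`, `v.valuation (A/4) = exp (-2)`, `v.valuation (B/8) = exp (-1)`. Let `w | v` with ramification index `e ≤ 3`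
(`w.valuation (algebraMap x) = (v.valuation x)^e`): `w.valuation ω ≤ 1` (else `ω^3` dominates); then `w (A/4 ω) ≤ exp (-2e) < exp (-e) = w (B/8)`, so `w (ω)^3 = exp (-e)`; hence `3 | e`, `e = 3`, `w ω = exp (-1)`, and `∑ e f = 3`
(`Ideal.sum_ramification_inertia`, as in `exists_two` of H76/PP/Td.lean) shows that `w` is the only place above `v`.
rm_val: `ev (θ/2) c = c₀ + c₁ ω + c₂ ω^2`; the three terms have valuations `(v c₀)^3`, `(v c₁)^3 exp (-1)`, `(v c₂)^3 exp (-2)`: zero or exponents in different classes modulo three, so pairwise different unless both zero;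
`Valuation.map_add_eq_of_lt_left/right`.
rm_cub: `Tf_twist` with `D = 1/2`.
-/

/-!
ROW Pa (project MP_78d38b_MQT, about 250 lines): the place above a place `v` over two; valuation in coordinates.

exists_Rm. `v.valuation 2 = exp (-1)` (`2 ∈ v`, `2 ∉ v^2`). res: the residue field has two elements (`Nv v = 2`), every `v`-integral `x ∈ K` is congruent to an integer of `K` modulo `v` (`Tf_approx`), and an integer is `0` or `1` modulo `v`.
A4: `A / 4 - 4 = (A - 16) / 4`, `v.valuation ≤ exp (-10 + 2)`; B8: `(B - 16) / 8`, `≤ exp (-7)`. `ω = θ / 2`: `ω^3 + (A/4) ω + B/8 = 0`, `v.valuation (A/4) = exp (-2)`, `v.valuation (B/8) = exp (-1)`. Let `w | v` with ramification index `e ≤ 3`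
(`w.valuation (algebraMap x) = (v.valuation x)^e`): `w.valuation ω ≤ 1` (else `ω^3` dominates); then `w (A/4 ω) ≤ exp (-2e) < exp (-e) = w (B/8)`, so `w (ω)^3 = exp (-e)`; hence `3 | e`, `e = 3`, `w ω = exp (-1)`, and `∑ e f = 3`
(`Ideal.sum_ramification_inertia`, as in `exists_two` of H76/PP/Td.lean) shows that `w` is the only place above `v`.
rm_val: `ev (θ/2) c = c₀ + c₁ ω + c₂ ω^2`; the three terms have valuations `(v c₀)^3`, `(v c₁)^3 exp (-1)`, `(v c₂)^3 exp (-2)`: zero or exponents in different classes modulo three, so pairwise different unless both zero;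
`Valuation.map_add_eq_of_lt_left/right`.
rm_cub: `Tf_twist` with `D = 1/2`.
-/

set_option autoImplicit false
set_option linter.unusedSectionVars false
open scoped Classical

open WithZero NumberField IsDedekindDomain H38RT
open H38T1 (SC sc scu rep eo la si Pri OddP tp unif ka)
open H76PP

namespace H76MQ

variable {K L : Type} [Field K] [NumberField K] [Field L] [NumberField L] [Algebra K L]

section Abstract

private theorem Pa_exp_pow (m : ℤ) (k : ℕ) :
    (exp m : WithZero (Multiplicative ℤ)) ^ k = exp (k * m) := by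
  rw [← exp_nsmul]
  simp

private theorem Pa_cls {k : ℕ} (hk : k ≠ 0) (x y : WithZero (Multiplicative ℤ)) {i j : ℤ}
    (hij : ¬ (3 : ℤ) ∣ i - j) (h : (x ^ 3 * exp i) ^ k = (y ^ 3 * exp j) ^ k) :
    (x ^ 3 * exp i) ^ k = 0 := by
  by_cases hx : x = 0
  · rw [hx]
    simp [hk]
  by_cases hy : y = 0
  · rw [h, hy]
    simp [hk]
  exfalso
  rw [← exp_log hx, ← exp_log hy, Pa_exp_pow, Pa_exp_pow, ← exp_add, ← exp_add, Pa_exp_pow,
    Pa_exp_pow] at h
  have h1 := exp_injective h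
  have h2 : (k : ℤ) ≠ 0 := by exact_mod_cast hk
  have h3 := mul_left_cancel₀ h2 h1
  apply hij
  push_cast at h3
  omega

variable {F : Type*} [Field F] (V : Valuation F (WithZero (Multiplicative ℤ)))

private theorem Pa_add {x y : F} (h : V x = V y → V x = 0) : V (x + y) = max (V x) (V y) := by
  by_cases he : V x = V y
  · have h1 := h he
    have h2 : x = 0 := (Valuation.zero_iff V).1 h1
    have h3 : y = 0 := (Valuation.zero_iff V).1 (he ▸ h1)
    rw [h2, h3, add_zero, map_zero, max_self]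
  · exact Valuation.map_add_of_distinct_val V he

private theorem Pa_max {G : Type*} [Field G] (v : Valuation G (WithZero (Multiplicative ℤ)))
    (i : G →+* F) {k : ℕ} (hk : k ≠ 0) {ω : F} (hv : ∀ x : G, V (i x) = v x ^ (3 * k))
    (hω : V ω = exp (-(k : ℤ))) (c0 c1 c2 : G) : V (i c0 + i c1 * ω + i c2 * ω ^ 2) =
      (max (v c0 ^ 3) (max (v c1 ^ 3 * exp (-1)) (v c2 ^ 3 * exp (-2)))) ^ k := by
  have e0 : V (i c0) = (v c0 ^ 3 * exp 0) ^ k := by
    rw [hv, exp_zero, mul_one, pow_mul]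
  have e1 : V (i c1 * ω) = (v c1 ^ 3 * exp (-1)) ^ k := by
    rw [map_mul, hv, hω, mul_pow, pow_mul, Pa_exp_pow]
    congr 2
    ring
  have e2 : V (i c2 * ω ^ 2) = (v c2 ^ 3 * exp (-2)) ^ k := by
    rw [map_mul, hv, map_pow, hω, mul_pow, pow_mul, Pa_exp_pow, Pa_exp_pow]
    congr 2
    push_cast
    ring
  have h01 : V (i c0 + i c1 * ω) = max ((v c0 ^ 3 * exp 0) ^ k) ((v c1 ^ 3 * exp (-1)) ^ k) := by
    rw [Pa_add, e0, e1]
    rw [e0, e1]
    exact Pa_cls hk _ _ (by norm_num)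
  have h012 : V (i c0 + i c1 * ω + i c2 * ω ^ 2) = max (max ((v c0 ^ 3 * exp 0) ^ k)
      ((v c1 ^ 3 * exp (-1)) ^ k)) ((v c2 ^ 3 * exp (-2)) ^ k) := by
    rw [Pa_add, h01, e2]
    rw [h01, e2]
    intro h
    rcases max_choice ((v c0 ^ 3 * exp 0) ^ k) ((v c1 ^ 3 * exp (-1)) ^ k) with h1 | h1
    · rw [h1] at h ⊢
      exact Pa_cls hk _ _ (by norm_num) h
    · rw [h1] at h ⊢
      exact Pa_cls hk _ _ (by norm_num) h
  have hm : Monotone (fun x : WithZero (Multiplicative ℤ) => x ^ k) := fun x y h =>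
    pow_le_pow_left₀ zero_le h k
  rw [h012, exp_zero, mul_one]
  have m1 := hm.map_max (a := v c1 ^ 3 * exp (-1)) (b := v c2 ^ 3 * exp (-2))
  have m2 := hm.map_max (a := v c0 ^ 3) (b := max (v c1 ^ 3 * exp (-1)) (v c2 ^ 3 * exp (-2)))
  change (max (v c1 ^ 3 * exp (-1)) (v c2 ^ 3 * exp (-2))) ^ k =
    max ((v c1 ^ 3 * exp (-1)) ^ k) ((v c2 ^ 3 * exp (-2)) ^ k) at m1
  change (max (v c0 ^ 3) (max (v c1 ^ 3 * exp (-1)) (v c2 ^ 3 * exp (-2)))) ^ k =
    max ((v c0 ^ 3) ^ k) ((max (v c1 ^ 3 * exp (-1)) (v c2 ^ 3 * exp (-2))) ^ k) at m2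
  rw [m2, m1, max_assoc]

private theorem Pa_om {a b ω : F} {e : ℕ} (he : 0 < e) (h : ω ^ 3 + a * ω + b = 0)
    (ha : V a = exp (-(2 * e : ℤ))) (hb : V b = exp (-(e : ℤ))) : V ω ^ 3 = exp (-(e : ℤ)) := by
  have he' : (0 : ℤ) < e := by exact_mod_cast he
  have h1 : ω ^ 3 = -(a * ω + b) := by linear_combination h
  have h2 : V ω ^ 3 = V (a * ω + b) := by
    rw [← map_pow, h1, Valuation.map_neg]
  have ha1 : V a ≤ 1 := by
    rw [ha, ← exp_zero, exp_le_exp]
    omega
  have hb1 : V b ≤ 1 := by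
    rw [hb, ← exp_zero, exp_le_exp]
    omega
  have h3 : V ω ≤ 1 := by
    by_contra hcon
    rw [not_le] at hcon
    have h4 : V (a * ω + b) ≤ V ω := by
      refine (Valuation.map_add _ _ _).trans (max_le ?_ (hb1.trans hcon.le))
      rw [map_mul]
      exact mul_le_of_le_one_left' ha1
    rw [← h2] at h4
    have h5 : V ω ^ 1 < V ω ^ 3 := pow_lt_pow_right₀ hcon (by norm_num)
    rw [pow_one] at h5
    exact absurd h4 (not_le.2 h5)
  rw [h2, Valuation.map_add_eq_of_lt_right, hb]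
  rw [map_mul, hb]
  refine (mul_le_of_le_one_right' h3).trans_lt ?_
  rw [ha, exp_lt_exp]
  omega

end Abstract

private theorem Pa_pow (w : HeightOneSpectrum (𝓞 L)) : ∃ e : ℕ, 0 < e ∧ ∀ x : K,
    w.valuation L (algebraMap K L x) = (dn K w).valuation K x ^ e := by
  obtain ⟨e, he, h⟩ := ord_dn (K := K) w
  refine ⟨e, he, fun x => ?_⟩
  by_cases hx : x = 0
  · rw [hx, map_zero, map_zero, map_zero, zero_pow he.ne']
  have hL0 : algebraMap K L x ≠ 0 := fun h => hx ((algebraMap K L).injective (by rw [h, map_zero]))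
  have h1 := h x hx
  have h2 : (dn K w).valuation K x ≠ 0 := (Valuation.ne_zero_iff _).2 hx
  have h3 : w.valuation L (algebraMap K L x) ≠ 0 := (Valuation.ne_zero_iff _).2 hL0
  unfold ord at h1
  rw [← exp_log h3, ← exp_log h2, Pa_exp_pow]
  congr 1
  linarith

private theorem Pa_int {v : HeightOneSpectrum (𝓞 K)} {a : 𝓞 K} {n : ℕ}
    (h : a ∈ v.asIdeal ^ n) : v.valuation K (a : K) ≤ exp (-(n : ℤ)) := by
  rw [← v.intValuation_le_pow_iff_mem, ← v.valuation_of_algebraMap (K := K)] at h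
  exact h

private theorem Pa_two {v : HeightOneSpectrum (𝓞 K)} (h2 : (2 : 𝓞 K) ∈ v.asIdeal)
    (h22 : (2 : 𝓞 K) ∉ v.asIdeal ^ 2) : v.valuation K (2 : K) = exp (-1) := by
  have e2 : algebraMap (𝓞 K) K 2 = 2 := map_ofNat (algebraMap (𝓞 K) K) 2
  have h3 : v.valuation K (2 : K) ≠ 0 := (Valuation.ne_zero_iff _).2 two_ne_zero
  have h4 : v.valuation K (2 : K) < 1 := by
    rw [← e2]
    exact (v.valuation_lt_one_iff_mem (K := K) _).2 h2
  have h5 : ¬ v.valuation K (2 : K) ≤ exp (-((2 : ℕ) : ℤ)) := by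
    intro h5
    apply h22
    rw [← v.intValuation_le_pow_iff_mem, ← v.valuation_of_algebraMap (K := K)]
    change v.valuation K (algebraMap (𝓞 K) K 2) ≤ _
    rw [e2]
    exact h5
  rw [← exp_log h3] at h4 h5 ⊢
  rw [← exp_zero, exp_lt_exp] at h4
  rw [exp_le_exp] at h5
  congr 1
  push_cast at h5
  omega

private theorem Pa_div {v : HeightOneSpectrum (𝓞 K)} (h2 : v.valuation K (2 : K) = exp (-1))
    {x : K} {n : ℤ} (k : ℕ) (h : v.valuation K x ≤ exp (-n)) :
    v.valuation K (x / 2 ^ k) ≤ exp (-n + k) := by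
  rw [map_div₀, map_pow, h2, Pa_exp_pow]
  have h1 : (exp (-n + k) : WithZero (Multiplicative ℤ)) = exp (-n) / exp ((k : ℤ) * -1) := by
    rw [← exp_sub]
    congr 1
    ring
  rw [h1]
  exact div_le_div_of_nonneg_right h zero_le

theorem rm_cub {A B : K} {θ : L} (h : Cub K L A B θ) : Cub K L (A / 4) (B / 8) (θ / 2) := by
  have h1 := Tf_twist h (D := (1 / 2 : K)) (by norm_num)
  have e1 : (1 / 2 : K) ^ 2 * A = A / 4 := by ring
  have e2 : (1 / 2 : K) ^ 3 * B = B / 8 := by ring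
  have e3 : algebraMap K L (1 / 2) * θ = θ / 2 := by
    rw [map_div₀, map_one, map_ofNat]
    ring
  rw [e1, e2, e3] at h1
  exact h1

/-- all places above `v` have ramification index three -/
private theorem Pa_place {A B : 𝓞 K} {θ : L} (h : Cub K L (A : K) (B : K) θ)
    {v : HeightOneSpectrum (𝓞 K)} (hA : v.valuation K ((A : K) / 4) = exp (-2))
    (hB : v.valuation K ((B : K) / 8) = exp (-1)) (w : HeightOneSpectrum (𝓞 L))
    (hw : H76PP.dn K w = v) : w.valuation L (θ / 2) = exp (-1) ∧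
      (∀ x : K, w.valuation L (algebraMap K L x) = v.valuation K x ^ 3) ∧
      ∀ c0 c1 c2 : K, w.valuation L (algebraMap K L c0 + algebraMap K L c1 * (θ / 2) +
        algebraMap K L c2 * (θ / 2) ^ 2) = max (v.valuation K c0 ^ 3)
          (max (v.valuation K c1 ^ 3 * exp (-1)) (v.valuation K c2 ^ 3 * exp (-2))) := by
  have hc := rm_cub h
  obtain ⟨e, he, hval⟩ := Pa_pow (K := K) w
  rw [hw] at hval
  have h1 := Pa_om (w.valuation L) he hc.root
    (by rw [hval, hA, Pa_exp_pow]; congr 1; ring) (by rw [hval, hB, Pa_exp_pow]; congr 1; ring)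
  have h0 : w.valuation L (θ / 2) ≠ 0 := by
    intro h0
    rw [h0, zero_pow (by norm_num)] at h1
    exact exp_ne_zero h1.symm
  obtain ⟨m, hm⟩ : ∃ m : ℤ, w.valuation L (θ / 2) = exp m := ⟨_, (exp_log h0).symm⟩
  rw [hm, Pa_exp_pow] at h1
  have h2 := exp_injective h1
  push_cast at h2
  obtain ⟨k, hk⟩ : ∃ k : ℕ, (k : ℤ) = -m := by
    refine ⟨(-m).toNat, Int.toNat_of_nonneg ?_⟩
    omega
  have hk0 : k ≠ 0 := by
    rintro rfl
    have : (0 : ℤ) < e := by exact_mod_cast he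
    push_cast at hk
    omega
  have hek : e = 3 * k := by omega
  have hω : w.valuation L (θ / 2) = exp (-(k : ℤ)) := by
    rw [hm]
    congr 1
    omega
  rw [hek] at hval
  have hmax := Pa_max (w.valuation L) (v.valuation K) (algebraMap K L) hk0 hval hω
  have hk1 : k = 1 := by
    obtain ⟨π, hπ⟩ := w.valuation_exists_uniformizer L
    obtain ⟨c0, c1, c2, rfl⟩ := hc.sp π
    rw [hmax] at hπ
    obtain ⟨M, hM⟩ : ∃ M, M = max (v.valuation K c0 ^ 3) (max (v.valuation K c1 ^ 3 * exp (-1))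
      (v.valuation K c2 ^ 3 * exp (-2))) := ⟨_, rfl⟩
    rw [← hM] at hπ
    have hM0 : M ≠ 0 := by
      rintro rfl
      rw [zero_pow hk0] at hπ
      exact exp_ne_zero hπ.symm
    rw [← exp_log hM0, Pa_exp_pow] at hπ
    have h3 : (k : ℤ) * log M = -1 := exp_injective hπ
    have h4 : (k : ℤ) ∣ 1 := ⟨-log M, by linarith⟩
    have h5 : k ∣ 1 := by exact_mod_cast h4
    exact Nat.dvd_one.1 h5
  rw [hk1] at hω hval hmax
  refine ⟨by rw [hω]; rfl, fun x => by rw [hval], fun c0 c1 c2 => ?_⟩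
  rw [hmax, pow_one]

private theorem Pa_res {v : HeightOneSpectrum (𝓞 K)} (hn : Nv v = 2) (a : 𝓞 K) :
    a ∈ v.asIdeal ∨ a - 1 ∈ v.asIdeal := by
  have h1 : Nat.card (𝓞 K ⧸ v.asIdeal) = 2 := by
    rw [← hn]
    unfold Nv
    rw [Ideal.absNorm_apply]
    rfl
  obtain ⟨y, hy, huy⟩ := (Nat.card_eq_two_iff' (0 : 𝓞 K ⧸ v.asIdeal)).1 h1
  have h2 : (1 : 𝓞 K ⧸ v.asIdeal) ≠ 0 := by
    intro h
    have h3 : (Ideal.Quotient.mk v.asIdeal) 1 = 0 := by rw [map_one]; exact h
    exact v.isPrime.ne_top ((Ideal.eq_top_iff_one _).2 (Ideal.Quotient.eq_zero_iff_mem.1 h3))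
  have h4 : (1 : 𝓞 K ⧸ v.asIdeal) = y := huy 1 h2
  by_cases ha : Ideal.Quotient.mk v.asIdeal a = 0
  · left
    exact Ideal.Quotient.eq_zero_iff_mem.1 ha
  · right
    rw [← Ideal.Quotient.eq, map_one, h4]
    exact huy _ ha

theorem exists_Rm {A B : 𝓞 K} {θ : L} (h : Cub K L (A : K) (B : K) θ)
    {v : HeightOneSpectrum (𝓞 K)} (h2 : (2 : 𝓞 K) ∈ v.asIdeal) (h22 : (2 : 𝓞 K) ∉ v.asIdeal ^ 2)
    (hn : Nv v = 2) (hA : A - 16 ∈ v.asIdeal ^ 10) (hB : B - 16 ∈ v.asIdeal ^ 10) :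
    ∃ w : HeightOneSpectrum (𝓞 L), Rm K (A : K) (B : K) θ v w := by
  have hv2 := Pa_two h2 h22
  have e16 : ∀ x : 𝓞 K, ((x - 16 : 𝓞 K) : K) = (x : K) - 16 := by
    intro x
    show algebraMap (𝓞 K) K (x - 16) = _
    rw [map_sub, map_ofNat]
  have hA1 := Pa_int hA
  have hB1 := Pa_int hB
  rw [e16] at hA1 hB1
  have hA2 : v.valuation K ((A : K) / 4 - 4) ≤ exp (-8) := by
    have h3 := Pa_div hv2 2 hA1
    have e : ((A : K) - 16) / 2 ^ 2 = (A : K) / 4 - 4 := by ring
    rw [e] at h3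
    refine h3.trans ?_
    rw [exp_le_exp]
    norm_num
  have hB2 : v.valuation K ((B : K) / 8 - 2) ≤ exp (-7) := by
    have h3 := Pa_div hv2 3 hB1
    have e : ((B : K) - 16) / 2 ^ 3 = (B : K) / 8 - 2 := by ring
    rw [e] at h3
    refine h3.trans ?_
    rw [exp_le_exp]
    norm_num
  have hv4 : v.valuation K (4 : K) = exp (-2) := by
    have e : (4 : K) = 2 ^ 2 := by norm_num
    rw [e, map_pow, hv2, Pa_exp_pow]
    rfl
  have hA3 : v.valuation K ((A : K) / 4) = exp (-2) := by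
    have e : (A : K) / 4 = ((A : K) / 4 - 4) + 4 := by ring
    rw [e, Valuation.map_add_eq_of_lt_right, hv4]
    rw [hv4]
    refine hA2.trans_lt ?_
    rw [exp_lt_exp]
    norm_num
  have hB3 : v.valuation K ((B : K) / 8) = exp (-1) := by
    have e : (B : K) / 8 = ((B : K) / 8 - 2) + 2 := by ring
    rw [e, Valuation.map_add_eq_of_lt_right, hv2]
    rw [hv2]
    refine hB2.trans_lt ?_
    rw [exp_lt_exp]
    norm_num
  obtain ⟨w, hw⟩ := exists_above (L := L) v
  obtain ⟨h3, h4, h5⟩ := Pa_place h hA3 hB3 w hw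
  refine ⟨w, hw, ?_, h3, h4, hA2.trans ?_, hB2, hv2, ?_⟩
  · intro w' hw'
    obtain ⟨-, -, h5'⟩ := Pa_place h hA3 hB3 w' hw'
    have hval : ∀ y : L, w'.valuation L y = w.valuation L y := by
      intro y
      obtain ⟨c0, c1, c2, rfl⟩ := (rm_cub h).sp y
      rw [h5, h5']
    apply HeightOneSpectrum.ext
    ext y
    rw [← w'.valuation_lt_one_iff_mem (K := L), ← w.valuation_lt_one_iff_mem (K := L), hval]
  · rw [exp_le_exp]
    norm_num
  · intro x hx
    obtain ⟨a, ha⟩ := Tf_approx v hx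
    rcases Pa_res hn a with h6 | h6
    · left
      have h7 : v.valuation K (a : K) < 1 := (v.valuation_lt_one_iff_mem (K := K) _).2 h6
      have e : x = (x - (a : K)) + (a : K) := by ring
      rw [e]
      exact (Valuation.map_add _ _ _).trans_lt (max_lt ha h7)
    · right
      have h7 : v.valuation K (algebraMap (𝓞 K) K (a - 1)) < 1 :=
        (v.valuation_lt_one_iff_mem (K := K) _).2 h6
      rw [map_sub, map_one] at h7
      have e : x - 1 = (x - (a : K)) + (algebraMap (𝓞 K) K a - 1) := by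
        show x - 1 = (x - (a : K)) + ((a : K) - 1)
        ring
      rw [e]
      exact (Valuation.map_add _ _ _).trans_lt (max_lt ha h7)

theorem rm_val {A B : K} {θ : L} {v : HeightOneSpectrum (𝓞 K)} {w : HeightOneSpectrum (𝓞 L)}
    (hr : Rm K A B θ v w) (c : Fin 3 → K) : w.valuation L (ev (θ / 2) c) =
      max (v.valuation K (c 0) ^ 3) (max (v.valuation K (c 1) ^ 3 * exp (-1))
        (v.valuation K (c 2) ^ 3 * exp (-2))) := by
  have h1 := Pa_max (w.valuation L) (v.valuation K) (algebraMap K L) (k := 1) one_ne_zero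
    (ω := θ / 2) (fun x => by rw [hr.val, mul_one]) (by rw [hr.om]; rfl) (c 0) (c 1) (c 2)
  rw [pow_one] at h1
  exact h1

end H76MQ
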