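import Pool.Agent.H76.MQ.Pa
import Pool.Agent.H76.PP.Te

/-!
ROW Pc (project MP_78d38b_MQT, about 350 lines): the local classes of square norm at a place above two: existence.

`ω = θ/2`, `y = ev ω c` (rm_cub, `Cub.eq_co`), `2 = v`-uniformizer, `w.valuation 2 = exp (-3)`, `w.valuation 4 = exp (-6)`. With `a = A/4 ≡ 4`, `b = B/8 ≡ 2` modulo `v^7`:
`N (ev ω c) = c₀^3 - 2a c₀^2 c₂ + a c₀ c₁^2 + 3b c₀ c₁ c₂ + a^2 c₀ c₂^2 - b c₁^3 - a b c₁ c₂^2 + b^2 c₂^3` (`Te_norm`, `Te_nf`).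
(1) Multiply `y` by `ω^(2k)`, `k ∈ ℤ` (a square of `L`; this changes neither hypothesis nor conclusion): `w.valuation y` is `1` or `exp (-1)`. It is not `exp (-1)`: then by rm_val `v c₀ ≤ exp (-1)`, `v c₁ = 1`, `v c₂ ≤ 1`, and `N y` has valuation `exp (-1)`
(the term `- b c₁^3`; all others are `≤ exp (-2)`), impossible for a square. So `w.valuation y = 1`: `v c₀ = 1`, `c₁, c₂` integral.
(2) Every `v`-integral `x ∈ K` is congruent modulo `v^k` to a natural number (`res` and `2` a uniformizer; induction on `k`). So `c₀ ≡ n₀` modulo `v^3`, `n₀ ∈ {1,3,5,7}`, `c₁ ≡ n₁`, `c₂ ≡ n₂` modulo `v^2`, `n₁, n₂ ∈ {0,1,2,3}`. `N y` is the square of a unit, so `≡ 1` modulo `v^3`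
(an odd square). Modulo `v^3`: `N y ≡ n₀^3 + 4 n₀ n₁^2 + 6 n₀ n₁ n₂ - 2 n₁^3 + 4 n₂^3` (well defined); an integer is divisible by `8` iff its valuation is `≤ exp (-3)`. `decide`: `(n₀, n₁, n₂)` is one of the 16 triples of the table.
(3) Table: `(n₀,n₁,n₂)`, `z`, `(i,j)`: `(n₀ + n₁ω + n₂ω^2) z^2` is congruent to `ρ_ij` in coordinates modulo `(8,4,4)`, where `ρ₀₀ = (1,0,0)`, `ρ₁₀ = 1+θ = (1,2,0)`, `ρ₀₁ = ω-1 = (-1,1,0)`, `ρ₁₁ = (1+2ω)(ω-1) = (-1,-1,2)`:
(1,0,0) z=1 (0,0); (1,0,2) z=1+ω² (1,0); (1,1,3) z=1+ω+ω² (1,1); (1,2,0) z=1 (1,0); (1,2,1) z=1+ω+ω² (0,0); (1,2,2) z=1+ω² (0,0); (1,2,3) z=1+ω (1,0); (1,3,3) z=1+ω (1,1);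
(3,1,2) z=1+ω² (1,1); (3,3,0) z=1+ω² (0,1); (5,0,1) z=1+ω+ω² (1,0); (5,0,3) z=1+ω (0,0); (5,1,1) z=1+ω (0,1); (5,3,1) z=1+ω+ω² (0,1); (7,1,0) z=1 (0,1); (7,3,2) z=1 (1,1).
Squares with `ω^3 = -4ω-2`: (1+ω)² = (1,2,1), (1+ω²)² = (1,-2,-2), (1+ω+ω²)² = (-3,-8,-1). A difference with coordinates in `(v^3, v^2, v^2)` has `w.valuation ≤ exp (-7) < exp (-6) = w.valuation 4` (rm_val). (Do the computation with exact `a, b`: the coordinates of a product are
`m3 a b`, congruent modulo `v^3` to those with `a = 4, b = 2`.) The lemma rm_red may help: it reduces everything to a decidable statement about integers.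
-/

set_option autoImplicit false
set_option linter.unusedSectionVars false
open scoped Classical

open WithZero NumberField IsDedekindDomain H38RT
open H38T1 (SC sc scu rep eo la si Pri OddP tp unif ka)
open H76PP

namespace H76MQ

variable {K L : Type} [Field K] [NumberField K] [Field L] [NumberField L] [Algebra K L]

section Pc

variable {F : Type} [Field F] {V : Valuation F (WithZero (Multiplicative ℤ))}

private lemma Pc_disc {g : WithZero (Multiplicative ℤ)} {k : ℤ} (h : g < exp k) :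
    g ≤ exp (k - 1) := by
  by_cases hg : g = 0
  · rw [hg]; exact zero_le
  · rw [← exp_log hg] at h ⊢
    rw [exp_lt_exp] at h
    rw [exp_le_exp]
    omega

private lemma Pc_cub {g : WithZero (Multiplicative ℤ)} {k t : ℤ} (h : g ^ 3 ≤ exp t)
    (ht : t < 3 * (k + 1)) : g ≤ exp k := by
  by_cases hg : g = 0
  · rw [hg]; exact zero_le
  · rw [← exp_log hg, ← exp_nsmul, exp_le_exp, nsmul_eq_mul] at h
    rw [← exp_log hg, exp_le_exp]
    push_cast at h
    omega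

private lemma Pc_mul {x y : F} {s t : ℤ} (hx : V x ≤ exp s) (hy : V y ≤ exp t) :
    V (x * y) ≤ exp (s + t) := by
  rw [map_mul, exp_add]
  exact mul_le_mul' hx hy

private lemma Pc_mul' {x y : F} {s t u : ℤ} (hx : V x ≤ exp s) (hy : V y ≤ exp t)
    (hu : s + t ≤ u) : V (x * y) ≤ exp u :=
  (Pc_mul hx hy).trans (exp_le_exp.2 hu)

private lemma Pc_two_pow (h2 : V 2 = exp (-1)) (k : ℕ) : V (2 ^ k) = exp (-(k : ℤ)) := by
  rw [map_pow, h2, ← exp_nsmul]
  congr 1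
  rw [nsmul_eq_mul]
  ring

private lemma Pc_nat (h2 : V 2 = exp (-1)) (hres : ∀ x, V x ≤ 1 → V x < 1 ∨ V (x - 1) < 1)
    (k : ℕ) {x : F} (hx : V x ≤ 1) : ∃ n : ℕ, n < 2 ^ k ∧ V (x - n) ≤ exp (-(k : ℤ)) := by
  induction k with
  | zero =>
    refine ⟨0, by norm_num, ?_⟩
    simpa using hx
  | succ k ih =>
    obtain ⟨n, hn, hv⟩ := ih
    have h20 : (2 : F) ^ k ≠ 0 := by
      intro h0
      have := Pc_two_pow h2 k
      rw [h0, map_zero] at this
      exact exp_ne_zero this.symm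
    have e : x - n = 2 ^ k * ((x - n) / 2 ^ k) := by field_simp
    have hu : V ((x - n) / 2 ^ k) ≤ 1 := by
      rw [map_div₀, Pc_two_pow h2]
      exact div_le_one_of_le₀ hv zero_le
    rcases hres _ hu with h | h
    · refine ⟨n, by rw [pow_succ]; omega, ?_⟩
      have h' := Pc_disc (k := 0) (lt_of_lt_of_eq h exp_zero.symm)
      rw [e]
      refine Pc_mul' (Pc_two_pow h2 k).le h' ?_
      push_cast
      omega
    · refine ⟨n + 2 ^ k, by rw [pow_succ]; omega, ?_⟩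
      have h' := Pc_disc (k := 0) (lt_of_lt_of_eq h exp_zero.symm)
      have e' : x - ((n + 2 ^ k : ℕ) : F) = 2 ^ k * ((x - n) / 2 ^ k - 1) := by
        push_cast
        rw [mul_sub, ← e]
        ring
      rw [e']
      refine Pc_mul' (Pc_two_pow h2 k).le h' ?_
      push_cast
      omega

private lemma Pc_int_le (k : ℤ) : V (k : F) ≤ 1 := intCast_mem V.integer k

private lemma Pc_dvd_le (h2 : V 2 = exp (-1)) {t : ℕ} {k : ℤ} (h : (2 : ℤ) ^ t ∣ k) :
    V (k : F) ≤ exp (-(t : ℤ)) := by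
  obtain ⟨q, rfl⟩ := h
  push_cast
  refine Pc_mul' (Pc_two_pow h2 t).le (t := 0) (by simpa using Pc_int_le q) ?_
  omega

private lemma Pc_odd (h2 : V 2 = exp (-1)) {k : ℤ} (h : ¬ (2 : ℤ) ∣ k) : V (k : F) = 1 := by
  have h1 : (2 : ℤ) ^ 1 ∣ k - 1 := by omega
  have h3 := Pc_dvd_le (V := V) h2 h1
  have e : (k : F) = 1 + ((k - 1 : ℤ) : F) := by push_cast; ring
  rw [e]
  rw [Valuation.map_add_eq_of_lt_left _ (x := 1), map_one]
  rw [map_one]
  refine lt_of_le_of_lt h3 ?_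
  rw [← exp_zero, exp_lt_exp]
  norm_num

private lemma Pc_le_dvd (h2 : V 2 = exp (-1)) (t : ℕ) : ∀ {k : ℤ}, V (k : F) ≤ exp (-(t : ℤ)) →
    (2 : ℤ) ^ t ∣ k := by
  induction t with
  | zero => intro k _; simp
  | succ t ih =>
    intro k hk
    by_cases h : (2 : ℤ) ∣ k
    · obtain ⟨q, rfl⟩ := h
      rw [pow_succ']
      apply mul_dvd_mul_left
      apply ih
      push_cast at hk
      rw [map_mul, h2] at hk
      by_cases hq : V (q : F) = 0
      · rw [hq]; exact zero_le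
      · rw [← exp_log hq, ← exp_add, exp_le_exp] at hk
        rw [← exp_log hq, exp_le_exp]
        omega
    · rw [Pc_odd h2 h, ← exp_zero, exp_le_exp] at hk
      push_cast at hk
      omega

/-- The ideal of the elements of valuation at most `exp (-3)`. -/
private def Pc_I (V : Valuation F (WithZero (Multiplicative ℤ))) : Ideal V.integer where
  carrier := {x | V (x : F) ≤ exp (-3)}
  add_mem' := fun {x y} hx hy => by
    rw [Set.mem_ofPred_eq] at hx hy ⊢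
    push_cast
    exact V.map_add_le hx hy
  zero_mem' := by simp
  smul_mem' := fun c x hx => by
    rw [Set.mem_ofPred_eq] at hx ⊢
    rw [smul_eq_mul]
    push_cast
    exact Pc_mul' (s := 0) (le_of_le_of_eq c.2 exp_zero.symm) hx (by norm_num)

private lemma Pc_mem {x : V.integer} : x ∈ Pc_I V ↔ V (x : F) ≤ exp (-3) := Iff.rfl

private lemma Pc_mk_eq {x : V.integer} {k : ℤ} :
    Ideal.Quotient.mk (Pc_I V) x = (k : V.integer ⧸ Pc_I V) ↔ V ((x : F) - k) ≤ exp (-3) := by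
  have e : (k : V.integer ⧸ Pc_I V) = Ideal.Quotient.mk (Pc_I V) (k : V.integer) := by simp
  rw [e, Ideal.Quotient.eq, Pc_mem]
  push_cast
  rfl

private lemma Pc_small (h2 : V 2 = exp (-1)) {x : V.integer} {k : ℤ} {t : ℕ} (ht : t ≤ 3)
    (h : Ideal.Quotient.mk (Pc_I V) x = (k : V.integer ⧸ Pc_I V)) (hk : (2 : ℤ) ^ t ∣ k) :
    V (x : F) ≤ exp (-(t : ℤ)) := by
  rw [Pc_mk_eq] at h
  have e : (x : F) = ((x : F) - k) + k := by ring
  rw [e]
  refine V.map_add_le (h.trans (exp_le_exp.2 ?_)) (Pc_dvd_le h2 hk)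
  omega

end Pc

section Fin

private def Pc_r (i j : Bool) : Fin 3 → ℤ :=
  if i then (if j then ![-1, -1, 2] else ![1, 2, 0]) else (if j then ![-1, 1, 0] else ![1, 0, 0])

private lemma Pc_fin1 : ∀ n0 n1 n2 m : Fin 8, ¬ (2 : ℤ) ∣ ((n0 : ℕ) : ℤ) →
    (8 : ℤ) ∣ Te_nf (4 : ℤ) 2 ![((n0 : ℕ) : ℤ), ((n1 : ℕ) : ℤ), ((n2 : ℕ) : ℤ)] - ((m : ℕ) : ℤ) ^ 2 →
    (8 : ℤ) ∣ Te_nf (4 : ℤ) 2 ![((n0 : ℕ) : ℤ), ((n1 : ℕ) : ℤ), ((n2 : ℕ) : ℤ)] - 1 := by
  decide +kernel

private lemma Pc_fin2 : ∀ n0 n1 n2 : Fin 8, ¬ (2 : ℤ) ∣ ((n0 : ℕ) : ℤ) →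
    (8 : ℤ) ∣ Te_nf (4 : ℤ) 2 ![((n0 : ℕ) : ℤ), ((n1 : ℕ) : ℤ), ((n2 : ℕ) : ℤ)] - 1 →
    ∃ z1 z2 : Fin 2, ∃ i j : Bool,
      (8 : ℤ) ∣ m3 (4 : ℤ) 2 ![((n0 : ℕ) : ℤ), ((n1 : ℕ) : ℤ), ((n2 : ℕ) : ℤ)]
        (m3 (4 : ℤ) 2 ![1, ((z1 : ℕ) : ℤ), ((z2 : ℕ) : ℤ)] ![1, ((z1 : ℕ) : ℤ), ((z2 : ℕ) : ℤ)]) 0
          - Pc_r i j 0 ∧
      (4 : ℤ) ∣ m3 (4 : ℤ) 2 ![((n0 : ℕ) : ℤ), ((n1 : ℕ) : ℤ), ((n2 : ℕ) : ℤ)]
        (m3 (4 : ℤ) 2 ![1, ((z1 : ℕ) : ℤ), ((z2 : ℕ) : ℤ)] ![1, ((z1 : ℕ) : ℤ), ((z2 : ℕ) : ℤ)]) 1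
          - Pc_r i j 1 ∧
      (4 : ℤ) ∣ m3 (4 : ℤ) 2 ![((n0 : ℕ) : ℤ), ((n1 : ℕ) : ℤ), ((n2 : ℕ) : ℤ)]
        (m3 (4 : ℤ) 2 ![1, ((z1 : ℕ) : ℤ), ((z2 : ℕ) : ℤ)] ![1, ((z1 : ℕ) : ℤ), ((z2 : ℕ) : ℤ)]) 2
          - Pc_r i j 2 := by
  decide +kernel

end Fin

/-- Every `v`-integral element is congruent to a natural number. -/
theorem rm_nat {A B : K} {θ : L} {v : HeightOneSpectrum (𝓞 K)} {w : HeightOneSpectrum (𝓞 L)}
    (hr : Rm K A B θ v w) (k : ℕ) {x : K} (hx : v.valuation K x ≤ 1) :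
    ∃ n : ℕ, n < 2 ^ k ∧ v.valuation K (x - n) ≤ exp (-(k : ℤ)) :=
  Pc_nat hr.two hr.res k hx

/-- The coordinates when the valuation is at most one. -/
private lemma Pc_coord {A B : K} {θ : L} {v : HeightOneSpectrum (𝓞 K)}
    {w : HeightOneSpectrum (𝓞 L)} (hr : Rm K A B θ v w) {c : Fin 3 → K} {t : ℤ}
    (h : w.valuation L (ev (θ / 2) c) ≤ exp t) :
    v.valuation K (c 0) ^ 3 ≤ exp t ∧ v.valuation K (c 1) ^ 3 ≤ exp (t + 1) ∧
      v.valuation K (c 2) ^ 3 ≤ exp (t + 2) := by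
  rw [rm_val hr] at h
  have h0 := (le_max_left _ _).trans h
  have h1 := ((le_max_left _ _).trans (le_max_right _ _)).trans h
  have h2 := ((le_max_right _ _).trans (le_max_right _ _)).trans h
  have key : ∀ (g : WithZero (Multiplicative ℤ)) (s : ℤ), g * exp (-s) ≤ exp t →
      g ≤ exp (t + s) := by
    intro g s hg
    have := mul_le_mul' hg (le_refl (exp s))
    rwa [mul_assoc, ← exp_add, ← exp_add, neg_add_cancel, exp_zero, mul_one] at this
  exact ⟨h0, key _ _ h1, key _ _ h2⟩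

/-- Conversely. -/
private lemma Pc_coord' {A B : K} {θ : L} {v : HeightOneSpectrum (𝓞 K)}
    {w : HeightOneSpectrum (𝓞 L)} (hr : Rm K A B θ v w) {c : Fin 3 → K} {t0 t1 t2 t : ℤ}
    (h0 : v.valuation K (c 0) ≤ exp t0) (h1 : v.valuation K (c 1) ≤ exp t1)
    (h2 : v.valuation K (c 2) ≤ exp t2) (ht0 : 3 * t0 ≤ t) (ht1 : 3 * t1 - 1 ≤ t)
    (ht2 : 3 * t2 - 2 ≤ t) : w.valuation L (ev (θ / 2) c) ≤ exp t := by
  rw [rm_val hr]
  have key : ∀ (g : WithZero (Multiplicative ℤ)) (s : ℤ), g ≤ exp s → g ^ 3 ≤ exp (3 * s) := by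
    intro g s hg
    have := pow_le_pow_left' hg 3
    rwa [← exp_nsmul, nsmul_eq_mul] at this
  refine max_le ((key _ _ h0).trans (exp_le_exp.2 ht0)) (max_le ?_ ?_)
  · refine (mul_le_mul' (key _ _ h1) le_rfl).trans ?_
    rw [← exp_add, exp_le_exp]
    omega
  · refine (mul_le_mul' (key _ _ h2) le_rfl).trans ?_
    rw [← exp_add, exp_le_exp]
    omega

/-- The valuation is not odd. -/
private lemma Pc_case1 {A B : K} {θ : L} {v : HeightOneSpectrum (𝓞 K)}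
    {w : HeightOneSpectrum (𝓞 L)} (hr : Rm K A B θ v w) {c : Fin 3 → K}
    (hw : w.valuation L (ev (θ / 2) c) = exp (-1)) {s : K}
    (hs : Te_nf (A / 4) (B / 8) c = s * s) : False := by
  obtain ⟨k0, k1, k2⟩ := Pc_coord hr hw.le
  have c0 : v.valuation K (c 0) ≤ exp (-1) := Pc_cub k0 (by norm_num)
  have c1 : v.valuation K (c 1) ≤ exp 0 := Pc_cub k1 (by norm_num)
  have c2 : v.valuation K (c 2) ≤ exp 0 := Pc_cub k2 (by norm_num)
  have c1' : v.valuation K (c 1) = exp 0 := by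
    by_contra hne
    have h1 := Pc_disc (lt_of_le_of_ne c1 hne)
    have h2 := Pc_coord' hr (t := -2) c0 h1 c2 (by norm_num) (by norm_num) (by norm_num)
    rw [hw, exp_le_exp] at h2
    norm_num at h2
  have ha : v.valuation K (A / 4) ≤ exp (-2) := by
    have e : A / 4 = (A / 4 - 4) + ((4 : ℤ) : K) := by push_cast; ring
    rw [e]
    refine Valuation.map_add_le _ (hr.A4.trans (exp_le_exp.2 (by norm_num))) ?_
    exact Pc_dvd_le (t := 2) hr.two (by norm_num)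
  have hb : v.valuation K (B / 8) = exp (-1) := by
    have e : B / 8 = (B / 8 - 2) + 2 := by ring
    rw [e, Valuation.map_add_eq_of_lt_right, hr.two]
    rw [hr.two]
    exact lt_of_le_of_lt hr.B8 (exp_lt_exp.2 (by norm_num))
  have e : Te_nf (A / 4) (B / 8) c = c 0 * (((c 0 - A / 4 * c 2) * (c 0 - A / 4 * c 2) +
      A / 4 * (c 1 * c 1)) + B / 8 * (c 1 * c 2)) + B / 8 * (c 2 * (c 0 * c 1 + B / 8 * (c 2 * c 2)))
      + B / 8 * (c 1 * (c 0 * c 2)) - A / 4 * (B / 8 * (c 1 * (c 2 * c 2))) -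
      B / 8 * (c 1 * (c 1 * c 1)) := by
    rw [Te_nf]
    ring
  have b1 : v.valuation K (c 0 * (((c 0 - A / 4 * c 2) * (c 0 - A / 4 * c 2) +
      A / 4 * (c 1 * c 1)) + B / 8 * (c 1 * c 2))) ≤ exp (-2) := by
    have q1 : v.valuation K (A / 4 * c 2) ≤ exp (-1) := Pc_mul' ha c2 (by norm_num)
    have q2 := Valuation.map_sub_le (v := v.valuation K) c0 q1
    have q3 := Pc_mul' q2 q2 (u := -1) (by norm_num)
    have q4 := Pc_mul' ha (Pc_mul' c1 c1 (u := 0) (by norm_num)) (u := -1) (by norm_num)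
    have q5 := Pc_mul' hb.le (Pc_mul' c1 c2 (u := 0) (by norm_num)) (u := -1) (by norm_num)
    exact Pc_mul' c0 (Valuation.map_add_le _ (Valuation.map_add_le _ q3 q4) q5) (by norm_num)
  have b2 : v.valuation K (B / 8 * (c 2 * (c 0 * c 1 + B / 8 * (c 2 * c 2)))) ≤ exp (-2) := by
    have q1 := Pc_mul' c0 c1 (u := -1) (by norm_num)
    have q2 := Pc_mul' hb.le (Pc_mul' c2 c2 (u := 0) (by norm_num)) (u := -1) (by norm_num)
    exact Pc_mul' hb.le (Pc_mul' c2 (Valuation.map_add_le _ q1 q2) (u := -1) (by norm_num))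
      (by norm_num)
  have b3 : v.valuation K (B / 8 * (c 1 * (c 0 * c 2))) ≤ exp (-2) :=
    Pc_mul' hb.le (Pc_mul' c1 (Pc_mul' c0 c2 (u := -1) (by norm_num)) (u := -1) (by norm_num))
      (by norm_num)
  have b4 : v.valuation K (A / 4 * (B / 8 * (c 1 * (c 2 * c 2)))) ≤ exp (-2) :=
    Pc_mul' ha (Pc_mul' hb.le (Pc_mul' c1 (Pc_mul' c2 c2 (u := 0) (by norm_num)) (u := 0)
      (by norm_num)) (u := 0) (by norm_num)) (by norm_num)
  have b5 : v.valuation K (B / 8 * (c 1 * (c 1 * c 1))) = exp (-1) := by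
    rw [map_mul, map_mul, map_mul, hb, c1', exp_zero]
    simp
  have b6 : v.valuation K (Te_nf (A / 4) (B / 8) c) = exp (-1) := by
    rw [e, Valuation.map_sub_eq_of_lt_right, b5]
    rw [b5]
    exact lt_of_le_of_lt (Valuation.map_sub_le (v := v.valuation K)
      (Valuation.map_add_le _ (Valuation.map_add_le _ b1 b2) b3) b4)
      (exp_lt_exp.2 (by norm_num : (-2 : ℤ) < -1))
  rw [hs, map_mul] at b6
  by_cases hs0 : v.valuation K s = 0
  · rw [hs0, mul_zero] at b6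
    exact exp_ne_zero b6.symm
  · rw [← exp_log hs0, ← exp_add] at b6
    have := exp_injective b6
    omega

/-- The unit case. -/
private lemma Pc_case2 {A B : K} {θ : L} (h : Cub K L A B θ) {v : HeightOneSpectrum (𝓞 K)}
    {w : HeightOneSpectrum (𝓞 L)} (hr : Rm K A B θ v w) {c : Fin 3 → K}
    (hw : w.valuation L (ev (θ / 2) c) = exp 0) {s : K}
    (hs : Te_nf (A / 4) (B / 8) c = s * s) : ∃ i j : ZMod 2, Nr w (ev (θ / 2) c) (rho θ i j) := by
  set V := v.valuation K with hV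
  obtain ⟨k0, k1, k2⟩ := Pc_coord hr hw.le
  have c0 : V (c 0) ≤ exp 0 := Pc_cub k0 (by norm_num)
  have c1 : V (c 1) ≤ exp 0 := Pc_cub k1 (by norm_num)
  have c2 : V (c 2) ≤ exp 0 := Pc_cub k2 (by norm_num)
  have c0' : V (c 0) = exp 0 := by
    by_contra hne
    have h1 := Pc_disc (lt_of_le_of_ne c0 hne)
    have h2 := Pc_coord' hr (t := -1) h1 c1 c2 (by norm_num) (by norm_num) (by norm_num)
    rw [hw, exp_le_exp] at h2
    norm_num at h2
  have ha : V (A / 4) ≤ exp 0 := by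
    have e : A / 4 = (A / 4 - 4) + ((4 : ℤ) : K) := by push_cast; ring
    rw [e]
    refine Valuation.map_add_le _ (hr.A4.trans (exp_le_exp.2 (by norm_num))) ?_
    exact (Pc_int_le 4).trans_eq exp_zero.symm
  have hb : V (B / 8) ≤ exp 0 := by
    have e : B / 8 = (B / 8 - 2) + ((2 : ℤ) : K) := by push_cast; ring
    rw [e]
    refine Valuation.map_add_le _ (hr.B8.trans (exp_le_exp.2 (by norm_num))) ?_
    exact (Pc_int_le 2).trans_eq exp_zero.symm
  -- integral elements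
  have key : ∀ x : K, V x ≤ exp 0 → ∃ X : V.integer, (X : K) = x := fun x hx =>
    ⟨⟨x, le_of_le_of_eq hx exp_zero⟩, rfl⟩
  obtain ⟨a, ha'⟩ := key _ ha
  obtain ⟨b, hb'⟩ := key _ hb
  have hc : ∀ j, ∃ X : V.integer, (X : K) = c j := by
    intro j
    fin_cases j
    exacts [key _ c0, key _ c1, key _ c2]
  choose C hC using hc
  have hnfC : ((Te_nf a b C : V.integer) : K) = Te_nf (A / 4) (B / 8) c := by
    have := Te_nf_map V.integer.subtype a b C
    simp only [Subring.subtype_apply, ha', hb', hC] at this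
    exact this.symm
  have hsi : V s ≤ exp 0 := by
    have h1 : V s * V s ≤ 1 := by
      rw [← map_mul, ← hs, ← hnfC]
      exact (Te_nf a b C).2
    by_contra hlt
    rw [not_le, exp_zero] at hlt
    have h3 := mul_lt_mul'' hlt hlt zero_le zero_le
    rw [mul_one] at h3
    exact absurd h1 (not_le.2 h3)
  obtain ⟨S, hS⟩ := key _ hsi
  -- approximation
  have appr : ∀ X : V.integer, ∃ n : Fin 8,
      Ideal.Quotient.mk (Pc_I V) X = (((n : ℕ) : ℤ) : V.integer ⧸ Pc_I V) := by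
    intro X
    obtain ⟨n, hn, hv⟩ := Pc_nat hr.two hr.res 3 (x := (X : K)) X.2
    refine ⟨⟨n, hn⟩, ?_⟩
    rw [Pc_mk_eq]
    simpa using hv
  choose N hN using appr
  have hqa : Ideal.Quotient.mk (Pc_I V) a = (((4 : ℤ)) : V.integer ⧸ Pc_I V) := by
    rw [Pc_mk_eq, ha']
    push_cast
    exact hr.A4.trans (exp_le_exp.2 (by norm_num))
  have hqb : Ideal.Quotient.mk (Pc_I V) b = (((2 : ℤ)) : V.integer ⧸ Pc_I V) := by
    rw [Pc_mk_eq, hb']
    push_cast
    exact hr.B8.trans (exp_le_exp.2 (by norm_num))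
  set n : Fin 3 → ℤ := ![(((N (C 0) : Fin 8) : ℕ) : ℤ), (((N (C 1) : Fin 8) : ℕ) : ℤ),
    (((N (C 2) : Fin 8) : ℕ) : ℤ)] with hn
  have hqn : ∀ j, Ideal.Quotient.mk (Pc_I V) (C j) = (n j : V.integer ⧸ Pc_I V) := by
    intro j
    fin_cases j
    exacts [hN (C 0), hN (C 1), hN (C 2)]
  have hqnf : Ideal.Quotient.mk (Pc_I V) (Te_nf a b C) =
      ((Te_nf (4 : ℤ) 2 n : ℤ) : V.integer ⧸ Pc_I V) := by
    rw [← Te_nf_map, hqa, hqb]
    have := Te_nf_map (Int.castRingHom (V.integer ⧸ Pc_I V)) (4 : ℤ) 2 n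
    simp only [eq_intCast] at this
    rw [← this]
    congr 1
    funext j
    exact hqn j
  have hqS : Ideal.Quotient.mk (Pc_I V) S = (((N S : Fin 8) : ℕ) : ℤ) := hN S
  have hSS : Te_nf a b C = S * S := by
    apply Subtype.ext
    push_cast
    rw [hnfC, hs, hS]
  have hdv : (8 : ℤ) ∣ Te_nf (4 : ℤ) 2 n - (((N S : Fin 8) : ℕ) : ℤ) ^ 2 := by
    have h1 : Ideal.Quotient.mk (Pc_I V) (0 : V.integer) =
        ((Te_nf (4 : ℤ) 2 n - (((N S : Fin 8) : ℕ) : ℤ) ^ 2 : ℤ) : V.integer ⧸ Pc_I V) := by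
      rw [Int.cast_sub, ← hqnf, hSS, map_mul, hqS, map_zero]
      push_cast
      ring
    rw [Pc_mk_eq] at h1
    have h2 : V ((Te_nf (4 : ℤ) 2 n - (((N S : Fin 8) : ℕ) : ℤ) ^ 2 : ℤ) : K) ≤
        exp (-((3 : ℕ) : ℤ)) := by
      rw [← Valuation.map_neg]
      simpa using h1
    exact Pc_le_dvd hr.two 3 h2
  have hodd : ¬ (2 : ℤ) ∣ (((N (C 0) : Fin 8) : ℕ) : ℤ) := by
    intro h2
    have h3 := Pc_small hr.two (t := 1) (by norm_num) (hN (C 0)) (by simpa using h2)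
    rw [hC, c0', exp_le_exp] at h3
    norm_num at h3
  have h1 := Pc_fin1 _ _ _ _ hodd hdv
  obtain ⟨z1, z2, i, j, d0, d1, d2⟩ := Pc_fin2 _ _ _ hodd h1
  set z : Fin 3 → ℤ := ![1, ((z1 : ℕ) : ℤ), ((z2 : ℕ) : ℤ)] with hz
  set Z : Fin 3 → V.integer := fun t => ((z t : ℤ) : V.integer) with hZ
  have hqm : ∀ (u u' : Fin 3 → V.integer) (m m' : Fin 3 → ℤ),
      (∀ t, Ideal.Quotient.mk (Pc_I V) (u t) = (m t : V.integer ⧸ Pc_I V)) →
      (∀ t, Ideal.Quotient.mk (Pc_I V) (u' t) = (m' t : V.integer ⧸ Pc_I V)) →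
      ∀ t, Ideal.Quotient.mk (Pc_I V) (m3 a b u u' t) =
        ((m3 (4 : ℤ) 2 m m' t : ℤ) : V.integer ⧸ Pc_I V) := by
    intro u u' m m' hu hu' t
    rw [← Te_m3_map, hqa, hqb]
    have := Te_m3_map (Int.castRingHom (V.integer ⧸ Pc_I V)) (4 : ℤ) 2 m m' t
    simp only [eq_intCast] at this
    rw [← this]
    congr 1
    · funext j
      exact hu j
    · funext j
      exact hu' j
  have hqZ : ∀ t, Ideal.Quotient.mk (Pc_I V) (Z t) = (z t : V.integer ⧸ Pc_I V) := by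
    intro t
    simp [hZ]
  have hqD : ∀ t, Ideal.Quotient.mk (Pc_I V) (m3 a b C (m3 a b Z Z) t - ((Pc_r i j t : ℤ) :
      V.integer)) = ((m3 (4 : ℤ) 2 n (m3 (4 : ℤ) 2 z z) t - Pc_r i j t : ℤ) :
        V.integer ⧸ Pc_I V) := by
    intro t
    rw [map_sub, hqm _ _ _ _ hqn (hqm _ _ _ _ hqZ hqZ), Int.cast_sub]
    simp
  have e0 := Pc_small hr.two (t := 3) (by norm_num) (hqD 0) (by simpa using d0)
  have e1 := Pc_small hr.two (t := 2) (by norm_num) (hqD 1) (by simpa using d1)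
  have e2 := Pc_small hr.two (t := 2) (by norm_num) (hqD 2) (by simpa using d2)
  have hcub := rm_cub h
  set D : Fin 3 → K := fun t => ((m3 a b C (m3 a b Z Z) t - ((Pc_r i j t : ℤ) :
      V.integer) : V.integer) : K) with hD
  have hval := Pc_coord' hr (c := D) (t := -7) e0 e1 e2 (by norm_num) (by norm_num) (by norm_num)
  have hDe : ∀ t, D t = m3 (A / 4) (B / 8) c (m3 (A / 4) (B / 8) (fun t => (z t : K))
      (fun t => (z t : K))) t - (Pc_r i j t : K) := by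
    intro t
    have f1 : ∀ t, ((m3 a b Z Z t : V.integer) : K) = m3 (A / 4) (B / 8) (fun t => (z t : K))
      (fun t => (z t : K)) t := by
      intro t
      have := Te_m3_map V.integer.subtype a b Z Z t
      simp only [Subring.subtype_apply, ha', hb', hZ] at this
      push_cast at this
      exact this.symm
    have f2 := Te_m3_map V.integer.subtype a b C (m3 a b Z Z) t
    simp only [Subring.subtype_apply, ha', hb', hC, f1] at f2
    rw [hD]
    push_cast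
    rw [← f2]
  have hrho : rho θ (if i then 1 else 0) (if j then 1 else 0) =
      ev (θ / 2) (fun t => (Pc_r i j t : K)) := by
    have h10 : (1 : ZMod 2) ≠ 0 := by decide
    have m2 : algebraMap K L 2 = 2 := map_ofNat _ 2
    cases i <;> cases j <;> simp [rho, ev, Pc_r, h10, m2] <;> ring
  refine ⟨if i then 1 else 0, if j then 1 else 0, ev (θ / 2) (fun t => (z t : K)), ?_, ?_⟩
  · intro h0
    have := (hcub.li _ _ _ h0).1
    simp [hz] at this
  · have g1 : ev (θ / 2) c * ev (θ / 2) (fun t => (z t : K)) ^ 2 -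
        rho θ (if i then 1 else 0) (if j then 1 else 0) = ev (θ / 2) D := by
      rw [hrho, sq, Te_ev_mul hcub, Te_ev_mul hcub]
      have : D = fun t => m3 (A / 4) (B / 8) c (m3 (A / 4) (B / 8) (fun t => (z t : K))
        (fun t => (z t : K))) t - (Pc_r i j t : K) := funext hDe
      rw [this]
      simp only [ev, map_sub]
      ring
    have g2 : w.valuation L 4 = exp (-6) := by
      have h4 := hr.val 4
      have h5 : v.valuation K (4 : K) = exp (-2) := by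
        have := Pc_two_pow (V := v.valuation K) hr.two 2
        rw [← hV] at this ⊢
        norm_num at this ⊢
        exact this
      rw [h5, ← exp_nsmul] at h4
      have m4 : algebraMap K L 4 = 4 := map_ofNat _ 4
      rw [m4] at h4
      simpa using h4
    rw [g1, g2]
    exact lt_of_le_of_lt hval (exp_lt_exp.2 (by norm_num))

theorem rm_class {A B : K} {θ : L} (h : Cub K L A B θ) {v : HeightOneSpectrum (𝓞 K)}
    {w : HeightOneSpectrum (𝓞 L)} (hr : Rm K A B θ v w) {y : L} (hy : y ≠ 0)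
    (hN : IsSquare (Algebra.norm K y)) : ∃ i j : ZMod 2, Nr w y (rho θ i j) := by
  have hcub := rm_cub h
  have hom0 : θ / 2 ≠ 0 := by
    intro h0
    have := hr.om
    rw [h0, map_zero] at this
    exact exp_ne_zero this.symm
  have hwy : w.valuation L y ≠ 0 := (Valuation.ne_zero_iff _).2 hy
  set m : ℤ := log (w.valuation L y) with hm
  have hwm : w.valuation L y = exp m := (exp_log hwy).symm
  set k : ℤ := (m + 1) / 2 with hk
  set z : L := (θ / 2) ^ k with hz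
  have hz0 : z ≠ 0 := zpow_ne_zero _ hom0
  have hwz : w.valuation L z = exp (-k) := by
    rw [hz, map_zpow₀, hr.om, ← exp_zsmul]
    congr 1
    simp
  have hwy' : w.valuation L (y * (z * z)) = exp (m - 2 * k) := by
    rw [map_mul, map_mul, hwm, hwz, ← exp_add, ← exp_add]
    congr 1
    ring
  obtain ⟨s, hs⟩ := hN
  have hN' : Algebra.norm K (y * (z * z)) = (s * Algebra.norm K z) * (s * Algebra.norm K z) := by
    rw [map_mul, map_mul, hs]
    ring
  obtain ⟨c0, c1, c2, hc⟩ := hcub.sp (y * (z * z))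
  have hc' : y * (z * z) = ev (θ / 2) ![c0, c1, c2] := by
    rw [hc]
    simp [ev]
  rw [hc'] at hwy' hN'
  rw [Te_norm hcub] at hN'
  have hmk : m - 2 * k = 0 ∨ m - 2 * k = -1 := by omega
  rcases hmk with h0 | h0
  · rw [h0] at hwy'
    obtain ⟨i, j, z', hz', hlt⟩ := Pc_case2 h hr hwy' hN'
    refine ⟨i, j, z * z', mul_ne_zero hz0 hz', ?_⟩
    rw [← hc'] at hlt
    have e : y * (z * z') ^ 2 = y * (z * z) * z' ^ 2 := by ring
    rw [e]
    exact hlt
  · rw [h0] at hwy'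
    exact (Pc_case1 hr hwy' hN').elim

end H76MQ
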