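import Pool.Agent.H76.MQ.Pd
import Pool.Agent.H54.PR.Vc

/-!
ROW Pf (project MP_78d38b_MQT, about 300 lines): linear elements and the Kummer image at a place above two.

rm_lin: `ω = θ/2`, `l = p + q ω`, `a = A/4 ≡ 4`, `b = B/8 ≡ 2` modulo `v^7`, `N l = p^3 + a p q^2 - b q^3`. Replacing `(p, q)` by `(4^k p, 4^k q)`, `k ∈ ℤ`, multiplies `l` by the square of `2^k` and changes nothing.
Case 1: `v p ≥ v q` (so `p ≠ 0`): `p^3` dominates in `N l` (`v (b q^3) = exp (-1) (v q)^3`, `v (a p q^2) ≤ exp (-2) ..`), `N l * m^2 ≡ 1`, so `ord p` is even; scale: `p` a unit, `q` integral, `m` a unit, `m^2 ≡ 1` modulo `v^3`, so modulo `v^3`, `p ≡ n₀`, `q ≡ n` (rm_nat, `n < 8`):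
`n₀ + 4 n^2 - 2 n^3 ≡ 1` modulo 8 (`n₀^3 ≡ n₀`). `n ≡ 0 (4)`: `n₀ = 1`, `l ≡ (1, 0)` modulo `(8, 4)`, class (0,0). `n ≡ 2 (4)`: `n₀ = 1`, `l ≡ 1 + 2ω`, class (1,0). `n ≡ 1 (4)`: `n₀ = 7`, `l ≡ -1 + ω`, class (0,1). `n ≡ 3 (4)`: `n₀ = 3`, `l ≡ 3 + 3ω`, with `z = 1 + ω^2` class (0,1)
(`(3 + 3ω) z^2 ≡ (7, 1, 0)` modulo `(8,4,4)`). By rm_uniq `(i, j)` is this class. `eo_v q = 1`: `n` even, so `j = 0`. `eo_v q = 0`: `n` odd or `4 | n` (order one is excluded), so `i = 0`.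
Case 2: `v p < v q`: `b q^3` dominates, so `1 + 3 ord q` is even, `ord q` odd; scale: `ord q = 1`, `q = 2 q'`, `q'` a unit, `p = 4 p'`, `p'` integral. `N l ≡ 16 (4 p'^3 + 4 p' q'^2 - q'^3)` modulo `v^7` (`= 16 v^3`), so `4 p' (p'^2 + q'^2) - q'^3 ≡ 1` modulo `v^3` (times an odd square), and
`4 p' (p'^2 + q'^2) ≡ 0` modulo `v^3` (`q'` odd), so `q' ≡ -1` modulo `v^3`. `l ω^2 = 4 p' ω^2 + 2 q' ω^3 = 4 (-q' (b/2) - (q' a/2) ω + p' ω^2) ≡ 4 (1 + 2ω + p' ω^2)` (coordinates modulo `4 (8,4,4)`): with `p' ≡ n₂` modulo 4: (1,2,0): (1,0); (1,2,1) z = 1+ω+ω²: (0,0);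
(1,2,2) z = 1+ω²: (0,0); (1,2,3) z = 1+ω: (1,0). So `j = 0`, and `eo_v q = 1`.
kum_P: `y = ev (E θ) d`. `H54PR.LC_two` for the pair `(E^2 A, E^3 B)` of integers and `E θ` (`Tf_twist`): `x` with `f_E(x) m^2 - 1` of valuation `≤ v 8` and `y (x - E θ) m'^2 - 1` of valuation `≤ w 8`. `l = x - E θ = x - 2 E ω`, `N l = f_E(x)` (`Cub.norm_sub`). From `IJ.nr`: `Nr w y (rho θ i j)`,
`i = I (sc y)`, `j = J (sc y)`: `y z^2 ≈ ρ`, `y l m'^2 ≈ 1`, so `l (m' / z)^2 .. `: `l * (y m' z.. )`: precisely `l * (m' y z)^2 = (y l m'^2)(y z^2) ≈ ρ` modulo `< w 4` (`ρ` a unit), so `Nr w l (rho θ i j)`. rm_lin with `p = x`, `q = - 2 E`: `eo_v q = 1 + eo_v E`.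
-/

set_option autoImplicit false
set_option linter.unusedSectionVars false
open scoped Classical

open WithZero NumberField IsDedekindDomain H38RT
open H38T1 (SC sc scu rep eo la si Pri OddP tp unif ka)
open H76PP

namespace H76MQ

variable {K L : Type} [Field K] [NumberField K] [Field L] [NumberField L] [Algebra K L]

/-! ### Congruences -/

/-- congruence of integral elements -/
private def Pf_Cg (v : HeightOneSpectrum (𝓞 K)) (x y : K) : Prop :=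
  v.valuation K (x - y) ≤ exp (-3) ∧ v.valuation K x ≤ 1 ∧ v.valuation K y ≤ 1

private lemma Pf_int (v : HeightOneSpectrum (𝓞 K)) (n : ℤ) : v.valuation K (n : K) ≤ 1 := by
  have h := v.valuation_le_one (K := K) (n : 𝓞 K)
  simpa using h

private lemma Pf_Cg_int (v : HeightOneSpectrum (𝓞 K)) (n : ℤ) : Pf_Cg v (n : K) (n : K) := by
  refine ⟨?_, Pf_int v n, Pf_int v n⟩
  rw [sub_self, map_zero]
  exact zero_le

private lemma Pf_Cg_add {v : HeightOneSpectrum (𝓞 K)} {x y x' y' : K} (h : Pf_Cg v x y)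
    (h' : Pf_Cg v x' y') : Pf_Cg v (x + x') (y + y') := by
  obtain ⟨h1, h2, h3⟩ := h
  obtain ⟨h1', h2', h3'⟩ := h'
  refine ⟨?_, (Valuation.map_add _ _ _).trans (max_le h2 h2'),
    (Valuation.map_add _ _ _).trans (max_le h3 h3')⟩
  have e : x + x' - (y + y') = (x - y) + (x' - y') := by ring
  rw [e]
  exact (Valuation.map_add _ _ _).trans (max_le h1 h1')

private lemma Pf_Cg_neg {v : HeightOneSpectrum (𝓞 K)} {x y : K} (h : Pf_Cg v x y) :
    Pf_Cg v (-x) (-y) := by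
  obtain ⟨h1, h2, h3⟩ := h
  refine ⟨?_, by rwa [Valuation.map_neg], by rwa [Valuation.map_neg]⟩
  have e : -x - -y = -(x - y) := by ring
  rw [e, Valuation.map_neg]
  exact h1

private lemma Pf_Cg_sub {v : HeightOneSpectrum (𝓞 K)} {x y x' y' : K} (h : Pf_Cg v x y)
    (h' : Pf_Cg v x' y') : Pf_Cg v (x - x') (y - y') := by
  rw [sub_eq_add_neg, sub_eq_add_neg]
  exact Pf_Cg_add h (Pf_Cg_neg h')

private lemma Pf_Cg_mul {v : HeightOneSpectrum (𝓞 K)} {x y x' y' : K} (h : Pf_Cg v x y)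
    (h' : Pf_Cg v x' y') : Pf_Cg v (x * x') (y * y') := by
  obtain ⟨h1, h2, h3⟩ := h
  obtain ⟨h1', h2', h3'⟩ := h'
  refine ⟨?_, by rw [map_mul]; exact mul_le_one' h2 h2', by rw [map_mul]; exact mul_le_one' h3 h3'⟩
  have e : x * x' - y * y' = (x - y) * x' + y * (x' - y') := by ring
  rw [e]
  refine (Valuation.map_add _ _ _).trans (max_le ?_ ?_)
  · rw [map_mul]
    exact (mul_le_mul' h1 h2').trans_eq (mul_one _)
  · rw [map_mul]
    exact (mul_le_mul' h3 h1').trans_eq (one_mul _)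

private lemma Pf_Cg_pow {v : HeightOneSpectrum (𝓞 K)} {x y : K} (h : Pf_Cg v x y) (k : ℕ) :
    Pf_Cg v (x ^ k) (y ^ k) := by
  induction k with
  | zero =>
    rw [pow_zero, pow_zero]
    have h1 := Pf_Cg_int v 1
    rwa [Int.cast_one] at h1
  | succ k ih =>
    rw [pow_succ, pow_succ]
    exact Pf_Cg_mul ih h

private lemma Pf_Cg_m3 {v : HeightOneSpectrum (𝓞 K)} {a a' b b' : K} (ha : Pf_Cg v a a')
    (hb : Pf_Cg v b b') {x x' y y' : Fin 3 → K} (hx : ∀ j, Pf_Cg v (x j) (x' j))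
    (hy : ∀ j, Pf_Cg v (y j) (y' j)) (j : Fin 3) :
    Pf_Cg v (m3 a b x y j) (m3 a' b' x' y' j) := by
  have hh : ∀ i k, Pf_Cg v (x i * y k) (x' i * y' k) := fun i k => Pf_Cg_mul (hx i) (hy k)
  fin_cases j
  · exact Pf_Cg_sub (hh 0 0) (Pf_Cg_mul hb (Pf_Cg_add (hh 1 2) (hh 2 1)))
  · exact Pf_Cg_sub (Pf_Cg_sub (Pf_Cg_add (hh 0 1) (hh 1 0))
      (Pf_Cg_mul ha (Pf_Cg_add (hh 1 2) (hh 2 1)))) (Pf_Cg_mul hb (hh 2 2))
  · exact Pf_Cg_sub (Pf_Cg_add (Pf_Cg_add (hh 0 2) (hh 1 1)) (hh 2 0)) (Pf_Cg_mul ha (hh 2 2))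

private lemma Pf_exp_pow (m : ℤ) (k : ℕ) :
    (exp m : WithZero (Multiplicative ℤ)) ^ k = exp (k * m) := by
  rw [← exp_nsmul]
  simp

private lemma Pf_dvd (v : HeightOneSpectrum (𝓞 K)) (h2 : v.valuation K 2 = exp (-1)) (k : ℕ) :
    ∀ D : ℤ, v.valuation K (D : K) ≤ exp (-(k : ℤ)) → (2 : ℤ) ^ k ∣ D := by
  induction k with
  | zero =>
    intro D _
    rw [pow_zero]
    exact one_dvd D
  | succ k ih =>
    intro D hD
    have hlt : v.valuation K (D : K) < 1 := by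
      refine hD.trans_lt ?_
      rw [← exp_zero, exp_lt_exp]
      push_cast
      omega
    have heven : Even D := by
      by_contra hodd
      rw [Int.not_even_iff_odd] at hodd
      obtain ⟨q, hq⟩ := hodd
      have h3 : (1 : K) = (D : K) - 2 * (q : K) := by
        rw [hq]
        push_cast
        ring
      have h4 : v.valuation K (1 : K) < 1 := by
        rw [h3]
        refine (Valuation.map_sub _ _ _).trans_lt (max_lt hlt ?_)
        rw [map_mul, h2]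
        refine (mul_le_mul' le_rfl (Pf_int v q)).trans_lt ?_
        rw [mul_one, ← exp_zero, exp_lt_exp]
        omega
      rw [map_one] at h4
      exact lt_irrefl _ h4
    obtain ⟨q, hq⟩ := heven
    have h3 : (D : K) = 2 * (q : K) := by
      rw [hq]
      push_cast
      ring
    rw [h3, map_mul, h2] at hD
    have h4 : v.valuation K (q : K) ≤ exp (-(k : ℤ)) := by
      have e1 : v.valuation K (q : K) = exp 1 * (exp (-1) * v.valuation K (q : K)) := by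
        rw [← mul_assoc, ← exp_add]
        norm_num
      have e2 : exp (-(k : ℤ)) = exp 1 * exp (-((k + 1 : ℕ) : ℤ)) := by
        rw [← exp_add]
        congr 1
        push_cast
        ring
      rw [e1, e2]
      exact mul_le_mul' le_rfl hD
    have h5 := ih q h4
    rw [hq, pow_succ, ← mul_two]
    exact mul_dvd_mul_right h5 2

private lemma Pf_le (v : HeightOneSpectrum (𝓞 K)) (h2 : v.valuation K 2 = exp (-1)) (k : ℕ)
    {D : ℤ} (h : (2 : ℤ) ^ k ∣ D) : v.valuation K (D : K) ≤ exp (-(k : ℤ)) := by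
  obtain ⟨q, rfl⟩ := h
  push_cast
  rw [map_mul, map_pow, h2, Pf_exp_pow]
  refine (mul_le_mul' le_rfl (Pf_int v q)).trans ?_
  rw [mul_one, exp_le_exp]
  omega

private lemma Pf_Cg_dvd {v : HeightOneSpectrum (𝓞 K)} (h2 : v.valuation K 2 = exp (-1)) {x : K}
    {D : ℤ} (h : Pf_Cg v x (D : K)) {k : ℕ} (hk : k ≤ 3) (hD : (2 : ℤ) ^ k ∣ D) :
    v.valuation K x ≤ exp (-(k : ℤ)) := by
  have e : x = (x - (D : K)) + (D : K) := by ring
  rw [e]
  refine (Valuation.map_add _ _ _).trans (max_le (h.1.trans ?_) (Pf_le v h2 k hD))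
  rw [exp_le_exp]
  omega

private lemma Pf_Cg_dvd' {v : HeightOneSpectrum (𝓞 K)} (h2 : v.valuation K 2 = exp (-1)) {x : K}
    {D : ℤ} (h : Pf_Cg v x (D : K)) {k : ℕ} (hk : k ≤ 3)
    (hx : v.valuation K x ≤ exp (-(k : ℤ))) : (2 : ℤ) ^ k ∣ D := by
  refine Pf_dvd v h2 k D ?_
  have e : (D : K) = x - (x - (D : K)) := by ring
  rw [e]
  refine (Valuation.map_sub _ _ _).trans (max_le hx (h.1.trans ?_))
  rw [exp_le_exp]
  omega

private lemma Pf_Cg_nat {A B : K} {θ : L} {v : HeightOneSpectrum (𝓞 K)}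
    {w : HeightOneSpectrum (𝓞 L)} (hr : Rm K A B θ v w) {x : K} (hx : v.valuation K x ≤ 1) :
    ∃ n : Fin 8, Pf_Cg v x (((n : ℕ) : ℤ) : K) := by
  obtain ⟨n, hn, hv⟩ := rm_nat hr 3 hx
  refine ⟨⟨n, hn⟩, ?_, hx, Pf_int v _⟩
  push_cast
  push_cast at hv
  exact hv

private lemma Pf_a {A B : K} {θ : L} {v : HeightOneSpectrum (𝓞 K)}
    {w : HeightOneSpectrum (𝓞 L)} (hr : Rm K A B θ v w) :
    Pf_Cg v (A / 4) ((4 : ℤ) : K) ∧ Pf_Cg v (B / 8) ((2 : ℤ) : K) ∧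
      v.valuation K (A / 4) = exp (-2) ∧ v.valuation K (B / 8) = exp (-1) := by
  have h4 : v.valuation K ((4 : ℤ) : K) = exp (-2) := by
    have e : ((4 : ℤ) : K) = 2 ^ 2 := by norm_num
    rw [e, map_pow, hr.two, Pf_exp_pow]
    norm_num
  have hA : v.valuation K (A / 4) = exp (-2) := by
    have e : A / 4 = (A / 4 - 4) + ((4 : ℤ) : K) := by push_cast; ring
    rw [e, Valuation.map_add_eq_of_lt_right, h4]
    rw [h4]
    exact hr.A4.trans_lt (exp_lt_exp.2 (by norm_num))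
  have hB : v.valuation K (B / 8) = exp (-1) := by
    have e : B / 8 = (B / 8 - 2) + 2 := by ring
    rw [e, Valuation.map_add_eq_of_lt_right, hr.two]
    rw [hr.two]
    exact hr.B8.trans_lt (exp_lt_exp.2 (by norm_num))
  refine ⟨⟨?_, ?_, Pf_int v 4⟩, ⟨?_, ?_, Pf_int v 2⟩, hA, hB⟩
  · push_cast
    exact hr.A4.trans (exp_le_exp.2 (by norm_num))
  · rw [hA, ← exp_zero]
    exact exp_le_exp.2 (by norm_num)
  · push_cast
    exact hr.B8.trans (exp_le_exp.2 (by norm_num))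
  · rw [hB, ← exp_zero]
    exact exp_le_exp.2 (by norm_num)

/-! ### The finite computation -/

/-- coordinates of the representatives -/
private def Pf_r (i j : Bool) : Fin 3 → ℤ :=
  if i then (if j then ![-1, -1, 2] else ![1, 2, 0]) else (if j then ![-1, 1, 0] else ![1, 0, 0])

private def Pf_D (i j : Bool) (n z : Fin 3 → ℤ) (t : Fin 3) : ℤ :=
  m3 (4 : ℤ) 2 n (m3 (4 : ℤ) 2 z z) t - Pf_r i j t

private lemma Pf_fin1 : ∀ n0 n1 m : Fin 8,
    (8 : ℤ) ∣ (((n0 : ℕ) : ℤ) ^ 3 + 4 * ((n0 : ℕ) : ℤ) * ((n1 : ℕ) : ℤ) ^ 2 -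
      2 * ((n1 : ℕ) : ℤ) ^ 3) * ((m : ℕ) : ℤ) ^ 2 - 1 →
    ∃ z1 z2 : Fin 2, ∃ i j : Bool,
      (8 : ℤ) ∣ Pf_D i j ![((n0 : ℕ) : ℤ), ((n1 : ℕ) : ℤ), 0]
        ![1, ((z1 : ℕ) : ℤ), ((z2 : ℕ) : ℤ)] 0 ∧
      (4 : ℤ) ∣ Pf_D i j ![((n0 : ℕ) : ℤ), ((n1 : ℕ) : ℤ), 0]
        ![1, ((z1 : ℕ) : ℤ), ((z2 : ℕ) : ℤ)] 1 ∧
      (4 : ℤ) ∣ Pf_D i j ![((n0 : ℕ) : ℤ), ((n1 : ℕ) : ℤ), 0]
        ![1, ((z1 : ℕ) : ℤ), ((z2 : ℕ) : ℤ)] 2 ∧
      ((2 : ℤ) ∣ ((n1 : ℕ) : ℤ) → j = false) ∧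
      (¬ (2 : ℤ) ∣ ((n1 : ℕ) : ℤ) ∨ (4 : ℤ) ∣ ((n1 : ℕ) : ℤ) → i = false) := by
  decide +kernel

private lemma Pf_fin2 : ∀ n0 n1 m : Fin 8,
    (8 : ℤ) ∣ (4 * ((n0 : ℕ) : ℤ) ^ 3 + 4 * ((n0 : ℕ) : ℤ) * ((n1 : ℕ) : ℤ) ^ 2 -
      ((n1 : ℕ) : ℤ) ^ 3) * ((m : ℕ) : ℤ) ^ 2 - 1 →
    ∃ z1 z2 : Fin 2, ∃ i : Bool,
      (8 : ℤ) ∣ Pf_D i false ![-((n1 : ℕ) : ℤ), -2 * ((n1 : ℕ) : ℤ), ((n0 : ℕ) : ℤ)]
        ![1, ((z1 : ℕ) : ℤ), ((z2 : ℕ) : ℤ)] 0 ∧
      (4 : ℤ) ∣ Pf_D i false ![-((n1 : ℕ) : ℤ), -2 * ((n1 : ℕ) : ℤ), ((n0 : ℕ) : ℤ)]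
        ![1, ((z1 : ℕ) : ℤ), ((z2 : ℕ) : ℤ)] 1 ∧
      (4 : ℤ) ∣ Pf_D i false ![-((n1 : ℕ) : ℤ), -2 * ((n1 : ℕ) : ℤ), ((n0 : ℕ) : ℤ)]
        ![1, ((z1 : ℕ) : ℤ), ((z2 : ℕ) : ℤ)] 2 := by
  decide +kernel

private lemma Pf_rho (θ : L) (i j : Bool) :
    rho θ (if i then 1 else 0) (if j then 1 else 0) =
      ev (θ / 2) (fun t => (Pf_r i j t : K)) := by
  have h10 : (1 : ZMod 2) ≠ 0 := by decide
  have m2 : algebraMap K L 2 = 2 := map_ofNat _ 2
  cases i <;> cases j <;> simp [rho, ev, Pf_r, h10, m2] <;> ring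

private lemma Pf_w4 {A B : K} {θ : L} {v : HeightOneSpectrum (𝓞 K)}
    {w : HeightOneSpectrum (𝓞 L)} (hr : Rm K A B θ v w) : w.valuation L (4 : L) = exp (-6) := by
  have h := hr.val 4
  have e4 : (4 : K) = 2 ^ 2 := by norm_num
  rw [map_ofNat, e4, map_pow, hr.two, Pf_exp_pow, Pf_exp_pow] at h
  rw [h]
  norm_num

/-- The criterion for the local class. -/
private lemma Pf_main {A B : K} {θ : L} (h : Cub K L A B θ) {v : HeightOneSpectrum (𝓞 K)}
    {w : HeightOneSpectrum (𝓞 L)} (hr : Rm K A B θ v w) {c : Fin 3 → K} {n : Fin 3 → ℤ}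
    (hc : ∀ t, Pf_Cg v (c t) (n t : K)) {z1 z2 : Fin 2} {i j : Bool}
    (d0 : (8 : ℤ) ∣ Pf_D i j n ![1, ((z1 : ℕ) : ℤ), ((z2 : ℕ) : ℤ)] 0)
    (d1 : (4 : ℤ) ∣ Pf_D i j n ![1, ((z1 : ℕ) : ℤ), ((z2 : ℕ) : ℤ)] 1)
    (d2 : (4 : ℤ) ∣ Pf_D i j n ![1, ((z1 : ℕ) : ℤ), ((z2 : ℕ) : ℤ)] 2) :
    Nr w (ev (θ / 2) c) (rho θ (if i then 1 else 0) (if j then 1 else 0)) := by
  have hcub := rm_cub h
  obtain ⟨hA, hB, -, -⟩ := Pf_a hr
  obtain ⟨z, hz⟩ : ∃ z : Fin 3 → ℤ, z = ![1, ((z1 : ℕ) : ℤ), ((z2 : ℕ) : ℤ)] := ⟨_, rfl⟩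
  rw [← hz] at d0 d1 d2
  obtain ⟨D, hD⟩ : ∃ D : Fin 3 → K, D = fun t => m3 (A / 4) (B / 8) c
    (m3 (A / 4) (B / 8) (fun t => (z t : K)) (fun t => (z t : K))) t - (Pf_r i j t : K) := ⟨_, rfl⟩
  have e1 : ev (θ / 2) c * ev (θ / 2) (fun t => (z t : K)) ^ 2 -
      rho θ (if i then 1 else 0) (if j then 1 else 0) = ev (θ / 2) D := by
    rw [Pf_rho (K := K), sq, Te_ev_mul hcub, Te_ev_mul hcub, hD]
    simp only [ev, map_sub]
    ring
  have hcg : ∀ t, Pf_Cg v (D t) ((Pf_D i j n z t : ℤ) : K) := by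
    intro t
    have e2 : ((Pf_D i j n z t : ℤ) : K) =
        m3 ((4 : ℤ) : K) ((2 : ℤ) : K) (fun t => ((n t : ℤ) : K))
          (m3 ((4 : ℤ) : K) ((2 : ℤ) : K) (fun t => ((z t : ℤ) : K)) (fun t => ((z t : ℤ) : K))) t -
          ((Pf_r i j t : ℤ) : K) := by
      have e3 : (m3 ((4 : ℤ) : K) ((2 : ℤ) : K) (fun t => ((z t : ℤ) : K))
          (fun t => ((z t : ℤ) : K))) = fun t => ((m3 (4 : ℤ) 2 z z t : ℤ) : K) := by
        funext t
        exact Te_m3_map (Int.castRingHom K) 4 2 z z t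
      rw [e3]
      have e4 := Te_m3_map (Int.castRingHom K) 4 2 n (m3 (4 : ℤ) 2 z z) t
      simp only [eq_intCast] at e4
      rw [e4]
      unfold Pf_D
      push_cast
      rfl
    rw [e2, hD]
    exact Pf_Cg_sub (Pf_Cg_m3 hA hB hc
      (fun t => Pf_Cg_m3 hA hB (fun t => Pf_Cg_int v _) (fun t => Pf_Cg_int v _) t) t)
      (Pf_Cg_int v _)
  have g0 := Pf_Cg_dvd hr.two (hcg 0) (k := 3) le_rfl (by norm_num; exact d0)
  have g1 := Pf_Cg_dvd hr.two (hcg 1) (k := 2) (by norm_num) (by norm_num; exact d1)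
  have g2 := Pf_Cg_dvd hr.two (hcg 2) (k := 2) (by norm_num) (by norm_num; exact d2)
  refine ⟨ev (θ / 2) (fun t => (z t : K)), ?_, ?_⟩
  · intro h0
    have := (hcub.li _ _ _ h0).1
    simp [hz] at this
  · rw [e1, Pf_w4 hr, rm_val hr]
    refine max_lt ?_ (max_lt ?_ ?_)
    · refine (pow_le_pow_left' g0 3).trans_lt ?_
      rw [Pf_exp_pow, exp_lt_exp]
      norm_num
    · refine (mul_le_mul' (pow_le_pow_left' g1 3) le_rfl).trans_lt ?_
      rw [Pf_exp_pow, ← exp_add, exp_lt_exp]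
      norm_num
    · refine (mul_le_mul' (pow_le_pow_left' g2 3) le_rfl).trans_lt ?_
      rw [Pf_exp_pow, ← exp_add, exp_lt_exp]
      norm_num

/-! ### Norms -/

private lemma Pf_v8 {A B : K} {θ : L} {v : HeightOneSpectrum (𝓞 K)}
    {w : HeightOneSpectrum (𝓞 L)} (hr : Rm K A B θ v w) : v.valuation K (8 : K) = exp (-3) := by
  have e : (8 : K) = 2 ^ 3 := by norm_num
  rw [e, map_pow, hr.two, Pf_exp_pow]
  norm_num

/-- the valuation of a square times a unit close to one is even -/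
private lemma Pf_even {v : HeightOneSpectrum (𝓞 K)} {x m : K} {k : ℤ}
    (hx : v.valuation K x = exp k) (h : v.valuation K (x * m ^ 2 - 1) ≤ exp (-3)) :
    ∃ s : ℤ, v.valuation K m = exp s ∧ k + 2 * s = 0 := by
  have h1 : v.valuation K (x * m ^ 2) = 1 := by
    have e : x * m ^ 2 = (x * m ^ 2 - 1) + 1 := by ring
    rw [e, Valuation.map_add_eq_of_lt_right, map_one]
    rw [map_one, ← exp_zero]
    exact h.trans_lt (exp_lt_exp.2 (by norm_num))
  have hm : v.valuation K m ≠ 0 := by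
    intro h0
    rw [map_mul, map_pow, h0, zero_pow two_ne_zero, mul_zero] at h1
    exact zero_ne_one h1
  refine ⟨log (v.valuation K m), (exp_log hm).symm, ?_⟩
  rw [map_mul, map_pow, hx, ← exp_log hm, Pf_exp_pow, ← exp_add, ← exp_zero] at h1
  have h2 := exp_injective h1
  push_cast at h2
  exact h2

private lemma Pf_mul {v : HeightOneSpectrum (𝓞 K)} {x y : K} {s t u : ℤ}
    (hx : v.valuation K x ≤ exp s) (hy : v.valuation K y ≤ exp t) (hu : s + t ≤ u) :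
    v.valuation K (x * y) ≤ exp u := by
  rw [map_mul]
  refine (mul_le_mul' hx hy).trans ?_
  rw [← exp_add]
  exact exp_le_exp.2 hu

private lemma Pf_pow {v : HeightOneSpectrum (𝓞 K)} {x : K} {s u : ℤ} (k : ℕ)
    (hx : v.valuation K x ≤ exp s) (hu : k * s ≤ u) :
    v.valuation K (x ^ k) ≤ exp u := by
  rw [map_pow]
  refine (pow_le_pow_left' hx k).trans ?_
  rw [Pf_exp_pow]
  exact exp_le_exp.2 hu

private lemma Pf_eo {v : HeightOneSpectrum (𝓞 K)} {q : K} {k : ℤ}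
    (hq : v.valuation K q = exp k) : (eo v (sc q) = 1 → Odd k) ∧ (eo v (sc q) = 0 → Even k) := by
  have hq0 : q ≠ 0 := by
    rintro rfl
    rw [map_zero] at hq
    exact exp_ne_zero hq.symm
  have h1 := H38T1.eo_sc (v := v) hq0
  have h2 : ord (v.valuation K) q = -k := by
    unfold ord
    rw [hq, log_exp]
  rw [h1, h2]
  constructor
  · intro h
    have h3 := ZMod.intCast_eq_one_iff_odd.1 h
    obtain ⟨r, hr⟩ := h3
    exact ⟨-r - 1, by omega⟩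
  · intro h
    have h3 := ZMod.intCast_eq_zero_iff_even.1 h
    obtain ⟨r, hr⟩ := h3
    exact ⟨-r, by omega⟩

private lemma Pf_disc {g : WithZero (Multiplicative ℤ)} {k : ℤ} (h : g < exp k) :
    g ≤ exp (k - 1) := by
  by_cases hg : g = 0
  · rw [hg]; exact zero_le
  · rw [← exp_log hg] at h ⊢
    rw [exp_lt_exp] at h
    rw [exp_le_exp]
    omega

/-- first case -/
private lemma Pf_case1 {A B : K} {θ : L} (h : Cub K L A B θ) {v : HeightOneSpectrum (𝓞 K)}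
    {w : HeightOneSpectrum (𝓞 L)} (hr : Rm K A B θ v w) {p q : K} (hq : q ≠ 0)
    (hp1 : v.valuation K p = exp 0) (hq1 : v.valuation K q ≤ exp 0)
    (hN : ∃ m : K, m ≠ 0 ∧ v.valuation K ((p ^ 3 + A / 4 * p * q ^ 2 - B / 8 * q ^ 3) * m ^ 2 - 1)
      ≤ exp (-3)) {i j : ZMod 2}
    (hij : Nr w (ev (θ / 2) ![p, q, 0]) (rho θ i j)) :
    (eo v (sc q) = 1 → j = 0) ∧ (eo v (sc q) = 0 → i = 0) := by
  obtain ⟨hA, hB, vA, vB⟩ := Pf_a hr
  obtain ⟨m, hm0, hm⟩ := hN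
  have hVN : v.valuation K (p ^ 3 + A / 4 * p * q ^ 2 - B / 8 * q ^ 3) = exp 0 := by
    have e : p ^ 3 + A / 4 * p * q ^ 2 - B / 8 * q ^ 3 =
        p ^ 3 + (A / 4 * p * q ^ 2 - B / 8 * q ^ 3) := by ring
    have h3 : v.valuation K (p ^ 3) = exp 0 := by
      rw [map_pow, hp1, Pf_exp_pow]
      norm_num
    have h4 : v.valuation K (A / 4 * p * q ^ 2 - B / 8 * q ^ 3) ≤ exp (-1) := by
      refine (Valuation.map_sub _ _ _).trans (max_le ?_ ?_)
      · exact Pf_mul (Pf_mul vA.le hp1.le (u := -2) (by norm_num))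
          (Pf_pow 2 hq1 (u := 0) (by norm_num)) (by norm_num)
      · exact Pf_mul vB.le (Pf_pow 3 hq1 (u := 0) (by norm_num)) (by norm_num)
    rw [e, Valuation.map_add_eq_of_lt_left, h3]
    rw [h3]
    exact h4.trans_lt (exp_lt_exp.2 (by norm_num))
  obtain ⟨s, hs, hs0⟩ := Pf_even hVN hm
  have hs' : s = 0 := by omega
  rw [hs'] at hs
  obtain ⟨n0, hn0⟩ := Pf_Cg_nat hr (x := p) (hp1.trans exp_zero).le
  obtain ⟨n1, hn1⟩ := Pf_Cg_nat hr (x := q) (hq1.trans_eq exp_zero)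
  obtain ⟨nm, hnm⟩ := Pf_Cg_nat hr (x := m) (hs.trans exp_zero).le
  have hcg : Pf_Cg v ((p ^ 3 + A / 4 * p * q ^ 2 - B / 8 * q ^ 3) * m ^ 2 - ((1 : ℤ) : K))
      ((((((n0 : ℕ) : ℤ) ^ 3 + 4 * ((n0 : ℕ) : ℤ) * ((n1 : ℕ) : ℤ) ^ 2 -
      2 * ((n1 : ℕ) : ℤ) ^ 3) * ((nm : ℕ) : ℤ) ^ 2 - 1 : ℤ)) : K) := by
    have h5 := Pf_Cg_sub (Pf_Cg_mul (Pf_Cg_sub (Pf_Cg_add (Pf_Cg_pow hn0 3)
      (Pf_Cg_mul (Pf_Cg_mul hA hn0) (Pf_Cg_pow hn1 2))) (Pf_Cg_mul hB (Pf_Cg_pow hn1 3)))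
      (Pf_Cg_pow hnm 2)) (Pf_Cg_int v 1)
    push_cast at h5 ⊢
    exact h5
  have h8 := Pf_Cg_dvd' hr.two hcg (k := 3) le_rfl (by
    rw [Int.cast_one]
    exact hm)
  obtain ⟨z1, z2, i', j', d0, d1, d2, hj, hi⟩ := Pf_fin1 n0 n1 nm (by norm_num at h8; exact h8)
  have h9 := Pf_main h hr (c := ![p, q, 0]) (n := ![((n0 : ℕ) : ℤ), ((n1 : ℕ) : ℤ), 0]) (by
    intro t
    fin_cases t
    · exact hn0
    · exact hn1
    · have := Pf_Cg_int v 0
      rw [Int.cast_zero] at this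
      simpa using this) d0 d1 d2
  obtain ⟨ei, ej⟩ := rm_uniq h hr hij h9
  have hVq : v.valuation K q ≠ 0 := (Valuation.ne_zero_iff _).2 hq
  obtain ⟨k, hk⟩ : ∃ k : ℤ, v.valuation K q = exp k := ⟨_, (exp_log hVq).symm⟩
  rw [hk, exp_le_exp] at hq1
  obtain ⟨o1, o2⟩ := Pf_eo hk
  constructor
  · intro h1
    have h10 : (2 : ℤ) ^ 1 ∣ ((n1 : ℕ) : ℤ) := by
      refine Pf_Cg_dvd' hr.two hn1 (by norm_num) ?_
      rw [hk, exp_le_exp]
      obtain ⟨k', hk'⟩ := o1 h1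
      push_cast
      omega
    rw [ej, hj (by simpa using h10)]
    simp
  · intro h1
    obtain ⟨k', hk'⟩ := o2 h1
    have h10 : ¬ (2 : ℤ) ∣ ((n1 : ℕ) : ℤ) ∨ (4 : ℤ) ∣ ((n1 : ℕ) : ℤ) := by
      by_cases hk0 : k = 0
      · left
        intro h11
        have h12 := Pf_Cg_dvd hr.two hn1 (k := 1) (by norm_num) (by simpa using h11)
        rw [hk, exp_le_exp] at h12
        push_cast at h12
        omega
      · right
        have h12 := Pf_Cg_dvd' hr.two hn1 (k := 2) (by norm_num) (by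
          rw [hk, exp_le_exp]
          push_cast
          omega)
        norm_num at h12
        exact h12
    rw [ei, hi h10]
    simp

/-- second case -/
private lemma Pf_case2 {A B : K} {θ : L} (h : Cub K L A B θ) {v : HeightOneSpectrum (𝓞 K)}
    {w : HeightOneSpectrum (𝓞 L)} (hr : Rm K A B θ v w) {p q : K}
    (hp1 : v.valuation K p ≤ exp (-2)) (hq1 : v.valuation K q = exp (-1))
    (hN : ∃ m : K, m ≠ 0 ∧ v.valuation K ((p ^ 3 + A / 4 * p * q ^ 2 - B / 8 * q ^ 3) * m ^ 2 - 1)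
      ≤ exp (-3)) {i j : ZMod 2}
    (hij : Nr w (ev (θ / 2) ![p, q, 0]) (rho θ i j)) :
    (eo v (sc q) = 1 → j = 0) ∧ (eo v (sc q) = 0 → i = 0) := by
  obtain ⟨o1, o2⟩ := Pf_eo hq1
  refine ⟨fun _ => ?_, fun h1 => ?_⟩
  swap
  · obtain ⟨k', hk'⟩ := o2 h1
    omega
  obtain ⟨hA, hB, vA, vB⟩ := Pf_a hr
  obtain ⟨m, hm0, hm⟩ := hN
  have v2 : ∀ k : ℕ, v.valuation K (2 ^ k : K) = exp (-(k : ℤ)) := by
    intro k
    rw [map_pow, hr.two, Pf_exp_pow]
    congr 1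
    ring
  -- new variables
  obtain ⟨P, hP⟩ : ∃ P : K, p = 4 * P := ⟨p / 4, by ring⟩
  obtain ⟨Q, hQ⟩ : ∃ Q : K, q = 2 * Q := ⟨q / 2, by ring⟩
  obtain ⟨a, ha⟩ : ∃ a : K, A / 4 = 4 * a := ⟨A / 4 / 4, by ring⟩
  obtain ⟨b, hb⟩ : ∃ b : K, B / 8 = 2 * b := ⟨B / 8 / 2, by ring⟩
  have e4 : (4 : K) = 2 ^ 2 := by norm_num
  have e2 : (2 : K) = 2 ^ 1 := by norm_num
  have dv : ∀ (k : ℕ) (x : K) (s : ℤ), v.valuation K (2 ^ k * x) ≤ exp s →
      v.valuation K x ≤ exp (s + k) := by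
    intro k x s hx
    have e : x = (2 ^ k)⁻¹ * (2 ^ k * x) := by field_simp
    rw [e, map_mul, map_inv₀, v2, ← exp_neg, neg_neg]
    refine (mul_le_mul' le_rfl hx).trans ?_
    rw [← exp_add, exp_le_exp]
    omega
  have vP : v.valuation K P ≤ 1 := by
    have h1 := dv 2 P (-2) (by rw [← e4, ← hP]; exact hp1)
    rw [← exp_zero]
    exact h1
  have vQ : v.valuation K Q ≤ 1 := by
    have h1 := dv 1 Q (-1) (by rw [← e2, ← hQ]; exact hq1.le)
    rw [← exp_zero]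
    exact h1
  have cP : ∃ n : Fin 8, Pf_Cg v P (((n : ℕ) : ℤ) : K) := Pf_Cg_nat hr vP
  obtain ⟨n0, hn0⟩ := cP
  obtain ⟨n1, hn1⟩ := Pf_Cg_nat hr vQ
  have ca : Pf_Cg v a ((1 : ℤ) : K) := by
    have h1 : v.valuation K (a - 1) ≤ exp (-3) := by
      have h2 := dv 2 (a - 1) (-7) (by
        have e : (2 : K) ^ 2 * (a - 1) = A / 4 - 4 := by
          rw [ha]
          ring
        rw [e]
        exact hr.A4)
      refine h2.trans (exp_le_exp.2 (by norm_num))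
    refine ⟨by push_cast; exact h1, ?_, Pf_int v 1⟩
    have e : a = (a - 1) + 1 := by ring
    rw [e]
    refine (Valuation.map_add _ _ _).trans (max_le (h1.trans ?_) (map_one _).le)
    rw [← exp_zero]
    exact exp_le_exp.2 (by norm_num)
  have cb : Pf_Cg v b ((1 : ℤ) : K) := by
    have h1 : v.valuation K (b - 1) ≤ exp (-3) := by
      have h2 := dv 1 (b - 1) (-7) (by
        have e : (2 : K) ^ 1 * (b - 1) = B / 8 - 2 := by
          rw [hb]
          ring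
        rw [e]
        exact hr.B8)
      refine h2.trans (exp_le_exp.2 (by norm_num))
    refine ⟨by push_cast; exact h1, ?_, Pf_int v 1⟩
    have e : b = (b - 1) + 1 := by ring
    rw [e]
    refine (Valuation.map_add _ _ _).trans (max_le (h1.trans ?_) (map_one _).le)
    rw [← exp_zero]
    exact exp_le_exp.2 (by norm_num)
  -- the valuation of the norm
  have vN : v.valuation K (p ^ 3 + A / 4 * p * q ^ 2 - B / 8 * q ^ 3) = exp (-4) := by
    have h3 : v.valuation K (B / 8 * q ^ 3) = exp (-4) := by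
      rw [map_mul, map_pow, vB, hq1, Pf_exp_pow, ← exp_add]
      norm_num
    rw [Valuation.map_sub_eq_of_lt_right, h3]
    rw [h3]
    have h4 : v.valuation K (p ^ 3 + A / 4 * p * q ^ 2) ≤ exp (-6) := by
      refine Valuation.map_add_le _ (Pf_pow 3 hp1 (by norm_num)) ?_
      exact Pf_mul (Pf_mul vA.le hp1 (u := -4) (by norm_num))
        (Pf_pow 2 hq1.le (u := -2) (by norm_num)) (by norm_num)
    exact h4.trans_lt (exp_lt_exp.2 (by norm_num))
  obtain ⟨s, hs, hs0⟩ := Pf_even vN hm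
  have hs' : s = 2 := by omega
  rw [hs'] at hs
  obtain ⟨M, hM⟩ : ∃ M : K, M = 4 * m := ⟨_, rfl⟩
  have vM : v.valuation K M ≤ 1 := by
    rw [hM, map_mul, e4, v2, hs, ← exp_add, ← exp_zero]
    exact exp_le_exp.2 (by norm_num)
  obtain ⟨nm, hnm⟩ := Pf_Cg_nat hr vM
  have hcg : Pf_Cg v ((((4 : ℤ) : K) * P ^ 3 + ((4 : ℤ) : K) * a * P * Q ^ 2 - b * Q ^ 3) * M ^ 2 -
      ((1 : ℤ) : K))
      ((((4 * ((n0 : ℕ) : ℤ) ^ 3 + 4 * ((n0 : ℕ) : ℤ) * ((n1 : ℕ) : ℤ) ^ 2 -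
      ((n1 : ℕ) : ℤ) ^ 3) * ((nm : ℕ) : ℤ) ^ 2 - 1 : ℤ)) : K) := by
    have h5 := Pf_Cg_sub (Pf_Cg_mul (Pf_Cg_sub (Pf_Cg_add (Pf_Cg_mul (Pf_Cg_int v 4)
      (Pf_Cg_pow hn0 3)) (Pf_Cg_mul (Pf_Cg_mul (Pf_Cg_mul (Pf_Cg_int v 4) ca) hn0)
      (Pf_Cg_pow hn1 2))) (Pf_Cg_mul cb (Pf_Cg_pow hn1 3)))
      (Pf_Cg_pow hnm 2)) (Pf_Cg_int v 1)
    push_cast at h5 ⊢
    rw [mul_one, one_mul] at h5
    exact h5
  have h8 := Pf_Cg_dvd' hr.two hcg (k := 3) le_rfl (by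
    have e : (((4 : ℤ) : K) * P ^ 3 + ((4 : ℤ) : K) * a * P * Q ^ 2 - b * Q ^ 3) * M ^ 2 -
      ((1 : ℤ) : K) = (p ^ 3 + A / 4 * p * q ^ 2 - B / 8 * q ^ 3) * m ^ 2 - 1 := by
      rw [hM, hP, hQ, ha, hb]
      push_cast
      ring
    rw [e]
    exact hm)
  obtain ⟨z1, z2, i', d0, d1, d2⟩ := Pf_fin2 n0 n1 nm (by norm_num at h8; exact h8)
  have h9 := Pf_main h hr (c := ![-(b * Q), ((-2 : ℤ) : K) * (a * Q), P])
    (n := ![-((n1 : ℕ) : ℤ), -2 * ((n1 : ℕ) : ℤ), ((n0 : ℕ) : ℤ)]) (by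
    intro t
    fin_cases t
    · have := Pf_Cg_neg (Pf_Cg_mul cb hn1)
      push_cast at this
      rw [one_mul] at this
      simpa using this
    · have := Pf_Cg_mul (Pf_Cg_int v (-2)) (Pf_Cg_mul ca hn1)
      push_cast at this
      rw [one_mul] at this
      simpa using this
    · exact hn0) d0 d1 d2
  have hroot := (rm_cub h).root
  have e3 : ev (θ / 2) ![-(b * Q), ((-2 : ℤ) : K) * (a * Q), P] =
      ev (θ / 2) ![p, q, 0] * (θ / 4) ^ 2 := by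
    rw [ha, hb] at hroot
    have m2 : algebraMap K L 2 = 2 := map_ofNat _ 2
    have m4 : algebraMap K L 4 = 4 := map_ofNat _ 4
    rw [hP, hQ]
    simp only [ev, Matrix.cons_val_zero, Matrix.cons_val_one, Matrix.cons_val_two,
      Matrix.head_cons, Matrix.tail_cons, map_mul, map_neg,
      map_zero, m2, m4, map_intCast] at hroot ⊢
    push_cast
    linear_combination (-(1 / 2 : L) * algebraMap K L Q) * hroot
  rw [e3] at h9
  have hθ : θ ≠ 0 := by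
    rintro rfl
    have := hr.om
    rw [zero_div, map_zero] at this
    exact exp_ne_zero this.symm
  obtain ⟨z, hz, hz'⟩ := h9
  have h10 : Nr w (ev (θ / 2) ![p, q, 0])
      (rho θ (if i' then 1 else 0) (if false then 1 else 0)) := by
    refine ⟨θ / 4 * z, mul_ne_zero (div_ne_zero hθ (by norm_num)) hz, ?_⟩
    rw [mul_pow, ← mul_assoc]
    exact hz'
  exact (rm_uniq h hr hij h10).2

/-- the four cases -/
private lemma Pf_lin0 {A B : K} {θ : L} (h : Cub K L A B θ) {v : HeightOneSpectrum (𝓞 K)}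
    {w : HeightOneSpectrum (𝓞 L)} (hr : Rm K A B θ v w) {p q : K} (hq : q ≠ 0)
    (hM : max (v.valuation K p) (v.valuation K q) = exp 0 ∨
      max (v.valuation K p) (v.valuation K q) = exp (-1))
    (hN : ∃ m : K, m ≠ 0 ∧ v.valuation K ((p ^ 3 + A / 4 * p * q ^ 2 - B / 8 * q ^ 3) * m ^ 2 - 1)
      ≤ exp (-3)) {i j : ZMod 2}
    (hij : Nr w (ev (θ / 2) ![p, q, 0]) (rho θ i j)) :
    (eo v (sc q) = 1 → j = 0) ∧ (eo v (sc q) = 0 → i = 0) := by
  obtain ⟨hA, hB, vA, vB⟩ := Pf_a hr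
  rcases hM with hM | hM
  · have hp1 : v.valuation K p ≤ exp 0 := (le_max_left _ _).trans_eq hM
    have hq1 : v.valuation K q ≤ exp 0 := (le_max_right _ _).trans_eq hM
    by_cases hp2 : v.valuation K p = exp 0
    · exact Pf_case1 h hr hq hp2 hq1 hN hij
    · exfalso
      have hp3 := Pf_disc (lt_of_le_of_ne hp1 hp2)
      have hq2 : v.valuation K q = exp 0 := by
        rcases max_choice (v.valuation K p) (v.valuation K q) with h1 | h1
        · exact absurd (h1.symm.trans hM) hp2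
        · exact h1.symm.trans hM
      obtain ⟨m, hm0, hm⟩ := hN
      have vN : v.valuation K (p ^ 3 + A / 4 * p * q ^ 2 - B / 8 * q ^ 3) = exp (-1) := by
        have h3 : v.valuation K (B / 8 * q ^ 3) = exp (-1) := by
          rw [map_mul, map_pow, vB, hq2, Pf_exp_pow, ← exp_add]
          norm_num
        rw [Valuation.map_sub_eq_of_lt_right, h3]
        rw [h3]
        have h4 : v.valuation K (p ^ 3 + A / 4 * p * q ^ 2) ≤ exp (-3) := by
          refine Valuation.map_add_le _ (Pf_pow 3 hp3 (by norm_num)) ?_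
          exact Pf_mul (Pf_mul vA.le hp3 (u := -3) (by norm_num))
            (Pf_pow 2 hq2.le (u := 0) (by norm_num)) (by norm_num)
        exact h4.trans_lt (exp_lt_exp.2 (by norm_num))
      obtain ⟨s, hs, hs0⟩ := Pf_even vN hm
      omega
  · have hp1 : v.valuation K p ≤ exp (-1) := (le_max_left _ _).trans_eq hM
    have hq1 : v.valuation K q ≤ exp (-1) := (le_max_right _ _).trans_eq hM
    by_cases hp2 : v.valuation K p = exp (-1)
    · exfalso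
      obtain ⟨m, hm0, hm⟩ := hN
      have vN : v.valuation K (p ^ 3 + A / 4 * p * q ^ 2 - B / 8 * q ^ 3) = exp (-3) := by
        have e : p ^ 3 + A / 4 * p * q ^ 2 - B / 8 * q ^ 3 =
            p ^ 3 + (A / 4 * p * q ^ 2 - B / 8 * q ^ 3) := by ring
        have h3 : v.valuation K (p ^ 3) = exp (-3) := by
          rw [map_pow, hp2, Pf_exp_pow]
          norm_num
        rw [e, Valuation.map_add_eq_of_lt_left, h3]
        rw [h3]
        have h4 : v.valuation K (A / 4 * p * q ^ 2 - B / 8 * q ^ 3) ≤ exp (-4) := by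
          refine (Valuation.map_sub _ _ _).trans (max_le ?_ ?_)
          · exact Pf_mul (Pf_mul vA.le hp1 (u := -3) (by norm_num))
              (Pf_pow 2 hq1 (u := -2) (by norm_num)) (by norm_num)
          · exact Pf_mul vB.le (Pf_pow 3 hq1 (u := -3) (by norm_num)) (by norm_num)
        exact h4.trans_lt (exp_lt_exp.2 (by norm_num))
      obtain ⟨s, hs, hs0⟩ := Pf_even vN hm
      omega
    · have hp3 := Pf_disc (lt_of_le_of_ne hp1 hp2)
      have hq2 : v.valuation K q = exp (-1) := by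
        rcases max_choice (v.valuation K p) (v.valuation K q) with h1 | h1
        · exact absurd (h1.symm.trans hM) hp2
        · exact h1.symm.trans hM
      exact Pf_case2 h hr hp3 hq2 hN hij

private lemma Pf_max (V : Valuation K (WithZero (Multiplicative ℤ))) (p q s : K) :
    max (V (p * s)) (V (q * s)) = max (V p) (V q) * V s := by
  rw [map_mul, map_mul]
  rcases le_total (V p) (V q) with h | h
  · rw [max_eq_right h, max_eq_right (mul_le_mul' h le_rfl)]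
  · rw [max_eq_left h, max_eq_left (mul_le_mul' h le_rfl)]

theorem rm_lin {A B : K} {θ : L} (h : Cub K L A B θ) {v : HeightOneSpectrum (𝓞 K)}
    {w : HeightOneSpectrum (𝓞 L)} (hr : Rm K A B θ v w) {p q : K} (hq : q ≠ 0)
    (hN : ∃ m : K, m ≠ 0 ∧ v.valuation K (Algebra.norm K (algebraMap K L p +
      algebraMap K L q * (θ / 2)) * m ^ 2 - 1) ≤ v.valuation K 8) {i j : ZMod 2}
    (hij : Nr w (algebraMap K L p + algebraMap K L q * (θ / 2)) (rho θ i j)) :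
    (eo v (sc q) = 1 → j = 0) ∧ (eo v (sc q) = 0 → i = 0) := by
  have hev : algebraMap K L p + algebraMap K L q * (θ / 2) = ev (θ / 2) ![p, q, 0] := by
    simp [ev]
  rw [hev] at hN hij
  rw [Te_norm (rm_cub h), Pf_v8 hr] at hN
  have enf : Te_nf (A / 4) (B / 8) ![p, q, 0] =
      p ^ 3 + A / 4 * p * q ^ 2 - B / 8 * q ^ 3 := by
    simp [Te_nf]
    ring
  rw [enf] at hN
  have hM0 : max (v.valuation K p) (v.valuation K q) ≠ 0 := by
    intro h0
    have h1 : v.valuation K q ≤ 0 := (le_max_right _ _).trans_eq h0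
    exact (Valuation.ne_zero_iff _).2 hq (le_zero_iff.1 h1)
  obtain ⟨n, hn⟩ : ∃ n : ℤ, max (v.valuation K p) (v.valuation K q) = exp n :=
    ⟨_, (exp_log hM0).symm⟩
  obtain ⟨k, hk⟩ : ∃ k : ℤ, k = (n + 1) / 2 := ⟨_, rfl⟩
  obtain ⟨s, hs⟩ : ∃ s : K, s = (2 : K) ^ k := ⟨_, rfl⟩
  have hs0 : s ≠ 0 := by
    rw [hs]
    exact zpow_ne_zero _ two_ne_zero
  have vs : v.valuation K (s ^ 2) = exp (-(2 * k)) := by
    rw [hs, map_pow, map_zpow₀, hr.two, ← exp_zsmul, Pf_exp_pow]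
    congr 1
    simp
  have h1 := Pf_max (v.valuation K) p q (s ^ 2)
  rw [hn, vs, ← exp_add] at h1
  have heo : eo v (sc (q * s ^ 2)) = eo v (sc q) := by
    rw [H38T1.eo_sc (mul_ne_zero hq (pow_ne_zero 2 hs0)), H38T1.eo_sc hq]
    unfold ord
    rw [map_mul, vs]
    have hVq : v.valuation K q ≠ 0 := (Valuation.ne_zero_iff _).2 hq
    rw [← exp_log hVq, ← exp_add, log_exp, log_exp]
    have h2 : (2 : ZMod 2) = 0 := by decide
    push_cast
    rw [h2]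
    ring
  rw [← heo]
  refine Pf_lin0 h hr (p := p * s ^ 2) (q := q * s ^ 2) (mul_ne_zero hq (pow_ne_zero 2 hs0))
    ?_ ?_ ?_
  · rw [h1]
    have h2 : n + -(2 * k) = 0 ∨ n + -(2 * k) = -1 := by omega
    rcases h2 with h2 | h2 <;> rw [h2]
    · left; rfl
    · right; rfl
  · obtain ⟨m, hm0, hm⟩ := hN
    refine ⟨m / s ^ 3, div_ne_zero hm0 (pow_ne_zero 3 hs0), ?_⟩
    have e : ((p * s ^ 2) ^ 3 + A / 4 * (p * s ^ 2) * (q * s ^ 2) ^ 2 -
        B / 8 * (q * s ^ 2) ^ 3) * (m / s ^ 3) ^ 2 =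
        (p ^ 3 + A / 4 * p * q ^ 2 - B / 8 * q ^ 3) * m ^ 2 := by
      field_simp
    rw [e]
    exact hm
  · obtain ⟨z, hz, hz'⟩ := hij
    have hsL : algebraMap K L s ≠ 0 := (map_ne_zero _).2 hs0
    refine ⟨z / algebraMap K L s, div_ne_zero hz hsL, ?_⟩
    have e : ev (θ / 2) ![p * s ^ 2, q * s ^ 2, 0] * (z / algebraMap K L s) ^ 2 =
        ev (θ / 2) ![p, q, 0] * z ^ 2 := by
      simp only [ev, Matrix.cons_val_zero, Matrix.cons_val_one, Matrix.cons_val_two,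
        Matrix.head_cons, Matrix.tail_cons, map_mul, map_pow, map_zero]
      field_simp
      ring
    rw [e]
    exact hz'

theorem kum_P {A B : 𝓞 K} {θ : L} (h : Cub K L (A : K) (B : K) θ)
    {v : HeightOneSpectrum (𝓞 K)} {w : HeightOneSpectrum (𝓞 L)}
    (hr : Rm K (A : K) (B : K) θ v w) {I J : SC L →+ ZMod 2} (hij : IJ K θ w I J)
    {E : 𝓞 K} (hE : E ≠ 0) {d : Fin 3 → K} (hd0 : ev (algebraMap K L E * θ) d ≠ 0)
    (hN : IsSquare (Algebra.norm K (ev (algebraMap K L E * θ) d)))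
    (hLC : LC (algebraMap K (v.adicCompletion K)) ((E : K) ^ 2 * A) ((E : K) ^ 3 * B) d) :
    (eo v (sc (E : K)) = 0 → J (sc (ev (algebraMap K L E * θ) d)) = 0) ∧
    (eo v (sc (E : K)) = 1 → I (sc (ev (algebraMap K L E * θ) d)) = 0) := by
  have hE' : (E : K) ≠ 0 := by
    intro h0
    exact hE (NumberField.RingOfIntegers.coe_eq_zero_iff.1 h0)
  have h' : Cub K L ((E ^ 2 * A : 𝓞 K) : K) ((E ^ 3 * B : 𝓞 K) : K) (algebraMap K L E * θ) := by
    have h1 := Tf_twist h hE'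
    push_cast
    exact h1
  obtain ⟨x, N, hx⟩ := H54PR.LC_two h' hd0 v (by
    push_cast
    exact hLC)
  obtain ⟨hx1, hx2⟩ := hx x (by
    rw [sub_self, map_zero]
    exact zero_le)
  obtain ⟨m', hm', hm1⟩ := hx2 w hr.dn
  obtain ⟨i, hi⟩ : ∃ i, i = I (sc (ev (algebraMap K L E * θ) d)) := ⟨_, rfl⟩
  obtain ⟨j, hj⟩ : ∃ j, j = J (sc (ev (algebraMap K L E * θ) d)) := ⟨_, rfl⟩
  obtain ⟨z, hz, hz1⟩ := hij.nr _ hd0 hN
  rw [← hi, ← hj] at hz1 ⊢
  obtain ⟨y, hy⟩ : ∃ y, y = ev (algebraMap K L E * θ) d := ⟨_, rfl⟩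
  rw [← hy] at hd0 hm1 hz1
  have el : algebraMap K L x + algebraMap K L (-2 * (E : K)) * (θ / 2) =
      algebraMap K L x - algebraMap K L E * θ := by
    have m2 : algebraMap K L 2 = 2 := map_ofNat _ 2
    rw [map_mul, map_neg, m2]
    ring
  have hEq : (-2 * (E : K)) ≠ 0 := mul_ne_zero (neg_ne_zero.2 two_ne_zero) hE'
  have w8 : w.valuation L (8 : L) = exp (-9) := by
    have h1 := hr.val 8
    rw [map_ofNat, Pf_v8 hr, Pf_exp_pow] at h1
    rw [h1]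
    norm_num
  have wrho : w.valuation L (rho θ i j) = 1 := by
    have h2 : ∀ i : ZMod 2, ∃ b : Bool, i = if b then 1 else 0 := by decide
    obtain ⟨b1, e1⟩ := h2 i
    obtain ⟨b2, e2⟩ := h2 j
    rw [e1, e2, Pf_rho (K := K), rm_val hr]
    have h0 : v.valuation K ((Pf_r b1 b2 0 : ℤ) : K) = 1 := by
      have h1 : Pf_r b1 b2 0 = 1 ∨ Pf_r b1 b2 0 = -1 := by
        revert b1 b2
        intro b1 _ b2 _
        cases b1 <;> cases b2 <;> decide
      rcases h1 with h1 | h1 <;> rw [h1]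
      · rw [Int.cast_one, map_one]
      · rw [Int.cast_neg, Int.cast_one, Valuation.map_neg, map_one]
    rw [h0, one_pow]
    apply max_eq_left
    refine max_le ?_ ?_
    · refine (mul_le_mul' (pow_le_one' (Pf_int v _) 3) le_rfl).trans ?_
      rw [one_mul, ← exp_zero, exp_le_exp]
      norm_num
    · refine (mul_le_mul' (pow_le_one' (Pf_int v _) 3) le_rfl).trans ?_
      rw [one_mul, ← exp_zero, exp_le_exp]
      norm_num
  have hyz : w.valuation L (y * z ^ 2) = 1 := by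
    have e : y * z ^ 2 = (y * z ^ 2 - rho θ i j) + rho θ i j := by ring
    rw [e, Valuation.map_add_eq_of_lt_right, wrho]
    rw [wrho]
    refine hz1.trans ?_
    rw [Pf_w4 hr, ← exp_zero, exp_lt_exp]
    norm_num
  have hNr : Nr w (algebraMap K L x + algebraMap K L (-2 * (E : K)) * (θ / 2)) (rho θ i j) := by
    refine ⟨m' * y * z, mul_ne_zero (mul_ne_zero hm' hd0) hz, ?_⟩
    rw [el]
    have e : (algebraMap K L x - algebraMap K L E * θ) * (m' * y * z) ^ 2 - rho θ i j =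
        (y * (algebraMap K L x - algebraMap K L E * θ) * m' ^ 2 - 1) * (y * z ^ 2) +
          (y * z ^ 2 - rho θ i j) := by ring
    rw [e]
    refine (Valuation.map_add _ _ _).trans_lt (max_lt ?_ hz1)
    rw [map_mul, hyz, mul_one]
    refine hm1.trans_lt ?_
    rw [w8, Pf_w4 hr, exp_lt_exp]
    norm_num
  have hNN : ∃ m : K, m ≠ 0 ∧ v.valuation K (Algebra.norm K (algebraMap K L x +
      algebraMap K L (-2 * (E : K)) * (θ / 2)) * m ^ 2 - 1) ≤ v.valuation K 8 := by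
    rw [el, h'.norm_sub]
    exact hx1
  have key := rm_lin h hr hEq hNN hNr
  have heo : eo v (sc (-2 * (E : K))) = eo v (sc (E : K)) + 1 := by
    rw [H38T1.eo_sc hEq, H38T1.eo_sc hE']
    unfold ord
    have hVE : v.valuation K (E : K) ≠ 0 := (Valuation.ne_zero_iff _).2 hE'
    rw [map_mul, Valuation.map_neg, hr.two, ← exp_log hVE, ← exp_add, log_exp, log_exp]
    push_cast
    ring
  rw [heo] at key
  constructor
  · intro h0
    refine key.1 ?_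
    rw [h0]
    decide
  · intro h0
    refine key.2 ?_
    rw [h0]
    decide

end H76MQ
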