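import Pool.Agent.H76.MQ.Dl
import Pool.Agent.H76.MQ.Lx
import Pool.Agent.H76.MQ.Ee
import Pool.Agent.H76.MQ.Tk
import Pool.Agent.H76.MQ.Ak
import Pool.Agent.H76.MQ.Pf
import Pool.Agent.H73.P2.Nq
import Pool.Agent.H73.P2.Gd

/-!
ROW Sb (project MP_78d38b_MQT, about 200 lines): the relaxed Selmer groups of the twists are trivial.

`E = Dd * d ∈ 𝓞 K`, nonzero. Let `δ = ev (E θ) d'` be as in `RelTriv` (norm a square, even outside `P`, local conditions at `v ∈ P` and at the real places), `c = sc δ`. Claim `D.X J c`: `scm norm c = 0`. For `w` with `v = dn K w ∉ C.S ∪ J`: if `v ∉ P` by hypothesis; if `v ∈ P` and `v ≠ q₀`: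
`eo v (sc E) = eo v (sc Dd) + eo v (sc d) = 0` (`hD.even`, `hd.out`: `v ∉ C.P, C.R`), even_loc with `hF.sqf`; if `v = q₀`: `H73P2.even_unique` (no root modulo `q₀`, `hF.irr`). For `v ∈ J`: `eo v (sc E) = 1 + 0` (`hD.odd`, `hd.out`), kum_T (`OddP v`: `H36MT.TjS_odd`, six_notMem).
Now `v ∈ C.P`. `Dd` is a square in `K_v` and in `K_{a v}` (`hD.loc`, `v, C.a v ∈ C.S`): so `eo v (sc Dd) = 0`, `eo (C.a v) (sc Dd) = 0`, `la (C.a v) (sc Dd) = 0` (from `v.valuation (Dd * m^2 - 1) < v.valuation 4 ≤ 1`; e.g. `H54MT.tp_near`-type lemmas). So `eo v (sc E) = eo v (sc d) = la (C.a v) (sc d) = la (C.a v) (sc E)` (`hd.leg`)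
and `eo (C.a v) (sc E) = 0` (`hd.out`: `C.a v ∉ C.P, C.R`). kum_P at `v ∈ C.S ⊆ P`, kum_A at `C.a v`.
If `eo v (sc E) = 0`: `D.J v c = 0`, `la (a₁ v) c = ro v * eo (a₂ v) c`, i.e. `D.ja v c = 0`; by `hJ`: `D.I v c = D.ja v c = 0`. If it is `1`: `D.I v c = 0` and `D.ia v c = 0` (`n + (m + ρ n)` with `m = (ρ + 1) n`), so `D.J v c = D.ia v c = 0`. Hence `c = 0` by `hJ`, `δ` is a square.
-/

set_option autoImplicit false
set_option linter.unusedSectionVars false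
open scoped Classical

open WithZero NumberField IsDedekindDomain H38RT
open H38T1 (SC sc scu rep eo la si Pri OddP tp unif ka)
open H76PP

namespace H76MQ

variable {K L : Type} [Field K] [NumberField K] [Field L] [NumberField L] [Algebra K L]

theorem Sb_odd_six {v : HeightOneSpectrum (𝓞 K)} (h6 : (6 : 𝓞 K) ∉ v.asIdeal) :
    (2 : 𝓞 K) ∉ v.asIdeal ∧ (3 : 𝓞 K) ∉ v.asIdeal := by
  refine ⟨fun h => h6 ?_, fun h => h6 ?_⟩
  · have h1 : (6 : 𝓞 K) = 3 * 2 := by norm_num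
    rw [h1]
    exact v.asIdeal.mul_mem_left _ h
  · have h1 : (6 : 𝓞 K) = 2 * 3 := by norm_num
    rw [h1]
    exact v.asIdeal.mul_mem_left _ h

theorem Sb_val_three {v : HeightOneSpectrum (𝓞 K)} (h3 : (3 : 𝓞 K) ∉ v.asIdeal) :
    v.valuation K 3 = 1 := by
  have h1 := (v.valuation_eq_one_iff_notMem (K := K) (r := (3 : 𝓞 K))).2 h3
  rw [← h1]
  congr 1

theorem Sb_val_four (v : HeightOneSpectrum (𝓞 K)) : v.valuation K 4 ≤ 1 := by
  have h1 := v.valuation_le_one (K := K) (4 : 𝓞 K)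
  have h2 : (algebraMap (𝓞 K) K (4 : 𝓞 K)) = (4 : K) := map_ofNat (algebraMap (𝓞 K) K) 4
  calc v.valuation K 4 = v.valuation K (algebraMap (𝓞 K) K (4 : 𝓞 K)) := by rw [h2]
    _ ≤ 1 := h1

theorem Sb_odd {v : HeightOneSpectrum (𝓞 K)} (h6 : (6 : 𝓞 K) ∉ v.asIdeal) : OddP v := by
  have h3 := (v.valuation_eq_one_iff_notMem (K := K) (r := (2 : 𝓞 K))).2 (Sb_odd_six h6).1
  unfold H38T1.OddP
  rw [← h3]
  congr 1

/-- A square in the completion has even order and trivial residue symbol. -/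
theorem Sb_loc {v : HeightOneSpectrum (𝓞 K)} {x : K} (hx : x ≠ 0)
    (h : ∃ m : K, m ≠ 0 ∧ v.valuation K (x * m ^ 2 - 1) < v.valuation K 4) :
    eo v (sc x) = 0 ∧ (OddP v → la v (sc x) = 0) := by
  obtain ⟨m, hm, h1⟩ := h
  have h2 : v.valuation K (x * m ^ 2 - 1) < 1 := lt_of_lt_of_le h1 (Sb_val_four v)
  have h3 := H54MT.near_one h2
  have hsc : (sc x : SC K) = sc (x * m ^ 2) := by
    rw [H38T1.sc_mul hx (pow_ne_zero 2 hm), H54MT.sc_sq hm, add_zero]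
  rw [hsc]
  refine ⟨?_, fun hv => (Tk_near hv h2).2⟩
  rw [H38T1.eo_sc (mul_ne_zero hx (pow_ne_zero 2 hm))]
  unfold ord
  rw [h3, log_one, neg_zero, Int.cast_zero]

theorem Sb_eo_even {v : HeightOneSpectrum (𝓞 K)} {x : K} (hx : x ≠ 0)
    (h : Even (ord (v.valuation K) x)) : eo v (sc x) = 0 := by
  rw [H38T1.eo_sc hx]
  exact (ZMod.intCast_eq_zero_iff_even).2 h

theorem Sb_eo_odd {v : HeightOneSpectrum (𝓞 K)} {x : K} (hx : x ≠ 0)
    (h : Odd (ord (v.valuation K) x)) : eo v (sc x) = 1 := by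
  rw [H38T1.eo_sc hx]
  exact (ZMod.intCast_eq_one_iff_odd).2 h

theorem Sb_z1 : ∀ r n : ZMod 2, r * n + r * n = 0 := by decide

theorem Sb_z2 : ∀ r n : ZMod 2, n + ((r + 1) * n + r * n) = 0 := by decide

theorem Sb_z3 : ∀ e : ZMod 2, e = 0 ∨ e = 1 := by decide

theorem rel_local {C : Cfg K} (hC : C.Ok) {q₀ : HeightOneSpectrum (𝓞 K)} (hq : q₀ ∉ C.S)
    {T : Finset (HeightOneSpectrum (𝓞 K))} (hT : ∀ v ∈ T, v ∉ C.S ∧ v ≠ q₀)
    {A B : 𝓞 K} (hF : FamQ C q₀ T A B) {θ : L} (h : Cub K L (A : K) (B : K) θ)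
    (hR : HR2 K L A B θ) (D : LData C T A B θ) {J : Finset (HeightOneSpectrum (𝓞 K))}
    (hJT : J ⊆ T)
    (hJ : ∀ c : SC L, D.X J c → (∀ v ∈ C.P, D.ia v c = D.J v c ∧ D.ja v c = D.I v c) ∧
      ((∀ v ∈ C.P, D.I v c = 0 ∧ D.J v c = 0) → c = 0))
    {Dd : 𝓞 K} (hD : H36MT.TwS C.S q₀ J (Dd : K)) {d : 𝓞 K} (hd : TwOk C d)
    {P : Finset (HeightOneSpectrum (𝓞 K))} (hSP : C.S ⊆ P) (hJP : J ⊆ P) :
    H36MT.RelTriv K L P (((Dd * d : 𝓞 K) : K) ^ 2 * A) (((Dd * d : 𝓞 K) : K) ^ 3 * B)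
      (algebraMap K L ((Dd * d : 𝓞 K) : K) * θ) := by
  intro dd hd0 hsq heo hLC hLCr
  have hDK : (Dd : K) ≠ 0 := hD.ne
  have hDd : Dd ≠ 0 := fun h0 => hDK (RingOfIntegers.coe_eq_zero_iff.2 h0)
  have hdK : (d : K) ≠ 0 := fun h0 => hd.ne (RingOfIntegers.coe_eq_zero_iff.1 h0)
  obtain ⟨E, hEdef⟩ : ∃ E : 𝓞 K, E = Dd * d := ⟨_, rfl⟩
  rw [← hEdef] at hd0 hsq heo hLC hLCr ⊢
  have hE : E ≠ 0 := by
    rw [hEdef]
    exact mul_ne_zero hDd hd.ne
  have hscE : (sc (E : K) : SC K) = sc (Dd : K) + sc (d : K) := by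
    have h1 : (E : K) = (Dd : K) * (d : K) := by
      rw [hEdef]
      exact map_mul (algebraMap (𝓞 K) K) Dd d
    rw [h1, H38T1.sc_mul hDK hdK]
  obtain ⟨c, hc⟩ : ∃ c : SC L, c = sc (ev (algebraMap K L (E : K) * θ) dd) := ⟨_, rfl⟩
  have hPS : ∀ v ∈ C.P, v ∈ C.S := fun v hv => Finset.mem_union_left _ hv
  have haS : ∀ v ∈ C.P, C.a v ∈ C.S := fun v hv =>
    Finset.mem_union_right _ (Finset.mem_union_left _ (Finset.mem_image_of_mem _ hv))
  have hRS : ∀ v ∈ C.R, v ∈ C.S := fun v hv =>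
    Finset.mem_union_right _ (Finset.mem_union_right _ hv)
  have hoff : ∀ v : HeightOneSpectrum (𝓞 K), v ∉ C.S → eo v (sc (d : K)) = 0 := fun v hv =>
    hd.out v (fun h1 => hv (hPS v h1)) (fun h1 => hv (hRS v h1))
  have hX : D.X J c := by
    refine ⟨mem_HH.2 ⟨?_, ?_⟩, ?_⟩
    · rw [hc, scm_sc _ hd0]
      exact (H38T1.sc_eq_zero (scm_ne _ hd0)).2 hsq
    · intro w hw
      have hwS : dn K w ∉ C.S := fun h1 => hw (Finset.mem_union_left _ h1)
      have hwJ : dn K w ∉ J := fun h1 => hw (Finset.mem_union_right _ h1)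
      rw [hc]
      by_cases hwP : dn K w ∈ P
      · by_cases hwq : dn K w = q₀
        · refine H73P2.even_unique h w (H73P2.noRootAt_of ?_) hd0 hsq
          rw [hwq]
          exact hF.irr
        · refine even_loc h hE (hF.sqf _ hwS) ?_ hd0 (hLC _ hwP)
          rw [hscE, H38T1.eo_add, hoff _ hwS, add_zero]
          exact Sb_eo_even hDK (hD.even _ hwS hwJ hwq)
      · exact heo w hwP
    · intro v hv
      obtain ⟨hvS, hvq⟩ := hT v (hJT hv)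
      rw [hc]
      refine kum_T h hR (Sb_odd (six_notMem hC hvS)) (hF.sqf v hvS) (D.hT v (hJT hv)) hE ?_
        hd0 hsq (hLC v (hJP hv))
      rw [hscE, H38T1.eo_add, hoff v hvS, add_zero]
      exact Sb_eo_odd hDK (hD.odd v hv)
  obtain ⟨hc1, hc2⟩ := hJ c hX
  have hzero : ∀ v ∈ C.P, D.I v c = 0 ∧ D.J v c = 0 := by
    intro v hv
    obtain ⟨j1, j2⟩ := hc1 v hv
    obtain ⟨n2, n3⟩ := Sb_odd_six (hC.a6 v hv)
    have hao : OddP (C.a v) := Sb_odd (hC.a6 v hv)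
    have haP : C.a v ∉ C.P := fun h1 => n2 ((hC.mem2 _).1 h1)
    have hEv : eo v (sc (E : K)) = eo v (sc (d : K)) := by
      rw [hscE, H38T1.eo_add, (Sb_loc hDK (hD.loc v (hPS v hv))).1, zero_add]
    have hEa : eo (C.a v) (sc (E : K)) = 0 := by
      rw [hscE, H38T1.eo_add, (Sb_loc hDK (hD.loc _ (haS v hv))).1, zero_add]
      exact hd.out _ haP (hC.aR v hv)
    have hLa : la (C.a v) (sc (E : K)) = eo v (sc (d : K)) := by
      rw [hscE, H38T1.la_add hao, (Sb_loc hDK (hD.loc _ (haS v hv))).2 hao, zero_add]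
      exact hd.leg v hv
    obtain ⟨k1, k2⟩ := kum_P h (D.hw v hv) (D.hIJ v hv) hE hd0 hsq (hLC v (hSP (hPS v hv)))
    have k3 := kum_A h hR hao (Sb_val_three n3) (D.hA v hv) hE hEa hd0 hsq
      (hLC _ (hSP (haS v hv)))
    rw [← hc] at k1 k2 k3
    rw [hLa] at k3
    rcases Sb_z3 (eo v (sc (d : K))) with he | he
    · have e1 : D.ja v c = 0 := by
        unfold LData.ja LData.ro
        rw [k3, he, add_zero]
        exact Sb_z1 _ _
      exact ⟨by rw [← j2, e1], k1 (hEv.trans he)⟩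
    · have e1 : D.ia v c = 0 := by
        unfold LData.ia LData.ro
        rw [k3, he]
        exact Sb_z2 _ _
      exact ⟨k2 (hEv.trans he), by rw [← j1, e1]⟩
  have hfin := hc2 hzero
  rw [hc] at hfin
  exact (H38T1.sc_eq_zero hd0).1 hfin

end H76MQ
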