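import Pool.Agent.H76.MQ.Sa
import Pool.Agent.H76.MQ.Sb
import Pool.Agent.H36.MT.As1

/-!
ROW Sc (project MP_78d38b_MQT, about 150 lines): the local main theorem.

`K`-irreducibility: `fam_S` and `H36MT.FamS.no_root`; `H24PD.exists_cub`: `L, θ`; `H36MT.hr2`-type lemma (`hr2 hL hF.dsc_ne` as in `H36MT.good_S`), exists_LData, walk_app gives `J`; rel_local gives RelTriv; then RelG exactly as in the proof of `H36MT.good_S` (H36/MT/As1.lean) with `E = D * d` in place of `D`: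
two: `v.valuation 2 < 1` means `v ∈ C.P ⊆ Sg`; ne, irr the same; nice: for `v ∉ Sg` (so `v ∉ C.S, v ∉ Tall, v ≠ q₀`) `H73P2.NiceAt v (E^2 A) (E^3 B)` as in `H36MT.nice_tw` (its proof only needs that the order of `E` at `v` is even and `dsc ∉ v^2`; `eo v (sc E) = eo v (sc D) + eo v (sc d) = 0`); rel: `RelTriv.equiv`, `RelTriv.toRelT`.
-/

set_option autoImplicit false
set_option linter.unusedSectionVars false
open scoped Classical

open WithZero NumberField IsDedekindDomain H38RT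
open H38T1 (SC sc scu rep eo la si Pri OddP tp unif ka)
open H76PP

namespace H76MQ

theorem Sc_nice {K : Type} [Field K] [NumberField K] {A B : 𝓞 K} {v : HeightOneSpectrum (𝓞 K)}
    (h : dsc A B ∉ v.asIdeal ^ 2) {D : K} (hDne : D ≠ 0) (he : Even (ord (v.valuation K) D)) :
    H73P2.NiceAt v (D ^ 2 * A) (D ^ 3 * B) := by
  obtain ⟨j, hj⟩ := he
  have hvD : v.valuation K D = exp (-(j + j)) := by
    rw [Ta_V_eq (V := v.valuation K) hDne, hj]
  have hπ := H38T1.unif_spec (K := K) v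
  have hπ0 : H38T1.unif (K := K) v ≠ 0 := by
    intro h
    rw [h, map_zero] at hπ
    exact exp_ne_zero hπ.symm
  have hc0 : (H38T1.unif (K := K) v) ^ j ≠ 0 := zpow_ne_zero _ hπ0
  have hvc : v.valuation K ((H38T1.unif (K := K) v) ^ j) = exp (-j) := by
    rw [map_zpow₀, hπ, ← exp_zsmul]
    congr 1
    simp
  obtain ⟨c, hc⟩ : ∃ c : K, c = (H38T1.unif (K := K) v) ^ j := ⟨_, rfl⟩
  rw [← hc] at hc0 hvc
  obtain ⟨u, hu⟩ : ∃ u : K, u = D / c ^ 2 := ⟨_, rfl⟩
  have hDu : D = c ^ 2 * u := by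
    rw [hu]
    field_simp
  have hvu : v.valuation K u = 1 := by
    rw [hu, map_div₀, map_pow, hvD, hvc, ← exp_nsmul, ← exp_sub, ← exp_zero]
    congr 1
    simp
    ring
  have hA : v.valuation K (A : K) ≤ 1 := v.valuation_le_one A
  have hB : v.valuation K (B : K) ≤ 1 := v.valuation_le_one B
  refine ⟨c, u ^ 2 * A, u ^ 3 * B, hc0, ?_, ?_, ?_, ?_, ?_⟩
  · rw [hDu]; ring
  · rw [hDu]; ring
  · rw [map_mul, map_pow, hvu, one_pow, one_mul]; exact hA
  · rw [map_mul, map_pow, hvu, one_pow, one_mul]; exact hB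
  · have h1 : 4 * (u ^ 2 * (A : K)) ^ 3 + 27 * (u ^ 3 * (B : K)) ^ 2 =
        u ^ 6 * ((dsc A B : 𝓞 K) : K) := by
      unfold dsc
      simp only [map_add, map_mul, map_pow, map_ofNat]
      ring
    rw [h1, map_mul, map_pow, hvu, one_pow, one_mul]
    exact H36MT.Ni_dsc_le h

theorem Sc_even {K : Type} [Field K] [NumberField K] {v : HeightOneSpectrum (𝓞 K)} {x : K}
    (hx : x ≠ 0) (h : eo v (sc x) = 0) : Even (ord (v.valuation K) x) := by
  rw [H38T1.eo_sc hx, ZMod.intCast_zmod_eq_zero_iff_dvd] at h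
  exact even_iff_two_dvd.2 (by exact_mod_cast h)

theorem main_local {K : Type} [Field K] [NumberField K] {C : Cfg K} (hC : C.Ok)
    {q₀ : HeightOneSpectrum (𝓞 K)} (hq : q₀ ∉ C.S) {k : ℕ} (hk0 : 0 < k)
    (T : ℕ → Finset (HeightOneSpectrum (𝓞 K))) (b : ℕ → ℕ)
    (hdis : ∀ i < k, ∀ j < k, i ≠ j → Disjoint (T i) (T j))
    (hT : ∀ v ∈ (Finset.range k).biUnion T, v ∉ C.S ∧ v ≠ q₀) {A B : 𝓞 K}
    (hF : FamQ C q₀ ((Finset.range k).biUnion T) A B)
    (hG : ∀ l < k, GoodSt (C.S ∪ (Finset.range l).biUnion T) (T l) (b l) A B)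
    (hk : b 0 * 2 ^ (2 * C.P.card) ≤ 2 ^ k) :
    ∃ J ⊆ (Finset.range k).biUnion T, ∀ D : 𝓞 K, H36MT.TwS C.S q₀ J (D : K) →
      ∀ d : 𝓞 K, TwOk C d → ∀ Sg : Finset (HeightOneSpectrum (𝓞 K)),
      C.S ⊆ Sg → (Finset.range k).biUnion T ⊆ Sg → q₀ ∈ Sg →
      H36MT.RelG K Sg ((D * d) ^ 2 * A) ((D * d) ^ 3 * B) := by
  have hF0 : H36MT.FamS C.S 10 q₀ ((Finset.range k).biUnion T) A B :=
    fam_S hC hT hF (Finset.Subset.refl _) Finset.subset_union_left (Finset.Subset.refl _)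
  obtain ⟨L, _, _, _, θ, hL⟩ := H24PD.exists_cub (fun t => hF0.no_root t)
  have hR : HR2 K L A B θ := hr2 hL hF0.dsc_ne
  obtain ⟨Dt⟩ := exists_LData hC hT hF hL
  obtain ⟨J, hJ, hw⟩ := walk_app hC hk0 T b hdis hT hF hG hk hL hR Dt
  refine ⟨J, hJ, fun D hD d hd Sg hCS hTS hqS => ?_⟩
  have hD0 : (D : K) ≠ 0 := hD.ne
  have hd0 : (d : K) ≠ 0 := by
    intro h0
    apply hd.ne
    apply RingOfIntegers.coe_injective
    rw [map_zero]
    exact h0
  obtain ⟨E, hE⟩ : ∃ E : 𝓞 K, E = D * d := ⟨_, rfl⟩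
  have hEK : (E : K) = (D : K) * (d : K) := by rw [hE]; push_cast; rfl
  have hE0 : (E : K) ≠ 0 := by rw [hEK]; exact mul_ne_zero hD0 hd0
  rw [← hE]
  have hrel := rel_local hC hq hT hF hL hR Dt hJ hw hD hd hCS (hJ.trans hTS)
  rw [← hE] at hrel
  have e1 : ((E ^ 2 * A : 𝓞 K) : K) = (E : K) ^ 2 * (A : K) := by push_cast; rfl
  have e2 : ((E ^ 3 * B : 𝓞 K) : K) = (E : K) ^ 3 * (B : K) := by push_cast; rfl
  refine ⟨?_, ?_, ?_, ?_, ?_⟩
  · intro v hv
    apply hCS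
    have h3 : (2 : 𝓞 K) ∈ v.asIdeal := by
      by_contra h
      have h4 := (v.valuation_eq_one_iff_notMem (K := K) (r := (2 : 𝓞 K))).2 h
      have h5 : v.valuation K (2 : K) = 1 := by
        rw [← h4]
        congr 1
      exact absurd h5 hv.ne
    exact Finset.mem_union_left _ ((hC.mem2 v).2 h3)
  · intro h4
    have h5 : (4 * ((E : K) ^ 2 * (A : K)) ^ 3 + 27 * ((E : K) ^ 3 * (B : K)) ^ 2) = 0 := by
      rw [← e1, ← e2, ← H36MT.dsc_coe, h4, map_zero]
    have h6 : (E : K) ^ 6 * (4 * (A : K) ^ 3 + 27 * (B : K) ^ 2) = 0 := by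
      linear_combination h5
    exact (mul_ne_zero (pow_ne_zero 6 hE0) hF0.dsc_ne) h6
  · rw [e1, e2]
    intro t ht
    apply hF0.no_root (t / (E : K))
    have h7 : (E : K) ^ 3 * ((t / (E : K)) ^ 3 + (A : K) * (t / (E : K)) + (B : K)) = 0 := by
      field_simp
      linear_combination ht
    exact (mul_eq_zero.1 h7).resolve_left (pow_ne_zero 3 hE0)
  · rw [e1, e2]
    intro v hv
    have hvS : v ∉ C.S := fun h => hv (hCS h)
    have hvJ : v ∉ J := fun h => hv (hTS (hJ h))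
    have hvq : v ≠ q₀ := fun h => hv (h ▸ hqS)
    apply Sc_nice (hF0.sqf v hvS) hE0
    rw [hEK, H38RT.ord_mul hD0 hd0]
    apply Even.add (hD.even v hvS hvJ hvq)
    apply Sc_even hd0
    apply hd.out v
    · intro h
      exact hvS (Finset.mem_union_left _ h)
    · intro h
      exact hvS (Finset.mem_union_right _ (Finset.mem_union_right _ h))
  · rw [e1, e2]
    intro L' _ _ _ θ' hL'
    exact (H36MT.RelTriv.equiv (Tg_twist hL hE0) hL' hrel).toRelT

end H76MQ
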