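import Mathlib

/-!
ROW Wk (project MP_78d38b_MQT, about 350 lines, pure linear algebra over `ZMod 2`).

Notation: `Tall = (range k).biUnion T`, for `S ⊆ Tall`: `X S = {c | n v c = 0 for v ∈ Tall \ S, u v c = ν v * n v c for v ∈ S}`
(a subspace), `loc c = (I p c, J p c, ia p c, ja p c)_p`, `q = ∑ I J + ia ja`, polar form
`B(x, y) = ∑ (I x J y + I y J x + ia x ja y + ia y ja x)` (nondegenerate on the space `V` of dimension `4 |P|`), `m = |P|`.

(1) For `c ∈ X S`: each term `n v c * (u v c + ν v)` vanishes (for `v ∉ S` as `n v c = 0`; for `v ∈ S` it is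
`n (ν n + ν) = ν n (n + 1) = 0`), so `q (loc c) = 0`; hence `B (loc c, loc c') = 0` for `c, c' ∈ X S`.
(2) Let `S ⊆ Tall`, `v ∈ Tall \ S`, `S' = S ∪ {v}`, `c ∈ X S'`, `y ∈ X S`. Apply `hq` to `c + y`, `c`, `y`. At `v' ∈ S`: `c, y` and
`c + y` satisfy `u = ν n`, terms zero. At `v' ∉ S'`: zero. At `v`: `n v (c + y) = n v c`, `u v (c + y) = ν v n v c + u v y`, so the term is
`n v c * (ν v n v c + u v y + ν v) = n v c * u v y`. Hence `B (loc c, loc y) = n v c * u v y`.
(3) `κ S = {c ∈ X S | loc c = 0}`. If `S ⊆ (range l).biUnion T` and `κ S ≠ 0`, `l < k`: take a functional `φ` on `H` with `φ ≠ 0` on `κ S`,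
`v ∈ T l` with `u v = φ` on `{n v' = 0 for v' ∈ Tall \ (range l).biUnion T} ⊇ X S`. By (2) for `c ∈ κ (S ∪ {v})`, `y ∈ κ S` with `u v y = 1`:
`0 = n v c`, so `u v c = 0` and `c ∈ X S`, `c ∈ κ S` with `u v c = 0`: `κ (S ∪ {v}) ⊆ κ S ∩ ker u v`, so `|κ (S ∪ {v})| ≤ |κ S| / 2`.
(4) If `κ S = 0`: `loc` is injective on `X S`, `W = loc (X S)` is totally isotropic for `B`, hence `|W| ≤ 2 ^ (2m)` (`V` has `2 ^ (4m)` elements;
for instance `|W| |W^⊥| = |V|`), and `|W| ≥ 2 ^ (2m)` by `hd`; so `|W| = 2 ^ (2m)` and `W^⊥ = W`.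
`W* = {ia = J, ja = I}`: `q = 0` on `W*`, `|W*| = 2 ^ (2m)`. If `W ≠ W*` choose `y ∈ W* \ W`. The functional `c ↦ B (y, loc c)` on `H`; `v ∈ T l` realising it on
`X S`. `S' = S ∪ {v}`. By (2) if `c ∈ κ S'` then `n v c * u v y' = 0` for all `y' ∈ X S`; as `y ∉ W = W^⊥` some `y' ∈ X S` has `B (y, loc y') = 1`, so `n v c = 0`,
`u v c = 0`, `c ∈ κ S = 0`. So `κ S' = 0`, `|X S'| = 2 ^ (2m)` too. `X S ∩ X S' = {c ∈ X S | u v c = 0}` has index two in `X S`, so there is `c₀ ∈ X S' \ X S`, and `n v c₀ = 1`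
(otherwise `u v c₀ = 0` and `c₀ ∈ X S`). By (2) `B (loc c₀, loc y') = u v y' = B (y, loc y')` for `y' ∈ X S`, so `loc c₀ - y ∈ W^⊥ = W`, `loc c₀ = y + w`, and
`0 = q (loc c₀) = q y + q w + B (y, w) = B (y, w)`; so `w = loc y'` with `u v y' = 0`, `y' ∈ X S ∩ X S'`, `y = loc (c₀ - y') ∈ loc (X S')`. For `z ∈ W ∩ W*`, `z = loc c`, `c ∈ X S`:
`B (y, z) = 0` (both in `W*`, `q = 0` on `W*`), so `u v c = 0`, `c ∈ X S'`. Hence `loc (X S') ∩ W* ⊇ (W ∩ W*) + <y>` has at least twice as many elements.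
(5) Count: potential: while `κ ≠ 0` step (3) (at most `log2 |κ ∅|` times, `κ ∅ ⊆ {c | n v c = 0 for v ∈ Tall}`), then step (4) (at most `2m` times); steps `l = 0, 1, .., k - 1`;
at the end `κ S = 0` and `W = W*`, which is the claim. (Formulate: for `l ≤ k` there is `S ⊆ (range l).biUnion T` with either
`|κ S| * 2 ^ l ≤ |κ ∅|` or `κ S = 0 ∧ (W = W* or 2 ^ l ≤ |κ ∅| * |W ∩ W*|)`, or any similar potential, e.g. the integer
`|κ S| * 2 ^ (2m)` if `κ S ≠ 0`, `2 ^ (2m) / |W ∩ W*|` if `κ S = 0`.)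
-/

set_option autoImplicit false
set_option linter.unusedSectionVars false
open scoped Classical

namespace H76MQ

section aux

variable {P : Type} [Fintype P]

/-- the quadratic form `x0 x1 + x2 x3` summed over the places -/
noncomputable def Wk_q (x : P × Fin 4 → ZMod 2) : ZMod 2 :=
  ∑ p, (x (p, 0) * x (p, 1) + x (p, 2) * x (p, 3))

/-- its polar form -/
noncomputable def Wk_B : LinearMap.BilinForm (ZMod 2) (P × Fin 4 → ZMod 2) :=
  LinearMap.mk₂ (ZMod 2) (fun x y => ∑ p, (x (p, 0) * y (p, 1) + x (p, 1) * y (p, 0) +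
      (x (p, 2) * y (p, 3) + x (p, 3) * y (p, 2))))
    (by
      intro a b c
      rw [← Finset.sum_add_distrib]
      refine Finset.sum_congr rfl fun p _ => ?_
      simp only [Pi.add_apply]; ring)
    (by
      intro r a b
      rw [smul_eq_mul, Finset.mul_sum]
      refine Finset.sum_congr rfl fun p _ => ?_
      simp only [Pi.smul_apply, smul_eq_mul]; ring)
    (by
      intro a b c
      rw [← Finset.sum_add_distrib]
      refine Finset.sum_congr rfl fun p _ => ?_
      simp only [Pi.add_apply]; ring)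
    (by
      intro r a b
      rw [smul_eq_mul, Finset.mul_sum]
      refine Finset.sum_congr rfl fun p _ => ?_
      simp only [Pi.smul_apply, smul_eq_mul]; ring)

lemma Wk_B_apply (x y : P × Fin 4 → ZMod 2) :
    Wk_B x y = ∑ p, (x (p, 0) * y (p, 1) + x (p, 1) * y (p, 0) +
      (x (p, 2) * y (p, 3) + x (p, 3) * y (p, 2))) := rfl

lemma Wk_polar (x y : P × Fin 4 → ZMod 2) : Wk_q (x + y) = Wk_q x + Wk_q y + Wk_B x y := by
  rw [Wk_B_apply]
  unfold Wk_q
  rw [← Finset.sum_add_distrib, ← Finset.sum_add_distrib]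
  refine Finset.sum_congr rfl fun p _ => ?_
  simp only [Pi.add_apply]; ring

lemma Wk_B_symm (x y : P × Fin 4 → ZMod 2) : Wk_B x y = Wk_B y x := by
  rw [Wk_B_apply, Wk_B_apply]
  refine Finset.sum_congr rfl fun p _ => ?_
  ring

lemma Wk_B_refl : (Wk_B (P := P)).IsRefl := by
  intro x y h
  rw [Wk_B_symm]; exact h

lemma Wk_sep (x : P × Fin 4 → ZMod 2) (h : ∀ y, Wk_B x y = 0) : x = 0 := by
  funext a
  obtain ⟨p, i⟩ := a
  have key : ∀ j : Fin 4, Wk_B x (Pi.single (p, j) 1) =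
      x (p, 0) * (if j = 1 then 1 else 0) + x (p, 1) * (if j = 0 then 1 else 0) +
      (x (p, 2) * (if j = 3 then 1 else 0) + x (p, 3) * (if j = 2 then 1 else 0)) := by
    intro j
    rw [Wk_B_apply]
    rw [Finset.sum_eq_single p]
    · simp only [Pi.single_apply, Prod.mk.injEq, true_and]
      simp only [eq_comm (a := j)]
    · intro b _ hb
      simp only [Pi.single_apply, Prod.mk.injEq, hb, false_and, if_false, mul_zero, add_zero]
    · intro hp; exact absurd (Finset.mem_univ _) hp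
  have h0 := key 0; have h1 := key 1; have h2 := key 2; have h3 := key 3
  rw [h] at h0 h1 h2 h3
  fin_cases i
  · simpa using h1.symm
  · simpa using h0.symm
  · simpa using h3.symm
  · simpa using h2.symm

lemma Wk_nondeg : (Wk_B (P := P)).Nondegenerate := by
  constructor
  · intro x h; exact Wk_sep x h
  · intro x h
    refine Wk_sep x fun y => ?_
    rw [Wk_B_symm]; exact h y

/-- the target Lagrangian -/
def Wk_L : Submodule (ZMod 2) (P × Fin 4 → ZMod 2) where
  carrier := {x | ∀ p, x (p, 2) = x (p, 1) ∧ x (p, 3) = x (p, 0)}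
  add_mem' := by
    intro a b ha hb p
    simp only [Pi.add_apply, (ha p).1, (ha p).2, (hb p).1, (hb p).2, and_self]
  zero_mem' := by intro p; simp
  smul_mem' := by
    intro r a ha p
    simp only [Pi.smul_apply, (ha p).1, (ha p).2, and_self]

lemma Wk_L_mem (x : P × Fin 4 → ZMod 2) :
    x ∈ Wk_L (P := P) ↔ ∀ p, x (p, 2) = x (p, 1) ∧ x (p, 3) = x (p, 0) := Iff.rfl

lemma Wk_two (a : ZMod 2) : a + a = 0 := by revert a; decide

lemma Wk_L_q (x : P × Fin 4 → ZMod 2) (hx : x ∈ Wk_L (P := P)) : Wk_q x = 0 := by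
  unfold Wk_q
  refine Finset.sum_eq_zero fun p _ => ?_
  rw [(hx p).1, (hx p).2, mul_comm (x (p, 1))]
  exact Wk_two _

lemma Wk_L_B (x y : P × Fin 4 → ZMod 2) (hx : x ∈ Wk_L (P := P)) (hy : y ∈ Wk_L (P := P)) :
    Wk_B x y = 0 := by
  rw [Wk_B_apply]
  refine Finset.sum_eq_zero fun p _ => ?_
  rw [(hx p).1, (hx p).2, (hy p).1, (hy p).2]
  rw [add_comm (x (p, 1) * y (p, 0)) (x (p, 0) * y (p, 1)) |>.symm]
  rw [add_comm (x (p, 1) * y (p, 0))]
  exact Wk_two _

lemma Wk_L_finrank : 2 * Fintype.card P ≤ Module.finrank (ZMod 2) (Wk_L (P := P)) := by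
  let g : (P × Fin 2 → ZMod 2) →ₗ[ZMod 2] (Wk_L (P := P)) :=
    { toFun := fun z => ⟨fun a => z (a.1, (![0, 1, 1, 0] : Fin 4 → Fin 2) a.2), by
        intro p; simp⟩
      map_add' := by intro a b; rfl
      map_smul' := by intro r a; rfl }
  have hg : Function.Injective g := by
    intro a b hab
    have h : ∀ c : P × Fin 4, a (c.1, (![0, 1, 1, 0] : Fin 4 → Fin 2) c.2) =
        b (c.1, (![0, 1, 1, 0] : Fin 4 → Fin 2) c.2) := by
      intro c
      have := congrArg Subtype.val hab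
      exact congrFun this c
    funext c
    obtain ⟨p, i⟩ := c
    fin_cases i
    · simpa using h (p, 0)
    · simpa using h (p, 1)
  have := LinearMap.finrank_le_finrank_of_injective hg
  rw [Module.finrank_fintype_fun_eq_card, Fintype.card_prod, Fintype.card_fin] at this
  omega

lemma Wk_V_finrank : Module.finrank (ZMod 2) (P × Fin 4 → ZMod 2) = 4 * Fintype.card P := by
  rw [Module.finrank_fintype_fun_eq_card, Fintype.card_prod, Fintype.card_fin]
  ring

/-- isotropic subspaces of large dimension are Lagrangian -/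
lemma Wk_lag (W : Submodule (ZMod 2) (P × Fin 4 → ZMod 2))
    (hW : ∀ x ∈ W, ∀ y ∈ W, Wk_B x y = 0) (hd : 2 * Fintype.card P ≤ Module.finrank (ZMod 2) W) :
    Module.finrank (ZMod 2) W = 2 * Fintype.card P ∧
      ∀ y, (∀ x ∈ W, Wk_B x y = 0) → y ∈ W := by
  have hle : W ≤ (Wk_B (P := P)).orthogonal W := by
    intro y hy
    rw [LinearMap.BilinForm.mem_orthogonal_iff]
    intro x hx
    exact hW x hx y hy
  have h1 := LinearMap.BilinForm.finrank_orthogonal (Wk_nondeg (P := P)) W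
  have h2 := Submodule.finrank_mono hle
  have h3 := Submodule.finrank_le W
  rw [Wk_V_finrank] at h1 h3
  have h4 : Module.finrank (ZMod 2) W = 2 * Fintype.card P := by omega
  refine ⟨h4, ?_⟩
  have h5 : W = (Wk_B (P := P)).orthogonal W := by
    refine Submodule.eq_of_le_of_finrank_le hle ?_
    omega
  intro y hy
  rw [h5, LinearMap.BilinForm.mem_orthogonal_iff]
  intro x hx
  exact hy x hx

end aux

section main

variable {H : Type} [AddCommGroup H] [Module (ZMod 2) H] {P ι : Type} [Fintype P]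

/-- the space `X S` -/
def Wk_X (u n : ι → H →ₗ[ZMod 2] ZMod 2) (ν : ι → ZMod 2) (Tall S : Finset ι) :
    Submodule (ZMod 2) H where
  carrier := {c | (∀ v ∈ Tall, v ∉ S → n v c = 0) ∧ ∀ v ∈ S, u v c = ν v * n v c}
  add_mem' := by
    intro a b ha hb
    refine ⟨fun v hv hS => ?_, fun v hv => ?_⟩
    · rw [map_add, ha.1 v hv hS, hb.1 v hv hS, add_zero]
    · rw [map_add, map_add, ha.2 v hv, hb.2 v hv, mul_add]
  zero_mem' := by
    refine ⟨fun v hv hS => ?_, fun v hv => ?_⟩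
    · rw [map_zero]
    · rw [map_zero, map_zero, mul_zero]
  smul_mem' := by
    intro r a ha
    refine ⟨fun v hv hS => ?_, fun v hv => ?_⟩
    · rw [map_smul, ha.1 v hv hS, smul_zero]
    · rw [map_smul, map_smul, ha.2 v hv, smul_eq_mul, smul_eq_mul]; ring

lemma Wk_X_mem (u n : ι → H →ₗ[ZMod 2] ZMod 2) (ν : ι → ZMod 2) (Tall S : Finset ι) (c : H) :
    c ∈ Wk_X u n ν Tall S ↔
      (∀ v ∈ Tall, v ∉ S → n v c = 0) ∧ ∀ v ∈ S, u v c = ν v * n v c := Iff.rfl

/-- the localisation map -/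
def Wk_loc (I J ia ja : P → H →ₗ[ZMod 2] ZMod 2) : H →ₗ[ZMod 2] (P × Fin 4 → ZMod 2) where
  toFun := fun c a => (![I a.1 c, J a.1 c, ia a.1 c, ja a.1 c] : Fin 4 → ZMod 2) a.2
  map_add' := by
    intro x y
    funext a
    obtain ⟨p, i⟩ := a
    fin_cases i <;> simp
  map_smul' := by
    intro r x
    funext a
    obtain ⟨p, i⟩ := a
    fin_cases i <;> simp

variable (I J ia ja : P → H →ₗ[ZMod 2] ZMod 2) (u n : ι → H →ₗ[ZMod 2] ZMod 2) (ν : ι → ZMod 2)

lemma Wk_loc0 (c : H) (p : P) : Wk_loc I J ia ja c (p, 0) = I p c := rfl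
lemma Wk_loc1 (c : H) (p : P) : Wk_loc I J ia ja c (p, 1) = J p c := rfl
lemma Wk_loc2 (c : H) (p : P) : Wk_loc I J ia ja c (p, 2) = ia p c := rfl
lemma Wk_loc3 (c : H) (p : P) : Wk_loc I J ia ja c (p, 3) = ja p c := rfl

lemma Wk_add_eq {a b : ZMod 2} (h : a + b = 0) : a = b := by
  revert a b; decide

lemma Wk_term (a b : ZMod 2) : a * (b * a + b) = 0 := by
  revert a b; decide

lemma Wk_one {a : ZMod 2} (h : a ≠ 0) : a = 1 := by
  revert a; decide

variable (Tall : Finset ι)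
  (hq : ∀ c : H, ∑ p, (I p c * J p c + ia p c * ja p c) + ∑ v ∈ Tall, n v c * (u v c + ν v) = 0)

include hq in
lemma Wk_q_eq (c : H) : Wk_q (Wk_loc I J ia ja c) = ∑ v ∈ Tall, n v c * (u v c + ν v) := by
  have h := Wk_add_eq (hq c)
  rw [← h]
  unfold Wk_q
  simp only [Wk_loc0, Wk_loc1, Wk_loc2, Wk_loc3]

include hq in
lemma Wk_q_zero (S : Finset ι) (c : H) (hc : c ∈ Wk_X u n ν Tall S) :
    Wk_q (Wk_loc I J ia ja c) = 0 := by
  rw [Wk_q_eq I J ia ja u n ν Tall hq c]
  refine Finset.sum_eq_zero fun v hv => ?_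
  by_cases hvS : v ∈ S
  · rw [hc.2 v hvS]; exact Wk_term _ _
  · rw [hc.1 v hv hvS, zero_mul]

include hq in
lemma Wk_iso (S : Finset ι) (c c' : H) (hc : c ∈ Wk_X u n ν Tall S)
    (hc' : c' ∈ Wk_X u n ν Tall S) :
    Wk_B (Wk_loc I J ia ja c) (Wk_loc I J ia ja c') = 0 := by
  have h1 := Wk_q_zero I J ia ja u n ν Tall hq S _ (Submodule.add_mem _ hc hc')
  rw [map_add, Wk_polar, Wk_q_zero I J ia ja u n ν Tall hq S c hc,
    Wk_q_zero I J ia ja u n ν Tall hq S c' hc', zero_add, zero_add] at h1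
  exact h1

include hq in
lemma Wk_step (S : Finset ι) (v : ι) (hv : v ∈ Tall) (hvS : v ∉ S) (c y : H)
    (hc : c ∈ Wk_X u n ν Tall (insert v S)) (hy : y ∈ Wk_X u n ν Tall S) :
    Wk_B (Wk_loc I J ia ja c) (Wk_loc I J ia ja y) = n v c * u v y := by
  have h1 := Wk_q_eq I J ia ja u n ν Tall hq (c + y)
  rw [map_add, Wk_polar, Wk_q_zero I J ia ja u n ν Tall hq _ c hc,
    Wk_q_zero I J ia ja u n ν Tall hq _ y hy, zero_add, zero_add] at h1
  rw [h1, Finset.sum_eq_single v]
  · have e1 : n v y = 0 := hy.1 v hv hvS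
    have e2 : u v c = ν v * n v c := hc.2 v (Finset.mem_insert_self v S)
    rw [map_add, map_add, e1, e2, add_zero]
    have e3 := Wk_term (n v c) (ν v)
    calc n v c * (ν v * n v c + u v y + ν v)
        = n v c * (ν v * n v c + ν v) + n v c * u v y := by ring
      _ = n v c * u v y := by rw [e3, zero_add]
  · intro w hw hwv
    by_cases hwS : w ∈ S
    · have e1 := hc.2 w (Finset.mem_insert_of_mem hwS)
      have e2 := hy.2 w hwS
      rw [map_add, map_add, e1, e2, ← mul_add]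
      exact Wk_term _ _
    · have e1 := hc.1 w hw (by
        intro h
        rcases Finset.mem_insert.1 h with h | h
        · exact hwv h
        · exact hwS h)
      have e2 := hy.1 w hw hwS
      rw [map_add, e1, e2, add_zero, zero_mul]
  · intro h; exact absurd hv h

/-- `κ S` -/
def Wk_K (S : Finset ι) : Submodule (ZMod 2) H :=
  Wk_X u n ν Tall S ⊓ LinearMap.ker (Wk_loc I J ia ja)

/-- `W S` -/
def Wk_W (S : Finset ι) : Submodule (ZMod 2) (P × Fin 4 → ZMod 2) :=
  (Wk_X u n ν Tall S).map (Wk_loc I J ia ja)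

lemma Wk_down (S : Finset ι) (v : ι) (hvS : v ∉ S) (c : H)
    (hc : c ∈ Wk_X u n ν Tall (insert v S)) (h0 : n v c = 0) :
    c ∈ Wk_X u n ν Tall S := by
  refine ⟨fun w hw hwS => ?_, fun w hw => hc.2 w (Finset.mem_insert_of_mem hw)⟩
  by_cases hwv : w = v
  · rw [hwv]; exact h0
  · exact hc.1 w hw (by
        intro h
        rcases Finset.mem_insert.1 h with h | h
        · exact hwv h
        · exact hwS h)

lemma Wk_up (S : Finset ι) (v : ι) (hv : v ∈ Tall) (hvS : v ∉ S) (c : H)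
    (hc : c ∈ Wk_X u n ν Tall S) (h0 : u v c = 0) :
    c ∈ Wk_X u n ν Tall (insert v S) := by
  refine ⟨fun w hw hwS => hc.1 w hw (fun h => hwS (Finset.mem_insert_of_mem h)), fun w hw => ?_⟩
  rcases Finset.mem_insert.1 hw with h | h
  · rw [h, h0, hc.1 v hv hvS, mul_zero]
  · exact hc.2 w h

variable [Finite H]

include hq in
lemma Wk_W_lag (S : Finset ι) (hd : 2 * Fintype.card P ≤ Module.finrank (ZMod 2) (Wk_X u n ν Tall S))
    (hK : Wk_K I J ia ja u n ν Tall S = ⊥) :
    Module.finrank (ZMod 2) (Wk_X u n ν Tall S) = 2 * Fintype.card P ∧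
    Module.finrank (ZMod 2) (Wk_W I J ia ja u n ν Tall S) = 2 * Fintype.card P ∧
      ∀ y, (∀ c ∈ Wk_X u n ν Tall S, Wk_B (Wk_loc I J ia ja c) y = 0) →
        y ∈ Wk_W I J ia ja u n ν Tall S := by
  have hinj : ∀ c ∈ Wk_X u n ν Tall S, Wk_loc I J ia ja c = 0 → c = 0 := by
    intro c hc h
    have : c ∈ Wk_K I J ia ja u n ν Tall S := ⟨hc, h⟩
    rw [hK] at this
    exact (Submodule.mem_bot _).1 this
  have hfr : Module.finrank (ZMod 2) (Wk_W I J ia ja u n ν Tall S) =
      Module.finrank (ZMod 2) (Wk_X u n ν Tall S) := by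
    have hi : Function.Injective ((Wk_loc I J ia ja).domRestrict (Wk_X u n ν Tall S)) := by
      rw [injective_iff_map_eq_zero]
      intro a ha
      have := hinj a.1 a.2 ha
      exact Subtype.ext this
    have h2 := LinearMap.finrank_range_of_inj hi
    rw [← h2]
    unfold Wk_W
    rw [LinearMap.range_domRestrict]
  have h3 := Wk_lag (Wk_W I J ia ja u n ν Tall S) (by
    rintro x ⟨c, hc, rfl⟩ y ⟨c', hc', rfl⟩
    exact Wk_iso I J ia ja u n ν Tall hq S c c' hc hc') (by rw [hfr]; exact hd)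
  refine ⟨by rw [← hfr]; exact h3.1, h3.1, ?_⟩
  intro y hy
  refine h3.2 y ?_
  rintro x ⟨c, hc, rfl⟩
  exact hy c hc

include hq in
/-- first kind of step: the kernel shrinks -/
lemma Wk_stepA (S : Finset ι) (v : ι) (hv : v ∈ Tall) (hvS : v ∉ S)
    (c₁ : H) (hc₁ : c₁ ∈ Wk_K I J ia ja u n ν Tall S) (hu : u v c₁ ≠ 0) :
    Module.finrank (ZMod 2) (Wk_K I J ia ja u n ν Tall (insert v S)) + 1 ≤
      Module.finrank (ZMod 2) (Wk_K I J ia ja u n ν Tall S) := by
  refine Submodule.finrank_lt_finrank_of_lt ?_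
  have key : ∀ c ∈ Wk_K I J ia ja u n ν Tall (insert v S),
      c ∈ Wk_K I J ia ja u n ν Tall S ∧ u v c = 0 := by
    intro c hc
    have h1 := Wk_step I J ia ja u n ν Tall hq S v hv hvS c c₁ hc.1 hc₁.1
    have h2 : Wk_loc I J ia ja c = 0 := hc.2
    rw [h2, map_zero, LinearMap.zero_apply, Wk_one hu, mul_one] at h1
    refine ⟨⟨Wk_down u n ν Tall S v hvS c hc.1 h1.symm, hc.2⟩, ?_⟩
    rw [hc.1.2 v (Finset.mem_insert_self v S), ← h1, mul_zero]
  refine lt_of_le_of_ne (fun c hc => (key c hc).1) ?_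
  intro h
  rw [← h] at hc₁
  exact hu (key c₁ hc₁).2

include hq in
/-- second kind of step -/
lemma Wk_stepB (S : Finset ι) (v : ι) (hv : v ∈ Tall) (hvS : v ∉ S)
    (hd : 2 * Fintype.card P ≤ Module.finrank (ZMod 2) (Wk_X u n ν Tall S))
    (hd' : 2 * Fintype.card P ≤ Module.finrank (ZMod 2) (Wk_X u n ν Tall (insert v S)))
    (hK : Wk_K I J ia ja u n ν Tall S = ⊥)
    (y : P × Fin 4 → ZMod 2) (hyL : y ∈ Wk_L (P := P)) (hyW : y ∉ Wk_W I J ia ja u n ν Tall S)
    (hu : ∀ c ∈ Wk_X u n ν Tall S, u v c = Wk_B y (Wk_loc I J ia ja c)) :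
    Wk_K I J ia ja u n ν Tall (insert v S) = ⊥ ∧
    Module.finrank (ZMod 2) ↥(Wk_W I J ia ja u n ν Tall S ⊓ Wk_L (P := P)) + 1 ≤
      Module.finrank (ZMod 2) ↥(Wk_W I J ia ja u n ν Tall (insert v S) ⊓ Wk_L (P := P)) := by
  obtain ⟨hX, -, horth⟩ := Wk_W_lag I J ia ja u n ν Tall hq S hd hK
  -- a vector with `u v y' ≠ 0`
  obtain ⟨y', hy', huy'⟩ : ∃ y' ∈ Wk_X u n ν Tall S, u v y' ≠ 0 := by
    by_contra hcon
    push Not at hcon
    refine hyW (horth y fun c hc => ?_)
    rw [Wk_B_symm, ← hu c hc]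
    exact hcon c hc
  have hK' : Wk_K I J ia ja u n ν Tall (insert v S) = ⊥ := by
    rw [eq_bot_iff]
    intro c hc
    have h1 := Wk_step I J ia ja u n ν Tall hq S v hv hvS c y' hc.1 hy'
    have h2 : Wk_loc I J ia ja c = 0 := hc.2
    rw [h2, map_zero, LinearMap.zero_apply, Wk_one huy', mul_one] at h1
    have h3 : c ∈ Wk_K I J ia ja u n ν Tall S :=
      ⟨Wk_down u n ν Tall S v hvS c hc.1 h1.symm, hc.2⟩
    rw [hK] at h3
    exact h3
  refine ⟨hK', ?_⟩
  obtain ⟨hX', -, horth'⟩ := Wk_W_lag I J ia ja u n ν Tall hq (insert v S) hd' hK'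
  obtain ⟨c₀, hc₀, hc₀n⟩ : ∃ c₀ ∈ Wk_X u n ν Tall (insert v S), c₀ ∉ Wk_X u n ν Tall S := by
    by_contra hcon
    push Not at hcon
    have heq : Wk_X u n ν Tall (insert v S) = Wk_X u n ν Tall S :=
      Submodule.eq_of_le_of_finrank_le hcon (by omega)
    have h1 : y' ∈ Wk_X u n ν Tall (insert v S) := by rw [heq]; exact hy'
    have h2 := h1.2 v (Finset.mem_insert_self v S)
    rw [hy'.1 v hv hvS, mul_zero] at h2
    exact huy' h2
  have hn0 : n v c₀ = 1 := by
    refine Wk_one fun h => hc₀n ?_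
    exact Wk_down u n ν Tall S v hvS c₀ hc₀ h
  -- `loc c₀ - y ∈ W S`
  have h1 : Wk_loc I J ia ja c₀ + y ∈ Wk_W I J ia ja u n ν Tall S := by
    refine horth _ fun c hc => ?_
    have h2 := Wk_step I J ia ja u n ν Tall hq S v hv hvS c₀ c hc₀ hc
    rw [hn0, one_mul, hu c hc] at h2
    rw [map_add, Wk_B_symm, h2, Wk_B_symm _ y]
    exact Wk_two _
  obtain ⟨w', hw', hw'e⟩ := h1
  have h2 : Wk_loc I J ia ja c₀ = y + Wk_loc I J ia ja w' := by
    rw [hw'e, add_comm (Wk_loc I J ia ja c₀) y, ← add_assoc]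
    have : y + y = 0 := by funext a; exact Wk_two _
    rw [this, zero_add]
  have h3 : u v w' = 0 := by
    have e1 := Wk_q_zero I J ia ja u n ν Tall hq _ c₀ hc₀
    rw [h2, Wk_polar, Wk_L_q y hyL, Wk_q_zero I J ia ja u n ν Tall hq S w' hw', zero_add,
      zero_add] at e1
    rw [hu w' hw']; exact e1
  have hw'2 := Wk_up u n ν Tall S v hv hvS w' hw' h3
  have hyW' : y ∈ Wk_W I J ia ja u n ν Tall (insert v S) := by
    refine ⟨c₀ + w', Submodule.add_mem _ hc₀ hw'2, ?_⟩
    rw [map_add, h2, add_assoc]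
    have : Wk_loc I J ia ja w' + Wk_loc I J ia ja w' = 0 := by funext a; exact Wk_two _
    rw [this, add_zero]
  refine Submodule.finrank_lt_finrank_of_lt ?_
  refine lt_of_le_of_ne ?_ ?_
  · rintro z ⟨⟨c, hc, rfl⟩, hzL⟩
    refine ⟨⟨c, Wk_up u n ν Tall S v hv hvS c hc ?_, rfl⟩, hzL⟩
    rw [hu c hc]
    exact Wk_L_B y _ hyL hzL
  · intro h
    have : y ∈ Wk_W I J ia ja u n ν Tall (insert v S) ⊓ Wk_L (P := P) := ⟨hyW', hyL⟩
    rw [← h] at this
    exact hyW this.1

end main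

theorem walk {H : Type} [AddCommGroup H] [Module (ZMod 2) H] [Finite H] {P ι : Type} [Fintype P]
    (I J ia ja : P → H →ₗ[ZMod 2] ZMod 2) (u n : ι → H →ₗ[ZMod 2] ZMod 2) (ν : ι → ZMod 2) (k : ℕ)
    (T : ℕ → Finset ι) (hT : ∀ i < k, ∀ j < k, i ≠ j → Disjoint (T i) (T j))
    (hq : ∀ c : H, ∑ p, (I p c * J p c + ia p c * ja p c) +
      ∑ v ∈ (Finset.range k).biUnion T, n v c * (u v c + ν v) = 0)
    (hd : ∀ S ⊆ (Finset.range k).biUnion T, 2 ^ (2 * Fintype.card P) ≤
      Nat.card {c : H // (∀ v ∈ (Finset.range k).biUnion T, v ∉ S → n v c = 0) ∧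
        ∀ v ∈ S, u v c = ν v * n v c})
    (hr : ∀ l < k, ∀ φ : H →ₗ[ZMod 2] ZMod 2, ∃ v ∈ T l, ∀ c : H,
      (∀ v' ∈ (Finset.range k).biUnion T, v' ∉ (Finset.range l).biUnion T → n v' c = 0) →
      u v c = φ c)
    (hk : Nat.card {c : H // ∀ v ∈ (Finset.range k).biUnion T, n v c = 0} *
      2 ^ (2 * Fintype.card P) ≤ 2 ^ k) :
    ∃ S ⊆ (Finset.range k).biUnion T, ∀ c : H,
      (∀ v ∈ (Finset.range k).biUnion T, v ∉ S → n v c = 0) →
      (∀ v ∈ S, u v c = ν v * n v c) →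
      (∀ p, ia p c = J p c ∧ ja p c = I p c) ∧ ((∀ p, I p c = 0 ∧ J p c = 0) → c = 0) := by
  have hfin : ∀ S : Submodule (ZMod 2) H, Nat.card S = 2 ^ Module.finrank (ZMod 2) S := by
    intro S
    rw [Module.natCard_eq_pow_finrank (K := ZMod 2), Nat.card_zmod]
  have hd' : ∀ S ⊆ (Finset.range k).biUnion T, 2 * Fintype.card P ≤
      Module.finrank (ZMod 2) (Wk_X u n ν ((Finset.range k).biUnion T) S) := by
    intro S hS
    have h1 := hd S hS
    have h2 := hfin (Wk_X u n ν ((Finset.range k).biUnion T) S)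
    have h3 : Nat.card (Wk_X u n ν ((Finset.range k).biUnion T) S) =
      Nat.card {c : H // (∀ v ∈ (Finset.range k).biUnion T, v ∉ S → n v c = 0) ∧
        ∀ v ∈ S, u v c = ν v * n v c} := rfl
    rw [← h3, h2] at h1
    exact (Nat.pow_le_pow_iff_right (by norm_num)).1 h1
  have hk' : Module.finrank (ZMod 2) (Wk_K I J ia ja u n ν ((Finset.range k).biUnion T) ∅) +
      2 * Fintype.card P ≤ k := by
    have h1 : Nat.card (Wk_X u n ν ((Finset.range k).biUnion T) ∅) =
        Nat.card {c : H // ∀ v ∈ (Finset.range k).biUnion T, n v c = 0} := by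
      refine Nat.card_congr (Equiv.subtypeEquivRight fun c => ?_)
      rw [Wk_X_mem]
      simp
    rw [← h1, hfin, ← pow_add] at hk
    have h2 := (Nat.pow_le_pow_iff_right (by norm_num)).1 hk
    have h3 : Module.finrank (ZMod 2) (Wk_K I J ia ja u n ν ((Finset.range k).biUnion T) ∅) ≤
        Module.finrank (ZMod 2) (Wk_X u n ν ((Finset.range k).biUnion T) ∅) :=
      Submodule.finrank_mono inf_le_left
    omega
  -- the induction
  have main : ∀ l ≤ k, ∃ S ⊆ (Finset.range l).biUnion T,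
      (l + Module.finrank (ZMod 2) (Wk_K I J ia ja u n ν ((Finset.range k).biUnion T) S) ≤
        Module.finrank (ZMod 2) (Wk_K I J ia ja u n ν ((Finset.range k).biUnion T) ∅) ∧
        Wk_K I J ia ja u n ν ((Finset.range k).biUnion T) S ≠ ⊥) ∨
      (Wk_K I J ia ja u n ν ((Finset.range k).biUnion T) S = ⊥ ∧
        (Wk_W I J ia ja u n ν ((Finset.range k).biUnion T) S ≤ Wk_L (P := P) ∨
        l ≤ Module.finrank (ZMod 2) (Wk_K I J ia ja u n ν ((Finset.range k).biUnion T) ∅) +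
          Module.finrank (ZMod 2)
            ↥(Wk_W I J ia ja u n ν ((Finset.range k).biUnion T) S ⊓ Wk_L (P := P)))) := by
    intro l
    induction l with
    | zero =>
      intro _
      refine ⟨∅, Finset.empty_subset _, ?_⟩
      by_cases h : Wk_K I J ia ja u n ν ((Finset.range k).biUnion T) ∅ = ⊥
      · right; exact ⟨h, Or.inr (Nat.zero_le _)⟩
      · left; exact ⟨by omega, h⟩
    | succ l ih =>
      intro hl
      have hlk : l < k := hl
      obtain ⟨S, hS, hS2⟩ := ih (by omega)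
      have hsub : (Finset.range l).biUnion T ⊆ (Finset.range k).biUnion T :=
        Finset.biUnion_subset_biUnion_of_subset_left _ (Finset.range_subset_range.2 (by omega))
      have hsub' : (Finset.range l).biUnion T ⊆ (Finset.range (l + 1)).biUnion T :=
        Finset.biUnion_subset_biUnion_of_subset_left _ (Finset.range_subset_range.2 (by omega))
      have hTl : ∀ v ∈ T l, v ∈ (Finset.range k).biUnion T := fun v hv =>
        Finset.mem_biUnion.2 ⟨l, Finset.mem_range.2 hlk, hv⟩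
      have hTl' : ∀ v ∈ T l, v ∉ S := by
        intro v hv hvS
        obtain ⟨i, hi, hvi⟩ := Finset.mem_biUnion.1 (hS hvS)
        have hi' := Finset.mem_range.1 hi
        exact (Finset.disjoint_left.1 (hT i (by omega) l hlk (by omega))) hvi hv
      have hins : ∀ v ∈ T l, insert v S ⊆ (Finset.range (l + 1)).biUnion T := by
        intro v hv w hw
        rcases Finset.mem_insert.1 hw with h | h
        · rw [h]; exact Finset.mem_biUnion.2 ⟨l, Finset.mem_range.2 (by omega), hv⟩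
        · exact hsub' (hS h)
      have hins' : ∀ v ∈ T l, insert v S ⊆ (Finset.range k).biUnion T := by
        intro v hv w hw
        rcases Finset.mem_insert.1 hw with h | h
        · rw [h]; exact hTl v hv
        · exact hsub (hS h)
      have hXn : ∀ c ∈ Wk_X u n ν ((Finset.range k).biUnion T) S,
          ∀ v' ∈ (Finset.range k).biUnion T, v' ∉ (Finset.range l).biUnion T → n v' c = 0 := by
        intro c hc v' hv' hv'2
        exact hc.1 v' hv' (fun h => hv'2 (hS h))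
      rcases hS2 with ⟨h1, h2⟩ | ⟨h1, h2⟩
      · obtain ⟨c₁, hc₁, hc₁0⟩ := (Submodule.ne_bot_iff _).1 h2
        obtain ⟨φ, hφ⟩ : ∃ φ : H →ₗ[ZMod 2] ZMod 2, φ c₁ ≠ 0 := by
          by_contra hcon
          push Not at hcon
          exact hc₁0 ((Module.forall_dual_apply_eq_zero_iff (ZMod 2) c₁).1 hcon)
        obtain ⟨v, hv, hvφ⟩ := hr l hlk φ
        refine ⟨insert v S, hins v hv, ?_⟩
        have hstep := Wk_stepA I J ia ja u n ν _ hq S v (hTl v hv) (hTl' v hv) c₁ hc₁ (by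
          rw [hvφ c₁ (hXn c₁ hc₁.1)]; exact hφ)
        by_cases h3 : Wk_K I J ia ja u n ν ((Finset.range k).biUnion T) (insert v S) = ⊥
        · right
          refine ⟨h3, Or.inr ?_⟩
          omega
        · left
          exact ⟨by omega, h3⟩
      · rcases Classical.em (Wk_W I J ia ja u n ν ((Finset.range k).biUnion T) S ≤ Wk_L (P := P))
          with hW | hW
        · exact ⟨S, hS.trans hsub', Or.inr ⟨h1, Or.inl hW⟩⟩
        · have h2' : l ≤ Module.finrank (ZMod 2)
              (Wk_K I J ia ja u n ν ((Finset.range k).biUnion T) ∅) +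
            Module.finrank (ZMod 2)
              ↥(Wk_W I J ia ja u n ν ((Finset.range k).biUnion T) S ⊓ Wk_L (P := P)) := by
            rcases h2 with h | h
            · exact absurd h hW
            · exact h
          have hdS := hd' S (hS.trans hsub)
          obtain ⟨y, hyL, hyW⟩ : ∃ y ∈ Wk_L (P := P),
              y ∉ Wk_W I J ia ja u n ν ((Finset.range k).biUnion T) S := by
            by_contra hcon
            push Not at hcon
            refine hW (le_of_eq (Submodule.eq_of_le_of_finrank_le hcon ?_).symm)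
            rw [(Wk_W_lag I J ia ja u n ν _ hq S hdS h1).2.1]
            exact Wk_L_finrank
          obtain ⟨v, hv, hvφ⟩ := hr l hlk ((Wk_B y).comp (Wk_loc I J ia ja))
          have hstep := Wk_stepB I J ia ja u n ν _ hq S v (hTl v hv) (hTl' v hv) hdS
            (hd' _ (hins' v hv)) h1 y hyL hyW (by
              intro c hc
              rw [hvφ c (hXn c hc)]; rfl)
          exact ⟨insert v S, hins v hv, Or.inr ⟨hstep.1, Or.inr (by omega)⟩⟩
  obtain ⟨S, hS, hS2⟩ := main k le_rfl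
  have hfinal : Wk_K I J ia ja u n ν ((Finset.range k).biUnion T) S = ⊥ ∧
      Wk_W I J ia ja u n ν ((Finset.range k).biUnion T) S ≤ Wk_L (P := P) := by
    rcases hS2 with ⟨h1, h2⟩ | ⟨h1, h2⟩
    · exfalso
      have h3 : Module.finrank (ZMod 2)
          (Wk_K I J ia ja u n ν ((Finset.range k).biUnion T) S) ≠ 0 := by
        intro h
        exact h2 (Submodule.finrank_eq_zero.1 h)
      omega
    · refine ⟨h1, ?_⟩
      rcases h2 with h2 | h2
      · exact h2
      · have h3 := (Wk_W_lag I J ia ja u n ν _ hq S (hd' S hS) h1).2.1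
        have h4 : Wk_W I J ia ja u n ν ((Finset.range k).biUnion T) S ⊓ Wk_L (P := P) =
            Wk_W I J ia ja u n ν ((Finset.range k).biUnion T) S :=
          Submodule.eq_of_le_of_finrank_le inf_le_left (by omega)
        exact inf_eq_left.1 h4
  refine ⟨S, hS, fun c hc1 hc2 => ?_⟩
  have hcX : c ∈ Wk_X u n ν ((Finset.range k).biUnion T) S := ⟨hc1, hc2⟩
  have hcL : Wk_loc I J ia ja c ∈ Wk_L (P := P) := hfinal.2 ⟨c, hcX, rfl⟩
  refine ⟨fun p => ?_, fun h => ?_⟩
  · have := hcL p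
    rw [Wk_loc0, Wk_loc1, Wk_loc2, Wk_loc3] at this
    exact this
  · have h0 : Wk_loc I J ia ja c = 0 := by
      funext a
      obtain ⟨p, i⟩ := a
      have h3 := hcL p
      rw [Wk_loc0, Wk_loc1, Wk_loc2, Wk_loc3, (h p).1, (h p).2] at h3
      fin_cases i
      · exact (h p).1
      · exact (h p).2
      · exact h3.1
      · exact h3.2
    have h1 : c ∈ Wk_K I J ia ja u n ν ((Finset.range k).biUnion T) S := ⟨hcX, h0⟩
    rw [hfinal.1] at h1
    exact (Submodule.mem_bot _).1 h1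

end H76MQ
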